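import Pool.Agent.Helper533.StarBox.Scale

open MeasureTheory Metric Set Filter
open scoped Topology

namespace Pool.Agent.Helper533.StarBox

/-- half-open rectangles -/
def RC (x0 x1 y0 y1 : ℝ) : Set ℂ := {w | w.re ∈ Ioc x0 x1 ∧ w.im ∈ Ioc y0 y1}

theorem RC_meas (x0 x1 y0 y1 : ℝ) : MeasurableSet (RC x0 x1 y0 y1) :=
  (Complex.measurable_re measurableSet_Ioc).inter (Complex.measurable_im measurableSet_Ioc)

theorem RC_vol {x0 x1 y0 y1 : ℝ} (hx : x0 ≤ x1) (hy : y0 ≤ y1) :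
    (volume (RC x0 x1 y0 y1)).toReal = (x1 - x0) * (y1 - y0) := by
  unfold RC
  rw [vol_rect measurableSet_Ioc measurableSet_Ioc, Real.volume_Ioc, Real.volume_Ioc, ENNReal.toReal_mul,
    ENNReal.toReal_ofReal (by linarith), ENNReal.toReal_ofReal (by linarith)]

theorem RC_bdd (x0 x1 y0 y1 : ℝ) : ∃ R : ℝ, RC x0 x1 y0 y1 ⊆ closedBall 0 R := by
  refine ⟨(|x0| + |x1|) + (|y0| + |y1|), ?_⟩
  rintro w ⟨h1, h2⟩
  rw [mem_closedBall, dist_zero_right]
  refine (Complex.norm_le_abs_re_add_abs_im w).trans ?_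
  apply add_le_add
  · rw [abs_le]
    constructor
    · have := neg_abs_le x0; have := abs_nonneg x1; linarith [h1.1]
    · have := le_abs_self x1; have := abs_nonneg x0; linarith [h1.2]
  · rw [abs_le]
    constructor
    · have := neg_abs_le y0; have := abs_nonneg y1; linarith [h2.1]
    · have := le_abs_self y1; have := abs_nonneg y0; linarith [h2.2]

theorem RC_int {f : ℂ → ℝ} (hf : Continuous f) (x0 x1 y0 y1 : ℝ) : IntegrableOn f (RC x0 x1 y0 y1) := by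
  obtain ⟨R, hR⟩ := RC_bdd x0 x1 y0 y1
  exact (hf.continuousOn.integrableOn_compact (isCompact_closedBall 0 R)).mono_set hR

theorem RC_fin (x0 x1 y0 y1 : ℝ) : volume (RC x0 x1 y0 y1) ≠ ⊤ := by
  obtain ⟨R, hR⟩ := RC_bdd x0 x1 y0 y1
  exact ((measure_mono hR).trans_lt (isCompact_closedBall 0 R).measure_lt_top).ne

theorem rc_integral {f : ℂ → ℝ} (hf : Continuous f) {x0 x1 y0 y1 : ℝ} (hx : x0 ≤ x1) (hy : y0 ≤ y1) :
    ∫ w in RC x0 x1 y0 y1, f w = ∫ y in y0..y1, ∫ x in x0..x1, f ⟨x, y⟩ := by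
  have h := Complex.volume_preserving_equiv_real_prod.symm
  have hme := Complex.measurableEquivRealProd.symm.measurableEmbedding
  have e0 : Complex.measurableEquivRealProd.symm ⁻¹' (RC x0 x1 y0 y1) = Ioc x0 x1 ×ˢ Ioc y0 y1 := by
    ext p; rfl
  have h1 := h.setIntegral_preimage_emb hme f (RC x0 x1 y0 y1)
  rw [e0] at h1
  rw [← h1]
  have hint : IntegrableOn (fun p : ℝ × ℝ => f ⟨p.1, p.2⟩) (Ioc x0 x1 ×ˢ Ioc y0 y1) (volume.prod volume) := by
    have hc : Continuous (fun p : ℝ × ℝ => f ⟨p.1, p.2⟩) := hf.comp mk_cont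
    exact (hc.continuousOn.integrableOn_compact (isCompact_Icc.prod isCompact_Icc)).mono_set
      (prod_mono Ioc_subset_Icc_self Ioc_subset_Icc_self)
  have h2 := setIntegral_prod (μ := volume) (ν := volume) (fun p : ℝ × ℝ => f ⟨p.1, p.2⟩) hint
  have h3 : ∫ p in Ioc x0 x1 ×ˢ Ioc y0 y1, f (Complex.measurableEquivRealProd.symm p) =
      ∫ x in x0..x1, ∫ y in y0..y1, f ⟨x, y⟩ := by
    rw [intervalIntegral.integral_of_le hx]
    simp_rw [intervalIntegral.integral_of_le hy]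
    exact h2
  rw [h3]
  exact swap_cont (fun p => f ⟨p.1, p.2⟩) (hf.comp mk_cont) x0 x1 y0 y1

/-- energy density -/
noncomputable def gd (u : ℂ → ℝ) (z : ℂ) : ℝ := gx u z ^ 2 + gy u z ^ 2

theorem gd_nonneg (u : ℂ → ℝ) (z : ℂ) : 0 ≤ gd u z := by unfold gd; positivity

variable {U : Set ℂ} {u : ℂ → ℝ}

theorem gd_cont (hu : TF U u) : Continuous (gd u) := (hu.gx_cont.pow 2).add (hu.gy_cont.pow 2)

theorem gd_int (hu : TF U u) : Integrable (gd u) := hu.ensq_int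

theorem gx_sub_const (hu : TF U u) (c : ℝ) (z : ℂ) : gx (fun z => u z - c) z = gx u z := by
  unfold gx; rw [fderiv_sub_const]

theorem gy_sub_const (hu : TF U u) (c : ℝ) (z : ℂ) : gy (fun z => u z - c) z = gy u z := by
  unfold gy; rw [fderiv_sub_const]

/-- mean over a rectangle -/
noncomputable def mean (u : ℂ → ℝ) (x0 x1 y0 y1 : ℝ) : ℝ :=
  (1 / ((x1 - x0) * (y1 - y0))) * ∫ w in RC x0 x1 y0 y1, u w

theorem rc_poincare (hu : TF U u) {x0 x1 y0 y1 L : ℝ} (hx : x0 < x1) (hy : y0 < y1)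
    (hxL : x1 - x0 ≤ L) (hyL : y1 - y0 ≤ L) :
    ∫ w in RC x0 x1 y0 y1, (u w - mean u x0 x1 y0 y1) ^ 2 ≤ L ^ 2 * ∫ w in RC x0 x1 y0 y1, gd u w := by
  set c := mean u x0 x1 y0 y1 with hc
  have ha : 0 < x1 - x0 := by linarith
  have hb : 0 < y1 - y0 := by linarith
  have h1 := rect_poincare (fun z => u z - c) (hu.c1.sub contDiff_const) x0 x1 y0 y1 L hx hy hxL hyL
  have hcc : Continuous (fun z => u z - c) := hu.cont.sub continuous_const
  rw [← rc_integral (f := fun z => (u z - c) ^ 2) (hcc.pow 2) hx.le hy.le,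
    ← rc_integral (f := fun z => u z - c) hcc hx.le hy.le] at h1
  have e1 : ∫ w in RC x0 x1 y0 y1, (u w - c) = 0 := by
    rw [integral_sub (RC_int hu.cont _ _ _ _) (integrableOn_const (RC_fin _ _ _ _)), setIntegral_const, measureReal_def,
      RC_vol hx.le hy.le, smul_eq_mul, hc]
    unfold mean
    field_simp
    ring
  have e2 : ∫ y in y0..y1, ∫ x in x0..x1, (gx (fun z => u z - c) ⟨x, y⟩ ^ 2 + gy (fun z => u z - c) ⟨x, y⟩ ^ 2) =
      ∫ w in RC x0 x1 y0 y1, gd u w := by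
    rw [rc_integral (gd_cont hu) hx.le hy.le]
    simp_rw [gx_sub_const hu, gy_sub_const hu]
    rfl
  rw [e1, e2] at h1
  simpa using h1

theorem mean_sq (hu : TF U u) {x0 x1 y0 y1 : ℝ} (hx : x0 < x1) (hy : y0 < y1) :
    mean u x0 x1 y0 y1 ^ 2 * ((x1 - x0) * (y1 - y0)) ≤ ∫ w in RC x0 x1 y0 y1, u w ^ 2 := by
  set c := mean u x0 x1 y0 y1 with hc
  have ha : 0 < x1 - x0 := by linarith
  have hb : 0 < y1 - y0 := by linarith
  have h0 : 0 ≤ ∫ w in RC x0 x1 y0 y1, (u w - c) ^ 2 := integral_nonneg fun w => sq_nonneg _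
  have i1 := RC_int (hu.cont.pow 2) x0 x1 y0 y1
  have i2 := RC_int hu.cont x0 x1 y0 y1
  have i3 : IntegrableOn (fun _ : ℂ => c ^ 2) (RC x0 x1 y0 y1) := integrableOn_const (RC_fin _ _ _ _)
  have e1 : ∫ w in RC x0 x1 y0 y1, (u w - c) ^ 2 = (∫ w in RC x0 x1 y0 y1, u w ^ 2) - 2 * c * (∫ w in RC x0 x1 y0 y1, u w) +
      c ^ 2 * ((x1 - x0) * (y1 - y0)) := by
    have : (fun w => (u w - c) ^ 2) = fun w => (u w ^ 2 - 2 * c * u w) + c ^ 2 := by ext w; ring
    rw [this, integral_add (by exact (i1.sub (i2.const_mul (2 * c)))) i3, integral_sub (by exact i1) (by exact i2.const_mul (2 * c)),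
      integral_const_mul, setIntegral_const, measureReal_def, RC_vol hx.le hy.le, smul_eq_mul]
    ring
  have e2 : ∫ w in RC x0 x1 y0 y1, u w = c * ((x1 - x0) * (y1 - y0)) := by
    rw [hc]; unfold mean; field_simp
  rw [e1, e2] at h0
  linarith

/-- comparison of two constants through an overlap -/
theorem chain (hu : TF U u) {X Y O : Set ℂ} (hX : MeasurableSet X) (hY : MeasurableSet Y) (hO : MeasurableSet O)
    (hOX : O ⊆ X) (hOY : O ⊆ Y) {R : ℝ} (hXR : X ⊆ closedBall 0 R) (hYR : Y ⊆ closedBall 0 R) (a b : ℝ) :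
    (a - b) ^ 2 * (volume O).toReal ≤ 2 * (∫ w in X, (u w - a) ^ 2) + 2 * ∫ w in Y, (u w - b) ^ 2 := by
  have hi : ∀ c : ℝ, ∀ Z : Set ℂ, Z ⊆ closedBall 0 R → IntegrableOn (fun w => (u w - c) ^ 2) Z := by
    intro c Z hZ
    exact (((hu.cont.sub continuous_const).pow 2).continuousOn.integrableOn_compact (isCompact_closedBall 0 R)).mono_set hZ
  have hOfin : volume O ≠ ⊤ := ((measure_mono (hOX.trans hXR)).trans_lt (isCompact_closedBall 0 R).measure_lt_top).ne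
  have h1 : (a - b) ^ 2 * (volume O).toReal = ∫ _w in O, (a - b) ^ 2 := by
    rw [setIntegral_const, measureReal_def, smul_eq_mul]; ring
  rw [h1]
  have hcO : IntegrableOn (fun _ : ℂ => (a - b) ^ 2) O := integrableOn_const hOfin
  calc ∫ _w in O, (a - b) ^ 2 ≤ ∫ w in O, (2 * (u w - a) ^ 2 + 2 * (u w - b) ^ 2) := by
        apply integral_mono hcO
        · exact ((hi a O (hOX.trans hXR)).const_mul 2).add ((hi b O (hOX.trans hXR)).const_mul 2)
        · intro w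
          show (a - b) ^ 2 ≤ 2 * (u w - a) ^ 2 + 2 * (u w - b) ^ 2
          nlinarith [sq_nonneg ((u w - a) + (u w - b))]
    _ = 2 * (∫ w in O, (u w - a) ^ 2) + 2 * ∫ w in O, (u w - b) ^ 2 := by
        rw [integral_add ((hi a O (hOX.trans hXR)).const_mul 2) ((hi b O (hOX.trans hXR)).const_mul 2),
          integral_const_mul, integral_const_mul]
    _ ≤ _ := by
        have h2 : ∫ w in O, (u w - a) ^ 2 ≤ ∫ w in X, (u w - a) ^ 2 :=
          setIntegral_mono_set (hi a X hXR) (Eventually.of_forall fun w => sq_nonneg _) hOX.eventuallyLE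
        have h3 : ∫ w in O, (u w - b) ^ 2 ≤ ∫ w in Y, (u w - b) ^ 2 :=
          setIntegral_mono_set (hi b Y hYR) (Eventually.of_forall fun w => sq_nonneg _) hOY.eventuallyLE
        linarith

theorem shift (hu : TF U u) {X : Set ℂ} {R : ℝ} (hXR : X ⊆ closedBall 0 R) (a b : ℝ) :
    ∫ w in X, (u w - b) ^ 2 ≤ 2 * (∫ w in X, (u w - a) ^ 2) + 2 * (volume X).toReal * (a - b) ^ 2 := by
  have hi : ∀ c : ℝ, IntegrableOn (fun w => (u w - c) ^ 2) X := by
    intro c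
    exact (((hu.cont.sub continuous_const).pow 2).continuousOn.integrableOn_compact (isCompact_closedBall 0 R)).mono_set hXR
  have hfin : volume X ≠ ⊤ := ((measure_mono hXR).trans_lt (isCompact_closedBall 0 R).measure_lt_top).ne
  have hc : IntegrableOn (fun _ : ℂ => 2 * (a - b) ^ 2) X := integrableOn_const hfin
  calc ∫ w in X, (u w - b) ^ 2 ≤ ∫ w in X, (2 * (u w - a) ^ 2 + 2 * (a - b) ^ 2) := by
        apply integral_mono (hi b) (((hi a).const_mul 2).add hc)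
        intro w
        show (u w - b) ^ 2 ≤ 2 * (u w - a) ^ 2 + 2 * (a - b) ^ 2
        nlinarith [sq_nonneg ((u w - a) - (a - b))]
    _ = _ := by
        rw [integral_add ((hi a).const_mul 2) hc, integral_const_mul, setIntegral_const, measureReal_def, smul_eq_mul]
        ring

/-- squares and square annuli -/
def SQ (z : ℂ) (r : ℝ) : Set ℂ := RC (z.re - r) (z.re + r) (z.im - r) (z.im + r)

def AN (z : ℂ) (r : ℝ) : Set ℂ := SQ z (3 * r) \ SQ z r

noncomputable def cT (u : ℂ → ℝ) (z : ℂ) (r : ℝ) : ℝ :=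
  mean u (z.re - 3 * r) (z.re + 3 * r) (z.im + r) (z.im + 3 * r)

theorem SQ_meas (z : ℂ) (r : ℝ) : MeasurableSet (SQ z r) := RC_meas _ _ _ _

theorem SQ_mono (z : ℂ) {r s : ℝ} (h : r ≤ s) : SQ z r ⊆ SQ z s := by
  rintro w ⟨⟨h1, h2⟩, h3, h4⟩
  exact ⟨⟨by linarith, by linarith⟩, by linarith, by linarith⟩

theorem AN_meas (z : ℂ) (r : ℝ) : MeasurableSet (AN z r) := (SQ_meas _ _).diff (SQ_meas _ _)

theorem SQ_vol (z : ℂ) {r : ℝ} (hr : 0 ≤ r) : (volume (SQ z r)).toReal = 4 * r ^ 2 := by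
  unfold SQ; rw [RC_vol (by linarith) (by linarith)]; ring

/-- Poincare inequality on a square annulus -/
theorem ann_poincare (hu : TF U u) (z : ℂ) {r : ℝ} (hr : 0 < r) :
    ∫ w in AN z r, (u w - cT u z r) ^ 2 ≤ 6000 * r ^ 2 * ∫ w in AN z r, gd u w := by
  set x := z.re with hx
  set y := z.im with hy
  set T := RC (x - 3 * r) (x + 3 * r) (y + r) (y + 3 * r) with hT
  set Bt := RC (x - 3 * r) (x + 3 * r) (y - 3 * r) (y - r) with hBt
  set Rt := RC (x + r) (x + 3 * r) (y - 3 * r) (y + 3 * r) with hRt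
  set Lt := RC (x - 3 * r) (x - r) (y - 3 * r) (y + 3 * r) with hLt
  set E := ∫ w in AN z r, gd u w with hE
  -- inclusions
  have hAN : ∀ w, w ∈ AN z r ↔ (x - 3 * r < w.re ∧ w.re ≤ x + 3 * r) ∧ (y - 3 * r < w.im ∧ w.im ≤ y + 3 * r) ∧
      ¬ ((x - r < w.re ∧ w.re ≤ x + r) ∧ (y - r < w.im ∧ w.im ≤ y + r)) := by
    intro w
    constructor
    · rintro ⟨⟨h1, h2⟩, h3⟩
      exact ⟨h1, h2, fun h => h3 h⟩
    · rintro ⟨h1, h2, h3⟩
      exact ⟨⟨h1, h2⟩, fun h => h3 h⟩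
  have sT : T ⊆ AN z r := by
    rintro w ⟨⟨h1, h2⟩, h3, h4⟩
    rw [hAN]; exact ⟨⟨h1, h2⟩, ⟨by linarith, h4⟩, fun h => by linarith [h.2.2]⟩
  have sB : Bt ⊆ AN z r := by
    rintro w ⟨⟨h1, h2⟩, h3, h4⟩
    rw [hAN]; exact ⟨⟨h1, h2⟩, ⟨h3, by linarith⟩, fun h => by linarith [h.2.1]⟩
  have sR : Rt ⊆ AN z r := by
    rintro w ⟨⟨h1, h2⟩, h3, h4⟩
    rw [hAN]; exact ⟨⟨by linarith, h2⟩, ⟨h3, h4⟩, fun h => by linarith [h.1.2]⟩
  have sL : Lt ⊆ AN z r := by
    rintro w ⟨⟨h1, h2⟩, h3, h4⟩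
    rw [hAN]; exact ⟨⟨h1, by linarith⟩, ⟨h3, h4⟩, fun h => by linarith [h.1.1]⟩
  have hcov : AN z r ⊆ ((T ∪ Bt) ∪ Rt) ∪ Lt := by
    intro w hw
    rw [hAN] at hw
    obtain ⟨⟨h1, h2⟩, ⟨h3, h4⟩, h5⟩ := hw
    by_cases a1 : y + r < w.im
    · exact Or.inl (Or.inl (Or.inl ⟨⟨h1, h2⟩, a1, h4⟩))
    by_cases a2 : w.im ≤ y - r
    · exact Or.inl (Or.inl (Or.inr ⟨⟨h1, h2⟩, h3, a2⟩))
    by_cases a3 : x + r < w.re
    · exact Or.inl (Or.inr ⟨⟨a3, h2⟩, h3, h4⟩)
    by_cases a4 : w.re ≤ x - r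
    · exact Or.inr ⟨⟨h1, a4⟩, h3, h4⟩
    push Not at a1 a2 a3 a4
    exact absurd ⟨⟨a4, a3⟩, a2, a1⟩ h5
  obtain ⟨R, hR⟩ := RC_bdd (x - 3 * r) (x + 3 * r) (y - 3 * r) (y + 3 * r)
  have hANR : AN z r ⊆ closedBall 0 R := diff_subset.trans hR
  have mT := RC_meas (x - 3 * r) (x + 3 * r) (y + r) (y + 3 * r)
  have mB := RC_meas (x - 3 * r) (x + 3 * r) (y - 3 * r) (y - r)
  have mR := RC_meas (x + r) (x + 3 * r) (y - 3 * r) (y + 3 * r)
  have mL := RC_meas (x - 3 * r) (x - r) (y - 3 * r) (y + 3 * r)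
  have eE : ∀ X : Set ℂ, X ⊆ AN z r → ∫ w in X, gd u w ≤ E := fun X hX =>
    setIntegral_mono_set (gd_int hu).integrableOn (Eventually.of_forall fun w => gd_nonneg u w) hX.eventuallyLE
  have hE0 : 0 ≤ E := integral_nonneg fun w => gd_nonneg u w
  set a := mean u (x - 3 * r) (x + 3 * r) (y + r) (y + 3 * r) with ha
  set b := mean u (x - 3 * r) (x + 3 * r) (y - 3 * r) (y - r) with hb
  set c := mean u (x + r) (x + 3 * r) (y - 3 * r) (y + 3 * r) with hc
  set d := mean u (x - 3 * r) (x - r) (y - 3 * r) (y + 3 * r) with hd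
  have pT : ∫ w in T, (u w - a) ^ 2 ≤ 36 * r ^ 2 * E := by
    have h1 := rc_poincare hu (x0 := x - 3 * r) (x1 := x + 3 * r) (y0 := y + r) (y1 := y + 3 * r) (L := 6 * r)
      (by linarith) (by linarith) (by linarith) (by linarith)
    have h2 := mul_le_mul_of_nonneg_left (eE T sT) (show 0 ≤ (6 * r) ^ 2 by positivity)
    nlinarith
  have pB : ∫ w in Bt, (u w - b) ^ 2 ≤ 36 * r ^ 2 * E := by
    have h1 := rc_poincare hu (x0 := x - 3 * r) (x1 := x + 3 * r) (y0 := y - 3 * r) (y1 := y - r) (L := 6 * r)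
      (by linarith) (by linarith) (by linarith) (by linarith)
    have h2 := mul_le_mul_of_nonneg_left (eE Bt sB) (show 0 ≤ (6 * r) ^ 2 by positivity)
    nlinarith
  have pR : ∫ w in Rt, (u w - c) ^ 2 ≤ 36 * r ^ 2 * E := by
    have h1 := rc_poincare hu (x0 := x + r) (x1 := x + 3 * r) (y0 := y - 3 * r) (y1 := y + 3 * r) (L := 6 * r)
      (by linarith) (by linarith) (by linarith) (by linarith)
    have h2 := mul_le_mul_of_nonneg_left (eE Rt sR) (show 0 ≤ (6 * r) ^ 2 by positivity)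
    nlinarith
  have pL : ∫ w in Lt, (u w - d) ^ 2 ≤ 36 * r ^ 2 * E := by
    have h1 := rc_poincare hu (x0 := x - 3 * r) (x1 := x - r) (y0 := y - 3 * r) (y1 := y + 3 * r) (L := 6 * r)
      (by linarith) (by linarith) (by linarith) (by linarith)
    have h2 := mul_le_mul_of_nonneg_left (eE Lt sL) (show 0 ≤ (6 * r) ^ 2 by positivity)
    nlinarith
  -- overlaps
  have d1 : (a - c) ^ 2 ≤ 36 * E := by
    have h1 := chain hu mT mR (RC_meas (x + r) (x + 3 * r) (y + r) (y + 3 * r))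
      (fun w hw => ⟨⟨by linarith [hw.1.1], hw.1.2⟩, hw.2⟩) (fun w hw => ⟨hw.1, ⟨by linarith [hw.2.1], hw.2.2⟩⟩)
      (sT.trans hANR) (sR.trans hANR) a c
    rw [RC_vol (by linarith) (by linarith)] at h1
    have e : (x + 3 * r - (x + r)) * (y + 3 * r - (y + r)) = 4 * r ^ 2 := by ring
    rw [e] at h1
    have h2 : (a - c) ^ 2 * (4 * r ^ 2) ≤ 36 * E * (4 * r ^ 2) := by linarith
    exact le_of_mul_le_mul_right h2 (by positivity)
  have d2 : (a - d) ^ 2 ≤ 36 * E := by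
    have h1 := chain hu mT mL (RC_meas (x - 3 * r) (x - r) (y + r) (y + 3 * r))
      (fun w hw => ⟨⟨hw.1.1, by linarith [hw.1.2]⟩, hw.2⟩) (fun w hw => ⟨hw.1, ⟨by linarith [hw.2.1], hw.2.2⟩⟩)
      (sT.trans hANR) (sL.trans hANR) a d
    rw [RC_vol (by linarith) (by linarith)] at h1
    have e : (x - r - (x - 3 * r)) * (y + 3 * r - (y + r)) = 4 * r ^ 2 := by ring
    rw [e] at h1
    have h2 : (a - d) ^ 2 * (4 * r ^ 2) ≤ 36 * E * (4 * r ^ 2) := by linarith
    exact le_of_mul_le_mul_right h2 (by positivity)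
  have d3 : (b - c) ^ 2 ≤ 36 * E := by
    have h1 := chain hu mB mR (RC_meas (x + r) (x + 3 * r) (y - 3 * r) (y - r))
      (fun w hw => ⟨⟨by linarith [hw.1.1], hw.1.2⟩, hw.2⟩) (fun w hw => ⟨hw.1, ⟨hw.2.1, by linarith [hw.2.2]⟩⟩)
      (sB.trans hANR) (sR.trans hANR) b c
    rw [RC_vol (by linarith) (by linarith)] at h1
    have e : (x + 3 * r - (x + r)) * (y - r - (y - 3 * r)) = 4 * r ^ 2 := by ring
    rw [e] at h1
    have h2 : (b - c) ^ 2 * (4 * r ^ 2) ≤ 36 * E * (4 * r ^ 2) := by linarith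
    exact le_of_mul_le_mul_right h2 (by positivity)
  have d4 : (b - a) ^ 2 ≤ 144 * E := by nlinarith [sq_nonneg ((b - c) + (a - c))]
  have qR := shift hu (sR.trans hANR) c a
  have qL := shift hu (sL.trans hANR) d a
  have qB := shift hu (sB.trans hANR) b a
  rw [hRt, RC_vol (by linarith) (by linarith), ← hRt] at qR
  rw [hLt, RC_vol (by linarith) (by linarith), ← hLt] at qL
  rw [hBt, RC_vol (by linarith) (by linarith), ← hBt] at qB
  have eR : (x + 3 * r - (x + r)) * (y + 3 * r - (y - 3 * r)) = 12 * r ^ 2 := by ring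
  have eL : (x - r - (x - 3 * r)) * (y + 3 * r - (y - 3 * r)) = 12 * r ^ 2 := by ring
  have eB : (x + 3 * r - (x - 3 * r)) * (y - r - (y - 3 * r)) = 12 * r ^ 2 := by ring
  rw [eR] at qR
  rw [eL] at qL
  rw [eB] at qB
  have hr2 : 0 < r ^ 2 := by positivity
  have qR' : ∫ w in Rt, (u w - a) ^ 2 ≤ 936 * r ^ 2 * E := by
    have : (c - a) ^ 2 ≤ 36 * E := by rw [← neg_sub, neg_sq]; exact d1
    have h3 : 2 * (12 * r ^ 2) * (c - a) ^ 2 ≤ 2 * (12 * r ^ 2) * (36 * E) := mul_le_mul_of_nonneg_left this (by positivity)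
    linarith
  have qL' : ∫ w in Lt, (u w - a) ^ 2 ≤ 936 * r ^ 2 * E := by
    have : (d - a) ^ 2 ≤ 36 * E := by rw [← neg_sub, neg_sq]; exact d2
    have h3 : 2 * (12 * r ^ 2) * (d - a) ^ 2 ≤ 2 * (12 * r ^ 2) * (36 * E) := mul_le_mul_of_nonneg_left this (by positivity)
    linarith
  have qB' : ∫ w in Bt, (u w - a) ^ 2 ≤ 3528 * r ^ 2 * E := by
    have h3 : 2 * (12 * r ^ 2) * (b - a) ^ 2 ≤ 2 * (12 * r ^ 2) * (144 * E) := mul_le_mul_of_nonneg_left d4 (by positivity)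
    linarith
  -- total
  have hi : ∀ Z : Set ℂ, Z ⊆ closedBall 0 R → IntegrableOn (fun w => (u w - a) ^ 2) Z := by
    intro Z hZ
    exact (((hu.cont.sub continuous_const).pow 2).continuousOn.integrableOn_compact (isCompact_closedBall 0 R)).mono_set hZ
  have un : ∀ X Y : Set ℂ, MeasurableSet X → MeasurableSet Y → X ⊆ closedBall 0 R → Y ⊆ closedBall 0 R →
      ∫ w in X ∪ Y, (u w - a) ^ 2 ≤ (∫ w in X, (u w - a) ^ 2) + ∫ w in Y, (u w - a) ^ 2 := by
    intro X Y mX mY hX hY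
    have e : X ∪ Y = X ∪ (Y \ X) := by rw [union_diff_self]
    rw [e, setIntegral_union disjoint_sdiff_right (mY.diff mX) (hi X hX) (hi _ (diff_subset.trans hY))]
    have : ∫ w in Y \ X, (u w - a) ^ 2 ≤ ∫ w in Y, (u w - a) ^ 2 :=
      setIntegral_mono_set (hi Y hY) (Eventually.of_forall fun w => sq_nonneg _) (diff_subset.eventuallyLE)
    linarith
  have bT := sT.trans hANR
  have bB := sB.trans hANR
  have bR := sR.trans hANR
  have bL := sL.trans hANR
  have hcT : cT u z r = a := rfl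
  rw [hcT]
  calc ∫ w in AN z r, (u w - a) ^ 2 ≤ ∫ w in ((T ∪ Bt) ∪ Rt) ∪ Lt, (u w - a) ^ 2 :=
        setIntegral_mono_set (hi _ (union_subset (union_subset (union_subset bT bB) bR) bL))
          (Eventually.of_forall fun w => sq_nonneg _) hcov.eventuallyLE
    _ ≤ (((∫ w in T, (u w - a) ^ 2) + ∫ w in Bt, (u w - a) ^ 2) + ∫ w in Rt, (u w - a) ^ 2) + ∫ w in Lt, (u w - a) ^ 2 := by
        have h1 := un ((T ∪ Bt) ∪ Rt) Lt ((mT.union mB).union mR) mL (union_subset (union_subset bT bB) bR) bL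
        have h2 := un (T ∪ Bt) Rt (mT.union mB) mR (union_subset bT bB) bR
        have h3 := un T Bt mT mB bT bB
        linarith
    _ ≤ 6000 * r ^ 2 * E := by
        have : 0 ≤ r ^ 2 * E := by positivity
        linarith

end Pool.Agent.Helper533.StarBox
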