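import Pool.Agent.Helper533.StarBox.Decay

open MeasureTheory Metric Set Filter
open scoped Topology Convolution

namespace Pool.Agent.Helper533.StarBox

variable {U : Set ℂ} {u v : ℂ → ℝ} {r : ℝ}

def SH (r : ℝ) : Set ℂ := {t | t.re ∈ Ico (-r) r ∧ t.im ∈ Ico (-r) r}

noncomputable def kr (r : ℝ) : ℂ → ℝ := (SH r).indicator (fun _ => 1 / (4 * r ^ 2))

/-- average over a square -/
noncomputable def av (v : ℂ → ℝ) (r : ℝ) (z : ℂ) : ℝ := mean v (z.re - r) (z.re + r) (z.im - r) (z.im + r)

theorem SH_meas (r : ℝ) : MeasurableSet (SH r) :=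
  (Complex.measurable_re measurableSet_Ico).inter (Complex.measurable_im measurableSet_Ico)

theorem SH_vol (hr : 0 < r) : volume (SH r) = ENNReal.ofReal (4 * r ^ 2) := by
  unfold SH
  rw [vol_rect measurableSet_Ico measurableSet_Ico, Real.volume_Ico, ← ENNReal.ofReal_mul (by linarith)]
  congr 1; ring

theorem SH_sub (r : ℝ) : SH r ⊆ closedBall 0 (2 * r) := by
  rintro t ⟨h1, h2⟩
  rw [mem_closedBall, dist_zero_right]
  refine (Complex.norm_le_abs_re_add_abs_im t).trans ?_
  have a1 : |t.re| ≤ r := abs_le.mpr ⟨h1.1, h1.2.le⟩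
  have a2 : |t.im| ≤ r := abs_le.mpr ⟨h2.1, h2.2.le⟩
  linarith

theorem av_eq (v : ℂ → ℝ) (r : ℝ) (z : ℂ) : av v r z = (1 / (4 * r ^ 2)) * ∫ w in SQ z r, v w := by
  unfold av mean SQ
  congr 2; ring

theorem kr_int (hr : 0 < r) : Integrable (kr r) := by
  unfold kr
  rw [integrable_indicator_iff (SH_meas r)]
  exact integrableOn_const (by rw [SH_vol hr]; exact ENNReal.ofReal_ne_top)

theorem kr_integral (hr : 0 < r) : ∫ t, kr r t = 1 := by
  unfold kr
  rw [integral_indicator (SH_meas r), setIntegral_const, measureReal_def, SH_vol hr, ENNReal.toReal_ofReal (by positivity), smul_eq_mul]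
  field_simp

theorem av_conv (v : ℂ → ℝ) (r : ℝ) : av v r = (kr r ⋆[ContinuousLinearMap.lsmul ℝ ℝ, volume] v) := by
  ext z
  rw [av_eq, convolution_lsmul_swap, ← integral_const_mul, ← integral_indicator (SQ_meas z r)]
  congr 1
  ext t
  have h : z - t ∈ SH r ↔ t ∈ SQ z r := by
    constructor
    · rintro ⟨⟨h1, h2⟩, h3, h4⟩
      rw [Complex.sub_re] at h1 h2
      rw [Complex.sub_im] at h3 h4
      exact ⟨⟨by linarith, by linarith⟩, by linarith, by linarith⟩
    · rintro ⟨⟨h1, h2⟩, h3, h4⟩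
      refine ⟨⟨?_, ?_⟩, ?_, ?_⟩
      · rw [Complex.sub_re]; linarith
      · rw [Complex.sub_re]; linarith
      · rw [Complex.sub_im]; linarith
      · rw [Complex.sub_im]; linarith
  unfold kr
  by_cases ht : t ∈ SQ z r
  · rw [indicator_of_mem ht, indicator_of_mem (h.mpr ht), smul_eq_mul]
  · rw [indicator_of_notMem ht, indicator_of_notMem (fun h' => ht (h.mp h')), zero_smul]

theorem av_smooth (hv : TF U v) (hr : 0 < r) : ContDiff ℝ (⊤ : ℕ∞) (av v r) := by
  rw [av_conv]
  exact hv.comp.contDiff_convolution_right _ (kr_int hr).locallyIntegrable hv.smooth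

theorem gx_av (hv : TF U v) (hr : 0 < r) (z : ℂ) : gx (av v r) z = av (gx v) r z := by
  rw [av_conv, av_conv]
  unfold gx
  rw [(hv.comp.hasFDerivAt_convolution_right (ContinuousLinearMap.lsmul ℝ ℝ) (kr_int hr).locallyIntegrable hv.c1 z).fderiv]
  exact convolution_precompR_apply _ (kr_int hr).locallyIntegrable (hv.comp.fderiv ℝ) (hv.smooth.continuous_fderiv (by simp)) z 1

theorem gy_av (hv : TF U v) (hr : 0 < r) (z : ℂ) : gy (av v r) z = av (gy v) r z := by
  rw [av_conv, av_conv]
  unfold gy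
  rw [(hv.comp.hasFDerivAt_convolution_right (ContinuousLinearMap.lsmul ℝ ℝ) (kr_int hr).locallyIntegrable hv.c1 z).fderiv]
  exact convolution_precompR_apply _ (kr_int hr).locallyIntegrable (hv.comp.fderiv ℝ) (hv.smooth.continuous_fderiv (by simp)) z Complex.I

theorem av_sq_le (hv : TF U v) (hr : 0 < r) (z : ℂ) : av v r z ^ 2 ≤ (1 / (4 * r ^ 2)) * ∫ w in SQ z r, v w ^ 2 := by
  have h := mean_sq hv (x0 := z.re - r) (x1 := z.re + r) (y0 := z.im - r) (y1 := z.im + r) (by linarith) (by linarith)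
  have e : (z.re + r - (z.re - r)) * (z.im + r - (z.im - r)) = 4 * r ^ 2 := by ring
  rw [e] at h
  have h2 : av v r z ^ 2 * (4 * r ^ 2) ≤ ∫ w in SQ z r, v w ^ 2 := h
  rw [one_div, ← div_eq_inv_mul, le_div_iff₀ (by positivity)]
  exact h2

theorem av_tf (hv : TF (ball 0 1) v) (hr : 0 < r) (hr1 : r ≤ 1) : TF (ball 0 4) (av v r) := by
  have hs : tsupport (av v r) ⊆ closedBall 0 3 := by
    apply closure_minimal _ isClosed_closedBall
    intro z hz
    rw [Function.mem_support] at hz
    by_contra hcon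
    rw [mem_closedBall, dist_zero_right, not_le] at hcon
    apply hz
    rw [av_eq, setIntegral_congr_fun (g := fun _ => (0:ℝ)) (SQ_meas z r), integral_zero, mul_zero]
    intro w hw
    apply image_eq_zero_of_notMem_tsupport
    intro hmem
    have h1 := hv.supp hmem
    rw [mem_ball, dist_zero_right] at h1
    have h2 : ‖z - w‖ ≤ 2 * r := by
      have : z - w ∈ closedBall (0:ℂ) (2 * r) := by
        obtain ⟨⟨h1, h2⟩, h3, h4⟩ := hw
        rw [mem_closedBall, dist_zero_right]
        refine (Complex.norm_le_abs_re_add_abs_im _).trans ?_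
        rw [Complex.sub_re, Complex.sub_im]
        have a1 : |z.re - w.re| ≤ r := by rw [abs_le]; constructor <;> linarith
        have a2 : |z.im - w.im| ≤ r := by rw [abs_le]; constructor <;> linarith
        linarith
      rwa [mem_closedBall, dist_zero_right] at this
    have h3 : ‖z‖ ≤ ‖z - w‖ + ‖w‖ := by simpa using norm_add_le (z - w) w
    linarith
  exact ⟨av_smooth hv hr, IsCompact.of_isClosed_subset (isCompact_closedBall 0 3) (isClosed_tsupport _) hs,
    hs.trans (closedBall_subset_ball (by norm_num))⟩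

theorem av_En (hv : TF (ball 0 1) v) (hr : 0 < r) (hr1 : r ≤ 1) : En (av v r) (av v r) ≤ En v v := by
  rw [En_self]
  have h1 : ∀ z, gx (av v r) z ^ 2 + gy (av v r) z ^ 2 ≤ av (gd v) r z := by
    intro z
    rw [gx_av hv hr, gy_av hv hr]
    have a1 := av_sq_le hv.gx_tf hr z
    have a2 := av_sq_le hv.gy_tf hr z
    have e : av (gd v) r z = (1 / (4 * r ^ 2)) * (∫ w in SQ z r, gx v w ^ 2) + (1 / (4 * r ^ 2)) * (∫ w in SQ z r, gy v w ^ 2) := by
      rw [av_eq, ← mul_add, ← integral_add]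
      · rfl
      · exact RC_int (hv.gx_cont.pow 2) _ _ _ _
      · exact RC_int (hv.gy_cont.pow 2) _ _ _ _
    rw [e]; linarith
  have h2 : ∫ z, av (gd v) r z = En v v := by
    rw [av_conv, integral_convolution _ (kr_int hr) (gd_int hv), kr_integral hr, En_self]
    simp only [ContinuousLinearMap.lsmul_apply, one_smul]
    rfl
  rw [← h2]
  apply integral_mono (av_tf hv hr hr1).ensq_int _ h1
  rw [av_conv]
  exact (kr_int hr).integrable_convolution _ (gd_int hv)

/-- Cauchy-Schwarz on a finite measure space -/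
theorem cs_fin {X : Type*} [MeasurableSpace X] (μ : Measure X) [IsFiniteMeasure μ] (f : X → ℝ) (hf : Integrable f μ)
    (hf2 : Integrable (fun x => f x ^ 2) μ) : (∫ x, f x ∂μ) ^ 2 ≤ μ.real univ * ∫ x, f x ^ 2 ∂μ := by
  rcases eq_or_ne μ 0 with h | h
  · rw [h]; simp
  have hm : 0 < μ.real univ := by
    rw [measureReal_def]
    exact ENNReal.toReal_pos (by rwa [Ne, Measure.measure_univ_eq_zero]) (measure_ne_top _ _)
  set m := μ.real univ with hmd
  set I := ∫ x, f x ∂μ with hI
  set c := I / m with hc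
  have h0 : 0 ≤ ∫ x, (f x - c) ^ 2 ∂μ := integral_nonneg fun x => sq_nonneg _
  have e : ∫ x, (f x - c) ^ 2 ∂μ = (∫ x, f x ^ 2 ∂μ) - 2 * c * I + c ^ 2 * m := by
    have : (fun x => (f x - c) ^ 2) = fun x => (f x ^ 2 - 2 * c * f x) + c ^ 2 := by ext x; ring
    rw [this, integral_add (by exact hf2.sub (hf.const_mul (2 * c))) (integrable_const _), integral_sub hf2 (hf.const_mul _), integral_const_mul,
      integral_const, smul_eq_mul]
    ring
  rw [e] at h0
  have h1 : 2 * c * I = 2 * (I ^ 2 / m) := by rw [hc]; ring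
  have h2 : c ^ 2 * m = I ^ 2 / m := by rw [hc]; field_simp
  rw [h1, h2] at h0
  have h3 : I ^ 2 / m ≤ ∫ x, f x ^ 2 ∂μ := by linarith
  rw [div_le_iff₀ hm] at h3
  linarith

theorem swapG {X : Type*} [MeasurableSpace X] (ν : Measure X) [IsFiniteMeasure ν] (τ : X → ℂ) (hτ : Measurable τ)
    (F : ℂ → ℝ) (hF : Continuous F) (hFi : Integrable F) :
    Integrable (fun z : ℂ => ∫ x, F (z - τ x) ∂ν) ∧ ∫ z, ∫ x, F (z - τ x) ∂ν = ν.real univ * ∫ z, F z := by
  have hm : AEStronglyMeasurable (fun p : X × ℂ => F (p.2 - τ p.1)) (ν.prod volume) :=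
    (hF.measurable.comp (measurable_snd.sub (hτ.comp measurable_fst))).aestronglyMeasurable
  have hi : Integrable (fun p : X × ℂ => F (p.2 - τ p.1)) (ν.prod volume) := by
    rw [integrable_prod_iff hm]
    refine ⟨Eventually.of_forall fun x => hFi.comp_sub_right (τ x), ?_⟩
    have : (fun x : X => ∫ z : ℂ, ‖F (z - τ x)‖) = fun _ => ∫ z, ‖F z‖ := by
      ext x; exact integral_sub_right_eq_self (fun z => ‖F z‖) (τ x)
    show Integrable (fun x : X => ∫ z : ℂ, ‖F (z - τ x)‖) ν
    rw [this]; exact integrable_const _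
  refine ⟨hi.integral_prod_right, ?_⟩
  have h1 := integral_integral_swap (f := fun x z => F (z - τ x)) hi
  rw [← h1]
  have : ∀ x : X, ∫ z : ℂ, F (z - τ x) = ∫ z, F z := fun x => integral_sub_right_eq_self F (τ x)
  simp_rw [this]
  rw [integral_const, smul_eq_mul]

theorem fd_apply (v : ℂ → ℝ) (y t : ℂ) : fderiv ℝ v y t = t.re * gx v y + t.im * gy v y := by
  have : t = t.re • (1:ℂ) + t.im • Complex.I := by
    simp only [Complex.real_smul, mul_one]
    exact (Complex.re_add_im t).symm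
  conv_lhs => rw [this]
  rw [map_add, map_smul, map_smul]
  rfl

/-- averages are close to the function in the mean -/
theorem av_close (hv : TF U v) (hr : 0 < r) (hav : TF (ball 0 4) (av v r)) :
    Ip (fun z => v z - av v r z) (fun z => v z - av v r z) ≤ 2 * r ^ 2 * En v v := by
  set ν : Measure (ℂ × ℝ) := (volume.restrict (SH r)).prod (volume.restrict (Ioc (0:ℝ) 1)) with hν
  have hνe : ν = volume.restrict (SH r ×ˢ Ioc (0:ℝ) 1) := by
    rw [hν, Measure.prod_restrict]; rfl
  have hfinr : IsFiniteMeasure (volume.restrict (SH r)) := ⟨by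
    rw [Measure.restrict_apply_univ, SH_vol hr]; exact ENNReal.ofReal_lt_top⟩
  have hνf : IsFiniteMeasure ν := by rw [hν]; infer_instance
  have hνm : ν.real univ = 4 * r ^ 2 := by
    rw [measureReal_def, hν, ← univ_prod_univ, Measure.prod_prod, Measure.restrict_apply_univ, Measure.restrict_apply_univ,
      SH_vol hr, Real.volume_Ioc, ENNReal.toReal_mul, ENNReal.toReal_ofReal (by positivity), ENNReal.toReal_ofReal (by norm_num)]
    ring
  have hcpt : ∀ g : ℂ × ℝ → ℝ, Continuous g → Integrable g ν := by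
    intro g hg
    rw [hνe]
    exact (hg.continuousOn.integrableOn_compact ((isCompact_closedBall (0:ℂ) (2 * r)).prod isCompact_Icc)).mono_set
      (prod_mono (SH_sub r) Ioc_subset_Icc_self)
  have hfc : ∀ z : ℂ, Continuous (fun p : ℂ × ℝ => fderiv ℝ v (z - p.2 • p.1) p.1) := by
    intro z
    have h1 : Continuous (fun p : ℂ × ℝ => z - p.2 • p.1) := by fun_prop
    exact ((hv.smooth.continuous_fderiv (by simp)).comp h1).clm_apply continuous_fst
  have hpt : ∀ z : ℂ, (v z - av v r z) ^ 2 ≤ 1 / 2 * ∫ p : ℂ × ℝ, gd v (z - p.2 • p.1) ∂ν := by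
    intro z
    have hline : ∀ t : ℂ, ∫ s in Ioc (0:ℝ) 1, fderiv ℝ v (z - s • t) t = v z - v (z - t) := by
      intro t
      have hd : ∀ s : ℝ, HasDerivAt (fun s : ℝ => -v (z - s • t)) (fderiv ℝ v (z - s • t) t) s := by
        intro s
        have h1 : HasDerivAt (fun s : ℝ => z - s • t) (-t) s := by
          have := ((hasDerivAt_id s).smul_const t).const_sub z
          simpa using this
        have h2 := ((hv.diff (z - s • t)).hasFDerivAt.comp_hasDerivAt s h1).neg
        have e : -(fderiv ℝ v (z - s • t) (-t)) = fderiv ℝ v (z - s • t) t := by rw [map_neg, neg_neg]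
        rw [e] at h2
        exact h2
      have hc : Continuous (fun s : ℝ => fderiv ℝ v (z - s • t) t) := by
        have h1 : Continuous (fun s : ℝ => z - s • t) := by fun_prop
        exact ((hv.smooth.continuous_fderiv (by simp)).comp h1).clm_apply continuous_const
      have := intervalIntegral.integral_eq_sub_of_hasDerivAt (fun s _ => hd s) (hc.intervalIntegrable 0 1)
      rw [intervalIntegral.integral_of_le zero_le_one] at this
      rw [this, one_smul, zero_smul, sub_zero]
      ring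
    have h1 : ∫ p, fderiv ℝ v (z - p.2 • p.1) p.1 ∂ν = 4 * r ^ 2 * (v z - av v r z) := by
      have hi := hcpt _ (hfc z)
      rw [hν] at hi ⊢
      rw [integral_prod _ hi]
      simp only
      simp_rw [hline]
      have i1 : IntegrableOn (fun t : ℂ => v (z - t)) (SH r) :=
        ((hv.cont.comp (continuous_const.sub continuous_id)).continuousOn.integrableOn_compact
          (isCompact_closedBall (0:ℂ) (2 * r))).mono_set (SH_sub r)
      have i0 : IntegrableOn (fun _ : ℂ => v z) (SH r) := integrableOn_const (by rw [SH_vol hr]; exact ENNReal.ofReal_ne_top)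
      rw [integral_sub i0 i1, setIntegral_const,
        measureReal_def, SH_vol hr, ENNReal.toReal_ofReal (by positivity), smul_eq_mul]
      have h2 : av v r z = (1 / (4 * r ^ 2)) * ∫ t in SH r, v (z - t) := by
        rw [av_conv, convolution_lsmul, ← integral_const_mul, ← integral_indicator (SH_meas r)]
        congr 1
        ext t
        unfold kr
        by_cases ht : t ∈ SH r
        · rw [indicator_of_mem ht, indicator_of_mem ht, smul_eq_mul]
        · rw [indicator_of_notMem ht, indicator_of_notMem ht, zero_smul]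
      rw [h2]
      field_simp
    have h2 := cs_fin ν _ (hcpt _ (hfc z)) (hcpt _ ((hfc z).pow 2))
    rw [h1, hνm] at h2
    have hgc : Continuous (fun p : ℂ × ℝ => gd v (z - p.2 • p.1)) := by
      have h1 : Continuous (fun p : ℂ × ℝ => z - p.2 • p.1) := by fun_prop
      exact (gd_cont hv).comp h1
    have h3 : ∫ p, fderiv ℝ v (z - p.2 • p.1) p.1 ^ 2 ∂ν ≤ ∫ p, 2 * r ^ 2 * gd v (z - p.2 • p.1) ∂ν := by
      apply integral_mono_ae (hcpt _ ((hfc z).pow 2)) ((hcpt _ hgc).const_mul _)
      rw [hνe]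
      rw [Filter.EventuallyLE, ae_restrict_iff' ((SH_meas r).prod measurableSet_Ioc)]
      apply Eventually.of_forall
      rintro ⟨t, s⟩ ⟨⟨⟨ht1, ht2⟩, ht3, ht4⟩, _⟩
      show (fderiv ℝ v (z - s • t) t) ^ 2 ≤ 2 * r ^ 2 * gd v (z - s • t)
      rw [fd_apply]
      unfold gd
      set p := gx v (z - s • t)
      set q := gy v (z - s • t)
      simp only at ht1 ht2 ht3 ht4
      have a1 : t.re ^ 2 ≤ r ^ 2 := sq_le_sq' ht1 ht2.le
      have a2 : t.im ^ 2 ≤ r ^ 2 := sq_le_sq' ht3 ht4.le
      have a3 : (t.re * p + t.im * q) ^ 2 + (t.re * q - t.im * p) ^ 2 = (t.re ^ 2 + t.im ^ 2) * (p ^ 2 + q ^ 2) := by ring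
      have a4 : (t.re ^ 2 + t.im ^ 2) * (p ^ 2 + q ^ 2) ≤ (2 * r ^ 2) * (p ^ 2 + q ^ 2) :=
        mul_le_mul_of_nonneg_right (by linarith) (by positivity)
      have a5 := sq_nonneg (t.re * q - t.im * p)
      linarith
    rw [integral_const_mul] at h3
    have hr2 : 0 < r ^ 2 := by positivity
    have h4 : (4 * r ^ 2 * (v z - av v r z)) ^ 2 ≤ 4 * r ^ 2 * (2 * r ^ 2 * ∫ p, gd v (z - p.2 • p.1) ∂ν) :=
      h2.trans (mul_le_mul_of_nonneg_left h3 (by positivity))
    have h5 : (16 * (r ^ 2) ^ 2) * (v z - av v r z) ^ 2 ≤ (16 * (r ^ 2) ^ 2) * (1 / 2 * ∫ p, gd v (z - p.2 • p.1) ∂ν) := by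
      calc (16 * (r ^ 2) ^ 2) * (v z - av v r z) ^ 2 = (4 * r ^ 2 * (v z - av v r z)) ^ 2 := by ring
        _ ≤ _ := h4
        _ = _ := by ring
    exact le_of_mul_le_mul_left h5 (by positivity)
  obtain ⟨s1, s2⟩ := swapG ν (fun p => p.2 • p.1) (by fun_prop) (gd v) (gd_cont hv) (gd_int hv)
  have hvU : TF (U ∪ ball 0 4) v := hv.mono subset_union_left
  have havU : TF (U ∪ ball 0 4) (av v r) := hav.mono subset_union_right
  rw [Ip_self]
  calc ∫ z, (v z - av v r z) ^ 2 ≤ ∫ z, 1 / 2 * ∫ p : ℂ × ℝ, gd v (z - p.2 • p.1) ∂ν :=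
        integral_mono (hvU.sub havU).sq_int (s1.const_mul _) hpt
    _ = 2 * r ^ 2 * En v v := by
        rw [integral_const_mul, s2, hνm, En_self]
        show 1 / 2 * (4 * r ^ 2 * ∫ z, (gx v z ^ 2 + gy v z ^ 2)) = _
        ring

end Pool.Agent.Helper533.StarBox
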