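import Pool.Agent.Helper533.StarBox.Pos

open MeasureTheory Metric Set Filter
open scoped Topology

namespace Pool.Agent.Helper533.StarBox

/-- smooth convex approximation of the positive part -/
noncomputable def BB (s : ℝ) : ℝ := ∫ τ in (0:ℝ)..s, Real.smoothTransition τ

theorem st_cont : Continuous Real.smoothTransition := Real.smoothTransition.continuous

theorem BB_deriv (s : ℝ) : HasDerivAt BB (Real.smoothTransition s) s :=
  intervalIntegral.integral_hasDerivAt_right (st_cont.intervalIntegrable _ _)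
    st_cont.stronglyMeasurable.stronglyMeasurableAtFilter st_cont.continuousAt

theorem BB_deriv_eq : deriv BB = Real.smoothTransition := by ext s; exact (BB_deriv s).deriv

theorem BB_smooth : ContDiff ℝ (⊤ : ℕ∞) BB := by
  rw [contDiff_infty_iff_deriv, BB_deriv_eq]
  exact ⟨fun t => (BB_deriv t).differentiableAt, Real.smoothTransition.contDiff⟩

theorem BB_zero {s : ℝ} (hs : s ≤ 0) : BB s = 0 := by
  unfold BB
  rw [intervalIntegral.integral_congr (g := fun _ => 0)]
  · simp
  · intro τ hτ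
    rw [uIcc_of_ge hs] at hτ
    exact Real.smoothTransition.zero_of_nonpos hτ.2

theorem BB_mono : Monotone BB := by
  apply monotone_of_deriv_nonneg (fun t => (BB_deriv t).differentiableAt)
  intro t; rw [BB_deriv_eq]; exact Real.smoothTransition.nonneg t

theorem BB_nonneg (s : ℝ) : 0 ≤ BB s := by
  rcases le_total s 0 with h | h
  · rw [BB_zero h]
  · rw [← BB_zero (le_refl (0:ℝ))]; exact BB_mono h

theorem BB_pos {s : ℝ} (hs : 0 < s) : 0 < BB s := by
  unfold BB
  apply intervalIntegral.intervalIntegral_pos_of_pos_on (st_cont.intervalIntegrable _ _) _ hs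
  intro x hx
  exact Real.smoothTransition.pos_of_pos hx.1

theorem BB_lip (s t : ℝ) : |BB s - BB t| ≤ |s - t| := by
  have key : ∀ s t : ℝ, s ≤ t → |BB t - BB s| ≤ |t - s| := by
    intro s t hst
    have e : BB t - BB s = ∫ τ in s..t, Real.smoothTransition τ := by
      unfold BB
      rw [intervalIntegral.integral_interval_sub_left (st_cont.intervalIntegrable _ _) (st_cont.intervalIntegrable _ _)]
    rw [e]
    have := intervalIntegral.norm_integral_le_of_norm_le_const (a := s) (b := t) (f := Real.smoothTransition) (C := 1)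
      (fun x _ => by
        rw [Real.norm_of_nonneg (Real.smoothTransition.nonneg x)]; exact Real.smoothTransition.le_one x)
    rwa [one_mul, Real.norm_eq_abs] at this
  rcases le_total s t with h | h
  · rw [abs_sub_comm, abs_sub_comm s t]; exact key s t h
  · exact key t s h

theorem BB_deriv_sq_le (t : ℝ) : deriv BB t ^ 2 ≤ 1 := by
  rw [BB_deriv_eq]
  have h1 := Real.smoothTransition.nonneg t
  have h2 := Real.smoothTransition.le_one t
  nlinarith

theorem BB_ge (s : ℝ) : s - 1 ≤ BB s := by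
  rcases le_total s 1 with h | h
  · have := BB_nonneg s; linarith
  · unfold BB
    rw [← intervalIntegral.integral_add_adjacent_intervals (st_cont.intervalIntegrable 0 1) (st_cont.intervalIntegrable 1 s)]
    have h1 : 0 ≤ ∫ τ in (0:ℝ)..1, Real.smoothTransition τ :=
      intervalIntegral.integral_nonneg zero_le_one fun τ _ => Real.smoothTransition.nonneg τ
    have h2 : ∫ τ in (1:ℝ)..s, Real.smoothTransition τ = ∫ τ in (1:ℝ)..s, (1:ℝ) := by
      apply intervalIntegral.integral_congr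
      intro τ hτ
      rw [uIcc_of_le h] at hτ
      exact Real.smoothTransition.one_of_one_le hτ.1
    rw [h2, intervalIntegral.integral_const, smul_eq_mul, mul_one]
    linarith

theorem BB_le (s : ℝ) (hs : 0 ≤ s) : BB s ≤ s := by
  have := BB_lip s 0
  rw [BB_zero (le_refl 0), sub_zero, sub_zero, abs_of_nonneg (BB_nonneg s), abs_of_nonneg hs] at this
  exact this

/-- ground states are limits of sequences -/
theorem GS.seq {U : Set ℂ} {u : L2} (hu : GS U u) : ∃ v : ℕ → ℂ → ℝ, (∀ n, TF U (v n)) ∧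
    Tendsto (fun n => cls (v n)) atTop (𝓝 u) ∧ Tendsto (fun n => Qf U (v n) (v n)) atTop (𝓝 0) := by
  have h1 : ∀ n : ℕ, ∃ v, TF U v ∧ ‖cls v - u‖ ≤ 1 / ((n : ℝ) + 1) ∧ Qf U v v ≤ 1 / ((n : ℝ) + 1) :=
    fun n => hu _ (by positivity)
  choose v hv hv1 hv2 using h1
  have t0 := tendsto_one_div_add_atTop_nhds_zero_nat (𝕜 := ℝ)
  refine ⟨v, hv, ?_, ?_⟩
  · rw [tendsto_iff_norm_sub_tendsto_zero]
    exact squeeze_zero (fun n => norm_nonneg _) hv1 t0
  · exact squeeze_zero (fun n => Qf_nonneg (hv n)) hv2 t0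

theorem tendsto_Qf_zero {U : Set ℂ} {v h : ℕ → ℂ → ℝ} (hv : ∀ n, TF U (v n)) (hh : ∀ n, TF U (h n))
    (hQ : Tendsto (fun n => Qf U (v n) (v n)) atTop (𝓝 0)) {M : ℝ} (hM : ∀ n, Qf U (h n) (h n) ≤ M) :
    Tendsto (fun n => Qf U (v n) (h n)) atTop (𝓝 0) := by
  have h1 : Tendsto (fun n => √(Qf U (v n) (v n)) * √M) atTop (𝓝 0) := by
    have := (hQ.sqrt).mul_const (√M)
    simpa using this
  apply squeeze_zero_norm _ h1
  intro n
  rw [Real.norm_eq_abs]
  exact (Qf_abs_le (hv n) (hh n)).trans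
    (mul_le_mul_of_nonneg_left (Real.sqrt_le_sqrt (hM n)) (Real.sqrt_nonneg _))

/-- energy of a convergent minimising sequence is bounded -/
theorem En_bdd {U : Set ℂ} {u : L2} {v : ℕ → ℂ → ℝ} (hv : ∀ n, TF U (v n))
    (h1 : Tendsto (fun n => cls (v n)) atTop (𝓝 u)) (h2 : Tendsto (fun n => Qf U (v n) (v n)) atTop (𝓝 0)) :
    ∃ M, ∀ n, En (v n) (v n) ≤ M := by
  have h3 : Tendsto (fun n => En (v n) (v n)) atTop (𝓝 (0 + lambda1 U * ‖u‖ ^ 2)) := by
    have h4 := h2.add (((h1.norm).pow 2).const_mul (lambda1 U))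
    refine h4.congr fun n => ?_
    rw [norm_cls_sq (hv n)]; unfold Qf; ring
  obtain ⟨M, hM⟩ := h3.bddAbove_range
  exact ⟨M, fun n => hM ⟨n, rfl⟩⟩

theorem memLp_BB {f : ℂ → ℝ} (hf : MemLp f 2 (volume : Measure ℂ)) : MemLp (fun z => BB (f z)) 2 (volume : Measure ℂ) := by
  refine hf.mono (BB_smooth.continuous.comp_aestronglyMeasurable hf.1) ?_
  apply Eventually.of_forall
  intro z
  have := BB_lip (f z) 0
  rw [BB_zero (le_refl 0), sub_zero, sub_zero] at this
  exact this

/-- comparison with a smooth function which is subharmonic outside a compact set -/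
theorem barrier {U : Set ℂ} (hU : IsOpen U) {u : L2} (hu : GS U u) (hu0 : ∀ᵐ z, 0 ≤ (u : ℂ → ℝ) z)
    (hup : ∀ᵐ z, z ∈ U → 0 < (u : ℂ → ℝ) z) (hl : 0 < lambda1 U) {K : Set ℂ} {cK C : ℝ}
    (hC : 0 < C) (hcK : 0 < cK) (hK : ∀ᵐ z, z ∈ K → cK ≤ (u : ℂ → ℝ) z) {ψ : ℂ → ℝ} (hψ : TF U ψ)
    (h1 : ∀ z, -lap ψ z ≤ C) (h2 : ∀ z ∉ K, 0 ≤ lap ψ z) :
    ∀ᵐ z, lambda1 U * cK / (2 * C) * ψ z ≤ (u : ℂ → ℝ) z := by
  set c := lambda1 U * cK / (2 * C) with hc
  have hc0 : 0 < c := by positivity
  have hcC : c * C = lambda1 U * cK / 2 := by rw [hc]; field_simp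
  obtain ⟨v, hv, hv1, hv2⟩ := hu.seq
  obtain ⟨M, hM⟩ := En_bdd hv hv1 hv2
  have hw : ∀ n, TF U (fun z => c * ψ z - v n z) := fun n => (hψ.smul c).sub (hv n)
  have hh : ∀ n, TF U (fun z => BB (c * ψ z - v n z)) := fun n => (hw n).comp_smooth BB_smooth (BB_zero le_rfl)
  -- the limit function
  have hwm : MemLp (fun z => c * ψ z - (u : ℂ → ℝ) z) 2 (volume : Measure ℂ) := (hψ.smul c).memLp.sub (Lp.memLp u)
  have hhm := memLp_BB hwm
  set h : L2 := cls (fun z => BB (c * ψ z - (u : ℂ → ℝ) z)) with hh'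
  have hht : Tendsto (fun n => cls (fun z => BB (c * ψ z - v n z))) atTop (𝓝 h) := by
    rw [tendsto_iff_norm_sub_tendsto_zero]
    have h3 := tendsto_iff_norm_sub_tendsto_zero.mp hv1
    apply squeeze_zero (fun n => norm_nonneg _) _ h3
    intro n
    rw [hh', ← cls_sub (hh n).memLp hhm]
    have e : cls (v n) - u = cls (fun z => v n z - (u : ℂ → ℝ) z) := by
      rw [cls_sub (hv n).memLp (Lp.memLp u), cls_self]
    rw [e]
    apply norm_cls_le ((hh n).memLp.sub hhm) ((hv n).memLp.sub (Lp.memLp u))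
    apply Eventually.of_forall
    intro z
    have := BB_lip (c * ψ z - v n z) (c * ψ z - (u : ℂ → ℝ) z)
    have e2 : c * ψ z - v n z - (c * ψ z - (u : ℂ → ℝ) z) = -(v n z - (u : ℂ → ℝ) z) := by ring
    rw [e2, abs_neg] at this
    exact this
  -- energy bound for h n
  have hQh : ∀ n, Qf U (fun z => BB (c * ψ z - v n z)) (fun z => BB (c * ψ z - v n z)) ≤
      2 * En (fun z => c * ψ z) (fun z => c * ψ z) + 2 * M := by
    intro n
    have e1 : Qf U (fun z => BB (c * ψ z - v n z)) (fun z => BB (c * ψ z - v n z)) ≤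
        En (fun z => BB (c * ψ z - v n z)) (fun z => BB (c * ψ z - v n z)) := by
      unfold Qf; have := mul_nonneg hl.le (Ip_nonneg (fun z => BB (c * ψ z - v n z))); linarith
    have e2 := En_comp_le (hw n) BB_smooth (BB_zero le_rfl) BB_deriv_sq_le
    have e3 := En_sub_le (hψ.smul c) (hv n)
    have e4 := hM n
    linarith
  have hQ0 := tendsto_Qf_zero hv hh hv2 hQh
  -- the basic inequality
  have hineq : ∀ n, 0 ≤ -(c * inner ℝ (cls (fun z => BB (c * ψ z - v n z))) (cls (lap ψ))) -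
      Qf U (v n) (fun z => BB (c * ψ z - v n z)) -
      lambda1 U * inner ℝ (cls (v n)) (cls (fun z => BB (c * ψ z - v n z))) := by
    intro n
    have e0 : 0 ≤ En (fun z => c * ψ z - v n z) (fun z => BB (c * ψ z - v n z)) := by
      unfold En
      apply integral_nonneg
      intro z
      show 0 ≤ gx (fun z => c * ψ z - v n z) z * gx (fun z => BB (c * ψ z - v n z)) z +
        gy (fun z => c * ψ z - v n z) z * gy (fun z => BB (c * ψ z - v n z)) z
      have hd : DifferentiableAt ℝ BB (c * ψ z - v n z) := (BB_deriv _).differentiableAt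
      rw [gx_comp' ((hw n).diff z) hd, gy_comp' ((hw n).diff z) hd, BB_deriv_eq]
      have := Real.smoothTransition.nonneg (c * ψ z - v n z)
      have e : gx (fun z => c * ψ z - v n z) z * (Real.smoothTransition (c * ψ z - v n z) * gx (fun z => c * ψ z - v n z) z) +
          gy (fun z => c * ψ z - v n z) z * (Real.smoothTransition (c * ψ z - v n z) * gy (fun z => c * ψ z - v n z) z) =
          Real.smoothTransition (c * ψ z - v n z) * (gx (fun z => c * ψ z - v n z) z ^ 2 + gy (fun z => c * ψ z - v n z) z ^ 2) := by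
        ring
      rw [e]; positivity
    rw [En_sub_left (hψ.smul c) (hv n) (hh n), En_smul_left c hψ, En_comm ψ, ibp (hh n) hψ] at e0
    rw [inner_cls_tf (hh n) hψ.lap_tf, inner_cls_tf (hv n) (hh n)]
    unfold Qf Ip
    beta_reduce at e0 ⊢
    linarith
  have hlim : Tendsto (fun n => -(c * inner ℝ (cls (fun z => BB (c * ψ z - v n z))) (cls (lap ψ))) -
      Qf U (v n) (fun z => BB (c * ψ z - v n z)) -
      lambda1 U * inner ℝ (cls (v n)) (cls (fun z => BB (c * ψ z - v n z)))) atTop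
      (𝓝 (-(c * inner ℝ h (cls (lap ψ))) - 0 - lambda1 U * inner ℝ u h)) :=
    ((((hht.inner tendsto_const_nhds).const_mul c).neg).sub hQ0).sub ((hv1.inner hht).const_mul _)
  have h3 := ge_of_tendsto' hlim hineq
  -- pointwise
  have hhc : (h : ℂ → ℝ) =ᵐ[volume] fun z => BB (c * ψ z - (u : ℂ → ℝ) z) := cls_coe hhm
  have e1 : inner ℝ h (cls (lap ψ)) = ∫ z, BB (c * ψ z - (u : ℂ → ℝ) z) * lap ψ z := inner_cls hhm hψ.lap_tf.memLp
  have e2 : inner ℝ u h = ∫ z, (u : ℂ → ℝ) z * BB (c * ψ z - (u : ℂ → ℝ) z) := by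
    conv_lhs => rw [← cls_self u]
    exact inner_cls (Lp.memLp u) hhm
  have i1 : Integrable (fun z => BB (c * ψ z - (u : ℂ → ℝ) z) * lap ψ z) := hhm.integrable_mul hψ.lap_tf.memLp
  have i2 : Integrable (fun z => (u : ℂ → ℝ) z * BB (c * ψ z - (u : ℂ → ℝ) z)) := (Lp.memLp u).integrable_mul hhm
  have h4 : ∫ z, (c * lap ψ z + lambda1 U * (u : ℂ → ℝ) z) * BB (c * ψ z - (u : ℂ → ℝ) z) ≤ 0 := by
    have : (fun z => (c * lap ψ z + lambda1 U * (u : ℂ → ℝ) z) * BB (c * ψ z - (u : ℂ → ℝ) z)) =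
        fun z => c * (BB (c * ψ z - (u : ℂ → ℝ) z) * lap ψ z) + lambda1 U * ((u : ℂ → ℝ) z * BB (c * ψ z - (u : ℂ → ℝ) z)) := by
      ext z; ring
    rw [this, integral_add (i1.const_mul _) (i2.const_mul _), integral_const_mul, integral_const_mul, ← e1, ← e2]
    linarith
  have i3 : Integrable (fun z => (c * lap ψ z + lambda1 U * (u : ℂ → ℝ) z) * BB (c * ψ z - (u : ℂ → ℝ) z)) := by
    have := (i1.const_mul c).add (i2.const_mul (lambda1 U))
    exact this.congr (Eventually.of_forall fun z => by simp only [Pi.add_apply]; ring)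
  have hpt : ∀ᵐ z, z ∈ U → 0 < c * lap ψ z + lambda1 U * (u : ℂ → ℝ) z := by
    filter_upwards [hup, hK] with z a b hz
    by_cases hzK : z ∈ K
    · have h5 := h1 z
      have h6 := b hzK
      have h7 : -(c * lap ψ z) ≤ lambda1 U * cK / 2 := by
        rw [← hcC, ← mul_neg]; exact mul_le_mul_of_nonneg_left h5 hc0.le
      have h8 : lambda1 U * cK ≤ lambda1 U * (u : ℂ → ℝ) z := mul_le_mul_of_nonneg_left h6 hl.le
      have h9 : 0 < lambda1 U * cK := by positivity
      linarith
    · have h5 := h2 z hzK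
      have h6 := a hz
      have h7 : 0 ≤ c * lap ψ z := by positivity
      have h8 : 0 < lambda1 U * (u : ℂ → ℝ) z := by positivity
      linarith
  have hout := hu.zero_outside hU.measurableSet
  have hψ0 : ∀ z, z ∉ U → ψ z = 0 := fun z hz => image_eq_zero_of_notMem_tsupport (fun h => hz (hψ.supp h))
  have hnn : 0 ≤ᵐ[volume] fun z => (c * lap ψ z + lambda1 U * (u : ℂ → ℝ) z) * BB (c * ψ z - (u : ℂ → ℝ) z) := by
    filter_upwards [hpt, hout] with z a b
    by_cases hz : z ∈ U
    · exact mul_nonneg (a hz).le (BB_nonneg _)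
    · show 0 ≤ (c * lap ψ z + lambda1 U * (u : ℂ → ℝ) z) * BB (c * ψ z - (u : ℂ → ℝ) z)
      rw [b hz, hψ0 z hz]
      simp [BB_zero le_rfl]
  have h5 := (integral_eq_zero_iff_of_nonneg_ae hnn i3).mp (le_antisymm h4 (integral_nonneg_of_ae hnn))
  filter_upwards [h5, hpt, hout, hu0] with z a b d e
  by_cases hz : z ∈ U
  · rcases mul_eq_zero.mp a with a' | a'
    · have := b hz; linarith
    · by_contra hcon
      push Not at hcon
      have := BB_pos (show 0 < c * ψ z - (u : ℂ → ℝ) z by linarith)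
      linarith
  · rw [hψ0 z hz, mul_zero]; exact e

end Pool.Agent.Helper533.StarBox
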