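import Mathlib

open MeasureTheory Metric Set Filter
open scoped Topology

namespace Pool.Agent.Helper533.StarBox

/-- test functions in `U`, the zero function included -/
structure TF (U : Set ℂ) (u : ℂ → ℝ) : Prop where
  smooth : ContDiff ℝ (⊤ : ℕ∞) u
  comp : HasCompactSupport u
  supp : tsupport u ⊆ U

/-- partial derivatives -/
noncomputable def gx (u : ℂ → ℝ) (z : ℂ) : ℝ := fderiv ℝ u z 1
noncomputable def gy (u : ℂ → ℝ) (z : ℂ) : ℝ := fderiv ℝ u z Complex.I

/-- Dirichlet form and `L²` form -/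
noncomputable def En (u v : ℂ → ℝ) : ℝ := ∫ z, (gx u z * gx v z + gy u z * gy v z)
noncomputable def Ip (u v : ℂ → ℝ) : ℝ := ∫ z, u z * v z

theorem norm_gradient_sq (u : ℂ → ℝ) (z : ℂ) : ‖gradient u z‖ ^ 2 = gx u z ^ 2 + gy u z ^ 2 := by
  have h : ∀ v, fderiv ℝ u z v = inner ℝ (gradient u z) v := fun v => by
    rw [gradient, InnerProductSpace.toDual_symm_apply]
  unfold gx gy
  rw [h, h, ← Complex.normSq_eq_norm_sq, Complex.normSq_apply, Complex.inner, Complex.inner]
  simp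
  ring

theorem eventually_zero_of_notMem {w : ℂ → ℝ} {z : ℂ} (hz : z ∉ tsupport w) :
    w =ᶠ[nhds z] fun _ => 0 := by
  have : (tsupport w)ᶜ ∈ nhds z := (isClosed_tsupport w).isOpen_compl.mem_nhds hz
  filter_upwards [this] with y hy
  exact image_eq_zero_of_notMem_tsupport hy

theorem fderiv_zero_of_notMem {w : ℂ → ℝ} {z : ℂ} (hz : z ∉ tsupport w) : fderiv ℝ w z = 0 := by
  rw [(eventually_zero_of_notMem hz).fderiv_eq]; simp

theorem tsupport_sub_of_zero {f u : ℂ → ℝ} (h : ∀ z, u z = 0 → f z = 0) : tsupport f ⊆ tsupport u := by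
  apply closure_mono
  intro z hz
  rw [Function.mem_support] at hz ⊢
  intro h0
  exact hz (h z h0)

theorem contDiff_of_tsupport {n : WithTop ℕ∞} {f : ℂ → ℝ} (h : ∀ z ∈ tsupport f, ContDiffAt ℝ n f z) :
    ContDiff ℝ n f := by
  rw [contDiff_iff_contDiffAt]
  intro z
  by_cases hz : z ∈ tsupport f
  · exact h z hz
  · exact contDiffAt_const.congr_of_eventuallyEq (eventually_zero_of_notMem hz)

namespace TF

variable {U V : Set ℂ} {u v : ℂ → ℝ}

theorem zero (U : Set ℂ) : TF U (fun _ => 0) := by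
  refine ⟨contDiff_const, ?_, ?_⟩
  · exact HasCompactSupport.zero
  · simp [tsupport]

theorem mono (h : TF U u) (hUV : U ⊆ V) : TF V u := ⟨h.smooth, h.comp, h.supp.trans hUV⟩

theorem add (hu : TF U u) (hv : TF U v) : TF U (fun z => u z + v z) := by
  refine ⟨hu.smooth.add hv.smooth, hu.comp.add hv.comp, ?_⟩
  refine (closure_mono (Function.support_add u v)).trans ?_
  rw [closure_union]
  exact union_subset hu.supp hv.supp

theorem smul (c : ℝ) (hu : TF U u) : TF U (fun z => c * u z) := by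
  have hs : tsupport (fun z => c * u z) ⊆ tsupport u := tsupport_sub_of_zero (fun z h => by simp [h])
  exact ⟨contDiff_const.mul hu.smooth, IsCompact.of_isClosed_subset hu.comp (isClosed_tsupport _) hs, hs.trans hu.supp⟩

theorem sub (hu : TF U u) (hv : TF U v) : TF U (fun z => u z - v z) := by
  have := hu.add (hv.smul (-1))
  refine (funext (fun z => by ring) : (fun z => u z + (-1) * v z) = fun z => u z - v z) ▸ this

theorem mul_smooth (hu : TF U u) {χ : ℂ → ℝ} (hχ : ContDiff ℝ (⊤ : ℕ∞) χ) : TF U (fun z => χ z * u z) := by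
  have hs : tsupport (fun z => χ z * u z) ⊆ tsupport u := tsupport_sub_of_zero (fun z h => by simp [h])
  exact ⟨hχ.mul hu.smooth, IsCompact.of_isClosed_subset hu.comp (isClosed_tsupport _) hs, hs.trans hu.supp⟩

theorem comp_smooth (hu : TF U u) {β : ℝ → ℝ} (hβ : ContDiff ℝ (⊤ : ℕ∞) β) (h0 : β 0 = 0) :
    TF U (fun z => β (u z)) := by
  have hs : tsupport (fun z => β (u z)) ⊆ tsupport u := tsupport_sub_of_zero (fun z h => by simp [h, h0])
  exact ⟨hβ.comp hu.smooth, IsCompact.of_isClosed_subset hu.comp (isClosed_tsupport _) hs, hs.trans hu.supp⟩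

theorem cont (hu : TF U u) : Continuous u := hu.smooth.continuous

theorem diff (hu : TF U u) : Differentiable ℝ u := hu.smooth.differentiable (by simp)

theorem c1 (hu : TF U u) : ContDiff ℝ 1 u := hu.smooth.of_le (by simp)

theorem gx_cont (hu : TF U u) : Continuous (gx u) :=
  (hu.smooth.continuous_fderiv (by simp)).clm_apply continuous_const

theorem gy_cont (hu : TF U u) : Continuous (gy u) :=
  (hu.smooth.continuous_fderiv (by simp)).clm_apply continuous_const

theorem gx_zero {z : ℂ} (hz : z ∉ tsupport u) : gx u z = 0 := by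
  unfold gx; rw [fderiv_zero_of_notMem hz]; rfl

theorem gy_zero {z : ℂ} (hz : z ∉ tsupport u) : gy u z = 0 := by
  unfold gy; rw [fderiv_zero_of_notMem hz]; rfl

theorem gx_comp (hu : TF U u) : HasCompactSupport (gx u) := by
  apply IsCompact.of_isClosed_subset hu.comp (isClosed_tsupport _)
  apply closure_minimal _ (isClosed_tsupport _)
  intro z hz
  by_contra hcon
  exact hz (gx_zero hcon)

theorem gy_comp (hu : TF U u) : HasCompactSupport (gy u) := by
  apply IsCompact.of_isClosed_subset hu.comp (isClosed_tsupport _)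
  apply closure_minimal _ (isClosed_tsupport _)
  intro z hz
  by_contra hcon
  exact hz (gy_zero hcon)

theorem en_int (hu : TF U u) (hv : TF V v) : Integrable (fun z => gx u z * gx v z + gy u z * gy v z) := by
  apply Integrable.add
  · exact (hu.gx_cont.mul hv.gx_cont).integrable_of_hasCompactSupport hu.gx_comp.mul_right
  · exact (hu.gy_cont.mul hv.gy_cont).integrable_of_hasCompactSupport hu.gy_comp.mul_right

theorem ip_int (hu : TF U u) (hv : Continuous v) : Integrable (fun z => u z * v z) :=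
  (hu.cont.mul hv).integrable_of_hasCompactSupport hu.comp.mul_right

theorem sq_int (hu : TF U u) : Integrable (fun z => u z ^ 2) :=
  (hu.cont.pow 2).integrable_of_hasCompactSupport
    (IsCompact.of_isClosed_subset hu.comp (isClosed_tsupport _) (tsupport_sub_of_zero (fun z h => by simp [h])))

theorem ensq_int (hu : TF U u) : Integrable (fun z => gx u z ^ 2 + gy u z ^ 2) := by
  have := hu.en_int hu
  exact this.congr (Eventually.of_forall fun z => by ring)

theorem memLp (hu : TF U u) : MemLp u 2 (volume : Measure ℂ) :=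
  hu.cont.memLp_of_hasCompactSupport hu.comp

end TF

theorem gx_add {u v : ℂ → ℝ} {z : ℂ} (hu : DifferentiableAt ℝ u z) (hv : DifferentiableAt ℝ v z) :
    gx (fun z => u z + v z) z = gx u z + gx v z := by
  unfold gx; rw [fderiv_fun_add hu hv]; rfl

theorem gy_add {u v : ℂ → ℝ} {z : ℂ} (hu : DifferentiableAt ℝ u z) (hv : DifferentiableAt ℝ v z) :
    gy (fun z => u z + v z) z = gy u z + gy v z := by
  unfold gy; rw [fderiv_fun_add hu hv]; rfl

theorem gx_sub {u v : ℂ → ℝ} {z : ℂ} (hu : DifferentiableAt ℝ u z) (hv : DifferentiableAt ℝ v z) :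
    gx (fun z => u z - v z) z = gx u z - gx v z := by
  unfold gx; rw [fderiv_fun_sub hu hv]; rfl

theorem gy_sub {u v : ℂ → ℝ} {z : ℂ} (hu : DifferentiableAt ℝ u z) (hv : DifferentiableAt ℝ v z) :
    gy (fun z => u z - v z) z = gy u z - gy v z := by
  unfold gy; rw [fderiv_fun_sub hu hv]; rfl

theorem gx_smul {u : ℂ → ℝ} {z : ℂ} (c : ℝ) (hu : DifferentiableAt ℝ u z) :
    gx (fun z => c * u z) z = c * gx u z := by
  unfold gx; rw [fderiv_const_mul hu]; rfl

theorem gy_smul {u : ℂ → ℝ} {z : ℂ} (c : ℝ) (hu : DifferentiableAt ℝ u z) :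
    gy (fun z => c * u z) z = c * gy u z := by
  unfold gy; rw [fderiv_const_mul hu]; rfl

theorem gx_mul {u v : ℂ → ℝ} {z : ℂ} (hu : DifferentiableAt ℝ u z) (hv : DifferentiableAt ℝ v z) :
    gx (fun z => u z * v z) z = u z * gx v z + v z * gx u z := by
  unfold gx; rw [fderiv_fun_mul hu hv]; rfl

theorem gy_mul {u v : ℂ → ℝ} {z : ℂ} (hu : DifferentiableAt ℝ u z) (hv : DifferentiableAt ℝ v z) :
    gy (fun z => u z * v z) z = u z * gy v z + v z * gy u z := by
  unfold gy; rw [fderiv_fun_mul hu hv]; rfl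

theorem gx_comp' {u : ℂ → ℝ} {β : ℝ → ℝ} {z : ℂ} (hu : DifferentiableAt ℝ u z) (hβ : DifferentiableAt ℝ β (u z)) :
    gx (fun z => β (u z)) z = deriv β (u z) * gx u z := by
  unfold gx
  have := hβ.hasDerivAt.comp_hasFDerivAt z hu.hasFDerivAt
  rw [HasFDerivAt.fderiv (f := fun z => β (u z)) this]; rfl

theorem gy_comp' {u : ℂ → ℝ} {β : ℝ → ℝ} {z : ℂ} (hu : DifferentiableAt ℝ u z) (hβ : DifferentiableAt ℝ β (u z)) :
    gy (fun z => β (u z)) z = deriv β (u z) * gy u z := by
  unfold gy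
  have := hβ.hasDerivAt.comp_hasFDerivAt z hu.hasFDerivAt
  rw [HasFDerivAt.fderiv (f := fun z => β (u z)) this]; rfl

theorem En_comm (u v : ℂ → ℝ) : En u v = En v u := by
  unfold En; congr 1; ext z; ring

theorem Ip_comm (u v : ℂ → ℝ) : Ip u v = Ip v u := by
  unfold Ip; congr 1; ext z; ring

section bil
variable {U V W : Set ℂ} {u v w : ℂ → ℝ}

theorem En_add_left (hu : TF U u) (hv : TF V v) (hw : TF W w) :
    En (fun z => u z + v z) w = En u w + En v w := by
  unfold En
  rw [← integral_add (hu.en_int hw) (hv.en_int hw)]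
  congr 1; ext z
  rw [gx_add (hu.diff z) (hv.diff z), gy_add (hu.diff z) (hv.diff z)]
  ring

theorem En_sub_left (hu : TF U u) (hv : TF V v) (hw : TF W w) :
    En (fun z => u z - v z) w = En u w - En v w := by
  unfold En
  rw [← integral_sub (hu.en_int hw) (hv.en_int hw)]
  congr 1; ext z
  rw [gx_sub (hu.diff z) (hv.diff z), gy_sub (hu.diff z) (hv.diff z)]
  ring

theorem En_smul_left (c : ℝ) (hu : TF U u) (w : ℂ → ℝ) :
    En (fun z => c * u z) w = c * En u w := by
  unfold En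
  rw [← integral_const_mul]
  congr 1; ext z
  rw [gx_smul c (hu.diff z), gy_smul c (hu.diff z)]
  ring

theorem Ip_add_left (hu : TF U u) (hv : TF V v) (hw : TF W w) :
    Ip (fun z => u z + v z) w = Ip u w + Ip v w := by
  unfold Ip
  rw [← integral_add (hu.ip_int hw.cont) (hv.ip_int hw.cont)]
  congr 1; ext z; ring

theorem Ip_sub_left (hu : TF U u) (hv : TF V v) (hw : TF W w) :
    Ip (fun z => u z - v z) w = Ip u w - Ip v w := by
  unfold Ip
  rw [← integral_sub (hu.ip_int hw.cont) (hv.ip_int hw.cont)]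
  congr 1; ext z; ring

theorem Ip_smul_left (c : ℝ) (u w : ℂ → ℝ) : Ip (fun z => c * u z) w = c * Ip u w := by
  unfold Ip
  rw [← integral_const_mul]
  congr 1; ext z; ring

end bil

theorem En_self (u : ℂ → ℝ) : En u u = ∫ z, (gx u z ^ 2 + gy u z ^ 2) := by
  unfold En; congr 1; ext z; ring

theorem Ip_self (u : ℂ → ℝ) : Ip u u = ∫ z, u z ^ 2 := by
  unfold Ip; congr 1; ext z; ring

theorem En_nonneg (u : ℂ → ℝ) : 0 ≤ En u u := by
  rw [En_self]; exact integral_nonneg fun z => by positivity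

theorem Ip_nonneg (u : ℂ → ℝ) : 0 ≤ Ip u u := by
  rw [Ip_self]; exact integral_nonneg fun z => by positivity

/-! ### the first eigenvalue -/

/-- `IsTest U u` : `u` is a test function in `U` not identically zero. -/
def IsTest (U : Set ℂ) (u : ℂ → ℝ) : Prop :=
  ContDiff ℝ (⊤ : ℕ∞) u ∧ HasCompactSupport u ∧ tsupport u ⊆ U ∧ ∃ z, u z ≠ 0

noncomputable def rayleigh (u : ℂ → ℝ) : ℝ :=
  (∫ z, ‖gradient u z‖ ^ 2) / (∫ z, (u z) ^ 2)

noncomputable def lambda1 (U : Set ℂ) : ℝ :=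
  sInf {q : ℝ | ∃ u : ℂ → ℝ, IsTest U u ∧ q = rayleigh u}

theorem IsTest.tf {U : Set ℂ} {u : ℂ → ℝ} (h : IsTest U u) : TF U u := ⟨h.1, h.2.1, h.2.2.1⟩

theorem rayleigh_eq (u : ℂ → ℝ) : rayleigh u = En u u / Ip u u := by
  unfold rayleigh
  rw [En_self, Ip_self]
  simp_rw [norm_gradient_sq]

theorem exists_test {U : Set ℂ} (hU : IsOpen U) (hne : U.Nonempty) : ∃ u, IsTest U u := by
  obtain ⟨c, hc⟩ := hne
  obtain ⟨r, hr, hrU⟩ := Metric.isOpen_iff.mp hU c hc
  let f : ContDiffBump c := ⟨r / 4, r / 2, by positivity, by linarith⟩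
  refine ⟨f, f.contDiff, f.hasCompactSupport, ?_, c, ?_⟩
  · rw [f.tsupport_eq]
    exact (closedBall_subset_ball (by show r / 2 < r; linarith)).trans hrU
  · have : f c = 1 := f.one_of_mem_closedBall (mem_closedBall_self f.rIn_pos.le)
    rw [this]; norm_num

theorem rayleigh_nonneg (u : ℂ → ℝ) : 0 ≤ rayleigh u := by
  rw [rayleigh_eq]; exact div_nonneg (En_nonneg u) (Ip_nonneg u)

theorem lambda1_nonneg (U : Set ℂ) : 0 ≤ lambda1 U := by
  apply Real.sInf_nonneg
  rintro q ⟨u, _, rfl⟩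
  exact rayleigh_nonneg u

theorem lambda1_le {U : Set ℂ} {u : ℂ → ℝ} (h : IsTest U u) : lambda1 U ≤ rayleigh u := by
  apply csInf_le
  · exact ⟨0, by rintro q ⟨v, _, rfl⟩; exact rayleigh_nonneg v⟩
  · exact ⟨u, h, rfl⟩

theorem le_lambda1 {U : Set ℂ} (hU : IsOpen U)
    (hne : U.Nonempty) {a : ℝ} (h : ∀ u, IsTest U u → a ≤ rayleigh u) : a ≤ lambda1 U := by
  obtain ⟨u, hu⟩ := exists_test hU hne
  have hne' : {q : ℝ | ∃ u : ℂ → ℝ, IsTest U u ∧ q = rayleigh u}.Nonempty :=
    ⟨rayleigh u, u, hu, rfl⟩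
  apply le_csInf hne'
  rintro q ⟨v, hv, rfl⟩
  exact h v hv

theorem lambda1_mono {U V : Set ℂ} (hU : IsOpen U) (hne : U.Nonempty) (h : U ⊆ V) :
    lambda1 V ≤ lambda1 U := by
  apply le_lambda1 hU hne
  intro u hu
  exact lambda1_le ⟨hu.1, hu.2.1, hu.2.2.1.trans h, hu.2.2.2⟩

theorem Ip_pos {U : Set ℂ} {u : ℂ → ℝ} (h : IsTest U u) : 0 < Ip u u := by
  obtain ⟨h1, h2, h3, z, hz⟩ := h
  rw [Ip_self]
  have hc : Continuous (fun z => (u z) ^ 2) := h1.continuous.pow 2
  have hs : HasCompactSupport (fun z => (u z) ^ 2) :=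
    IsCompact.of_isClosed_subset h2 (isClosed_tsupport _) (tsupport_sub_of_zero (fun z h => by simp [h]))
  apply hc.integral_pos_of_hasCompactSupport_nonneg_nonzero hs (x := z)
  · intro y; positivity
  · positivity

/-- the fundamental inequality -/
theorem lambda1_mul_le {U : Set ℂ} {u : ℂ → ℝ} (h : TF U u) : lambda1 U * Ip u u ≤ En u u := by
  by_cases hz : ∃ z, u z ≠ 0
  · have ht : IsTest U u := ⟨h.1, h.2, h.3, hz⟩
    have h1 := lambda1_le ht
    rw [rayleigh_eq, le_div_iff₀ (Ip_pos ht)] at h1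
    exact h1
  · push Not at hz
    have : Ip u u = 0 := by rw [Ip_self]; simp [hz]
    rw [this, mul_zero]
    exact En_nonneg u

/-- near-optimal test functions -/
theorem exists_near {U : Set ℂ} (hU : IsOpen U) (hne : U.Nonempty) {ε : ℝ} (hε : 0 < ε) :
    ∃ u, IsTest U u ∧ Ip u u = 1 ∧ En u u < lambda1 U + ε := by
  obtain ⟨u₀, hu₀⟩ := exists_test hU hne
  have hne' : {q : ℝ | ∃ u : ℂ → ℝ, IsTest U u ∧ q = rayleigh u}.Nonempty :=
    ⟨rayleigh u₀, u₀, hu₀, rfl⟩
  obtain ⟨q, ⟨u, hu, rfl⟩, hq⟩ := exists_lt_of_csInf_lt hne'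
    (show sInf {q : ℝ | ∃ u : ℂ → ℝ, IsTest U u ∧ q = rayleigh u} < lambda1 U + ε by
      unfold lambda1; linarith)
  have hI := Ip_pos hu
  set c : ℝ := 1 / √(Ip u u) with hc
  have hc0 : 0 < c := by positivity
  have hc2 : c ^ 2 * Ip u u = 1 := by
    rw [hc, div_pow, one_pow, Real.sq_sqrt hI.le]; field_simp
  have ht := hu.tf.smul c
  have e1 : Ip (fun z => c * u z) (fun z => c * u z) = c ^ 2 * Ip u u := by
    rw [Ip_smul_left, Ip_comm, Ip_smul_left]; ring
  have e2 : En (fun z => c * u z) (fun z => c * u z) = c ^ 2 * En u u := by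
    rw [En_smul_left c hu.tf, En_comm, En_smul_left c hu.tf]; ring
  refine ⟨fun z => c * u z, ⟨ht.1, ht.2, ht.3, ?_⟩, ?_, ?_⟩
  · obtain ⟨z, hz⟩ := hu.2.2.2
    exact ⟨z, mul_ne_zero hc0.ne' hz⟩
  · rw [e1, hc2]
  · rw [e2]
    rw [rayleigh_eq, div_lt_iff₀ hI] at hq
    calc c ^ 2 * En u u < c ^ 2 * ((lambda1 U + ε) * Ip u u) := mul_lt_mul_of_pos_left hq (by positivity)
      _ = (lambda1 U + ε) * (c ^ 2 * Ip u u) := by ring
      _ = lambda1 U + ε := by rw [hc2, mul_one]

end Pool.Agent.Helper533.StarBox
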