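import Pool.Agent.Helper533.StarBox.Exist2

open MeasureTheory Metric Set Filter
open scoped Topology

namespace Pool.Agent.Helper533.StarBox

theorem cone_inner {e d v : ℂ} {κ L : ℝ} (he : 1 / 2 ≤ inner ℝ e d) (hd : ‖d‖ = 1) (hκ : κ ≤ 1 / 2) (hL : 0 < L)
    (hv : ‖v - (L : ℂ) * e‖ ≤ κ * L) : 0 ≤ inner ℝ v d := by
  have e1 : v = L • e + (v - (L : ℂ) * e) := by rw [Complex.real_smul]; ring
  have h1 : inner ℝ v d = L * inner ℝ e d + inner ℝ (v - (L : ℂ) * e) d := by
    conv_lhs => rw [e1]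
    rw [inner_add_left, real_inner_smul_left]
  have h2 := abs_real_inner_le_norm (v - (L : ℂ) * e) d
  rw [hd, mul_one] at h2
  have h3 := neg_le_of_abs_le (h2.trans hv)
  have h4 : L * (1 / 2) ≤ L * inner ℝ e d := mul_le_mul_of_nonneg_left he hL.le
  have h5 : κ * L ≤ 1 / 2 * L := mul_le_mul_of_nonneg_right hκ hL.le
  rw [h1]; linarith

theorem bisector {d n : ℂ} (hd : ‖d‖ = 1) (hn : ‖n‖ = 1) (h : 0 ≤ inner ℝ d n) :
    ∃ e : ℂ, ‖e‖ = 1 ∧ 1 / 2 ≤ inner ℝ e d ∧ 1 / 2 ≤ inner ℝ e n := by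
  set c : ℝ := inner ℝ d n with hc
  have h1 : ‖d + n‖ ^ 2 = 2 * (1 + c) := by
    rw [norm_add_sq_real, hd, hn, ← hc]; ring
  have hp : 0 < ‖d + n‖ := by
    rcases (norm_nonneg (d + n)).lt_or_eq with h2 | h2
    · exact h2
    · rw [← h2] at h1; nlinarith
  have hp1 : 1 ≤ ‖d + n‖ := by nlinarith
  have hpp : ‖d + n‖ * ‖d + n‖ = 2 * (1 + c) := by rw [← h1]; ring
  have h3 : ‖d + n‖⁻¹ * (1 + c) = ‖d + n‖ / 2 := by
    have : 1 + c = ‖d + n‖ * ‖d + n‖ / 2 := by rw [hpp]; ring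
    rw [this]; field_simp
  refine ⟨‖d + n‖⁻¹ • (d + n), ?_, ?_, ?_⟩
  · rw [norm_smul, norm_inv, norm_norm, inv_mul_cancel₀ hp.ne']
  · rw [real_inner_smul_left, inner_add_left, real_inner_self_eq_norm_sq, hd, real_inner_comm, ← hc]
    have : (1:ℝ) ^ 2 + c = 1 + c := by ring
    rw [this, h3]; linarith
  · rw [real_inner_smul_left, inner_add_left, real_inner_self_eq_norm_sq, hn, ← hc]
    have : c + (1:ℝ) ^ 2 = 1 + c := by ring
    rw [this, h3]; linarith

theorem norm_grow {z v : ℂ} (hz : z ≠ 0) (h : 0 ≤ inner ℝ v (‖z‖⁻¹ • z)) : ‖z‖ ≤ ‖z + v‖ := by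
  have hn : 0 < ‖z‖ := norm_pos_iff.mpr hz
  have h1 : 0 ≤ inner ℝ z v := by
    rw [real_inner_smul_right] at h
    rw [real_inner_comm]
    exact nonneg_of_mul_nonneg_right h (by positivity)
  have h2 := norm_add_sq_real z v
  have h3 : ‖z‖ ^ 2 ≤ ‖z + v‖ ^ 2 := by rw [h2]; nlinarith [sq_nonneg ‖v‖]
  exact le_of_sq_le_sq h3 (norm_nonneg _)

theorem DE_cone {ν : ℕ} (hν : 2 ≤ ν) {ε : ℝ} (hε : 0 < ε) (hε4 : ε ≤ 1 / 4) {z : ℂ} (hz : z ∉ DE ν ε) :
    ∃ e : ℂ, ‖e‖ = 1 ∧ ∀ L : ℝ, 0 < L → ∀ v : ℂ, ‖v - (L : ℂ) * e‖ ≤ Real.sin (aa ν / 2) / 2 * L → z + v ∉ DE ν ε := by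
  have hsb := sin_bb_pos hν
  have hcb := cos_bb_pos hν
  have hsb1 := Real.sin_le_one (aa ν / 2)
  have hcb1 := Real.cos_le_one (aa ν / 2)
  set sb := Real.sin (aa ν / 2) with hsbd
  set cb := Real.cos (aa ν / 2) with hcbd
  have hκ : sb / 2 ≤ 1 / 2 := by linarith
  have hzD : z ∉ D0 ν := fun h => hz (Or.inl h)
  have hzε : ε ≤ ‖z‖ := by
    by_contra hcon
    push Not at hcon
    exact hz (Or.inr (by rw [mem_ball, dist_zero_right]; exact hcon))
  have hz0 : z ≠ 0 := by
    rw [← norm_pos_iff]; linarith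
  have hzn : 0 < ‖z‖ := norm_pos_iff.mpr hz0
  have hhat : ‖‖z‖⁻¹ • z‖ = 1 := by rw [norm_smul, norm_inv, norm_norm, inv_mul_cancel₀ hzn.ne']
  -- case 1
  by_cases h1 : 1 ≤ ‖z‖
  · refine ⟨‖z‖⁻¹ • z, hhat, ?_⟩
    intro L hL v hv hmem
    have hin := cone_inner (d := ‖z‖⁻¹ • z) (by rw [real_inner_self_eq_norm_sq, hhat]; norm_num) hhat hκ hL hv
    have hg := norm_grow hz0 hin
    have hb := DE_ball ν (show ε ≤ 1 by linarith) hmem
    rw [mem_ball, dist_zero_right] at hb
    linarith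
  push Not at h1
  by_cases h2 : z.re * Real.sin (aa ν) ≤ |z.im| * Real.cos (aa ν)
  · -- case 2
    have hsa := sin_aa_pos hν
    have hca := cos_aa_pos hν
    have hsc := Real.sin_sq_add_cos_sq (aa ν)
    set s := Real.sin (aa ν) with hs
    set c := Real.cos (aa ν) with hc
    obtain ⟨σ, hσ2, hσ⟩ : ∃ σ : ℝ, σ ^ 2 = 1 ∧ |z.im| = σ * z.im := by
      rcases le_total 0 z.im with h | h
      · exact ⟨1, by norm_num, by rw [abs_of_nonneg h]; ring⟩
      · exact ⟨-1, by norm_num, by rw [abs_of_nonpos h]; ring⟩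
    have hσabs : |σ| = 1 := by
      have : |σ| ^ 2 = 1 := by rw [sq_abs]; exact hσ2
      have h0 := abs_nonneg σ
      nlinarith
    set n : ℂ := ⟨-s, σ * c⟩ with hn
    have hn1 : ‖n‖ = 1 := by
      have : ‖n‖ ^ 2 = 1 := by
        rw [← Complex.normSq_eq_norm_sq, Complex.normSq_apply, hn]
        simp only
        calc -s * -s + σ * c * (σ * c) = s ^ 2 + σ ^ 2 * c ^ 2 := by ring
          _ = 1 := by rw [hσ2, one_mul]; exact hsc
      have h0 := norm_nonneg n
      nlinarith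
    have hin : ∀ w : ℂ, inner ℝ w n = -(w.re * s) + σ * w.im * c := by
      intro w
      rw [real_inner_comm, Complex.inner, hn]
      simp
      ring
    have hzn0 : 0 ≤ inner ℝ z n := by
      rw [hin, ← hσ]; linarith
    obtain ⟨e, he1, he2, he3⟩ := bisector hhat hn1 (by
      rw [real_inner_smul_left]; positivity)
    refine ⟨e, he1, ?_⟩
    intro L hL v hv hmem
    have i1 := cone_inner he2 hhat hκ hL hv
    have i2 := cone_inner he3 hn1 hκ hL hv
    have hg := norm_grow hz0 i1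
    rcases hmem with hmem | hmem
    · have h4 := hmem.2.1
      have h5 : 0 ≤ inner ℝ (z + v) n := by rw [inner_add_left]; linarith
      rw [hin] at h5
      have h6 : σ * (z + v).im ≤ |(z + v).im| := by
        calc σ * (z + v).im ≤ |σ * (z + v).im| := le_abs_self _
          _ = |(z + v).im| := by rw [abs_mul, hσabs, one_mul]
      have h7 := mul_le_mul_of_nonneg_right h6 hca.le
      linarith
    · rw [mem_ball, dist_zero_right] at hmem
      linarith
  · -- case 3
    push Not at h2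
    have h3 : 1 / 2 ≤ ‖z‖ ∧ |z.im| * cb ≤ z.re * sb := by
      constructor
      · by_contra hcon
        push Not at hcon
        exact hzD ⟨h1, h2, Or.inl hcon⟩
      · by_contra hcon
        push Not at hcon
        exact hzD ⟨h1, h2, Or.inr hcon⟩
    obtain ⟨h3, h4⟩ := h3
    refine ⟨1, norm_one, ?_⟩
    intro L hL v hv hmem
    rw [mul_one] at hv
    have hre : |v.re - L| ≤ sb / 2 * L := by
      have := Complex.abs_re_le_norm (v - (L : ℂ))
      rw [Complex.sub_re, Complex.ofReal_re] at this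
      exact this.trans hv
    have him : |v.im| ≤ sb / 2 * L := by
      have := Complex.abs_im_le_norm (v - (L : ℂ))
      rw [Complex.sub_im, Complex.ofReal_im, sub_zero] at this
      exact this.trans hv
    have hre' := (abs_le.mp hre).1
    have hvre : L * (1 - sb / 2) ≤ v.re := by linarith
    have hvc : |v.im| * cb ≤ v.re * sb := by
      have a1 : |v.im| * cb ≤ sb / 2 * L * cb := mul_le_mul_of_nonneg_right him hcb.le
      have a2 : L * (1 - sb / 2) * sb ≤ v.re * sb := mul_le_mul_of_nonneg_right hvre hsb.le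
      have a3 : 0 ≤ L * sb * (1 - sb / 2 - cb / 2) := by
        apply mul_nonneg (by positivity); linarith
      nlinarith
    have hzre : 0 ≤ z.re := by
      have : 0 ≤ z.re * sb := le_trans (by positivity) h4
      exact nonneg_of_mul_nonneg_left this hsb
    have hvre0 : 0 ≤ v.re := by
      have : 0 ≤ v.re * sb := le_trans (by positivity) hvc
      exact nonneg_of_mul_nonneg_left this hsb
    -- sin b ≤ cos b
    have hsbcb : sb ≤ cb := by
      rw [hsbd, hcbd, ← Real.cos_pi_div_two_sub]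
      have := aa_pos hν
      have hpi := Real.pi_pos
      exact Real.cos_le_cos_of_nonneg_of_le_pi (by linarith) (by linarith) (by linarith)
    have hzim : |z.im| ≤ z.re := by
      have : z.re * sb ≤ z.re * cb := mul_le_mul_of_nonneg_left hsbcb hzre
      exact le_of_mul_le_mul_right (h4.trans this) hcb
    have hvim : |v.im| ≤ v.re := by
      have : v.re * sb ≤ v.re * cb := mul_le_mul_of_nonneg_left hsbcb hvre0
      exact le_of_mul_le_mul_right (hvc.trans this) hcb
    have hinn : 0 ≤ inner ℝ z v := by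
      rw [Complex.inner]
      simp only [Complex.mul_re, Complex.conj_re, Complex.conj_im]
      have a1 : |z.im * v.im| ≤ z.re * v.re := by
        rw [abs_mul]; exact mul_le_mul hzim hvim (abs_nonneg _) hzre
      have a2 := (abs_le.mp a1).1
      nlinarith
    have hnorm : ‖z‖ ≤ ‖z + v‖ := by
      have e2 := norm_add_sq_real z v
      have e3 : ‖z‖ ^ 2 ≤ ‖z + v‖ ^ 2 := by rw [e2]; nlinarith [sq_nonneg ‖v‖]
      exact le_of_sq_le_sq e3 (norm_nonneg _)
    rcases hmem with hmem | hmem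
    · rcases hmem.2.2 with h5 | h5
      · linarith
      · have h6 : |(z + v).im| ≤ |z.im| + |v.im| := by rw [Complex.add_im]; exact abs_add_le _ _
        have h7 := mul_le_mul_of_nonneg_right h6 hcb.le
        rw [Complex.add_re] at h5
        nlinarith
    · rw [mem_ball, dist_zero_right] at hmem
      linarith

theorem box_DE {ν : ℕ} (hν : 2 ≤ ν) {ε A : ℝ} (hε : 0 < ε) (hε4 : ε ≤ 1 / 4) (hA : 0 < A) (hA1 : ENNReal.ofReal A < volume (DE ν ε)) :
    Box (DE ν ε) A (Real.sin (aa ν / 2) / 2) where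
  isOpen := DE_open ν ε
  sub := DE_ball ν (by linarith)
  scale := by
    intro z hz t ht ht1
    rcases hz with hz | hz
    · exact Or.inl (D0_smul hz ht ht1)
    · right
      rw [mem_ball, dist_zero_right] at hz ⊢
      rw [norm_mul, Complex.norm_real, Real.norm_of_nonneg ht.le]
      have := norm_nonneg z
      nlinarith
  area0 := hA
  area1 := hA1
  kpos := by have := sin_bb_pos hν; positivity
  kle := by have := Real.sin_le_one (aa ν / 2); linarith
  cone := fun z hz => DE_cone hν hε hε4 hz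

/-- the full counterexample in `ℂ` -/
theorem counterexample : ∃ (ν : ℕ) (ε A : ℝ), 2 ≤ ν ∧ 0 < ε ∧ ε ≤ 1 / 4 ∧ 0 < A ∧
    ENNReal.ofReal A < volume (DE ν ε) ∧ (∃ Ω, IsMin (DE ν ε) A Ω) ∧
    ∀ Ω, IsMin (DE ν ε) A Ω → ∀ S : Set ℂ, IsOpen S → ∀ x₁ ∈ S, StarConvex ℝ x₁ S → volume (symmDiff Ω S) ≠ 0 := by
  obtain ⟨ν, ε, A, hν, hε, hε4, hA, hA1, h⟩ := comparison
  exact ⟨ν, ε, A, hν, hε, hε4, hA, hA1, (box_DE hν hε hε4 hA hA1).exists_min, h⟩

end Pool.Agent.Helper533.StarBox
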