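import Pool.Agent.Helper533.StarBox.Geo2

open MeasureTheory Metric Set Filter
open scoped Topology

namespace Pool.Agent.Helper533.StarBox

/-- `Ω` minimises `λ₁` among the open subsets of `D` of area `A` -/
def IsMin (D : Set ℂ) (A : ℝ) (Ω : Set ℂ) : Prop :=
  IsOpen Ω ∧ Ω ⊆ D ∧ volume Ω = ENNReal.ofReal A ∧
    ∀ Ω' : Set ℂ, IsOpen Ω' → Ω' ⊆ D → volume Ω' = ENNReal.ofReal A → lambda1 Ω ≤ lambda1 Ω'

theorem exists_nu : ∃ ν : ℕ, 2 ≤ ν ∧ 32 * kk ν ^ 2 * Cs ^ 2 ≤ (1 / 2) ^ 22 := by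
  have h1 : Tendsto (fun ν : ℕ => aa ν) atTop (𝓝 0) := by
    have : Tendsto (fun ν : ℕ => Real.pi / 2 * (1 / (ν : ℝ))) atTop (𝓝 (Real.pi / 2 * 0)) :=
      (tendsto_one_div_atTop_nhds_zero_nat).const_mul _
    rw [mul_zero] at this
    refine this.congr fun ν => ?_
    unfold aa
    rw [mul_one_div, div_div]
  have h2 : Tendsto (fun ν : ℕ => kk ν) atTop (𝓝 0) := by
    have h3 : ContinuousAt Real.tan 0 := Real.continuousAt_tan.mpr (by simp)
    have h4 : Tendsto Real.tan (𝓝 0) (𝓝 0) := by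
      have := h3.tendsto
      rwa [Real.tan_zero] at this
    exact h4.comp h1
  have h3 : Tendsto (fun ν : ℕ => 32 * kk ν ^ 2 * Cs ^ 2) atTop (𝓝 (32 * 0 ^ 2 * Cs ^ 2)) :=
    ((h2.pow 2).const_mul 32).mul_const _
  have e : (32 * 0 ^ 2 * Cs ^ 2 : ℝ) = 0 := by ring
  rw [e] at h3
  have h4 := (h3.eventually (gt_mem_nhds (show (0:ℝ) < (1/2)^22 by positivity))).and (eventually_ge_atTop 2)
  obtain ⟨ν, h5, h6⟩ := h4.exists
  exact ⟨ν, h6, h5.le⟩

theorem lambda1_pos {U : Set ℂ} (hU : IsOpen U) (hne : U.Nonempty) (hb : U ⊆ ball 0 1) : 0 < lambda1 U := by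
  have : (1 / 4 : ℝ) ≤ lambda1 U := by
    apply le_lambda1 hU hne
    intro u hu
    rw [rayleigh_eq, le_div_iff₀ (Ip_pos hu)]
    have := poincare_ball hu.tf 1 zero_le_one hb
    linarith
  linarith

theorem DE_cut {ν : ℕ} {ε r : ℝ} (hεr : ε ≤ r) : DE ν ε ∩ {z | r < z.re} = D0 ν ∩ {z | r < z.re} := by
  ext z
  constructor
  · rintro ⟨h1, h2⟩
    exact ⟨DE_of_re h1 (hεr.trans (le_of_lt h2)), h2⟩
  · rintro ⟨h1, h2⟩
    exact ⟨Or.inl h1, h2⟩

/-- area of the tip -/
theorem tip_area {ν : ℕ} (hν : 2 ≤ ν) {ε r : ℝ} (hε : 0 < ε) (hεr : ε ≤ r) (hr : r ≤ 1 / 4) :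
    ENNReal.ofReal (kk ν * r ^ 2 / 2) ≤ volume (DE ν ε ∩ {z | z.re ≤ r}) ∧
      volume (DE ν ε ∩ {z | z.re ≤ r}) ≤ ENNReal.ofReal (4 * r ^ 2) := by
  have hk := kk_pos hν
  have hk1 := kk_le_one hν
  have hr0 : 0 < r := hε.trans_le hεr
  have hc := cos_aa_pos hν
  constructor
  · have h1 := vol_open_box (r / 2) r (-(kk ν * r / 2)) (kk ν * r / 2)
    have e : ENNReal.ofReal (kk ν * r ^ 2 / 2) = ENNReal.ofReal (r - r / 2) * ENNReal.ofReal (kk ν * r / 2 - -(kk ν * r / 2)) := by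
      rw [← ENNReal.ofReal_mul (by linarith)]; congr 1; ring
    rw [e, ← h1]
    apply measure_mono
    rintro z ⟨⟨h2, h3⟩, h4, h5⟩
    refine ⟨Or.inl ⟨?_, ?_, Or.inl ?_⟩, h3.le⟩
    · have := Complex.norm_le_abs_re_add_abs_im z
      rw [abs_of_pos (by linarith : 0 < z.re)] at this
      have h6 : |z.im| < kk ν * r / 2 := abs_lt.mpr ⟨h4, h5⟩
      nlinarith
    · have h6 : |z.im| < kk ν * z.re := by
        have : |z.im| < kk ν * r / 2 := abs_lt.mpr ⟨h4, h5⟩
        nlinarith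
      unfold kk at h6
      rw [Real.tan_eq_sin_div_cos, div_mul_eq_mul_div, lt_div_iff₀ hc] at h6
      linarith
    · have := Complex.norm_le_abs_re_add_abs_im z
      rw [abs_of_pos (by linarith : 0 < z.re)] at this
      have h6 : |z.im| < kk ν * r / 2 := abs_lt.mpr ⟨h4, h5⟩
      nlinarith
  · refine (measure_mono ?_).trans ((vol_box r r).trans (le_of_eq ?_))
    · rintro z ⟨h1 | h1, h2⟩
      · have h3 := D0_re hν h1
        have h4 := D0_im hν h1
        rw [mem_setOf_eq] at h2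
        refine ⟨by rw [abs_of_pos h3]; exact h2, ?_⟩
        nlinarith
      · rw [mem_ball, dist_zero_right] at h1
        exact ⟨((Complex.abs_re_le_norm z).trans h1.le).trans hεr, ((Complex.abs_im_le_norm z).trans h1.le).trans hεr⟩
    · rw [← ENNReal.ofReal_mul (by positivity)]; congr 1; ring

/-- the comparison -/
theorem comparison : ∃ (ν : ℕ) (ε A : ℝ), 2 ≤ ν ∧ 0 < ε ∧ ε ≤ 1 / 4 ∧ 0 < A ∧ ENNReal.ofReal A < volume (DE ν ε) ∧
    ∀ Ω, IsMin (DE ν ε) A Ω → ∀ S : Set ℂ, IsOpen S → ∀ x₁ ∈ S, StarConvex ℝ x₁ S → volume (symmDiff Ω S) ≠ 0 := by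
  obtain ⟨ν, hν, hk⟩ := exists_nu
  have hkp := kk_pos hν
  have hne := D0_nonempty hν
  obtain ⟨u, hu, hu1, hu0, hlp⟩ := exists_ground (D0_open ν) hne (D0_preconnected hν) one_pos (D0_ball ν)
  obtain ⟨γ, hγ, hgap⟩ := gap (D0_open ν) hne (D0_preconnected hν) one_pos (D0_ball ν) hu hu0 hu1
  have hl := lambda1_pos (D0_open ν) hne (D0_ball ν)
  obtain ⟨δ₀, hδ₀, s₀, hs₀, hout⟩ := outer_mass hν
  obtain ⟨c, hc, hmass⟩ := mass_lower hν hu hu0 hlp hl hδ₀
  obtain ⟨C, hC, r₁, hr₁, htip⟩ := tip_bound hν hu hu1 hk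
  -- choice of r
  set G := γ * c * (kk ν / 4) ^ 9 / 2 with hG
  have hG0 : 0 < G := by positivity
  obtain ⟨r, hr, hr4, hrr1, hrs, hrG⟩ : ∃ r : ℝ, 0 < r ∧ r ≤ 1 / 4 ∧ r ≤ r₁ ∧ 4 * r ^ 2 ≤ s₀ ∧ C * r ^ 2 < G := by
    set m := min (1/4) (min r₁ (min (s₀ / 4) (G / (2 * C)))) with hm
    have hm0 : 0 < m := by rw [hm]; positivity
    have h1 : m ≤ 1 / 4 := min_le_left _ _
    have h2 : m ≤ r₁ := (min_le_right _ _).trans (min_le_left _ _)
    have h3 : m ≤ s₀ / 4 := (min_le_right _ _).trans ((min_le_right _ _).trans (min_le_left _ _))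
    have h4 : m ≤ G / (2 * C) := (min_le_right _ _).trans ((min_le_right _ _).trans (min_le_right _ _))
    refine ⟨m, hm0, h1, h2, by nlinarith, ?_⟩
    have h5 : C * m ≤ G / 2 := by
      calc C * m ≤ C * (G / (2 * C)) := mul_le_mul_of_nonneg_left h4 hC.le
        _ = G / 2 := by field_simp
    have h6 : m ^ 2 ≤ m := by nlinarith
    nlinarith
  -- the gain and the parameter η
  set g := c * (kk ν * r ^ 2 / 4) ^ 9 with hg
  have hg0 : 0 < g := by positivity
  set lam := lambda1 (D0 ν) with hlam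
  set η := min (1/2) (γ * g / 2 / (lam + γ * g + 1)) with hη
  have hη0 : 0 < η := by rw [hη]; positivity
  have hη1 : η * (lam + γ * g + 1) ≤ γ * g / 2 := by
    have : η ≤ γ * g / 2 / (lam + γ * g + 1) := min_le_right _ _
    rwa [le_div_iff₀ (by positivity)] at this
  obtain ⟨ε₀, hε₀, hsmall⟩ := small_disc hν (Λ := lam + γ * g / 2 + 1) (by positivity) hη0
  set ε := min ε₀ (min r (kk ν * r ^ 2 / 200)) with hε
  have hε0 : 0 < ε := by rw [hε]; positivity
  have hεε₀ : ε ≤ ε₀ := min_le_left _ _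
  have hεr : ε ≤ r := (min_le_right _ _).trans (min_le_left _ _)
  have hεk : ε ≤ kk ν * r ^ 2 / 200 := (min_le_right _ _).trans (min_le_right _ _)
  obtain ⟨ha1, ha2⟩ := tip_area hν hε0 hεr hr4
  set D := DE ν ε with hD
  have hDopen : IsOpen D := DE_open ν ε
  have hDb : D ⊆ ball 0 1 := DE_ball ν (by linarith)
  have hDfin : volume D ≠ ⊤ := ((measure_mono hDb).trans_lt measure_ball_lt_top).ne
  set T := D ∩ {z | z.re ≤ r} with hT
  have hTfin : volume T ≠ ⊤ := ((measure_mono inter_subset_left).trans_lt hDfin.lt_top).ne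
  set s := (volume T).toReal with hs
  have hse : volume T = ENNReal.ofReal s := (ENNReal.ofReal_toReal hTfin).symm
  have hs1 : kk ν * r ^ 2 / 2 ≤ s := by
    rw [hse] at ha1
    exact (ENNReal.ofReal_le_ofReal_iff ENNReal.toReal_nonneg).mp ha1
  have hs2 : s ≤ 4 * r ^ 2 := by
    rw [hse] at ha2
    exact (ENNReal.ofReal_le_ofReal_iff (by positivity)).mp ha2
  have hs0 : 0 < s := lt_of_lt_of_le (by positivity) hs1
  set W := D ∩ {z | r < z.re} with hW
  have hWopen : IsOpen W := hDopen.inter (half_open r)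
  have hWfin : volume W ≠ ⊤ := ((measure_mono inter_subset_left).trans_lt hDfin.lt_top).ne
  set A := (volume W).toReal with hA
  have hAe : volume W = ENNReal.ofReal A := (ENNReal.ofReal_toReal hWfin).symm
  have hWne : W.Nonempty := by
    refine ⟨((3/8 : ℝ) : ℂ), Or.inl ⟨?_, ?_, Or.inl ?_⟩, ?_⟩
    · rw [Complex.norm_real]; norm_num
    · simp only [Complex.ofReal_im, Complex.ofReal_re, abs_zero, zero_mul]
      have := sin_aa_pos hν; positivity
    · rw [Complex.norm_real, Real.norm_of_nonneg (by norm_num)]; norm_num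
    · show r < (((3/8 : ℝ) : ℂ)).re
      rw [Complex.ofReal_re]; linarith
  have hA0 : 0 < A := ENNReal.toReal_pos (hWopen.measure_pos volume hWne).ne' hWfin
  have hsplit : volume D = volume W + volume T := by
    have h1 : W ∪ T = D := by
      ext z
      constructor
      · rintro (h | h)
        · exact h.1
        · exact h.1
      · intro h
        rcases lt_or_ge r z.re with h2 | h2
        · exact Or.inl ⟨h, h2⟩
        · exact Or.inr ⟨h, h2⟩
    have h2 : Disjoint W T := by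
      rw [Set.disjoint_left]
      rintro z ⟨_, h1⟩ ⟨_, h2⟩
      rw [mem_setOf_eq] at h1 h2
      linarith
    rw [← h1, measure_union h2 (hDopen.measurableSet.inter (meas_re r))]
  refine ⟨ν, ε, A, hν, hε0, by linarith, hA0, ?_, ?_⟩
  · rw [← hD, hsplit, hAe, hse, ← ENNReal.ofReal_add hA0.le hs0.le]
    exact (ENNReal.ofReal_lt_ofReal_iff (by positivity)).mpr (by linarith)
  · intro Ω hΩ S hS x₁ hx₁ hstar hae
    obtain ⟨hΩo, hΩD, hΩA, hΩmin⟩ := hΩ
    have hvd : volume (D \ Ω) = ENNReal.ofReal s := by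
      rw [measure_diff hΩD hΩo.measurableSet.nullMeasurableSet (by rw [hΩA]; exact ENNReal.ofReal_ne_top), hsplit, hAe, hΩA, hse]
      exact ENNReal.add_sub_cancel_left ENNReal.ofReal_ne_top
    have hout' := hout s ε hs0 (hs2.trans hrs) hε0 (by linarith) Ω S hΩo hΩD hvd hS x₁ hx₁ hstar hae
    -- mass of the removed part
    set F := (D0 ν \ Ω) ∩ {z | δ₀ ≤ ‖z‖} with hF
    have hFm : MeasurableSet F := ((D0_open ν).measurableSet.diff hΩo.measurableSet).inter
      (isClosed_le continuous_const continuous_norm).measurableSet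
    have hm := hmass F hFm (fun z hz => hz.1.1) (fun z hz => hz.2) (s / 2) (by positivity) (by nlinarith) hout'
    have hm2 : g ≤ ∫ z in F, (u : ℂ → ℝ) z ^ 2 := by
      refine le_trans ?_ hm
      rw [hg]
      apply mul_le_mul_of_nonneg_left _ hc.le
      exact pow_le_pow_left₀ (by positivity) (by linarith) 9
    have hΩne : Ω.Nonempty := by
      by_contra hcon
      rw [not_nonempty_iff_eq_empty] at hcon
      rw [hcon, measure_empty] at hΩA
      have := (ENNReal.ofReal_eq_zero.mp hΩA.symm)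
      linarith
    -- upper bound
    have hup : lambda1 Ω ≤ lam + C * r ^ 20 := by
      refine (hΩmin W hWopen inter_subset_left hAe).trans ?_
      rw [hW, hD, DE_cut hεr]
      exact htip r hr hrr1
    have hup2 : C * r ^ 20 < γ * g / 2 := by
      have e1 : γ * g / 2 = G * r ^ 18 := by rw [hg, hG]; ring
      have e2 : C * r ^ 20 = C * r ^ 2 * r ^ 18 := by ring
      rw [e1, e2]
      exact mul_lt_mul_of_pos_right hrG (by positivity)
    obtain ⟨v, hv, hvI, hvE⟩ := exists_near hΩo hΩne (ε := lam + γ * g / 2 - lambda1 Ω) (by linarith)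
    have hvE' : En v v < lam + γ * g / 2 := by linarith
    obtain ⟨w, hw1, hw2, hw3, hw4⟩ := hsmall ε hε0 hεε₀ v (hv.tf.mono hΩD) hvI (by linarith)
    have hwΩ : TF (D0 ν ∩ Ω) w := ⟨hw1.1, hw1.2, subset_inter hw1.3 (hw2.trans hv.tf.supp)⟩
    have hrem := lambda1_removal hu1 hγ hgap ((D0_open ν).inter hΩo) inter_subset_left hwΩ
    have hm3 : g ≤ ∫ z in (D0 ν ∩ Ω)ᶜ, (u : ℂ → ℝ) z ^ 2 := by
      refine hm2.trans ?_
      apply setIntegral_mono_set (sq_integrable u).integrableOn (Eventually.of_forall fun z => sq_nonneg _)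
      apply HasSubset.Subset.eventuallyLE
      rintro z ⟨⟨_, h2⟩, _⟩ h3
      exact h2 h3.2
    have h5 : (lam + γ * g) * (1 - η) ≤ En v v + η := by
      have hη2 : η ≤ 1 / 2 := min_le_left _ _
      have hIw : 0 ≤ Ip w w := Ip_nonneg w
      have h6 : γ * g ≤ γ * ∫ z in (D0 ν ∩ Ω)ᶜ, (u : ℂ → ℝ) z ^ 2 := mul_le_mul_of_nonneg_left hm3 hγ.le
      calc (lam + γ * g) * (1 - η) ≤ (lam + γ * g) * Ip w w := mul_le_mul_of_nonneg_left hw4 (by positivity)
        _ ≤ (lam + γ * ∫ z in (D0 ν ∩ Ω)ᶜ, (u : ℂ → ℝ) z ^ 2) * Ip w w := by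
            apply mul_le_mul_of_nonneg_right _ hIw; linarith
        _ ≤ En w w := hrem
        _ ≤ _ := hw3
    have h7 : (lam + γ * g) * (1 - η) = lam + γ * g - η * (lam + γ * g) := by ring
    have h8 : η * (lam + γ * g + 1) = η * (lam + γ * g) + η := by ring
    linarith

end Pool.Agent.Helper533.StarBox
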