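import Pool.Agent.Helper533.StarBox.Annulus

open MeasureTheory Metric Set Filter
open scoped Topology

namespace Pool.Agent.Helper533.StarBox

/-- one-dimensional cut-off -/
noncomputable def ch (x : ℝ) : ℝ := Real.smoothTransition (2 - x) * Real.smoothTransition (2 + x)

theorem ch_smooth : ContDiff ℝ (⊤ : ℕ∞) ch := by
  unfold ch
  exact (Real.smoothTransition.contDiff.comp (contDiff_const.sub contDiff_id)).mul
    (Real.smoothTransition.contDiff.comp (contDiff_const.add contDiff_id))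

theorem ch_diff : Differentiable ℝ ch := ch_smooth.differentiable (by simp)

theorem ch_nonneg (x : ℝ) : 0 ≤ ch x := mul_nonneg (Real.smoothTransition.nonneg _) (Real.smoothTransition.nonneg _)

theorem ch_le_one (x : ℝ) : ch x ≤ 1 :=
  mul_le_one₀ (Real.smoothTransition.le_one _) (Real.smoothTransition.nonneg _) (Real.smoothTransition.le_one _)

theorem ch_one {x : ℝ} (h : |x| ≤ 1) : ch x = 1 := by
  have h' := abs_le.mp h
  unfold ch
  rw [Real.smoothTransition.one_of_one_le (by linarith), Real.smoothTransition.one_of_one_le (by linarith), one_mul]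

theorem ch_zero {x : ℝ} (h : 2 ≤ |x|) : ch x = 0 := by
  unfold ch
  rcases le_abs.mp h with h | h
  · rw [Real.smoothTransition.zero_of_nonpos (show 2 - x ≤ 0 by linarith), zero_mul]
  · rw [Real.smoothTransition.zero_of_nonpos (show 2 + x ≤ 0 by linarith), mul_zero]

theorem ch_deriv_one {x : ℝ} (h : |x| ≤ 1) : deriv ch x = 0 := by
  apply IsLocalMax.deriv_eq_zero
  apply Eventually.of_forall
  intro y
  rw [ch_one h]; exact ch_le_one y

theorem ch_deriv_zero {x : ℝ} (h : 2 ≤ |x|) : deriv ch x = 0 := by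
  apply IsLocalMin.deriv_eq_zero
  apply Eventually.of_forall
  intro y
  rw [ch_zero h]; exact ch_nonneg y

theorem ch_deriv_le (x : ℝ) : |deriv ch x| ≤ 2 * Cs := by
  have hσ : Differentiable ℝ Real.smoothTransition :=
    (Real.smoothTransition.contDiff (n := 1)).differentiable (by simp)
  have h1 : HasDerivAt (fun x : ℝ => Real.smoothTransition (2 - x)) (deriv Real.smoothTransition (2 - x) * (-1)) x := by
    have := (hσ (2 - x)).hasDerivAt.comp x ((hasDerivAt_id x).const_sub 2)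
    exact this
  have h2 : HasDerivAt (fun x : ℝ => Real.smoothTransition (2 + x)) (deriv Real.smoothTransition (2 + x) * 1) x := by
    have := (hσ (2 + x)).hasDerivAt.comp x ((hasDerivAt_id x).const_add 2)
    exact this
  have h3 : deriv ch x = deriv Real.smoothTransition (2 - x) * (-1) * Real.smoothTransition (2 + x) +
      Real.smoothTransition (2 - x) * (deriv Real.smoothTransition (2 + x) * 1) := (h1.mul h2).deriv
  rw [h3]
  refine (abs_add_le _ _).trans ?_
  rw [abs_mul, abs_mul, abs_mul, abs_mul, abs_neg, abs_one, mul_one, mul_one,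
    abs_of_nonneg (Real.smoothTransition.nonneg _), abs_of_nonneg (Real.smoothTransition.nonneg _)]
  have a1 := Cs_bound (2 - x)
  have a2 := Cs_bound (2 + x)
  have b1 := Real.smoothTransition.le_one (2 - x)
  have b2 := Real.smoothTransition.le_one (2 + x)
  have c1 := Real.smoothTransition.nonneg (2 - x)
  have c2 := Real.smoothTransition.nonneg (2 + x)
  have hC := Cs_pos
  nlinarith [abs_nonneg (deriv Real.smoothTransition (2 - x)), abs_nonneg (deriv Real.smoothTransition (2 + x))]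

/-- square cut-off -/
noncomputable def eta (z : ℂ) (R : ℝ) (w : ℂ) : ℝ := ch ((w.re - z.re) / R) * ch ((w.im - z.im) / R)

theorem eta_smooth (z : ℂ) (R : ℝ) : ContDiff ℝ (⊤ : ℕ∞) (eta z R) := by
  unfold eta
  have h1 : ContDiff ℝ (⊤ : ℕ∞) (fun w : ℂ => (w.re - z.re) / R) :=
    (Complex.reCLM.contDiff.sub contDiff_const).div_const R
  have h2 : ContDiff ℝ (⊤ : ℕ∞) (fun w : ℂ => (w.im - z.im) / R) :=
    (Complex.imCLM.contDiff.sub contDiff_const).div_const R
  exact (ch_smooth.comp h1).mul (ch_smooth.comp h2)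

theorem fd_re (a R : ℝ) (w : ℂ) : HasFDerivAt (fun w : ℂ => (w.re - a) / R) ((1 / R) • Complex.reCLM) w := by
  have h1 : HasFDerivAt (fun w : ℂ => w.re - a) Complex.reCLM w := Complex.reCLM.hasFDerivAt.sub_const a
  have h2 := h1.const_mul (1 / R)
  have e : (fun w : ℂ => (w.re - a) / R) = fun w => (1 / R) * (w.re - a) := by ext w; ring
  rw [e]; exact h2

theorem fd_im (a R : ℝ) (w : ℂ) : HasFDerivAt (fun w : ℂ => (w.im - a) / R) ((1 / R) • Complex.imCLM) w := by
  have h1 : HasFDerivAt (fun w : ℂ => w.im - a) Complex.imCLM w := Complex.imCLM.hasFDerivAt.sub_const a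
  have h2 := h1.const_mul (1 / R)
  have e : (fun w : ℂ => (w.im - a) / R) = fun w => (1 / R) * (w.im - a) := by ext w; ring
  rw [e]; exact h2

theorem gx_eta (z : ℂ) (R : ℝ) (w : ℂ) :
    gx (eta z R) w = (1 / R) * deriv ch ((w.re - z.re) / R) * ch ((w.im - z.im) / R) := by
  have h1 := fd_re z.re R w
  have h2 := fd_im z.im R w
  have g1 : gx (fun w : ℂ => (w.re - z.re) / R) w = 1 / R := by unfold gx; rw [h1.fderiv]; simp
  have g2 : gx (fun w : ℂ => (w.im - z.im) / R) w = 0 := by unfold gx; rw [h2.fderiv]; simp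
  have d1 : DifferentiableAt ℝ (fun w : ℂ => ch ((w.re - z.re) / R)) w := (ch_diff _).comp w h1.differentiableAt
  have d2 : DifferentiableAt ℝ (fun w : ℂ => ch ((w.im - z.im) / R)) w := (ch_diff _).comp w h2.differentiableAt
  have e : eta z R = fun w => ch ((w.re - z.re) / R) * ch ((w.im - z.im) / R) := rfl
  rw [e, gx_mul d1 d2, gx_comp' (u := fun w : ℂ => (w.re - z.re) / R) h1.differentiableAt (ch_diff _),
    gx_comp' (u := fun w : ℂ => (w.im - z.im) / R) h2.differentiableAt (ch_diff _), g1, g2]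
  ring

theorem gy_eta (z : ℂ) (R : ℝ) (w : ℂ) :
    gy (eta z R) w = (1 / R) * ch ((w.re - z.re) / R) * deriv ch ((w.im - z.im) / R) := by
  have h1 := fd_re z.re R w
  have h2 := fd_im z.im R w
  have g1 : gy (fun w : ℂ => (w.re - z.re) / R) w = 0 := by unfold gy; rw [h1.fderiv]; simp
  have g2 : gy (fun w : ℂ => (w.im - z.im) / R) w = 1 / R := by unfold gy; rw [h2.fderiv]; simp
  have d1 : DifferentiableAt ℝ (fun w : ℂ => ch ((w.re - z.re) / R)) w := (ch_diff _).comp w h1.differentiableAt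
  have d2 : DifferentiableAt ℝ (fun w : ℂ => ch ((w.im - z.im) / R)) w := (ch_diff _).comp w h2.differentiableAt
  have e : eta z R = fun w => ch ((w.re - z.re) / R) * ch ((w.im - z.im) / R) := rfl
  rw [e, gy_mul d1 d2, gy_comp' (u := fun w : ℂ => (w.re - z.re) / R) h1.differentiableAt (ch_diff _),
    gy_comp' (u := fun w : ℂ => (w.im - z.im) / R) h2.differentiableAt (ch_diff _), g1, g2]
  ring

theorem gd_eta_le (z : ℂ) {R : ℝ} (hR : 0 < R) (w : ℂ) : gd (eta z R) w ≤ 8 * Cs ^ 2 / R ^ 2 := by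
  unfold gd
  rw [gx_eta, gy_eta]
  have a1 := ch_deriv_le ((w.re - z.re) / R)
  have a2 := ch_deriv_le ((w.im - z.im) / R)
  have b1 := ch_le_one ((w.re - z.re) / R)
  have b2 := ch_le_one ((w.im - z.im) / R)
  have c1 := ch_nonneg ((w.re - z.re) / R)
  have c2 := ch_nonneg ((w.im - z.im) / R)
  set p := deriv ch ((w.re - z.re) / R)
  set q := deriv ch ((w.im - z.im) / R)
  set s := ch ((w.re - z.re) / R)
  set t := ch ((w.im - z.im) / R)
  have hC := Cs_pos
  have p2 : p ^ 2 ≤ (2 * Cs) ^ 2 := by rw [← sq_abs p]; exact pow_le_pow_left₀ (abs_nonneg _) a1 2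
  have q2 : q ^ 2 ≤ (2 * Cs) ^ 2 := by rw [← sq_abs q]; exact pow_le_pow_left₀ (abs_nonneg _) a2 2
  have s2 : s ^ 2 ≤ 1 := pow_le_one₀ c1 b1
  have t2 : t ^ 2 ≤ 1 := pow_le_one₀ c2 b2
  have e : (1 / R * p * t) ^ 2 + (1 / R * s * q) ^ 2 = (p ^ 2 * t ^ 2 + s ^ 2 * q ^ 2) / R ^ 2 := by
    field_simp
  rw [e]
  apply div_le_div_of_nonneg_right _ (by positivity)
  have h1 : p ^ 2 * t ^ 2 ≤ (2 * Cs) ^ 2 * 1 := mul_le_mul p2 t2 (by positivity) (by positivity)
  have h2 : s ^ 2 * q ^ 2 ≤ 1 * (2 * Cs) ^ 2 := mul_le_mul s2 q2 (by positivity) (by positivity)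
  nlinarith

theorem mem_SQ {z w : ℂ} {r : ℝ} : w ∈ SQ z r ↔
    (z.re - r < w.re ∧ w.re ≤ z.re + r) ∧ (z.im - r < w.im ∧ w.im ≤ z.im + r) := Iff.rfl

theorem eta_in {z w : ℂ} {R : ℝ} (hR : 0 < R) (h : w ∈ SQ z R) :
    eta z R w = 1 ∧ gx (eta z R) w = 0 ∧ gy (eta z R) w = 0 := by
  rw [mem_SQ] at h
  have h1 : |(w.re - z.re) / R| ≤ 1 := by
    rw [abs_div, abs_of_pos hR, div_le_one hR, abs_le]; constructor <;> linarith
  have h2 : |(w.im - z.im) / R| ≤ 1 := by
    rw [abs_div, abs_of_pos hR, div_le_one hR, abs_le]; constructor <;> linarith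
  refine ⟨?_, ?_, ?_⟩
  · unfold eta; rw [ch_one h1, ch_one h2, one_mul]
  · rw [gx_eta, ch_deriv_one h1]; ring
  · rw [gy_eta, ch_deriv_one h2]; ring

theorem eta_out {z w : ℂ} {R : ℝ} (hR : 0 < R) (h : w ∉ SQ z (3 * R)) :
    eta z R w = 0 ∧ gx (eta z R) w = 0 ∧ gy (eta z R) w = 0 := by
  have h1 : 2 ≤ |(w.re - z.re) / R| ∨ 2 ≤ |(w.im - z.im) / R| := by
    by_contra hcon
    push Not at hcon
    obtain ⟨h1, h2⟩ := hcon
    rw [abs_div, abs_of_pos hR, div_lt_iff₀ hR, abs_lt] at h1 h2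
    apply h
    rw [mem_SQ]
    exact ⟨⟨by linarith, by linarith⟩, by linarith, by linarith⟩
  unfold eta
  rcases h1 with h1 | h1
  · refine ⟨?_, ?_, ?_⟩
    · rw [ch_zero h1, zero_mul]
    · have := gx_eta z R w; unfold eta at this; rw [this, ch_deriv_zero h1]; ring
    · have := gy_eta z R w; unfold eta at this; rw [this, ch_zero h1]; ring
  · refine ⟨?_, ?_, ?_⟩
    · rw [ch_zero h1, mul_zero]
    · have := gx_eta z R w; unfold eta at this; rw [this, ch_zero h1]; ring
    · have := gy_eta z R w; unfold eta at this; rw [this, ch_deriv_zero h1]; ring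

/-- open squares -/
def OS (z : ℂ) (r : ℝ) : Set ℂ := {w | |w.re - z.re| < r ∧ |w.im - z.im| < r}

theorem OS_open (z : ℂ) (r : ℝ) : IsOpen (OS z r) :=
  (isOpen_lt (Complex.continuous_re.sub continuous_const).abs continuous_const).inter
    (isOpen_lt (Complex.continuous_im.sub continuous_const).abs continuous_const)

theorem eta_tf (z : ℂ) {R : ℝ} (hR : 0 < R) : TF (OS z (3 * R)) (eta z R) := by
  have hK : IsClosed {w : ℂ | |w.re - z.re| ≤ 2 * R ∧ |w.im - z.im| ≤ 2 * R} :=
    (isClosed_le (Complex.continuous_re.sub continuous_const).abs continuous_const).inter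
      (isClosed_le (Complex.continuous_im.sub continuous_const).abs continuous_const)
  have hs : tsupport (eta z R) ⊆ {w : ℂ | |w.re - z.re| ≤ 2 * R ∧ |w.im - z.im| ≤ 2 * R} := by
    apply closure_minimal _ hK
    intro w hw
    rw [Function.mem_support] at hw
    constructor
    · by_contra hcon
      push Not at hcon
      apply hw
      unfold eta
      rw [ch_zero, zero_mul]
      rw [abs_div, abs_of_pos hR, le_div_iff₀ hR]; exact hcon.le
    · by_contra hcon
      push Not at hcon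
      apply hw
      unfold eta
      rw [ch_zero (x := (w.im - z.im) / R), mul_zero]
      rw [abs_div, abs_of_pos hR, le_div_iff₀ hR]; exact hcon.le
  refine ⟨eta_smooth z R, ?_, ?_⟩
  · obtain ⟨Q, hQ⟩ := RC_bdd (z.re - 3 * R) (z.re + 3 * R) (z.im - 3 * R) (z.im + 3 * R)
    apply IsCompact.of_isClosed_subset (isCompact_closedBall (0:ℂ) Q) (isClosed_tsupport _)
    intro w hw
    apply hQ
    obtain ⟨h1, h2⟩ := hs hw
    rw [abs_le] at h1 h2
    exact ⟨⟨by linarith, by linarith⟩, by linarith, by linarith⟩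
  · intro w hw
    obtain ⟨h1, h2⟩ := hs hw
    exact ⟨by linarith, by linarith⟩

/-- the cut-off inequality -/
theorem cut {U : Set ℂ} {u : ℂ → ℝ} (hu : TF U u) (z : ℂ) {R : ℝ} (hR : 0 < R) (c : ℝ) :
    ∃ w : ℂ → ℝ, TF (U ∪ OS z (3 * R)) w ∧ (c = 0 → TF U w) ∧ (∀ y ∉ SQ z (3 * R), w y = u y) ∧
      En w w ≤ En u u - (∫ y in SQ z R, gd u y) + (∫ y in AN z R, gd u y) +
        16 * Cs ^ 2 / R ^ 2 * ∫ y in AN z R, (u y - c) ^ 2 := by
  have he := eta_tf z hR
  have h1 : TF U (fun y => eta z R y * u y) := hu.mul_smooth he.smooth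
  set w : ℂ → ℝ := fun y => (u y - eta z R y * u y) + c * eta z R y with hw
  have hwU : TF (U ∪ OS z (3 * R)) w :=
    ((hu.sub h1).mono subset_union_left).add ((he.smul c).mono subset_union_right)
  have hgx : ∀ y, gx w y = (1 - eta z R y) * gx u y - (u y - c) * gx (eta z R) y := by
    intro y
    rw [hw, gx_add ((hu.sub h1).diff y) ((he.smul c).diff y), gx_sub (hu.diff y) (h1.diff y), gx_smul c (he.diff y),
      gx_mul (he.diff y) (hu.diff y)]
    ring
  have hgy : ∀ y, gy w y = (1 - eta z R y) * gy u y - (u y - c) * gy (eta z R) y := by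
    intro y
    rw [hw, gy_add ((hu.sub h1).diff y) ((he.smul c).diff y), gy_sub (hu.diff y) (h1.diff y), gy_smul c (he.diff y),
      gy_mul (he.diff y) (hu.diff y)]
    ring
  refine ⟨w, hwU, ?_, ?_, ?_⟩
  · intro hc
    have : w = fun y => u y - eta z R y * u y := by ext y; simp [hw, hc]
    rw [this]; exact hu.sub h1
  · intro y hy
    simp only [hw]
    rw [(eta_out hR hy).1]; ring
  · rw [En_self, En_self]
    obtain ⟨Q, hQ⟩ := RC_bdd (z.re - 3 * R) (z.re + 3 * R) (z.im - 3 * R) (z.im + 3 * R)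
    have hAN : AN z R ⊆ closedBall 0 Q := sdiff_subset.trans hQ
    have i1 := gd_int hu
    have i2 : Integrable ((SQ z R).indicator (gd u)) := i1.indicator (SQ_meas _ _)
    have i3 : Integrable ((AN z R).indicator (gd u)) := i1.indicator (AN_meas _ _)
    have i4' : IntegrableOn (fun y => (u y - c) ^ 2) (AN z R) :=
      (((hu.cont.sub continuous_const).pow 2).continuousOn.integrableOn_compact (isCompact_closedBall 0 Q)).mono_set hAN
    have i4 : Integrable ((AN z R).indicator (fun y => (u y - c) ^ 2)) := (integrable_indicator_iff (AN_meas _ _)).mpr i4'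
    have key : ∀ y, gx w y ^ 2 + gy w y ^ 2 ≤ gd u y - (SQ z R).indicator (gd u) y + (AN z R).indicator (gd u) y +
        16 * Cs ^ 2 / R ^ 2 * (AN z R).indicator (fun y => (u y - c) ^ 2) y := by
      intro y
      rw [hgx, hgy]
      by_cases hy1 : y ∈ SQ z R
      · obtain ⟨e1, e2, e3⟩ := eta_in hR hy1
        have hy2 : y ∉ AN z R := fun h => h.2 hy1
        rw [indicator_of_mem hy1, indicator_of_notMem hy2, indicator_of_notMem hy2, e1, e2, e3]
        apply le_of_eq; ring
      by_cases hy2 : y ∈ AN z R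
      · rw [indicator_of_notMem hy1, indicator_of_mem hy2, indicator_of_mem hy2]
        have h2 := gd_eta_le z hR y
        unfold gd at h2 ⊢
        set p := gx u y
        set q := gy u y
        set s := gx (eta z R) y
        set t := gy (eta z R) y
        set f := eta z R y with hf
        have f0 : 0 ≤ f := mul_nonneg (ch_nonneg _) (ch_nonneg _)
        have f1 : f ≤ 1 := mul_le_one₀ (ch_le_one _) (ch_nonneg _) (ch_le_one _)
        have g1 : (1 - f) ^ 2 ≤ 1 := pow_le_one₀ (by linarith) (by linarith)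
        have g2 : ((1 - f) * p - (u y - c) * s) ^ 2 ≤ 2 * ((1 - f) ^ 2 * p ^ 2) + 2 * ((u y - c) ^ 2 * s ^ 2) := by
          nlinarith [sq_nonneg ((1 - f) * p + (u y - c) * s)]
        have g3 : ((1 - f) * q - (u y - c) * t) ^ 2 ≤ 2 * ((1 - f) ^ 2 * q ^ 2) + 2 * ((u y - c) ^ 2 * t ^ 2) := by
          nlinarith [sq_nonneg ((1 - f) * q + (u y - c) * t)]
        have g4 : (1 - f) ^ 2 * p ^ 2 ≤ 1 * p ^ 2 := mul_le_mul_of_nonneg_right g1 (sq_nonneg _)
        have g5 : (1 - f) ^ 2 * q ^ 2 ≤ 1 * q ^ 2 := mul_le_mul_of_nonneg_right g1 (sq_nonneg _)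
        have g6 : (u y - c) ^ 2 * (s ^ 2 + t ^ 2) ≤ (u y - c) ^ 2 * (8 * Cs ^ 2 / R ^ 2) :=
          mul_le_mul_of_nonneg_left h2 (sq_nonneg _)
        have g7 : 16 * Cs ^ 2 / R ^ 2 * (u y - c) ^ 2 = 2 * ((u y - c) ^ 2 * (8 * Cs ^ 2 / R ^ 2)) := by ring
        show _ ≤ p ^ 2 + q ^ 2 - 0 + (p ^ 2 + q ^ 2) + 16 * Cs ^ 2 / R ^ 2 * (u y - c) ^ 2
        rw [g7]
        linarith
      · have hy3 : y ∉ SQ z (3 * R) := fun h => hy2 ⟨h, hy1⟩
        obtain ⟨e1, e2, e3⟩ := eta_out hR hy3
        rw [indicator_of_notMem hy1, indicator_of_notMem hy2, indicator_of_notMem hy2, e1, e2, e3]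
        unfold gd
        apply le_of_eq; ring
    calc ∫ y, (gx w y ^ 2 + gy w y ^ 2) ≤ ∫ y, (gd u y - (SQ z R).indicator (gd u) y + (AN z R).indicator (gd u) y +
        16 * Cs ^ 2 / R ^ 2 * (AN z R).indicator (fun y => (u y - c) ^ 2) y) :=
          integral_mono hwU.ensq_int (((i1.sub i2).add i3).add (i4.const_mul _)) key
      _ = _ := by
          rw [integral_add (by exact (i1.sub i2).add i3) (i4.const_mul _), integral_add (by exact i1.sub i2) i3, integral_sub i1 i2,
            integral_const_mul, integral_indicator (SQ_meas _ _), integral_indicator (AN_meas _ _), integral_indicator (AN_meas _ _)]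
          rfl

/-- a square carries little mass -/
theorem strip_mass {U : Set ℂ} {u : ℂ → ℝ} (hu : TF U u) (hU : U ⊆ ball 0 1) (z : ℂ) {R : ℝ} (hR : 0 < R) :
    ∫ y in SQ z R, u y ^ 2 ≤ 4 * R * En u u := by
  have hpt : ∀ x y : ℝ, u ⟨x, y⟩ ^ 2 ≤ 2 * ∫ t, gx u ⟨t, y⟩ ^ 2 := by
    intro x y
    have hout : ∀ t : ℝ, 1 ≤ |t| → (⟨t, y⟩ : ℂ) ∉ tsupport u := by
      intro t ht hmem
      have h1 := hU (hu.supp hmem)
      rw [mem_ball, dist_zero_right] at h1
      have h2 := Complex.abs_re_le_norm (⟨t, y⟩ : ℂ)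
      simp only at h2
      linarith
    have hc : Continuous (fun t => gx u ⟨t, y⟩) := hu.gx_cont.comp (mk_cont_left y)
    have hI : ∫ t, gx u ⟨t, y⟩ ^ 2 = ∫ t in (-1:ℝ)..1, gx u ⟨t, y⟩ ^ 2 := by
      rw [intervalIntegral.integral_of_le (by norm_num), ← integral_Icc_eq_integral_Ioc]
      symm
      apply setIntegral_eq_integral_of_forall_compl_eq_zero
      intro t ht
      have : 1 ≤ |t| := by
        by_contra hcon
        push Not at hcon
        rw [abs_lt] at hcon
        exact ht ⟨hcon.1.le, hcon.2.le⟩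
      rw [TF.gx_zero (hout t this)]; ring
    rw [hI]
    rcases le_or_gt 1 |x| with hx | hx
    · rw [image_eq_zero_of_notMem_tsupport (hout x hx)]
      have : 0 ≤ ∫ t in (-1:ℝ)..1, gx u ⟨t, y⟩ ^ 2 :=
        intervalIntegral.integral_nonneg (by norm_num) fun t _ => sq_nonneg _
      linarith [this]
    · rw [abs_lt] at hx
      have h1 : ∫ t in (-1:ℝ)..x, gx u ⟨t, y⟩ = u ⟨x, y⟩ - u ⟨-1, y⟩ :=
        intervalIntegral.integral_eq_sub_of_hasDerivAt (fun t _ => line_x u hu.diff t y) (hc.intervalIntegrable _ _)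
      rw [image_eq_zero_of_notMem_tsupport (hout (-1) (by norm_num)), sub_zero] at h1
      rw [← h1]
      refine (cs_plain (-1) x hx.1.le _ hc.continuousOn).trans ?_
      have h3 : ∫ t in (-1)..x, gx u ⟨t, y⟩ ^ 2 ≤ ∫ t in (-1:ℝ)..1, gx u ⟨t, y⟩ ^ 2 := by
        apply intervalIntegral.integral_mono_interval (le_refl _) hx.1.le hx.2.le
        · exact Eventually.of_forall fun t => sq_nonneg _
        · exact (hc.pow 2).intervalIntegrable _ _
      have h5 : 0 ≤ ∫ t in (-1)..x, gx u ⟨t, y⟩ ^ 2 :=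
        intervalIntegral.integral_nonneg hx.1.le fun t _ => sq_nonneg _
      exact mul_le_mul (by linarith [hx.2]) h3 h5 (by linarith)
  have hgx2 : Integrable (fun z => gx u z ^ 2) :=
    (hu.gx_cont.pow 2).integrable_of_hasCompactSupport
      (IsCompact.of_isClosed_subset hu.gx_comp (isClosed_tsupport _) (tsupport_sub_of_zero (fun z h => by simp [h])))
  have hEn : ∫ z, gx u z ^ 2 ≤ En u u := by
    rw [En_self]
    apply integral_mono hgx2 hu.ensq_int
    intro z
    show gx u z ^ 2 ≤ gx u z ^ 2 + gy u z ^ 2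
    have := sq_nonneg (gy u z)
    linarith
  unfold SQ
  rw [rc_integral (f := fun y => u y ^ 2) (hu.cont.pow 2) (by linarith) (by linarith)]
  have hG : Integrable (fun y : ℝ => ∫ t, gx u ⟨t, y⟩ ^ 2) := (integrable_xy hgx2).integral_prod_right
  have hG0 : ∀ y : ℝ, 0 ≤ ∫ t, gx u ⟨t, y⟩ ^ 2 := fun y => integral_nonneg fun t => sq_nonneg _
  have hin : ∀ y : ℝ, ∫ x in (z.re - R)..(z.re + R), u ⟨x, y⟩ ^ 2 ≤ 4 * R * ∫ t, gx u ⟨t, y⟩ ^ 2 := by
    intro y
    have h1 : ∫ x in (z.re - R)..(z.re + R), u ⟨x, y⟩ ^ 2 ≤ ∫ _x in (z.re - R)..(z.re + R), (2 * ∫ t, gx u ⟨t, y⟩ ^ 2) := by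
      apply intervalIntegral.integral_mono_on (by linarith) _ intervalIntegrable_const
      · intro x _; exact hpt x y
      · exact ((hu.cont.comp (mk_cont_left y)).pow 2).intervalIntegrable _ _
    rw [intervalIntegral.integral_const, smul_eq_mul] at h1
    refine h1.trans (le_of_eq ?_)
    ring
  rw [intervalIntegral.integral_of_le (by linarith)]
  have hcont2 : Continuous (fun y : ℝ => ∫ x in (z.re - R)..(z.re + R), u ⟨x, y⟩ ^ 2) := by
    apply intervalIntegral.continuous_parametric_intervalIntegral_of_continuous'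
    exact (hu.cont.comp (mk_cont.comp continuous_swap)).pow 2
  calc ∫ y in Ioc (z.im - R) (z.im + R), ∫ x in (z.re - R)..(z.re + R), u ⟨x, y⟩ ^ 2
      ≤ ∫ y in Ioc (z.im - R) (z.im + R), 4 * R * ∫ t, gx u ⟨t, y⟩ ^ 2 := by
        apply integral_mono _ (hG.const_mul _).integrableOn hin
        exact (hcont2.continuousOn.integrableOn_compact isCompact_Icc).mono_set Ioc_subset_Icc_self
    _ ≤ ∫ y, 4 * R * ∫ t, gx u ⟨t, y⟩ ^ 2 :=
        setIntegral_le_integral (hG.const_mul _) (Eventually.of_forall fun y => by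
          have := hG0 y
          show 0 ≤ 4 * R * ∫ t, gx u ⟨t, y⟩ ^ 2
          positivity)
    _ = 4 * R * ∫ z, gx u z ^ 2 := by rw [integral_const_mul, ← integral_yx _ hgx2]
    _ ≤ 4 * R * En u u := mul_le_mul_of_nonneg_left hEn (by linarith)

end Pool.Agent.Helper533.StarBox
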