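import Pool.Agent.Helper533.StarBox.Cut

open MeasureTheory Metric Set Filter
open scoped Topology

namespace Pool.Agent.Helper533.StarBox

variable {D : Set ℂ} {A κ : ℝ} {U : Set ℂ} {u : ℂ → ℝ}

theorem SQ_fin (z : ℂ) (r : ℝ) : volume (SQ z r) ≠ ⊤ := RC_fin _ _ _ _

theorem SQ_vol' (z : ℂ) {r : ℝ} (hr : 0 ≤ r) : volume (SQ z r) = ENNReal.ofReal (4 * r ^ 2) := by
  rw [← SQ_vol z hr, ENNReal.ofReal_toReal (SQ_fin _ _)]

theorem e_mono (hu : TF U u) {X Y : Set ℂ} (h : X ⊆ Y) : ∫ y in X, gd u y ≤ ∫ y in Y, gd u y :=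
  setIntegral_mono_set (gd_int hu).integrableOn (Eventually.of_forall fun w => gd_nonneg u w) h.eventuallyLE

theorem e_le (hu : TF U u) (X : Set ℂ) : ∫ y in X, gd u y ≤ En u u := by
  rw [En_self]
  exact setIntegral_le_integral (gd_int hu) (Eventually.of_forall fun w => gd_nonneg u w)

theorem e_nonneg (u : ℂ → ℝ) (X : Set ℂ) : 0 ≤ ∫ y in X, gd u y := integral_nonneg fun w => gd_nonneg u w

theorem e_split (hu : TF U u) (z : ℂ) {R : ℝ} (hR : 0 < R) :
    ∫ y in SQ z (3 * R), gd u y = (∫ y in SQ z R, gd u y) + ∫ y in AN z R, gd u y := by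
  have h : SQ z (3 * R) = SQ z R ∪ AN z R := by
    unfold AN
    rw [union_diff_cancel (SQ_mono z (by linarith))]
  rw [h, setIntegral_union (by unfold AN; exact disjoint_sdiff_right) (AN_meas _ _) (gd_int hu).integrableOn (gd_int hu).integrableOn]

theorem mass_low (hu : TF U u) (hU : U ⊆ ball 0 1) (h1 : Ip u u = 1) {z : ℂ} {R : ℝ} (hR : 0 < R) {V : Set ℂ} {w : ℂ → ℝ}
    (hw : TF V w) (h : ∀ y ∉ SQ z (3 * R), w y = u y) : 1 - 12 * R * En u u ≤ Ip w w := by
  have a1 := strip_mass hu hU z (R := 3 * R) (by positivity)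
  rw [Ip_self] at h1 ⊢
  have a2 := integral_add_compl (SQ_meas z (3 * R)) hu.sq_int
  have a3 : ∫ y in (SQ z (3 * R))ᶜ, u y ^ 2 = ∫ y in (SQ z (3 * R))ᶜ, w y ^ 2 := by
    apply setIntegral_congr_fun (SQ_meas _ _).compl
    intro y hy
    simp only
    rw [h y hy]
  have a4 : ∫ y in (SQ z (3 * R))ᶜ, w y ^ 2 ≤ ∫ y, w y ^ 2 :=
    setIntegral_le_integral hw.sq_int (Eventually.of_forall fun y => sq_nonneg _)
  linarith

/-- Poincare inequality on an annulus with a hole -/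
theorem hole_poincare (hu : TF U u) (z : ℂ) {R : ℝ} (hR : 0 < R) {H : Set ℂ} (hHm : MeasurableSet H) (hH : H ⊆ AN z R)
    (h0 : ∀ y ∈ H, u y = 0) {h : ℝ} (hh : 0 < h) (hvol : (volume H).toReal = h) :
    ∫ w in AN z R, (u w - 0) ^ 2 ≤ (12000 + 432000 * R ^ 2 / h) * R ^ 2 * ∫ w in AN z R, gd u w := by
  have h1 := ann_poincare hu z hR
  set c := cT u z R with hc
  set e := ∫ w in AN z R, gd u w with he
  have he0 : 0 ≤ e := e_nonneg u _
  obtain ⟨Q, hQ⟩ := RC_bdd (z.re - 3 * R) (z.re + 3 * R) (z.im - 3 * R) (z.im + 3 * R)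
  have hAN : AN z R ⊆ closedBall 0 Q := sdiff_subset.trans hQ
  have h2 : c ^ 2 * h ≤ 6000 * R ^ 2 * e := by
    refine le_trans ?_ h1
    have e1 : ∫ w in H, (u w - c) ^ 2 = c ^ 2 * h := by
      rw [setIntegral_congr_fun (g := fun _ => c ^ 2) hHm (fun y hy => by simp only; rw [h0 y hy]; ring),
        setIntegral_const, measureReal_def, hvol, smul_eq_mul]
      ring
    rw [← e1]
    exact setIntegral_mono_set
      ((((hu.cont.sub continuous_const).pow 2).continuousOn.integrableOn_compact (isCompact_closedBall 0 Q)).mono_set hAN)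
      (Eventually.of_forall fun w => sq_nonneg _) hH.eventuallyLE
  have h3 := shift hu hAN c 0
  have h4 : (volume (AN z R)).toReal ≤ 36 * R ^ 2 := by
    have : volume (AN z R) ≤ volume (SQ z (3 * R)) := measure_mono sdiff_subset
    have h5 := ENNReal.toReal_mono (SQ_fin _ _) this
    rw [SQ_vol z (by positivity)] at h5
    linarith
  have h5 : c ^ 2 ≤ 6000 * R ^ 2 * e / h := by rw [le_div_iff₀ hh]; exact h2
  calc ∫ w in AN z R, (u w - 0) ^ 2 ≤ 2 * (∫ w in AN z R, (u w - c) ^ 2) + 2 * (volume (AN z R)).toReal * (c - 0) ^ 2 := h3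
    _ ≤ 2 * (6000 * R ^ 2 * e) + 2 * (36 * R ^ 2) * (6000 * R ^ 2 * e / h) := by
        rw [sub_zero]
        have : (volume (AN z R)).toReal * c ^ 2 ≤ 36 * R ^ 2 * (6000 * R ^ 2 * e / h) :=
          mul_le_mul h4 h5 (sq_nonneg _) (by positivity)
        linarith
    _ = _ := by ring

theorem hole_sub {z z₁ e : ℂ} {r κ : ℝ} (hr : 0 < r) (hκ : 0 < κ) (hκ2 : κ ≤ 1 / 2) (hz₁ : z₁ ∈ OS z (3 * r)) (he1 : ‖e‖ = 1) :
    SQ (z₁ + ((14 * r : ℝ) : ℂ) * e) (κ * r) ⊆ AN z (6 * r) := by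
  set z₂ : ℂ := z₁ + ((14 * r : ℝ) : ℂ) * e with hz₂
  have hz2re : z₂.re = z₁.re + 14 * (r * e.re) := by
    rw [hz₂, Complex.add_re, Complex.re_ofReal_mul]; ring
  have hz2im : z₂.im = z₁.im + 14 * (r * e.im) := by
    rw [hz₂, Complex.add_im, Complex.im_ofReal_mul]; ring
  obtain ⟨hz1re, hz1im⟩ := hz₁
  rw [abs_lt] at hz1re hz1im
  have hre := abs_le.mp ((Complex.abs_re_le_norm e).trans he1.le)
  have him := abs_le.mp ((Complex.abs_im_le_norm e).trans he1.le)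
  have hsq : e.re * e.re + e.im * e.im = 1 := by
    have := Complex.normSq_eq_norm_sq e
    rw [he1, Complex.normSq_apply] at this
    linarith
  have hκr : κ * r ≤ 1 / 2 * r := mul_le_mul_of_nonneg_right hκ2 hr.le
  set ρ := κ * r with hρ
  have hor : 7 / 10 ≤ e.re ∨ e.re ≤ -(7 / 10) ∨ 7 / 10 ≤ e.im ∨ e.im ≤ -(7 / 10) := by
    by_contra hcon
    push Not at hcon
    have q1 : e.re * e.re < 49 / 100 := by nlinarith [hcon.1, hcon.2.1]
    have q2 : e.im * e.im < 49 / 100 := by nlinarith [hcon.2.2.1, hcon.2.2.2]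
    linarith
  have b1 : r * e.re ≤ r * 1 := mul_le_mul_of_nonneg_left hre.2 hr.le
  have b2 : r * (-1) ≤ r * e.re := mul_le_mul_of_nonneg_left hre.1 hr.le
  have b3 : r * e.im ≤ r * 1 := mul_le_mul_of_nonneg_left him.2 hr.le
  have b4 : r * (-1) ≤ r * e.im := mul_le_mul_of_nonneg_left him.1 hr.le
  have hor' : r * (7 / 10) ≤ r * e.re ∨ r * e.re ≤ r * (-(7 / 10)) ∨ r * (7 / 10) ≤ r * e.im ∨ r * e.im ≤ r * (-(7 / 10)) := by
    rcases hor with h | h | h | h
    · exact Or.inl (mul_le_mul_of_nonneg_left h hr.le)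
    · exact Or.inr (Or.inl (mul_le_mul_of_nonneg_left h hr.le))
    · exact Or.inr (Or.inr (Or.inl (mul_le_mul_of_nonneg_left h hr.le)))
    · exact Or.inr (Or.inr (Or.inr (mul_le_mul_of_nonneg_left h hr.le)))
  clear hor hsq
  set p := r * e.re
  set q := r * e.im
  clear_value p q ρ
  rintro y ⟨⟨h1, h2⟩, h3, h4⟩
  rw [hz2re] at h1 h2
  rw [hz2im] at h3 h4
  refine ⟨⟨⟨by linarith, by linarith⟩, by linarith, by linarith⟩, ?_⟩
  rintro ⟨⟨g1, g2⟩, g3, g4⟩
  rcases hor' with h | h | h | h <;> linarith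

theorem hole_cone {z₁ e y : ℂ} {r κ : ℝ} (hκr : 0 < κ * r) (hy : y ∈ SQ (z₁ + ((14 * r : ℝ) : ℂ) * e) (κ * r)) :
    ‖(y - z₁) - ((14 * r : ℝ) : ℂ) * e‖ ≤ κ * (14 * r) := by
  set z₂ : ℂ := z₁ + ((14 * r : ℝ) : ℂ) * e with hz₂
  obtain ⟨⟨h1, h2⟩, h3, h4⟩ := hy
  have e1 : y - z₁ - ((14 * r : ℝ) : ℂ) * e = y - z₂ := by rw [hz₂]; ring
  rw [e1]
  refine (Complex.norm_le_abs_re_add_abs_im _).trans ?_
  rw [Complex.sub_re, Complex.sub_im]
  have a1 : |y.re - z₂.re| ≤ κ * r := by rw [abs_le]; constructor <;> linarith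
  have a2 : |y.im - z₂.im| ≤ κ * r := by rw [abs_le]; constructor <;> linarith
  linarith

theorem Box.decay (hD : Box D A κ) : ∃ θ C : ℝ, 1 / 2 ≤ θ ∧ θ < 1 ∧ 0 < C ∧ ∀ (Ω : Set ℂ) (u : ℂ → ℝ) (δ : ℝ), IsOpen Ω →
    Ω ⊆ D → volume Ω = ENNReal.ofReal A → TF Ω u → Ip u u = 1 → 0 ≤ δ → δ ≤ 1 → En u u ≤ mval D A + δ →
    ∀ (z : ℂ) (r : ℝ), 0 < r → r ≤ 1 →
      ∫ y in SQ z r, gd u y ≤ θ * (∫ y in SQ z (18 * r), gd u y) + C * r + δ := by
  have hA := hD.area0
  have hκ := hD.kpos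
  have hκ2 := hD.kle
  have hCs := Cs_pos
  set m := mval D A with hm
  have hm0 : 0 ≤ m := hD.mval_nonneg
  set K : ℝ := 1 + 64000000 * Cs ^ 2 / κ ^ 2 with hK
  have hK1 : 1 ≤ K := by
    have : 0 ≤ 64000000 * Cs ^ 2 / κ ^ 2 := by positivity
    linarith
  have hik : 4 ≤ 1 / κ ^ 2 := by
    rw [le_div_iff₀ (by positivity)]; nlinarith
  refine ⟨K / (1 + K), m * (36 / A + 72 * (m + 1)) + 1, ?_, ?_, by positivity, ?_⟩
  · rw [div_le_div_iff₀ (by norm_num) (by linarith)]; linarith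
  · rw [div_lt_one (by linarith)]; linarith
  intro Ω u δ hΩ hΩD hΩA hu hI hδ0 hδ1 hEn z r hr hr1
  have hΩb : Ω ⊆ ball 0 1 := hΩD.trans hD.sub
  have hfin : ∀ (R C₂ : ℝ), 0 < R → (∫ y in SQ z R, gd u y) ≤ δ + C₂ * r + K * (∫ y in AN z R, gd u y) → 0 ≤ C₂ →
      C₂ ≤ m * (36 / A + 72 * (m + 1)) + 1 →
      (∫ y in SQ z R, gd u y) ≤ K / (1 + K) * (∫ y in SQ z (3 * R), gd u y) + (m * (36 / A + 72 * (m + 1)) + 1) * r + δ := by
    intro R C₂ hR h hC0 hC2
    have h1 := e_split hu z hR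
    rw [div_mul_eq_mul_div, ← sub_nonneg]
    have e1 : K * (∫ y in SQ z (3 * R), gd u y) / (1 + K) + (m * (36 / A + 72 * (m + 1)) + 1) * r + δ - (∫ y in SQ z R, gd u y)
      = (K * (∫ y in SQ z (3 * R), gd u y) + (1 + K) * ((m * (36 / A + 72 * (m + 1)) + 1) * r + δ) -
        (1 + K) * (∫ y in SQ z R, gd u y)) / (1 + K) := by
      have : 1 + K ≠ 0 := by linarith
      field_simp
      ring
    rw [e1]
    apply div_nonneg _ (by linarith)
    rw [h1]
    have h2 : C₂ * r ≤ (m * (36 / A + 72 * (m + 1)) + 1) * r := mul_le_mul_of_nonneg_right hC2 hr.le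
    set X := (m * (36 / A + 72 * (m + 1)) + 1) * r with hX
    have h3 : 0 ≤ C₂ * r := by positivity
    have h4 : 0 ≤ K * (X + δ) := mul_nonneg (by linarith) (by linarith)
    have e2 : K * ((∫ y in SQ z R, gd u y) + ∫ y in AN z R, gd u y) + (1 + K) * (X + δ) - (1 + K) * (∫ y in SQ z R, gd u y) =
      (δ + C₂ * r + K * (∫ y in AN z R, gd u y) - ∫ y in SQ z R, gd u y) + (X - C₂ * r) + K * (X + δ) := by ring
    rw [e2]
    linarith
  by_cases hin : OS z (3 * r) ⊆ D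
  · -- interior
    obtain ⟨w, hw, _, hwu, hwE⟩ := cut hu z hr (cT u z r)
    have hml := mass_low hu hΩb hI hr hw hwu
    have hV : volume (Ω ∪ OS z (3 * r)) ≤ ENNReal.ofReal (A + 36 * r ^ 2) := by
      refine (measure_union_le _ _).trans ?_
      rw [ENNReal.ofReal_add hA.le (by positivity), hΩA]
      refine add_le_add le_rfl ?_
      have h1 : OS z (3 * r) ⊆ SQ z (3 * r) := by
        rintro y ⟨h1, h2⟩
        rw [abs_lt] at h1 h2
        exact ⟨⟨by linarith, by linarith⟩, by linarith, by linarith⟩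
      refine (measure_mono h1).trans (le_of_eq ?_)
      rw [SQ_vol' z (by positivity)]; congr 1; ring
    have hsc := hD.scaled (hΩ.union (OS_open z (3 * r))) (union_subset hΩD hin) (τ := 36 * r ^ 2) (by positivity) hV hw
    have hap := ann_poincare hu z hr
    set e := ∫ y in AN z r, gd u y with he
    have he0 : 0 ≤ e := e_nonneg u _
    have h1 : 16 * Cs ^ 2 / r ^ 2 * ∫ y in AN z r, (u y - cT u z r) ^ 2 ≤ 96000 * Cs ^ 2 * e := by
      calc 16 * Cs ^ 2 / r ^ 2 * ∫ y in AN z r, (u y - cT u z r) ^ 2 ≤ 16 * Cs ^ 2 / r ^ 2 * (6000 * r ^ 2 * e) :=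
            mul_le_mul_of_nonneg_left hap (by positivity)
        _ = _ := by field_simp; ring
    set a := A / (A + 36 * r ^ 2) with ha
    have ha0 : 0 ≤ a := by positivity
    have ha1 : a ≤ 1 := by rw [ha, div_le_one (by positivity)]; nlinarith [sq_nonneg r]
    have ha2 : 1 - 36 / A * r ≤ a := by
      have h2 : 1 - a = 36 * r ^ 2 / (A + 36 * r ^ 2) := by
        rw [ha]; field_simp; ring
      have h3 : 36 * r ^ 2 / (A + 36 * r ^ 2) ≤ 36 * r / A := by
        apply div_le_div₀ (by positivity) (by nlinarith) hA (by nlinarith [sq_nonneg r])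
      have h4 : 36 / A * r = 36 * r / A := by ring
      linarith
    have hEm : En u u ≤ m + 1 := by linarith
    have h2 : 1 - (36 / A + 12 * (m + 1)) * r ≤ a * Ip w w := by
      have h3 : 1 - 12 * r * (m + 1) ≤ Ip w w := by
        have : 12 * r * En u u ≤ 12 * r * (m + 1) := mul_le_mul_of_nonneg_left hEm (by positivity)
        linarith
      have h4 : a * (1 - 12 * r * (m + 1)) ≤ a * Ip w w := mul_le_mul_of_nonneg_left h3 ha0
      have h5 : a * (12 * r * (m + 1)) ≤ 1 * (12 * r * (m + 1)) := mul_le_mul_of_nonneg_right ha1 (by positivity)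
      have h6 : a * (1 - 12 * r * (m + 1)) = a - a * (12 * r * (m + 1)) := by ring
      have h7 : 1 - (36 / A + 12 * (m + 1)) * r = 1 - 36 / A * r - 1 * (12 * r * (m + 1)) := by ring
      rw [h7]
      linarith
    have h3 : m - m * (36 / A + 12 * (m + 1)) * r ≤ En w w := by
      have h4 := mul_le_mul_of_nonneg_left h2 hm0
      have h5 : m * (a * Ip w w) = m * a * Ip w w := by ring
      have h6 : m * (1 - (36 / A + 12 * (m + 1)) * r) = m - m * (36 / A + 12 * (m + 1)) * r := by ring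
      rw [h5, h6] at h4
      linarith
    have h4 : (∫ y in SQ z r, gd u y) ≤ δ + m * (36 / A + 12 * (m + 1)) * r + K * e := by
      have h5 : (1 + 96000 * Cs ^ 2) * e ≤ K * e := by
        apply mul_le_mul_of_nonneg_right _ he0
        rw [hK]
        have : 64000000 * Cs ^ 2 / κ ^ 2 = 64000000 * Cs ^ 2 * (1 / κ ^ 2) := by ring
        rw [this]
        have : 64000000 * Cs ^ 2 * 4 ≤ 64000000 * Cs ^ 2 * (1 / κ ^ 2) := mul_le_mul_of_nonneg_left hik (by positivity)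
        nlinarith [sq_nonneg Cs]
      linarith
    have h5 := hfin r (m * (36 / A + 12 * (m + 1))) hr h4 (by positivity) (by
      have h6 : m * (36 / A + 12 * (m + 1)) ≤ m * (36 / A + 72 * (m + 1)) := by
        apply mul_le_mul_of_nonneg_left _ hm0; linarith
      linarith)
    have h6 : K / (1 + K) * (∫ y in SQ z (3 * r), gd u y) ≤ K / (1 + K) * (∫ y in SQ z (18 * r), gd u y) :=
      mul_le_mul_of_nonneg_left (e_mono hu (SQ_mono z (by linarith))) (by positivity)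
    linarith
  · -- boundary
    rw [not_subset] at hin
    obtain ⟨z₁, hz₁, hz₁D⟩ := hin
    obtain ⟨e, he1, hcone⟩ := hD.cone z₁ hz₁D
    have hκr0 : 0 < κ * r := by positivity
    set H := SQ (z₁ + ((14 * r : ℝ) : ℂ) * e) (κ * r) with hH
    have hHA : H ⊆ AN z (6 * r) := hole_sub hr hκ hκ2 hz₁ he1
    have hH0 : ∀ y ∈ H, u y = 0 := by
      intro y hy
      have hyD : y ∉ D := by
        have := hcone (14 * r) (by positivity) (y - z₁) (hole_cone hκr0 hy)
        rwa [add_sub_cancel] at this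
      exact image_eq_zero_of_notMem_tsupport fun hmem => hyD (hΩD (hu.supp hmem))
    have hR : 0 < 6 * r := by positivity
    have hhp := hole_poincare hu z hR (SQ_meas _ _) hHA hH0 (h := 4 * (κ * r) ^ 2) (by positivity) (SQ_vol _ hκr0.le)
    obtain ⟨w, _, hw, hwu, hwE⟩ := cut hu z hR 0
    replace hw := hw rfl
    have hml := mass_low hu hΩb hI hR hw hwu
    have hlam : m * Ip w w ≤ En w w := by
      have h1 := lambda1_mul_le hw
      have h2 := mul_le_mul_of_nonneg_right (hD.mval_le hΩ hΩD hΩA) (Ip_nonneg w)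
      linarith
    set E := ∫ y in AN z (6 * r), gd u y with hE
    have hE0 : 0 ≤ E := e_nonneg u _
    have h1 : 16 * Cs ^ 2 / (6 * r) ^ 2 * ∫ y in AN z (6 * r), (u y - 0) ^ 2 ≤ 64000000 * Cs ^ 2 / κ ^ 2 * E := by
      have e2 : (12000 + 432000 * (6 * r) ^ 2 / (4 * (κ * r) ^ 2)) ≤ 4000000 * (1 / κ ^ 2) := by
        have e3 : 432000 * (6 * r) ^ 2 / (4 * (κ * r) ^ 2) = 3888000 * (1 / κ ^ 2) := by
          field_simp; ring
        rw [e3]; linarith
      calc 16 * Cs ^ 2 / (6 * r) ^ 2 * ∫ y in AN z (6 * r), (u y - 0) ^ 2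
          ≤ 16 * Cs ^ 2 / (6 * r) ^ 2 * ((4000000 * (1 / κ ^ 2)) * (6 * r) ^ 2 * E) := by
            apply mul_le_mul_of_nonneg_left _ (by positivity)
            refine hhp.trans ?_
            apply mul_le_mul_of_nonneg_right _ hE0
            exact mul_le_mul_of_nonneg_right e2 (by positivity)
        _ = _ := by field_simp; ring
    have hEm : En u u ≤ m + 1 := by linarith
    have h2 : 1 - 72 * (m + 1) * r ≤ Ip w w := by
      have : 12 * (6 * r) * En u u ≤ 12 * (6 * r) * (m + 1) := mul_le_mul_of_nonneg_left hEm (by positivity)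
      linarith
    have h3 : m - m * (72 * (m + 1)) * r ≤ En w w := by
      have h4 := mul_le_mul_of_nonneg_left h2 hm0
      have h6 : m * (1 - 72 * (m + 1) * r) = m - m * (72 * (m + 1)) * r := by ring
      rw [h6] at h4
      linarith
    have h4 : (∫ y in SQ z (6 * r), gd u y) ≤ δ + m * (72 * (m + 1)) * r + K * E := by
      rw [hK]; linarith
    have h5 := hfin (6 * r) (m * (72 * (m + 1))) hR h4 (by positivity) (by
      have h6 : m * (72 * (m + 1)) ≤ m * (36 / A + 72 * (m + 1)) := by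
        apply mul_le_mul_of_nonneg_left _ hm0
        have : 0 ≤ 36 / A := by positivity
        linarith
      linarith)
    have h6 : (∫ y in SQ z r, gd u y) ≤ ∫ y in SQ z (6 * r), gd u y := e_mono hu (SQ_mono z (by linarith))
    have h7 : 3 * (6 * r) = 18 * r := by ring
    rw [h7] at h5
    linarith

/-- geometric decay of the energy -/
theorem Box.geom (hD : Box D A κ) : ∃ θ B : ℝ, 0 < θ ∧ θ < 1 ∧ 0 < B ∧ ∀ (Ω : Set ℂ) (u : ℂ → ℝ) (δ : ℝ), IsOpen Ω →
    Ω ⊆ D → volume Ω = ENNReal.ofReal A → TF Ω u → Ip u u = 1 → 0 ≤ δ → δ ≤ 1 → En u u ≤ mval D A + δ →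
    ∀ (z : ℂ) (j : ℕ), ∫ y in SQ z ((1 / 18) ^ j), gd u y ≤ B * θ ^ j + B * δ := by
  obtain ⟨θ, C, hθ, hθ1, hC, h⟩ := hD.decay
  have hm0 : 0 ≤ mval D A := hD.mval_nonneg
  have h1θ : 0 < 1 - θ := by linarith
  set B₀ := mval D A + 1 + C with hB₀
  refine ⟨θ, max B₀ (1 / (1 - θ)), by linarith, hθ1, lt_of_lt_of_le (by positivity) (le_max_left _ _), ?_⟩
  intro Ω u δ hΩ hΩD hΩA hu hI hδ0 hδ1 hEn z j
  have key : ∀ j : ℕ, ∫ y in SQ z ((1 / 18) ^ j), gd u y ≤ B₀ * θ ^ j - C * (1 / 18) ^ j + 1 / (1 - θ) * δ := by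
    intro j
    induction j with
    | zero =>
      have h1 := e_le hu (SQ z ((1 / 18) ^ 0))
      have h2 : 0 ≤ 1 / (1 - θ) * δ := by positivity
      rw [pow_zero, pow_zero] at *
      linarith
    | succ j ih =>
      have hr : (0:ℝ) < (1 / 18) ^ (j + 1) := by positivity
      have hr1 : ((1:ℝ) / 18) ^ (j + 1) ≤ 1 := pow_le_one₀ (by norm_num) (by norm_num)
      have h1 := h Ω u δ hΩ hΩD hΩA hu hI hδ0 hδ1 hEn z _ hr hr1
      have e1 : 18 * ((1:ℝ) / 18) ^ (j + 1) = (1 / 18) ^ j := by rw [pow_succ]; ring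
      rw [e1] at h1
      have h2 := mul_le_mul_of_nonneg_left ih (show 0 ≤ θ by linarith)
      have e2 : θ * (1 / (1 - θ) * δ) + δ = 1 / (1 - θ) * δ := by field_simp; ring
      have e3 : θ * (B₀ * θ ^ j) = B₀ * θ ^ (j + 1) := by rw [pow_succ]; ring
      have hp : (0:ℝ) < (1 / 18) ^ j := by positivity
      have e4 : ((1:ℝ) / 18) ^ (j + 1) = (1 / 18) ^ j / 18 := by rw [pow_succ]; ring
      rw [e4] at h1 ⊢
      have h5 : 0 ≤ (θ - 1 / 2) * (C * (1 / 18) ^ j) := mul_nonneg (by linarith) (by positivity)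
      have h6 : 0 < C * (1 / 18) ^ j := by positivity
      have e5 : θ * (B₀ * θ ^ j - C * (1 / 18) ^ j + 1 / (1 - θ) * δ) + C * ((1 / 18) ^ j / 18) + δ =
        B₀ * θ ^ (j + 1) - C * ((1 / 18) ^ j / 18) + (θ * (1 / (1 - θ) * δ) + δ) - ((θ - 1 / 2) * (C * (1 / 18) ^ j) +
          (1 / 2 - 1 / 9) * (C * (1 / 18) ^ j)) := by rw [← e3]; ring
      have h7 : 0 ≤ (1 / 2 - 1 / 9 : ℝ) * (C * (1 / 18) ^ j) := by positivity
      linarith
  have h1 := key j
  have h2 : B₀ * θ ^ j ≤ max B₀ (1 / (1 - θ)) * θ ^ j := mul_le_mul_of_nonneg_right (le_max_left _ _) (by positivity)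
  have h3 : 1 / (1 - θ) * δ ≤ max B₀ (1 / (1 - θ)) * δ := mul_le_mul_of_nonneg_right (le_max_right _ _) hδ0
  have h4 : 0 ≤ C * (1 / 18) ^ j := by positivity
  linarith

end Pool.Agent.Helper533.StarBox
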