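import Pool.Agent.Helper533.StarBox.Sector2

open MeasureTheory Metric Set Filter
open scoped Topology

namespace Pool.Agent.Helper533.StarBox

noncomputable def aa (ν : ℕ) : ℝ := Real.pi / (2 * ν)

/-- the sector with a central notch -/
def D0 (ν : ℕ) : Set ℂ :=
  {z | ‖z‖ < 1 ∧ |z.im| * Real.cos (aa ν) < z.re * Real.sin (aa ν) ∧
    (‖z‖ < 1 / 2 ∨ z.re * Real.sin (aa ν / 2) < |z.im| * Real.cos (aa ν / 2))}

/-- the box: a tiny disc is added at the tip -/
def DE (ν : ℕ) (ε : ℝ) : Set ℂ := D0 ν ∪ ball 0 ε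

theorem aa_pos {ν : ℕ} (hν : 2 ≤ ν) : 0 < aa ν ∧ aa ν ≤ Real.pi / 4 := by
  have h2 : (2 : ℝ) ≤ ν := by exact_mod_cast hν
  have := Real.pi_pos
  unfold aa
  constructor
  · positivity
  · apply div_le_div_of_nonneg_left this.le (by norm_num) (by linarith)

theorem sin_aa_pos {ν : ℕ} (hν : 2 ≤ ν) : 0 < Real.sin (aa ν) := by
  have := aa_pos hν
  exact Real.sin_pos_of_pos_of_lt_pi this.1 (by linarith [Real.pi_pos])

theorem cos_aa_pos {ν : ℕ} (hν : 2 ≤ ν) : 0 < Real.cos (aa ν) := by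
  have := aa_pos hν
  exact Real.cos_pos_of_mem_Ioo ⟨by linarith [Real.pi_pos], by linarith [Real.pi_pos]⟩

theorem sin_bb_pos {ν : ℕ} (hν : 2 ≤ ν) : 0 < Real.sin (aa ν / 2) := by
  have := aa_pos hν
  exact Real.sin_pos_of_pos_of_lt_pi (by linarith) (by linarith [Real.pi_pos])

theorem cos_bb_pos {ν : ℕ} (hν : 2 ≤ ν) : 0 < Real.cos (aa ν / 2) := by
  have := aa_pos hν
  exact Real.cos_pos_of_mem_Ioo ⟨by linarith [Real.pi_pos], by linarith [Real.pi_pos]⟩

theorem D0_open (ν : ℕ) : IsOpen (D0 ν) := by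
  have h1 : IsOpen {z : ℂ | ‖z‖ < 1} := isOpen_lt (by fun_prop) (by fun_prop)
  have h2 : IsOpen {z : ℂ | |z.im| * Real.cos (aa ν) < z.re * Real.sin (aa ν)} := isOpen_lt (by fun_prop) (by fun_prop)
  have h3 : IsOpen {z : ℂ | ‖z‖ < 1 / 2} := isOpen_lt (by fun_prop) (by fun_prop)
  have h4 : IsOpen {z : ℂ | z.re * Real.sin (aa ν / 2) < |z.im| * Real.cos (aa ν / 2)} := isOpen_lt (by fun_prop) (by fun_prop)
  exact h1.inter (h2.inter (h3.union h4))

theorem DE_open (ν : ℕ) (ε : ℝ) : IsOpen (DE ν ε) := (D0_open ν).union isOpen_ball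

theorem D0_ball (ν : ℕ) : D0 ν ⊆ ball 0 1 := by
  intro z hz
  rw [mem_ball, dist_zero_right]; exact hz.1

theorem DE_ball (ν : ℕ) {ε : ℝ} (hε : ε ≤ 1) : DE ν ε ⊆ ball 0 1 :=
  union_subset (D0_ball ν) (ball_subset_ball hε)

theorem D0_re {ν : ℕ} (hν : 2 ≤ ν) {z : ℂ} (hz : z ∈ D0 ν) : 0 < z.re := by
  have h1 := sin_aa_pos hν
  have h2 := cos_aa_pos hν
  have h3 : 0 ≤ |z.im| * Real.cos (aa ν) := by positivity
  have h4 : 0 < z.re * Real.sin (aa ν) := lt_of_le_of_lt h3 hz.2.1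
  exact (pos_iff_pos_of_mul_pos h4).mpr h1

theorem D0_smul {ν : ℕ} {z : ℂ} (hz : z ∈ D0 ν) {t : ℝ} (ht : 0 < t) (ht1 : t ≤ 1) : (t : ℂ) * z ∈ D0 ν := by
  obtain ⟨h1, h2, h3⟩ := hz
  have e1 : ‖(t : ℂ) * z‖ = t * ‖z‖ := by rw [norm_mul, Complex.norm_real, Real.norm_of_nonneg ht.le]
  have e2 : ((t : ℂ) * z).re = t * z.re := Complex.re_ofReal_mul _ _
  have e3 : ((t : ℂ) * z).im = t * z.im := Complex.im_ofReal_mul _ _
  have hn := norm_nonneg z
  refine ⟨?_, ?_, ?_⟩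
  · rw [e1]; nlinarith
  · rw [e2, e3, abs_mul, abs_of_pos ht, mul_assoc, mul_assoc]
    exact mul_lt_mul_of_pos_left h2 ht
  · rcases h3 with h3 | h3
    · left; rw [e1]; nlinarith
    · right
      rw [e2, e3, abs_mul, abs_of_pos ht, mul_assoc, mul_assoc]
      exact mul_lt_mul_of_pos_left h3 ht

theorem DE_star (ν : ℕ) {ε : ℝ} (hε : 0 < ε) : StarConvex ℝ 0 (DE ν ε) := by
  rw [starConvex_zero_iff]
  intro z hz t ht0 ht1
  rw [Complex.real_smul]
  rcases hz with hz | hz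
  · rcases eq_or_lt_of_le ht0 with h | h
    · right; rw [← h]; simp [hε]
    · left; exact D0_smul hz h ht1
  · right
    rw [mem_ball, dist_zero_right] at *
    rw [norm_mul, Complex.norm_real, Real.norm_of_nonneg ht0]
    nlinarith [norm_nonneg z]

/-- the central small sector -/
def S0 (ν : ℕ) : Set ℂ := {z | ‖z‖ < 1 / 2 ∧ |z.im| * Real.cos (aa ν) < z.re * Real.sin (aa ν)}

theorem S0_sub (ν : ℕ) : S0 ν ⊆ D0 ν := fun z hz => ⟨by linarith [hz.1], hz.2, Or.inl hz.1⟩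

theorem S0_convex {ν : ℕ} (hν : 2 ≤ ν) : Convex ℝ (S0 ν) := by
  have h1 : Convex ℝ {z : ℂ | ‖z‖ < 1 / 2} := by
    have : {z : ℂ | ‖z‖ < 1 / 2} = ball 0 (1/2) := by ext z; simp
    rw [this]; exact convex_ball _ _
  have h2 : Convex ℝ {z : ℂ | |z.im| * Real.cos (aa ν) < z.re * Real.sin (aa ν)} := by
    intro z hz w hw s t hs ht hst
    simp only [mem_setOf_eq] at *
    have hc := cos_aa_pos hν
    have e1 : (s • z + t • w).im = s * z.im + t * w.im := by simp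
    have e2 : (s • z + t • w).re = s * z.re + t * w.re := by simp
    rw [e1, e2]
    have h3 : |s * z.im + t * w.im| ≤ s * |z.im| + t * |w.im| := by
      refine (abs_add_le _ _).trans ?_
      rw [abs_mul, abs_mul, abs_of_nonneg hs, abs_of_nonneg ht]
    have h4 : |s * z.im + t * w.im| * Real.cos (aa ν) ≤ s * (|z.im| * Real.cos (aa ν)) + t * (|w.im| * Real.cos (aa ν)) := by
      calc _ ≤ (s * |z.im| + t * |w.im|) * Real.cos (aa ν) := mul_le_mul_of_nonneg_right h3 hc.le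
        _ = _ := by ring
    have h5 : s * (|z.im| * Real.cos (aa ν)) + t * (|w.im| * Real.cos (aa ν)) <
        s * (z.re * Real.sin (aa ν)) + t * (w.re * Real.sin (aa ν)) := by
      rcases eq_or_lt_of_le hs with h | h
      · have : t = 1 := by linarith
        rw [← h, this]; linarith
      · have := mul_lt_mul_of_pos_left hz h
        have := mul_le_mul_of_nonneg_left hw.le ht
        linarith
    calc _ ≤ _ := h4
      _ < _ := h5
      _ = _ := by ring
  exact h1.inter h2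

/-- a point of the central sector -/
theorem S0_point {ν : ℕ} (hν : 2 ≤ ν) : (1 / 4 : ℂ) ∈ S0 ν := by
  have := sin_aa_pos hν
  refine ⟨by norm_num, ?_⟩
  have e1 : (1 / 4 : ℂ).im = 0 := by simp
  have e2 : (1 / 4 : ℂ).re = 1 / 4 := by simp
  rw [e1, e2]; simp; positivity

theorem D0_nonempty {ν : ℕ} (hν : 2 ≤ ν) : (D0 ν).Nonempty := ⟨_, S0_sub ν (S0_point hν)⟩

theorem D0_preconnected {ν : ℕ} (hν : 2 ≤ ν) : IsPreconnected (D0 ν) := by
  apply isPreconnected_of_forall (1 / 4 : ℂ)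
  intro y hy
  refine ⟨(fun t : ℝ => (t : ℂ) * y) '' Icc (1/4) 1 ∪ S0 ν, ?_, Or.inr (S0_point hν), Or.inl ⟨1, by norm_num, by simp⟩, ?_⟩
  · apply union_subset _ (S0_sub ν)
    rintro _ ⟨t, ht, rfl⟩
    exact D0_smul hy (by linarith [ht.1]) ht.2
  · apply IsPreconnected.union' (s := (fun t : ℝ => (t : ℂ) * y) '' Icc (1/4) 1) (t := S0 ν)
    · refine ⟨((1/4 : ℝ) : ℂ) * y, ⟨1/4, by norm_num, rfl⟩, ?_⟩
      have h1 := D0_smul hy (show (0:ℝ) < 1/4 by norm_num) (by norm_num)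
      refine ⟨?_, h1.2.1⟩
      rw [norm_mul, Complex.norm_real, Real.norm_of_nonneg (by norm_num)]
      have := hy.1
      nlinarith [norm_nonneg y]
    · apply IsPreconnected.image isPreconnected_Icc
      exact (Complex.continuous_ofReal.mul continuous_const).continuousOn
    · exact (S0_convex hν).isPreconnected

/-! ### decomposition into three sectors -/

theorem Sec_iff (θ : ℝ) {μ : ℕ} (hμ : 1 ≤ μ) (R : ℝ) (z : ℂ) : z ∈ Sec (Complex.exp (θ * Complex.I)) μ R ↔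
    ‖z‖ < R ∧ z.im * Real.cos (θ + Real.pi / (2 * μ)) < z.re * Real.sin (θ + Real.pi / (2 * μ)) ∧
      z.re * Real.sin (θ - Real.pi / (2 * μ)) < z.im * Real.cos (θ - Real.pi / (2 * μ)) := by
  set α := Real.pi / (2 * μ) with hα
  have e0 : (starRingEnd ℂ) (Complex.exp (θ * Complex.I)) = Complex.exp ((-θ : ℝ) * Complex.I) := by
    rw [← Complex.exp_conj]; simp
  have e1 : (z * (starRingEnd ℂ) (Complex.exp (θ * Complex.I))).im = z.im * Real.cos θ - z.re * Real.sin θ := by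
    rw [e0, Complex.mul_im, Complex.exp_ofReal_mul_I_re, Complex.exp_ofReal_mul_I_im, Real.cos_neg, Real.sin_neg]; ring
  have e2 : (z * (starRingEnd ℂ) (Complex.exp (θ * Complex.I))).re = z.re * Real.cos θ + z.im * Real.sin θ := by
    rw [e0, Complex.mul_re, Complex.exp_ofReal_mul_I_re, Complex.exp_ofReal_mul_I_im, Real.cos_neg, Real.sin_neg]; ring
  unfold Sec
  simp only [mem_setOf_eq]
  rw [← hα, e1, e2, Real.cos_add, Real.sin_add, Real.cos_sub, Real.sin_sub]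
  constructor
  · rintro ⟨h1, h2⟩
    have hc : 0 ≤ Real.cos α := by
      have := alpha_bounds hμ
      exact Real.cos_nonneg_of_mem_Icc ⟨by linarith [Real.pi_pos, this.1], this.2⟩
    refine ⟨h1, ?_, ?_⟩
    · have h3 := le_abs_self (z.im * Real.cos θ - z.re * Real.sin θ)
      have := mul_le_mul_of_nonneg_right h3 hc
      linarith
    · have h3 := neg_le_abs (z.im * Real.cos θ - z.re * Real.sin θ)
      have := mul_le_mul_of_nonneg_right h3 hc
      linarith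
  · rintro ⟨h1, h2, h3⟩
    refine ⟨h1, ?_⟩
    rcases abs_cases (z.im * Real.cos θ - z.re * Real.sin θ) with h | h
    · rw [h.1]; linarith
    · rw [h.1]; linarith

noncomputable def eθ (θ : ℝ) : ℂ := Complex.exp (θ * Complex.I)

theorem norm_eθ (θ : ℝ) : ‖eθ θ‖ = 1 := Complex.norm_exp_ofReal_mul_I θ

theorem angle_up (ν : ℕ) : 3 * aa ν / 4 + Real.pi / (2 * ((4 * ν : ℕ) : ℝ)) = aa ν := by
  unfold aa; push_cast; ring_nf

theorem angle_up' (ν : ℕ) : 3 * aa ν / 4 - Real.pi / (2 * ((4 * ν : ℕ) : ℝ)) = aa ν / 2 := by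
  unfold aa; push_cast; ring_nf

/-- every point of `D0` lies in one of the three sectors -/
theorem D0_cover {ν : ℕ} (hν : 2 ≤ ν) {z : ℂ} (hz : z ∈ D0 ν) :
    z ∈ Sec (eθ 0) ν (1 / 2) ∨ z ∈ Sec (eθ (3 * aa ν / 4)) (4 * ν) 1 ∨ z ∈ Sec (eθ (-(3 * aa ν / 4))) (4 * ν) 1 := by
  obtain ⟨h1, h2, h3⟩ := hz
  have hre := D0_re hν ⟨h1, h2, h3⟩
  have hc := cos_aa_pos hν
  have hs := sin_aa_pos hν
  have hcb := cos_bb_pos hν
  have hsb := sin_bb_pos hν
  unfold eθ
  rw [Sec_iff _ (by omega), Sec_iff _ (by omega), Sec_iff _ (by omega), angle_up, angle_up']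
  have e1 : -(3 * aa ν / 4) + Real.pi / (2 * ((4 * ν : ℕ) : ℝ)) = -(aa ν / 2) := by
    have := angle_up' ν; linarith
  have e2 : -(3 * aa ν / 4) - Real.pi / (2 * ((4 * ν : ℕ) : ℝ)) = -(aa ν) := by
    have := angle_up ν; linarith
  rw [e1, e2]
  simp only [zero_add, zero_sub, Real.sin_neg, Real.cos_neg]
  rcases h3 with h3 | h3
  · left
    have ha : Real.pi / (2 * (ν:ℝ)) = aa ν := rfl
    rw [ha]
    refine ⟨h3, ?_, ?_⟩
    · have := mul_le_mul_of_nonneg_right (le_abs_self z.im) hc.le; linarith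
    · have := mul_le_mul_of_nonneg_right (neg_le_abs z.im) hc.le; linarith
  · right
    rcases abs_cases z.im with h | h
    · left
      rw [h.1] at h2 h3
      exact ⟨h1, h2, h3⟩
    · right
      rw [h.1] at h2 h3
      refine ⟨h1, by linarith, by linarith⟩

theorem Sec0_sub {ν : ℕ} (hν : 2 ≤ ν) : Sec (eθ 0) ν (1 / 2) ⊆ D0 ν := by
  intro z hz
  unfold eθ at hz
  rw [Sec_iff _ (by omega)] at hz
  have ha : Real.pi / (2 * (ν:ℝ)) = aa ν := rfl
  simp only [zero_add, zero_sub, Real.sin_neg, Real.cos_neg] at hz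
  rw [ha] at hz
  obtain ⟨h1, h2, h3⟩ := hz
  refine ⟨by linarith, ?_, Or.inl h1⟩
  rcases abs_cases z.im with h | h
  · rw [h.1]; exact h2
  · rw [h.1]; linarith

theorem SecU_sub {ν : ℕ} (hν : 2 ≤ ν) : Sec (eθ (3 * aa ν / 4)) (4 * ν) 1 ⊆ D0 ν := by
  intro z hz
  unfold eθ at hz
  rw [Sec_iff _ (by omega), angle_up, angle_up'] at hz
  obtain ⟨h1, h2, h3⟩ := hz
  have hc := cos_aa_pos hν
  have hs := sin_aa_pos hν
  have hcb := cos_bb_pos hν
  have hsb := sin_bb_pos hν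
  -- `re sin b < im cos b` and `im cos a < re sin a` force `re > 0`, `im > 0`
  have hd : 0 < Real.sin (aa ν) * Real.cos (aa ν / 2) - Real.sin (aa ν / 2) * Real.cos (aa ν) := by
    have : Real.sin (aa ν) * Real.cos (aa ν / 2) - Real.sin (aa ν / 2) * Real.cos (aa ν) = Real.sin (aa ν - aa ν / 2) := by
      rw [Real.sin_sub]; ring
    rw [this]
    have := aa_pos hν
    exact Real.sin_pos_of_pos_of_lt_pi (by linarith) (by linarith [Real.pi_pos])
  have hre : 0 < z.re := by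
    have e1 : z.re * Real.sin (aa ν / 2) * Real.cos (aa ν) < z.im * Real.cos (aa ν / 2) * Real.cos (aa ν) :=
      mul_lt_mul_of_pos_right h3 hc
    have e2 : z.im * Real.cos (aa ν) * Real.cos (aa ν / 2) < z.re * Real.sin (aa ν) * Real.cos (aa ν / 2) :=
      mul_lt_mul_of_pos_right h2 hcb
    have e3 : 0 < z.re * (Real.sin (aa ν) * Real.cos (aa ν / 2) - Real.sin (aa ν / 2) * Real.cos (aa ν)) := by linarith
    exact (pos_iff_pos_of_mul_pos e3).mpr hd
  have him : 0 < z.im := by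
    have : 0 < z.im * Real.cos (aa ν / 2) := lt_trans (by positivity) h3
    exact (pos_iff_pos_of_mul_pos this).mpr hcb
  refine ⟨h1, ?_, Or.inr ?_⟩
  · rw [abs_of_pos him]; exact h2
  · rw [abs_of_pos him]; exact h3

theorem D0_conj {ν : ℕ} {z : ℂ} : (starRingEnd ℂ) z ∈ D0 ν ↔ z ∈ D0 ν := by
  unfold D0
  simp only [mem_setOf_eq, Complex.norm_conj, Complex.conj_im, Complex.conj_re, abs_neg]

theorem SecL_sub {ν : ℕ} (hν : 2 ≤ ν) : Sec (eθ (-(3 * aa ν / 4))) (4 * ν) 1 ⊆ D0 ν := by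
  intro z hz
  rw [← D0_conj]
  apply SecU_sub hν
  unfold eθ at hz ⊢
  rw [Sec_iff _ (by omega), angle_up, angle_up']
  rw [Sec_iff _ (by omega)] at hz
  have e1 : -(3 * aa ν / 4) + Real.pi / (2 * ((4 * ν : ℕ) : ℝ)) = -(aa ν / 2) := by
    have := angle_up' ν; linarith
  have e2 : -(3 * aa ν / 4) - Real.pi / (2 * ((4 * ν : ℕ) : ℝ)) = -(aa ν) := by
    have := angle_up ν; linarith
  rw [e1, e2, Real.sin_neg, Real.cos_neg, Real.sin_neg, Real.cos_neg] at hz
  simp only [Complex.norm_conj, Complex.conj_im, Complex.conj_re]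
  obtain ⟨h1, h2, h3⟩ := hz
  exact ⟨h1, by linarith, by linarith⟩

end Pool.Agent.Helper533.StarBox
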