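import Pool.Agent.Helper533.StarBox.Avg

open MeasureTheory Metric Set Filter
open scoped Topology

namespace Pool.Agent.Helper533.StarBox

variable {D : Set ℂ} {A κ : ℝ} {U : Set ℂ} {u v : ℂ → ℝ} {r : ℝ}

theorem sq_poincare (hu : TF U u) (hr : 0 < r) (z : ℂ) :
    ∫ w in SQ z r, (u w - av u r z) ^ 2 ≤ 4 * r ^ 2 * ∫ w in SQ z r, gd u w := by
  have h := rc_poincare hu (x0 := z.re - r) (x1 := z.re + r) (y0 := z.im - r) (y1 := z.im + r) (L := 2 * r)
    (by linarith) (by linarith) (by linarith) (by linarith)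
  have e : (2 * r) ^ 2 = 4 * r ^ 2 := by ring
  rw [e] at h
  exact h

theorem step_avg (hu : TF U u) (hr : 0 < r) (z : ℂ) :
    (av u (r / 18) z - av u r z) ^ 2 ≤ 650 * ∫ w in SQ z r, gd u w := by
  obtain ⟨Q, hQ⟩ := RC_bdd (z.re - r) (z.re + r) (z.im - r) (z.im + r)
  have hY : SQ z r ⊆ closedBall 0 Q := hQ
  have hXY : SQ z (r / 18) ⊆ SQ z r := SQ_mono z (by linarith)
  have h1 := chain hu (SQ_meas z (r / 18)) (SQ_meas z r) (SQ_meas z (r / 18)) (subset_refl _) hXY (hXY.trans hY) hY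
    (av u (r / 18) z) (av u r z)
  have h2 := sq_poincare hu (show 0 < r / 18 by positivity) z
  have h3 := sq_poincare hu hr z
  have h4 := e_mono hu hXY
  rw [SQ_vol z (by positivity)] at h1
  set E := ∫ w in SQ z r, gd u w
  have hE : 0 ≤ E := e_nonneg u _
  have h5 : 4 * (r / 18) ^ 2 * ∫ w in SQ z (r / 18), gd u w ≤ 4 * (r / 18) ^ 2 * E :=
    mul_le_mul_of_nonneg_left h4 (by positivity)
  have h6 : (av u (r / 18) z - av u r z) ^ 2 * (4 * (r / 18) ^ 2) ≤ 650 * E * (4 * (r / 18) ^ 2) := by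
    have e1 : 650 * E * (4 * (r / 18) ^ 2) = 2 * (4 * (r / 18) ^ 2 * E) + 2 * (4 * r ^ 2 * E) := by ring
    rw [e1]; linarith
  exact le_of_mul_le_mul_right h6 (by positivity)

theorem av_sub (hu : TF U u) (hv : TF U v) (r : ℝ) (z : ℂ) :
    av (fun w => u w - v w) r z = av u r z - av v r z := by
  have i1 : IntegrableOn u (SQ z r) := RC_int hu.cont _ _ _ _
  have i2 : IntegrableOn v (SQ z r) := RC_int hv.cont _ _ _ _
  rw [av_eq, av_eq, av_eq, integral_sub i1 i2]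
  ring

theorem diff_avg (hu : TF U u) (hv : TF U v) (hr : 0 < r) (z : ℂ) :
    (av u r z - av v r z) ^ 2 ≤ (1 / (4 * r ^ 2)) * Ip (fun w => u w - v w) (fun w => u w - v w) := by
  rw [← av_sub hu hv]
  refine (av_sq_le (hu.sub hv) hr z).trans ?_
  apply mul_le_mul_of_nonneg_left _ (by positivity)
  rw [Ip_self]
  exact setIntegral_le_integral (hu.sub hv).sq_int (Eventually.of_forall fun w => sq_nonneg _)

theorem Box.cone_avg (hD : Box D A κ) {Ω : Set ℂ} (hΩ : Ω ⊆ D) (hu : TF Ω u) (hr : 0 < r) {z : ℂ} (hz : z ∉ D) :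
    av u r z ^ 2 ≤ 16 / κ ^ 2 * ∫ w in SQ z r, gd u w := by
  obtain ⟨e, he1, hcone⟩ := hD.cone z hz
  have hκ := hD.kpos
  have hκ2 := hD.kle
  set z₂ : ℂ := z + ((r / 2 : ℝ) : ℂ) * e with hz₂
  set ρ := κ * r / 4 with hρ
  have hρ0 : 0 < ρ := by positivity
  have hρ1 : ρ ≤ r / 8 := by
    have := mul_le_mul_of_nonneg_right hκ2 hr.le
    linarith
  have hz2re : z₂.re = z.re + r / 2 * e.re := by rw [hz₂, Complex.add_re, Complex.re_ofReal_mul]
  have hz2im : z₂.im = z.im + r / 2 * e.im := by rw [hz₂, Complex.add_im, Complex.im_ofReal_mul]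
  have hre := abs_le.mp ((Complex.abs_re_le_norm e).trans he1.le)
  have him := abs_le.mp ((Complex.abs_im_le_norm e).trans he1.le)
  have b1 : r * e.re ≤ r * 1 := mul_le_mul_of_nonneg_left hre.2 hr.le
  have b2 : r * (-1) ≤ r * e.re := mul_le_mul_of_nonneg_left hre.1 hr.le
  have b3 : r * e.im ≤ r * 1 := mul_le_mul_of_nonneg_left him.2 hr.le
  have b4 : r * (-1) ≤ r * e.im := mul_le_mul_of_nonneg_left him.1 hr.le
  have hsub : SQ z₂ ρ ⊆ SQ z r := by
    rintro y ⟨⟨h1, h2⟩, h3, h4⟩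
    rw [hz2re] at h1 h2
    rw [hz2im] at h3 h4
    exact ⟨⟨by linarith, by linarith⟩, by linarith, by linarith⟩
  have h0 : ∀ y ∈ SQ z₂ ρ, u y = 0 := by
    intro y hy
    have hyD : y ∉ D := by
      have := hcone (r / 2) (by positivity) (y - z) (by
        have e1 : y - z - ((r / 2 : ℝ) : ℂ) * e = y - z₂ := by rw [hz₂]; ring
        rw [e1]
        obtain ⟨⟨h1, h2⟩, h3, h4⟩ := hy
        refine (Complex.norm_le_abs_re_add_abs_im _).trans ?_
        rw [Complex.sub_re, Complex.sub_im]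
        have a1 : |y.re - z₂.re| ≤ ρ := by rw [abs_le]; constructor <;> linarith
        have a2 : |y.im - z₂.im| ≤ ρ := by rw [abs_le]; constructor <;> linarith
        have e2 : κ * (r / 2) = 2 * ρ := by rw [hρ]; ring
        rw [e2]; linarith)
      rwa [add_sub_cancel] at this
    exact image_eq_zero_of_notMem_tsupport fun hmem => hyD (hΩ (hu.supp hmem))
  have h1 := sq_poincare hu hr z
  set c := av u r z with hc
  obtain ⟨Q, hQ⟩ := RC_bdd (z.re - r) (z.re + r) (z.im - r) (z.im + r)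
  have hY : SQ z r ⊆ closedBall 0 Q := hQ
  have h2 : c ^ 2 * (4 * ρ ^ 2) ≤ 4 * r ^ 2 * ∫ w in SQ z r, gd u w := by
    refine le_trans ?_ h1
    have e1 : ∫ w in SQ z₂ ρ, (u w - c) ^ 2 = c ^ 2 * (4 * ρ ^ 2) := by
      rw [setIntegral_congr_fun (g := fun _ => c ^ 2) (SQ_meas _ _) (fun y hy => by simp only; rw [h0 y hy]; ring),
        setIntegral_const, measureReal_def, SQ_vol _ hρ0.le, smul_eq_mul]
      ring
    rw [← e1]
    exact setIntegral_mono_set
      ((((hu.cont.sub continuous_const).pow 2).continuousOn.integrableOn_compact (isCompact_closedBall 0 Q)).mono_set hY)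
      (Eventually.of_forall fun w => sq_nonneg _) hsub.eventuallyLE
  have h3 : c ^ 2 * (4 * ρ ^ 2) ≤ (16 / κ ^ 2 * ∫ w in SQ z r, gd u w) * (4 * ρ ^ 2) := by
    refine h2.trans (le_of_eq ?_)
    rw [hρ]; field_simp; ring
  exact le_of_mul_le_mul_right h3 (by positivity)

/-- a good sequence of near-minimisers -/
theorem Box.seq (hD : Box D A κ) {η : ℕ → ℝ} (hη : ∀ k, 0 < η k) :
    ∃ (Ω : ℕ → Set ℂ) (v : ℕ → ℂ → ℝ), ∀ k, IsOpen (Ω k) ∧ Ω k ⊆ D ∧ volume (Ω k) = ENNReal.ofReal A ∧ TF (Ω k) (v k) ∧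
      Ip (v k) (v k) = 1 ∧ En (v k) (v k) ≤ mval D A + η k ∧
      Ip (fun z => v (k + 1) z - v k z) (fun z => v (k + 1) z - v k z) ≤ η k := by
  have hn : ∀ n : ℕ, ∃ (Ω : Set ℂ) (u : ℂ → ℝ), IsOpen Ω ∧ Ω ⊆ D ∧
      volume Ω = ENNReal.ofReal A ∧ TF Ω u ∧ Ip u u = 1 ∧ En u u ≤ mval D A + 1 / ((n : ℝ) + 1) := fun n =>
    hD.near (by positivity)
  choose Ω u h1 h2 h3 h4 h5 h6 using hn
  have hball : ∀ n, TF (ball 0 1) (u n) := fun n => (h4 n).mono ((h2 n).trans hD.sub)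
  obtain ⟨φ, hφ, F, hF⟩ := rellich one_pos u hball (M := mval D A + 1) (fun n => by
    refine (h6 n).trans ?_
    have : 1 / ((n : ℝ) + 1) ≤ 1 := by
      rw [div_le_one (by positivity)]
      have : (0:ℝ) ≤ n := Nat.cast_nonneg n
      linarith
    linarith)
  have hC : CauchySeq fun n => cls (u (φ n)) := hF.cauchySeq
  have hex : ∀ k : ℕ, ∃ N : ℕ, (∀ m ≥ N, ∀ n ≥ N, dist (cls (u (φ m))) (cls (u (φ n))) ≤ √(η k)) ∧
      ∀ n ≥ N, 1 / ((φ n : ℝ) + 1) ≤ η k := by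
    intro k
    obtain ⟨N₁, hN₁⟩ := Metric.cauchySeq_iff.mp hC (√(η k)) (Real.sqrt_pos.mpr (hη k))
    obtain ⟨N₂, hN₂⟩ := exists_nat_one_div_lt (hη k)
    refine ⟨max N₁ N₂, ?_, ?_⟩
    · intro m hm n hn
      exact (hN₁ m (le_trans (le_max_left _ _) hm) n (le_trans (le_max_left _ _) hn)).le
    · intro n hn
      refine le_trans ?_ hN₂.le
      apply one_div_le_one_div_of_le (by positivity)
      have : N₂ ≤ φ n := (le_trans (le_max_right _ _) hn).trans (hφ.id_le n)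
      have : (N₂ : ℝ) ≤ φ n := by exact_mod_cast this
      linarith
  choose N hN1 hN2 using hex
  set n : ℕ → ℕ := fun k => ∑ i ∈ Finset.range (k + 1), N i with hnd
  have hn1 : ∀ k, N k ≤ n k := fun k =>
    Finset.single_le_sum (f := N) (fun i _ => Nat.zero_le _) (Finset.mem_range.mpr (Nat.lt_succ_self k))
  have hn2 : ∀ k, N k ≤ n (k + 1) := fun k =>
    Finset.single_le_sum (f := N) (fun i _ => Nat.zero_le _) (Finset.mem_range.mpr (by omega))
  refine ⟨fun k => Ω (φ (n k)), fun k => u (φ (n k)), ?_⟩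
  intro k
  refine ⟨h1 _, h2 _, h3 _, h4 _, h5 _, ?_, ?_⟩
  · refine (h6 _).trans ?_
    have := hN2 k (n k) (hn1 k)
    linarith
  · have hd := hN1 k (n (k + 1)) (hn2 k) (n k) (hn1 k)
    rw [dist_eq_norm, ← cls_sub (hball _).memLp (hball _).memLp] at hd
    have h7 := norm_cls_sq ((hball (φ (n (k + 1)))).sub (hball (φ (n k))))
    have h8 := pow_le_pow_left₀ (norm_nonneg _) hd 2
    rw [Real.sq_sqrt (hη k).le] at h8
    show Ip (fun z => u (φ (n (k + 1))) z - u (φ (n k)) z) (fun z => u (φ (n (k + 1))) z - u (φ (n k)) z) ≤ η k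
    rw [← h7]
    exact h8

/-- the continuous limit -/
theorem Box.limit (hD : Box D A κ) : ∃ (Ω : ℕ → Set ℂ) (v : ℕ → ℂ → ℝ) (q K : ℝ) (f : ℂ → ℝ), 0 < q ∧ q < 1 ∧ 0 < K ∧
    Continuous f ∧ (∀ z ∉ D, f z = 0) ∧
    ∀ k : ℕ, IsOpen (Ω k) ∧ Ω k ⊆ D ∧ volume (Ω k) = ENNReal.ofReal A ∧ TF (Ω k) (v k) ∧
      Ip (v k) (v k) = 1 ∧ En (v k) (v k) ≤ mval D A + q ^ k ∧
      ∀ z, |av (v k) ((1 / 18) ^ k) z - f z| ≤ K * q ^ k := by
  obtain ⟨θ, B, hθ0, hθ1, hB, hgeom⟩ := hD.geom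
  have hκ := hD.kpos
  set q := √θ with hq
  have hq0 : 0 < q := Real.sqrt_pos.mpr hθ0
  have hq1 : q < 1 := by
    rw [hq, Real.sqrt_lt' one_pos]; linarith
  have hθq : θ = q ^ 2 := (Real.sq_sqrt hθ0.le).symm
  obtain ⟨Ω, v, hv⟩ := hD.seq (η := fun k => 4 * ((1 / 18 : ℝ) ^ k) ^ 2 * (θ ^ k / 4)) (fun k => by positivity)
  have hη : ∀ k : ℕ, 4 * ((1 / 18 : ℝ) ^ k) ^ 2 * (θ ^ k / 4) ≤ θ ^ k := by
    intro k
    have h1 : ((1 / 18 : ℝ) ^ k) ^ 2 ≤ 1 := pow_le_one₀ (by positivity) (pow_le_one₀ (by norm_num) (by norm_num))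
    have h2 : 0 < θ ^ k := by positivity
    nlinarith
  have hballk : ∀ k, TF (ball 0 1) (v k) := fun k => (hv k).2.2.2.1.mono ((hv k).2.1.trans hD.sub)
  have hθk1 : ∀ k : ℕ, θ ^ k ≤ 1 := fun k => pow_le_one₀ hθ0.le hθ1.le
  have hek : ∀ k, En (v k) (v k) ≤ mval D A + θ ^ k := fun k => (hv k).2.2.2.2.2.1.trans (by linarith [hη k])
  have he1 : ∀ k z, ∫ w in SQ z ((1 / 18) ^ k), gd (v k) w ≤ 2 * B * θ ^ k := by
    intro k z
    obtain ⟨a1, a2, a3, a4, a5, _, _⟩ := hv k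
    have := hgeom (Ω k) (v k) (θ ^ k) a1 a2 a3 a4 a5 (by positivity) (hθk1 k) (hek k) z k
    linarith
  have he2 : ∀ k z, ∫ w in SQ z ((1 / 18) ^ k), gd (v (k + 1)) w ≤ 2 * B * θ ^ k := by
    intro k z
    obtain ⟨a1, a2, a3, a4, a5, _, _⟩ := hv (k + 1)
    have := hgeom (Ω (k + 1)) (v (k + 1)) (θ ^ (k + 1)) a1 a2 a3 a4 a5 (by positivity) (hθk1 _) (hek _) z k
    have h2 : θ ^ (k + 1) ≤ θ ^ k := pow_le_pow_of_le_one hθ0.le hθ1.le (Nat.le_succ k)
    have h3 : B * θ ^ (k + 1) ≤ B * θ ^ k := mul_le_mul_of_nonneg_left h2 hB.le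
    linarith
  set g : ℕ → ℂ → ℝ := fun k => av (v k) ((1 / 18) ^ k) with hg
  set C := √(1300 * B) + 1 with hC
  have hC0 : 0 < C := by positivity
  have hθqk : ∀ k : ℕ, θ ^ k = (q ^ k) ^ 2 := fun k => by rw [hθq]; ring
  have hstep : ∀ k z, |g k z - g (k + 1) z| ≤ C * q ^ k := by
    intro k z
    have hr : (0:ℝ) < (1 / 18) ^ k := by positivity
    have hqk : 0 < q ^ k := by positivity
    have h1 := step_avg (hballk (k + 1)) hr z
    have e1 : ((1:ℝ) / 18) ^ k / 18 = (1 / 18) ^ (k + 1) := by rw [pow_succ]; ring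
    rw [e1] at h1
    have h2 : (av (v (k + 1)) ((1 / 18) ^ (k + 1)) z - av (v (k + 1)) ((1 / 18) ^ k) z) ^ 2 ≤ 1300 * B * (q ^ k) ^ 2 := by
      refine h1.trans ?_
      have := he2 k z
      rw [← hθqk]; linarith
    have h3 : |av (v (k + 1)) ((1 / 18) ^ (k + 1)) z - av (v (k + 1)) ((1 / 18) ^ k) z| ≤ √(1300 * B) * q ^ k := by
      have := Real.abs_le_sqrt h2
      rwa [Real.sqrt_mul (by positivity), Real.sqrt_sq hqk.le] at this
    have h4 := diff_avg (hballk (k + 1)) (hballk k) hr z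
    have h5 : (av (v (k + 1)) ((1 / 18) ^ k) z - av (v k) ((1 / 18) ^ k) z) ^ 2 ≤ (q ^ k) ^ 2 := by
      refine h4.trans ?_
      have h6 := (hv k).2.2.2.2.2.2
      calc 1 / (4 * ((1 / 18 : ℝ) ^ k) ^ 2) * Ip (fun w => v (k + 1) w - v k w) (fun w => v (k + 1) w - v k w)
          ≤ 1 / (4 * ((1 / 18 : ℝ) ^ k) ^ 2) * (4 * ((1 / 18 : ℝ) ^ k) ^ 2 * (θ ^ k / 4)) :=
            mul_le_mul_of_nonneg_left h6 (by positivity)
        _ = θ ^ k / 4 := by
            rw [one_div, ← mul_assoc, inv_mul_cancel₀ (by positivity), one_mul]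
        _ ≤ (q ^ k) ^ 2 := by rw [← hθqk]; have : 0 < θ ^ k := by positivity
                              linarith
    have h6 : |av (v (k + 1)) ((1 / 18) ^ k) z - av (v k) ((1 / 18) ^ k) z| ≤ q ^ k := by
      have := Real.abs_le_sqrt h5
      rwa [Real.sqrt_sq hqk.le] at this
    have e2 : g k z - g (k + 1) z = -(av (v (k + 1)) ((1 / 18) ^ k) z - av (v k) ((1 / 18) ^ k) z) -
        (av (v (k + 1)) ((1 / 18) ^ (k + 1)) z - av (v (k + 1)) ((1 / 18) ^ k) z) := by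
      simp only [hg]; ring
    rw [e2]
    refine (abs_sub _ _).trans ?_
    rw [abs_neg, hC]
    linarith
  have hcs : ∀ z, CauchySeq fun k => g k z := fun z =>
    cauchySeq_of_le_geometric q C hq1 (fun k => by rw [Real.dist_eq]; exact hstep k z)
  choose f hf using fun z => cauchySeq_tendsto_of_complete (hcs z)
  have hclose : ∀ k z, |g k z - f z| ≤ C / (1 - q) * q ^ k := by
    intro k z
    have := dist_le_of_le_geometric_of_tendsto q C hq1 (fun k => by rw [Real.dist_eq]; exact hstep k z) (hf z) k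
    rw [Real.dist_eq] at this
    refine this.trans (le_of_eq ?_)
    ring
  have h1q : 0 < 1 - q := by linarith
  have hqk0 : Tendsto (fun k : ℕ => q ^ k) atTop (𝓝 0) := tendsto_pow_atTop_nhds_zero_of_lt_one hq0.le hq1
  refine ⟨Ω, v, q, C / (1 - q), f, hq0, hq1, by positivity, ?_, ?_, ?_⟩
  · have hu : TendstoUniformly g f atTop := by
      rw [Metric.tendstoUniformly_iff]
      intro ε hε
      have h2 : Tendsto (fun k : ℕ => C / (1 - q) * q ^ k) atTop (𝓝 0) := by simpa using hqk0.const_mul (C / (1 - q))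
      filter_upwards [h2.eventually (gt_mem_nhds hε)] with k hk
      intro z
      rw [dist_comm, Real.dist_eq]
      exact lt_of_le_of_lt (hclose k z) hk
    exact hu.continuous (Frequently.of_forall fun k => (av_smooth (hballk k) (by positivity)).continuous)
  · intro z hz
    have h1 : ∀ k, |g k z| ≤ √(32 * B / κ ^ 2) * q ^ k := by
      intro k
      have h2 := hD.cone_avg (hv k).2.1 (hv k).2.2.2.1 (show (0:ℝ) < (1 / 18) ^ k by positivity) hz
      have h3 : g k z ^ 2 ≤ 32 * B / κ ^ 2 * (q ^ k) ^ 2 := by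
        refine h2.trans ?_
        have h4 := mul_le_mul_of_nonneg_left (he1 k z) (show 0 ≤ 16 / κ ^ 2 by positivity)
        refine h4.trans (le_of_eq ?_)
        rw [hθqk]; ring
      have := Real.abs_le_sqrt h3
      rwa [Real.sqrt_mul (by positivity), Real.sqrt_sq (by positivity)] at this
    have h2 : Tendsto (fun k : ℕ => √(32 * B / κ ^ 2) * q ^ k) atTop (𝓝 0) := by simpa using hqk0.const_mul (√(32 * B / κ ^ 2))
    have h3 : Tendsto (fun k => g k z) atTop (𝓝 0) := squeeze_zero_norm (fun k => by rw [Real.norm_eq_abs]; exact h1 k) h2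
    exact tendsto_nhds_unique (hf z) h3
  · intro k
    obtain ⟨a1, a2, a3, a4, a5, _, _⟩ := hv k
    refine ⟨a1, a2, a3, a4, a5, ?_, fun z => hclose k z⟩
    refine (hek k).trans ?_
    have : θ ^ k ≤ q ^ k := by
      rw [hθqk]
      have h1 : q ^ k ≤ 1 := pow_le_one₀ hq0.le hq1.le
      have h2 : 0 < q ^ k := by positivity
      nlinarith
    linarith

end Pool.Agent.Helper533.StarBox
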