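import Pool.Agent.Helper533.StarBox.Exist1

open MeasureTheory Metric Set Filter
open scoped Topology

namespace Pool.Agent.Helper533.StarBox

variable {D : Set ℂ} {A κ : ℝ}

/-- smooth truncation of small values -/
noncomputable def bT (δ t : ℝ) : ℝ := δ * BB (t / δ - 1) - δ * BB (-t / δ - 1)

theorem bT_smooth (δ : ℝ) : ContDiff ℝ (⊤ : ℕ∞) (bT δ) := by
  unfold bT
  have h1 : ContDiff ℝ (⊤ : ℕ∞) (fun t : ℝ => t / δ - 1) := by fun_prop
  have h2 : ContDiff ℝ (⊤ : ℕ∞) (fun t : ℝ => -t / δ - 1) := by fun_prop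
  exact (contDiff_const.mul (BB_smooth.comp h1)).sub (contDiff_const.mul (BB_smooth.comp h2))

theorem bT_zero {δ t : ℝ} (hδ : 0 < δ) (h : |t| ≤ δ) : bT δ t = 0 := by
  have h' := abs_le.mp h
  unfold bT
  rw [BB_zero, BB_zero]
  · ring
  · have : -t / δ ≤ 1 := by rw [div_le_one hδ]; linarith
    linarith
  · have : t / δ ≤ 1 := by rw [div_le_one hδ]; linarith
    linarith

theorem bT_close {δ : ℝ} (hδ : 0 < δ) (t : ℝ) : |bT δ t - t| ≤ 2 * δ := by
  have key : ∀ t : ℝ, 0 ≤ t → 0 ≤ t - δ * BB (t / δ - 1) ∧ t - δ * BB (t / δ - 1) ≤ 2 * δ := by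
    intro t ht
    have h1 := BB_ge (t / δ - 1)
    have h2 : BB (t / δ - 1) ≤ t / δ := by
      have h3 : BB (t / δ - 1) ≤ BB (t / δ) := BB_mono (by linarith)
      exact h3.trans (BB_le _ (by positivity))
    have h3 := mul_le_mul_of_nonneg_left h1 hδ.le
    have h4 := mul_le_mul_of_nonneg_left h2 hδ.le
    have h5 : δ * (t / δ) = t := by field_simp
    have h6 : δ * (t / δ - 1 - 1) = t - 2 * δ := by
      have : δ * (t / δ - 1 - 1) = δ * (t / δ) - 2 * δ := by ring
      rw [this, h5]
    rw [h5] at h4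
    rw [h6] at h3
    constructor <;> linarith
  unfold bT
  rcases le_total 0 t with ht | ht
  · have h0 : BB (-t / δ - 1) = 0 := BB_zero (by
      have : -t / δ ≤ 0 := div_nonpos_of_nonpos_of_nonneg (by linarith) hδ.le
      linarith)
    obtain ⟨k1, k2⟩ := key t ht
    rw [h0, abs_le]
    constructor <;> linarith
  · have h0 : BB (t / δ - 1) = 0 := BB_zero (by
      have : t / δ ≤ 0 := div_nonpos_of_nonpos_of_nonneg ht hδ.le
      linarith)
    obtain ⟨k1, k2⟩ := key (-t) (by linarith)
    rw [h0, abs_le]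
    constructor <;> linarith

theorem bT_deriv_sq {δ : ℝ} (hδ : 0 < δ) (t : ℝ) : deriv (bT δ) t ^ 2 ≤ 1 := by
  have h1 : HasDerivAt (fun t : ℝ => t / δ - 1) (1 / δ) t := by
    have := ((hasDerivAt_id t).div_const δ).sub_const 1
    simpa using this
  have h2 : HasDerivAt (fun t : ℝ => -t / δ - 1) (-1 / δ) t := by
    have := ((hasDerivAt_id t).neg.div_const δ).sub_const 1
    simpa using this
  have h3 := ((BB_deriv (t / δ - 1)).comp t h1).const_mul δ
  have h4 := ((BB_deriv (-t / δ - 1)).comp t h2).const_mul δ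
  have h5 : deriv (bT δ) t = Real.smoothTransition (t / δ - 1) + Real.smoothTransition (-t / δ - 1) := by
    have h6 := (h3.sub h4).deriv
    have e : deriv (bT δ) t = δ * (Real.smoothTransition (t / δ - 1) * (1 / δ)) - δ * (Real.smoothTransition (-t / δ - 1) * (-1 / δ)) := h6
    rw [e]; field_simp; ring
  rw [h5]
  rcases le_total 0 t with ht | ht
  · rw [Real.smoothTransition.zero_of_nonpos (x := -t / δ - 1) (by
      have : -t / δ ≤ 0 := div_nonpos_of_nonpos_of_nonneg (by linarith) hδ.le
      linarith), add_zero]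
    exact pow_le_one₀ (Real.smoothTransition.nonneg _) (Real.smoothTransition.le_one _)
  · rw [Real.smoothTransition.zero_of_nonpos (x := t / δ - 1) (by
      have : t / δ ≤ 0 := div_nonpos_of_nonpos_of_nonneg ht hδ.le
      linarith), zero_add]
    exact pow_le_one₀ (Real.smoothTransition.nonneg _) (Real.smoothTransition.le_one _)

theorem Box.exists_min (hD : Box D A κ) : ∃ Ω, IsMin D A Ω := by
  obtain ⟨Ω, v, q, K, f, hq0, hq1, hK, hfc, hf0, hv⟩ := hD.limit
  have hA := hD.area0
  set m := mval D A with hm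
  have hm0 : 0 ≤ m := hD.mval_nonneg
  set W : Set ℂ := {z | f z ≠ 0} with hW
  have hWo : IsOpen W := isOpen_ne_fun hfc continuous_const
  have hWD : W ⊆ D := fun z hz => by
    by_contra hcon
    exact hz (hf0 z hcon)
  have hqk0 : Tendsto (fun k : ℕ => q ^ k) atTop (𝓝 0) := tendsto_pow_atTop_nhds_zero_of_lt_one hq0.le hq1
  have hKq : Tendsto (fun k : ℕ => K * q ^ k) atTop (𝓝 0) := by simpa using hqk0.const_mul K
  have hrk0 : Tendsto (fun k : ℕ => ((1:ℝ) / 18) ^ k) atTop (𝓝 0) :=
    tendsto_pow_atTop_nhds_zero_of_lt_one (by norm_num) (by norm_num)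
  have hball : ∀ k, TF (ball 0 1) (v k) := fun k => (hv k).2.2.2.1.mono ((hv k).2.1.trans hD.sub)
  have hqk1 : ∀ k : ℕ, q ^ k ≤ 1 := fun k => pow_le_one₀ hq0.le hq1.le
  set g : ℕ → ℂ → ℝ := fun k => av (v k) ((1 / 18) ^ k) with hg
  have hgtf : ∀ k, TF (ball 0 4) (g k) := fun k =>
    av_tf (hball k) (by positivity) (pow_le_one₀ (by norm_num) (by norm_num))
  have hball4 : ∀ k, TF (ball 0 4) (v k) := fun k => (hball k).mono (ball_subset_ball (by norm_num))
  have hclose : ∀ k, Ip (fun z => v k z - g k z) (fun z => v k z - g k z) ≤ 2 * (m + 1) * ((1 / 18) ^ k) ^ 2 := by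
    intro k
    have h1 := av_close (hball k) (show (0:ℝ) < (1 / 18) ^ k by positivity) (hgtf k)
    refine h1.trans ?_
    have h2 : En (v k) (v k) ≤ m + 1 := by linarith [(hv k).2.2.2.2.2.1, hqk1 k]
    have h3 : (0:ℝ) ≤ 2 * ((1 / 18) ^ k) ^ 2 := by positivity
    have := mul_le_mul_of_nonneg_left h2 h3
    linarith
  have hrk2 : Tendsto (fun k : ℕ => 2 * (m + 1) * (((1:ℝ) / 18) ^ k) ^ 2) atTop (𝓝 0) := by
    simpa using (hrk0.pow 2).const_mul (2 * (m + 1))
  -- the measure of W
  have hWA : volume W ≤ ENNReal.ofReal A := by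
    have hSδ : ∀ δ : ℝ, 0 < δ → volume {z | δ < |f z|} ≤ ENNReal.ofReal A := by
      intro δ hδ
      have hSD : {z | δ < |f z|} ⊆ D := fun z hz => hWD (by
        intro h0
        simp only [mem_setOf_eq] at hz
        rw [h0, abs_zero] at hz
        linarith)
      have hSfin : volume {z | δ < |f z|} ≠ ⊤ := ((measure_mono hSD).trans_lt hD.fin.lt_top).ne
      have hbound : ∀ᶠ k : ℕ in atTop, volume.real {z | δ < |f z|} ≤ A + (2 * (m + 1) * ((1 / 18) ^ k) ^ 2) / (δ / 2) ^ 2 := by
        filter_upwards [hKq.eventually (gt_mem_nhds (show 0 < δ / 2 by positivity))] with k hk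
        set h : ℂ → ℝ := fun z => v k z - g k z with hh
        have hhtf : TF (ball 0 4) h := (hball4 k).sub (hgtf k)
        set T : Set ℂ := {z | (δ / 2) ^ 2 ≤ h z ^ 2} with hT
        have hTb : T ⊆ ball 0 4 := by
          intro z hz
          by_contra hcon
          have : h z = 0 := image_eq_zero_of_notMem_tsupport fun hmem => hcon (hhtf.supp hmem)
          simp only [hT, mem_setOf_eq] at hz
          rw [this] at hz
          have : 0 < (δ / 2) ^ 2 := by positivity
          linarith
        have hTfin : volume T ≠ ⊤ := ((measure_mono hTb).trans_lt measure_ball_lt_top).ne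
        have hsub : {z | δ < |f z|} ⊆ Ω k ∪ T := by
          intro z hz
          simp only [mem_setOf_eq] at hz
          by_cases hzΩ : z ∈ Ω k
          · exact Or.inl hzΩ
          · right
            have hv0 : v k z = 0 := image_eq_zero_of_notMem_tsupport fun hmem => hzΩ ((hv k).2.2.2.1.supp hmem)
            have h1 := (hv k).2.2.2.2.2.2 z
            have h2 : δ / 2 ≤ |g k z| := by
              have h3 : |f z| ≤ |g k z| + |g k z - f z| := by
                have := abs_sub (g k z) (g k z - f z)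
                rwa [sub_sub_cancel] at this
              have h4 : |g k z - f z| ≤ K * q ^ k := h1
              linarith
            simp only [hT, mem_setOf_eq, hh, hv0, zero_sub, neg_sq]
            rw [← sq_abs (g k z)]
            exact pow_le_pow_left₀ (by positivity) h2 2
        have hΩfin : volume (Ω k) ≠ ⊤ := by rw [(hv k).2.2.1]; exact ENNReal.ofReal_ne_top
        have h1 : volume.real {z | δ < |f z|} ≤ volume.real (Ω k) + volume.real T :=
          (measureReal_mono hsub (by
            exact ((measure_union_le _ _).trans_lt (ENNReal.add_lt_top.mpr ⟨hΩfin.lt_top, hTfin.lt_top⟩)).ne)).trans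
            (measureReal_union_le _ _)
        have h2 : volume.real (Ω k) = A := by
          rw [measureReal_def, (hv k).2.2.1, ENNReal.toReal_ofReal hA.le]
        have h3 := mul_meas_ge_le_integral_of_nonneg (μ := volume) (f := fun z => h z ^ 2)
          (Eventually.of_forall fun z => sq_nonneg _) hhtf.sq_int ((δ / 2) ^ 2)
        have h4 := hclose k
        rw [Ip_self] at h4
        have h5 : volume.real T ≤ (2 * (m + 1) * ((1 / 18) ^ k) ^ 2) / (δ / 2) ^ 2 := by
          rw [le_div_iff₀ (by positivity), mul_comm]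
          exact h3.trans h4
        rw [h2] at h1
        linarith
      have hlim : Tendsto (fun k : ℕ => A + (2 * (m + 1) * (((1:ℝ) / 18) ^ k) ^ 2) / (δ / 2) ^ 2) atTop (𝓝 (A + 0 / (δ / 2) ^ 2)) :=
        (hrk2.div_const _).const_add A
      have h1 := ge_of_tendsto hlim hbound
      rw [zero_div, add_zero] at h1
      rw [measureReal_def] at h1
      rw [← ENNReal.ofReal_toReal hSfin]
      exact ENNReal.ofReal_le_ofReal h1
    have hWU : W = ⋃ n : ℕ, {z | 1 / ((n:ℝ) + 1) < |f z|} := by
      ext z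
      rw [mem_iUnion]
      constructor
      · intro hz
        obtain ⟨n, hn⟩ := exists_nat_one_div_lt (abs_pos.mpr hz)
        exact ⟨n, hn⟩
      · rintro ⟨n, hn⟩ h0
        simp only [mem_setOf_eq] at hn
        rw [h0, abs_zero] at hn
        have : (0:ℝ) < 1 / ((n:ℝ) + 1) := by positivity
        linarith
    have hmono : Monotone fun n : ℕ => {z | 1 / ((n:ℝ) + 1) < |f z|} := by
      intro i j hij z hz
      simp only [mem_setOf_eq] at hz ⊢
      refine lt_of_le_of_lt ?_ hz
      apply one_div_le_one_div_of_le (by positivity)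
      have : (i:ℝ) ≤ j := by exact_mod_cast hij
      linarith
    rw [hWU, hmono.measure_iUnion]
    exact iSup_le fun n => hSδ _ (by positivity)
  -- test functions
  have key : ∀ ε : ℝ, 0 < ε → ε < 1 → ∃ w, TF W w ∧ (1 - ε) ^ 2 ≤ Ip w w ∧ En w w ≤ m + ε := by
    intro ε hε hε1
    set V := (volume (ball (0:ℂ) 4)).toReal with hV
    have hV0 : 0 ≤ V := ENNReal.toReal_nonneg
    obtain ⟨δ, hδ, hδV⟩ : ∃ δ : ℝ, 0 < δ ∧ 2 * δ * (√V + 1) ≤ ε / 2 := by
      refine ⟨ε / (4 * (√V + 1)), by positivity, ?_⟩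
      have : √V + 1 ≠ 0 := by positivity
      apply le_of_eq; field_simp; ring
    have hev : ∀ᶠ k : ℕ in atTop, K * q ^ k < δ / 2 ∧ q ^ k < ε ∧ 2 * (m + 1) * (((1:ℝ) / 18) ^ k) ^ 2 < (ε / 2) ^ 2 := by
      filter_upwards [hKq.eventually (gt_mem_nhds (show 0 < δ / 2 by positivity)), hqk0.eventually (gt_mem_nhds hε),
        hrk2.eventually (gt_mem_nhds (show 0 < (ε / 2) ^ 2 by positivity))] with k h1 h2 h3
      exact ⟨h1, h2, h3⟩
    obtain ⟨k, hk1, hk2, hk3⟩ := hev.exists
    set w : ℂ → ℝ := fun z => bT δ (g k z) with hw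
    have hb0 : bT δ 0 = 0 := bT_zero hδ (by rw [abs_zero]; exact hδ.le)
    have hw4 : TF (ball 0 4) w := (hgtf k).comp_smooth (bT_smooth δ) hb0
    have hwW : TF W w := by
      refine ⟨hw4.smooth, hw4.comp, ?_⟩
      have hcl : IsClosed {z | δ ≤ |g k z|} := isClosed_le continuous_const (hgtf k).cont.abs
      have h1 : tsupport w ⊆ {z | δ ≤ |g k z|} := by
        apply closure_minimal _ hcl
        intro z hz
        rw [Function.mem_support] at hz
        by_contra hcon
        simp only [mem_setOf_eq, not_le] at hcon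
        exact hz (bT_zero hδ hcon.le)
      intro z hz
      have h2 : δ ≤ |g k z| := h1 hz
      intro h0
      have h3 : |g k z - f z| ≤ K * q ^ k := (hv k).2.2.2.2.2.2 z
      rw [h0, sub_zero] at h3
      linarith
    refine ⟨w, hwW, ?_, ?_⟩
    · have n1 : ‖cls (v k)‖ = 1 := by
        have h1 := norm_cls_sq (hball k)
        rw [(hv k).2.2.2.2.1] at h1
        have h2 := norm_nonneg (cls (v k))
        nlinarith
      have n2 : ‖cls (v k) - cls (g k)‖ ≤ ε / 2 := by
        rw [← cls_sub (hball4 k).memLp (hgtf k).memLp]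
        have h1 := norm_cls_sq ((hball4 k).sub (hgtf k))
        have h2 : ‖cls (fun z => v k z - g k z)‖ ^ 2 ≤ (ε / 2) ^ 2 := by
          rw [h1]; exact (hclose k).trans hk3.le
        exact le_of_sq_le_sq h2 (by positivity)
      have n3 : ‖cls (g k) - cls w‖ ≤ ε / 2 := by
        rw [← cls_sub (hgtf k).memLp hw4.memLp]
        have h1 := norm_cls_sq ((hgtf k).sub hw4)
        have h2 : Ip (fun z => g k z - w z) (fun z => g k z - w z) ≤ (2 * δ) ^ 2 * V := by
          rw [Ip_self]
          have e1 : ∫ z, (g k z - w z) ^ 2 = ∫ z in ball (0:ℂ) 4, (g k z - w z) ^ 2 := by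
            symm
            apply setIntegral_eq_integral_of_forall_compl_eq_zero
            intro z hz
            have a1 : g k z = 0 := image_eq_zero_of_notMem_tsupport fun hmem => hz ((hgtf k).supp hmem)
            have a2 : w z = 0 := image_eq_zero_of_notMem_tsupport fun hmem => hz (hw4.supp hmem)
            rw [a1, a2]; ring
          rw [e1]
          have e2 : ∫ z in ball (0:ℂ) 4, (2 * δ) ^ 2 = (2 * δ) ^ 2 * V := by
            rw [setIntegral_const, measureReal_def, smul_eq_mul]; ring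
          rw [← e2]
          have ic : IntegrableOn (fun _ : ℂ => (2 * δ) ^ 2) (ball (0:ℂ) 4) := integrableOn_const measure_ball_lt_top.ne
          apply integral_mono ((hgtf k).sub hw4).sq_int.integrableOn ic
          intro z
          show (g k z - w z) ^ 2 ≤ (2 * δ) ^ 2
          have h3 := bT_close hδ (g k z)
          rw [abs_sub_comm] at h3
          rw [← sq_abs]
          exact pow_le_pow_left₀ (abs_nonneg _) h3 2
        have h3 : ‖cls (fun z => g k z - w z)‖ ^ 2 ≤ (2 * δ * √V) ^ 2 := by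
          rw [h1, mul_pow, Real.sq_sqrt hV0]; exact h2
        have h4 := le_of_sq_le_sq h3 (by positivity)
        have h5 : 2 * δ * √V ≤ 2 * δ * (√V + 1) := by
          apply mul_le_mul_of_nonneg_left _ (by positivity); linarith
        linarith
      have n4 : 1 - ε ≤ ‖cls w‖ := by
        have h1 : ‖cls (v k)‖ ≤ ‖cls (v k) - cls (g k)‖ + ‖cls (g k) - cls w‖ + ‖cls w‖ := by
          have e : cls (v k) = (cls (v k) - cls (g k)) + (cls (g k) - cls w) + cls w := by abel
          calc ‖cls (v k)‖ = ‖(cls (v k) - cls (g k)) + (cls (g k) - cls w) + cls w‖ := by rw [← e]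
            _ ≤ _ := norm_add₃_le
        linarith
      rw [← norm_cls_sq hwW]
      exact pow_le_pow_left₀ (by linarith) n4 2
    · have h1 := En_comp_le (hgtf k) (bT_smooth δ) hb0 (bT_deriv_sq hδ)
      have h2 : En (g k) (g k) ≤ En (v k) (v k) := av_En (hball k) (by positivity) (pow_le_one₀ (by norm_num) (by norm_num))
      have h3 := (hv k).2.2.2.2.2.1
      show En (fun z => bT δ (g k z)) (fun z => bT δ (g k z)) ≤ m + ε
      linarith
  have hWne : W.Nonempty := by
    by_contra hcon
    rw [not_nonempty_iff_eq_empty] at hcon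
    obtain ⟨w, hw, hI, _⟩ := key (1 / 2) (by norm_num) (by norm_num)
    rw [hcon] at hw
    have : ∀ z, w z = 0 := fun z => image_eq_zero_of_notMem_tsupport fun hmem => hw.supp hmem
    rw [Ip_self] at hI
    simp only [this] at hI
    norm_num at hI
  have hlam : lambda1 W ≤ m := by
    have h1 : ∀ ε : ℝ, 0 < ε → ε < 1 → lambda1 W * (1 - ε) ^ 2 - ε ≤ m := by
      intro ε hε hε1
      obtain ⟨w, hw, hI, hE⟩ := key ε hε hε1
      have h2 := lambda1_mul_le hw
      have h3 := mul_le_mul_of_nonneg_left hI (lambda1_nonneg W)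
      linarith
    have hlim : Tendsto (fun ε : ℝ => lambda1 W * (1 - ε) ^ 2 - ε) (𝓝[>] 0) (𝓝 (lambda1 W * (1 - 0) ^ 2 - 0)) := by
      apply tendsto_nhdsWithin_of_tendsto_nhds
      have : Continuous fun ε : ℝ => lambda1 W * (1 - ε) ^ 2 - ε := by fun_prop
      exact this.tendsto 0
    have h4 : lambda1 W * (1 - 0) ^ 2 - 0 ≤ m := by
      apply le_of_tendsto hlim
      have : Ioo (0:ℝ) 1 ∈ 𝓝[>] (0:ℝ) := Ioo_mem_nhdsGT one_pos
      filter_upwards [this] with ε hε
      exact h1 ε hε.1 hε.2
    linarith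
  obtain ⟨Ω', g1, g2, g3, g4⟩ := hD.extend hWo hWD hWA
  refine ⟨Ω', g1, g3, g4, ?_⟩
  intro Ω'' k1 k2 k3
  exact ((lambda1_mono hWo hWne g2).trans hlam).trans (hD.mval_le k1 k2 k3)

end Pool.Agent.Helper533.StarBox
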