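import Pool.Agent.Helper533.StarBox.Rellich

open MeasureTheory Metric Set Filter
open scoped Topology

namespace Pool.Agent.Helper533.StarBox

/-- the Laplacian -/
noncomputable def lap (φ : ℂ → ℝ) (z : ℂ) : ℝ := gx (gx φ) z + gy (gy φ) z

namespace TF

variable {U V : Set ℂ} {u v φ : ℂ → ℝ}

theorem gx_tf (hu : TF U u) : TF U (gx u) := by
  refine ⟨?_, hu.gx_comp, ?_⟩
  · exact (hu.smooth.fderiv_right (by simp)).clm_apply contDiff_const
  · refine (closure_minimal ?_ (isClosed_tsupport _)).trans hu.supp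
    intro z hz
    by_contra hcon
    exact hz (gx_zero hcon)

theorem gy_tf (hu : TF U u) : TF U (gy u) := by
  refine ⟨?_, hu.gy_comp, ?_⟩
  · exact (hu.smooth.fderiv_right (by simp)).clm_apply contDiff_const
  · refine (closure_minimal ?_ (isClosed_tsupport _)).trans hu.supp
    intro z hz
    by_contra hcon
    exact hz (gy_zero hcon)

theorem lap_tf (hu : TF U u) : TF U (lap u) := hu.gx_tf.gx_tf.add hu.gy_tf.gy_tf

end TF

theorem ibp {U V : Set ℂ} {u φ : ℂ → ℝ} (hu : TF U u) (hφ : TF V φ) : En u φ = - ∫ z, u z * lap φ z := by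
  have h1 : ∫ z, u z * gx (gx φ) z = - ∫ z, gx u z * gx φ z :=
    integral_mul_fderiv_eq_neg_fderiv_mul_of_integrable (f := u) (g := gx φ) (v := (1:ℂ))
      (hu.gx_tf.ip_int hφ.gx_cont) (hu.ip_int hφ.gx_tf.gx_cont) (hu.ip_int hφ.gx_cont)
      (fun x _ => hu.diff x) (fun x _ => hφ.gx_tf.diff x)
  have h2 : ∫ z, u z * gy (gy φ) z = - ∫ z, gy u z * gy φ z :=
    integral_mul_fderiv_eq_neg_fderiv_mul_of_integrable (f := u) (g := gy φ) (v := Complex.I)
      (hu.gy_tf.ip_int hφ.gy_cont) (hu.ip_int hφ.gy_tf.gy_cont) (hu.ip_int hφ.gy_cont)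
      (fun x _ => hu.diff x) (fun x _ => hφ.gy_tf.diff x)
  have h3 : ∫ z, u z * lap φ z = (∫ z, u z * gx (gx φ) z) + ∫ z, u z * gy (gy φ) z := by
    rw [← integral_add (hu.ip_int hφ.gx_tf.gx_cont) (hu.ip_int hφ.gy_tf.gy_cont)]
    congr 1; ext z; unfold lap; ring
  have h4 : En u φ = (∫ z, gx u z * gx φ z) + ∫ z, gy u z * gy φ z := by
    unfold En
    rw [integral_add (hu.gx_tf.ip_int hφ.gx_cont) (hu.gy_tf.ip_int hφ.gy_cont)]
  rw [h3, h4, h1, h2]; ring

/-- the form `E - λ₁` -/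
noncomputable def Qf (U : Set ℂ) (u v : ℂ → ℝ) : ℝ := En u v - lambda1 U * Ip u v

theorem Qf_comm (U : Set ℂ) (u v : ℂ → ℝ) : Qf U u v = Qf U v u := by
  unfold Qf; rw [En_comm, Ip_comm]

section
variable {U : Set ℂ} {u v w : ℂ → ℝ}

theorem Qf_add_left (hu : TF U u) (hv : TF U v) (hw : TF U w) :
    Qf U (fun z => u z + v z) w = Qf U u w + Qf U v w := by
  unfold Qf; rw [En_add_left hu hv hw, Ip_add_left hu hv hw]; ring

theorem Qf_sub_left (hu : TF U u) (hv : TF U v) (hw : TF U w) :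
    Qf U (fun z => u z - v z) w = Qf U u w - Qf U v w := by
  unfold Qf; rw [En_sub_left hu hv hw, Ip_sub_left hu hv hw]; ring

theorem Qf_smul_left (c : ℝ) (hu : TF U u) (w : ℂ → ℝ) :
    Qf U (fun z => c * u z) w = c * Qf U u w := by
  unfold Qf; rw [En_smul_left c hu, Ip_smul_left c]; ring

theorem Qf_nonneg (hu : TF U u) : 0 ≤ Qf U u u := by
  unfold Qf; have := lambda1_mul_le hu; linarith

theorem Qf_smul_self (c : ℝ) (hu : TF U u) : Qf U (fun z => c * u z) (fun z => c * u z) = c ^ 2 * Qf U u u := by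
  rw [Qf_smul_left c hu, Qf_comm, Qf_smul_left c hu]; ring

theorem Qf_cs (hu : TF U u) (hv : TF U v) : Qf U u v ^ 2 ≤ Qf U u u * Qf U v v := by
  have h : ∀ t : ℝ, 0 ≤ Qf U v v * (t * t) + (2 * Qf U u v) * t + Qf U u u := by
    intro t
    have h1 := Qf_nonneg (hu.add (hv.smul t))
    have h2 := hv.smul t
    have e : Qf U (fun z => u z + t * v z) (fun z => u z + t * v z) =
        Qf U v v * (t * t) + (2 * Qf U u v) * t + Qf U u u := by
      rw [Qf_add_left hu h2 (hu.add h2), Qf_comm U u, Qf_add_left hu h2 hu, Qf_smul_left t hv,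
        Qf_smul_left t hv, Qf_comm U v (fun z => u z + t * v z), Qf_add_left hu h2 hv, Qf_smul_left t hv,
        Qf_comm U v u]
      ring
    rw [e] at h1
    exact h1
  have := discrim_le_zero h
  unfold discrim at this
  nlinarith

theorem Qf_abs_le (hu : TF U u) (hv : TF U v) : |Qf U u v| ≤ √(Qf U u u) * √(Qf U v v) := by
  rw [← Real.sqrt_mul (Qf_nonneg hu)]
  exact Real.abs_le_sqrt (Qf_cs hu hv)

theorem Qf_add_le (hu : TF U u) (hv : TF U v) :
    Qf U (fun z => u z + v z) (fun z => u z + v z) ≤ 2 * Qf U u u + 2 * Qf U v v := by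
  have h1 := Qf_nonneg (hu.sub hv)
  rw [Qf_sub_left hu hv (hu.sub hv), Qf_comm U u, Qf_sub_left hu hv hu,
    Qf_comm U v (fun z => u z - v z), Qf_sub_left hu hv hv, Qf_comm U v u] at h1
  rw [Qf_add_left hu hv (hu.add hv), Qf_comm U u, Qf_add_left hu hv hu,
    Qf_comm U v (fun z => u z + v z), Qf_add_left hu hv hv, Qf_comm U v u]
  linarith

end

/-- `F` is a ground state of `U`, obtained as a limit of test functions -/
def GS (U : Set ℂ) (F : L2) : Prop :=
  ∀ ε > 0, ∃ v, TF U v ∧ ‖cls v - F‖ ≤ ε ∧ Qf U v v ≤ ε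

namespace GS

variable {U : Set ℂ} {F G : L2}

theorem add (hF : GS U F) (hG : GS U G) : GS U (F + G) := by
  intro ε hε
  obtain ⟨u, hu, hu1, hu2⟩ := hF (ε / 4) (by positivity)
  obtain ⟨v, hv, hv1, hv2⟩ := hG (ε / 4) (by positivity)
  refine ⟨fun z => u z + v z, hu.add hv, ?_, ?_⟩
  · rw [cls_add hu.memLp hv.memLp]
    calc ‖cls u + cls v - (F + G)‖ = ‖(cls u - F) + (cls v - G)‖ := by congr 1; abel
      _ ≤ ‖cls u - F‖ + ‖cls v - G‖ := norm_add_le _ _
      _ ≤ ε := by linarith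
  · have := Qf_add_le hu hv
    linarith

theorem smul (c : ℝ) (hF : GS U F) : GS U (c • F) := by
  intro ε hε
  obtain ⟨δ, hδ0, hδ1, hδ2⟩ : ∃ δ : ℝ, 0 < δ ∧ |c| * δ ≤ ε ∧ c ^ 2 * δ ≤ ε := by
    refine ⟨ε / (1 + |c| + c ^ 2), by positivity, ?_, ?_⟩
    · rw [mul_div_assoc', div_le_iff₀ (by positivity)]
      nlinarith [abs_nonneg c, sq_nonneg c]
    · rw [mul_div_assoc', div_le_iff₀ (by positivity)]
      nlinarith [abs_nonneg c, sq_nonneg c]
  obtain ⟨u, hu, hu1, hu2⟩ := hF δ hδ0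
  refine ⟨fun z => c * u z, hu.smul c, ?_, ?_⟩
  · rw [cls_smul c hu.memLp, ← smul_sub, norm_smul, Real.norm_eq_abs]
    exact (mul_le_mul_of_nonneg_left hu1 (abs_nonneg c)).trans hδ1
  · rw [Qf_smul_self c hu]
    exact (mul_le_mul_of_nonneg_left hu2 (sq_nonneg c)).trans hδ2

theorem sub (hF : GS U F) (hG : GS U G) : GS U (F - G) := by
  have := hF.add (hG.smul (-1))
  rwa [neg_one_smul, ← sub_eq_add_neg] at this

/-- the weak equation -/
theorem weak (hF : GS U F) {φ : ℂ → ℝ} (hφ : TF U φ) :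
    inner ℝ F (cls (lap φ)) + lambda1 U * inner ℝ F (cls φ) = 0 := by
  set K := √(Qf U φ φ) + ‖cls (lap φ)‖ + lambda1 U * ‖cls φ‖ with hK
  have hl := lambda1_nonneg U
  have hK0 : 0 ≤ K := by positivity
  have key : ∀ ε > 0, ε ≤ 1 → |inner ℝ F (cls (lap φ)) + lambda1 U * inner ℝ F (cls φ)| ≤ √ε * (1 + K) := by
    intro ε hε hε1
    obtain ⟨v, hv, hv1, hv2⟩ := hF ε hε
    have e1 : Qf U v φ = -(inner ℝ (cls v) (cls (lap φ)) + lambda1 U * inner ℝ (cls v) (cls φ)) := by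
      rw [inner_cls_tf hv hφ.lap_tf, inner_cls_tf hv hφ]
      unfold Qf
      rw [ibp hv hφ]; unfold Ip; ring
    have e2 : |Qf U v φ| ≤ √ε * √(Qf U φ φ) := by
      refine (Qf_abs_le hv hφ).trans ?_
      exact mul_le_mul_of_nonneg_right (Real.sqrt_le_sqrt hv2) (Real.sqrt_nonneg _)
    have e3 : inner ℝ F (cls (lap φ)) + lambda1 U * inner ℝ F (cls φ) =
        -Qf U v φ - (inner ℝ (cls v - F) (cls (lap φ)) + lambda1 U * inner ℝ (cls v - F) (cls φ)) := by
      rw [e1, inner_sub_left, inner_sub_left]; ring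
    have hsq : ε ≤ √ε := by
      rw [Real.le_sqrt hε.le hε.le]
      nlinarith
    have e4 : |inner ℝ (cls v - F) (cls (lap φ))| ≤ √ε * ‖cls (lap φ)‖ :=
      (abs_real_inner_le_norm _ _).trans (mul_le_mul_of_nonneg_right (hv1.trans hsq) (norm_nonneg _))
    have e5 : |inner ℝ (cls v - F) (cls φ)| ≤ √ε * ‖cls φ‖ :=
      (abs_real_inner_le_norm _ _).trans (mul_le_mul_of_nonneg_right (hv1.trans hsq) (norm_nonneg _))
    rw [e3]
    have e6 : |lambda1 U * inner ℝ (cls v - F) (cls φ)| ≤ lambda1 U * (√ε * ‖cls φ‖) := by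
      rw [abs_mul, abs_of_nonneg hl]; exact mul_le_mul_of_nonneg_left e5 hl
    calc |-Qf U v φ - (inner ℝ (cls v - F) (cls (lap φ)) + lambda1 U * inner ℝ (cls v - F) (cls φ))|
        ≤ |Qf U v φ| + (|inner ℝ (cls v - F) (cls (lap φ))| + |lambda1 U * inner ℝ (cls v - F) (cls φ)|) := by
          refine (abs_sub _ _).trans ?_
          rw [abs_neg]
          exact add_le_add le_rfl (abs_add_le _ _)
      _ ≤ √ε * √(Qf U φ φ) + (√ε * ‖cls (lap φ)‖ + lambda1 U * (√ε * ‖cls φ‖)) := by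
          exact add_le_add e2 (add_le_add e4 e6)
      _ = √ε * K := by rw [hK]; ring
      _ ≤ √ε * (1 + K) := mul_le_mul_of_nonneg_left (by linarith) (Real.sqrt_nonneg _)
  by_contra hne
  have hpos : 0 < |inner ℝ F (cls (lap φ)) + lambda1 U * inner ℝ F (cls φ)| := abs_pos.mpr hne
  set X := |inner ℝ F (cls (lap φ)) + lambda1 U * inner ℝ F (cls φ)| with hX
  set t := min 1 (X / (2 * (1 + K))) with ht
  have ht0 : 0 < t := by rw [ht]; positivity
  have ht1 : t ≤ 1 := min_le_left _ _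
  have ht2 : t ≤ X / (2 * (1 + K)) := min_le_right _ _
  have := key (t ^ 2) (by positivity) (by nlinarith)
  rw [Real.sqrt_sq ht0.le] at this
  have h3 : t * (1 + K) ≤ X / 2 := by
    calc t * (1 + K) ≤ X / (2 * (1 + K)) * (1 + K) := mul_le_mul_of_nonneg_right ht2 (by positivity)
      _ = X / 2 := by field_simp
  linarith

theorem zero_outside (hF : GS U F) (hU : MeasurableSet U) : ∀ᵐ z, z ∉ U → (F : ℂ → ℝ) z = 0 := by
  have h0 : ∫ z in Uᶜ, (F : ℂ → ℝ) z ^ 2 = 0 := by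
    have hFi : Integrable (fun z => (F : ℂ → ℝ) z ^ 2) := (Lp.memLp F).integrable_sq
    have hnn : 0 ≤ ∫ z in Uᶜ, (F : ℂ → ℝ) z ^ 2 := integral_nonneg fun z => sq_nonneg _
    by_contra hne
    have hpos : 0 < ∫ z in Uᶜ, (F : ℂ → ℝ) z ^ 2 := lt_of_le_of_ne hnn (Ne.symm hne)
    set X := ∫ z in Uᶜ, (F : ℂ → ℝ) z ^ 2 with hX
    obtain ⟨v, hv, hv1, _⟩ := hF (√X / 2) (by positivity)
    have hm : MemLp (fun z => v z - (F : ℂ → ℝ) z) 2 (volume : Measure ℂ) := hv.memLp.sub (Lp.memLp F)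
    have h1 : ‖cls v - F‖ ^ 2 = ∫ z, (v z - (F : ℂ → ℝ) z) ^ 2 := by
      have : cls v - F = cls (fun z => v z - (F : ℂ → ℝ) z) := by
        rw [cls_sub hv.memLp (Lp.memLp F), cls_self]
      rw [this, ← real_inner_self_eq_norm_sq, inner_cls hm hm]
      congr 1; ext z; ring
    have h2 : X ≤ ∫ z, (v z - (F : ℂ → ℝ) z) ^ 2 := by
      have e1 : X = ∫ z in Uᶜ, (v z - (F : ℂ → ℝ) z) ^ 2 := by
        rw [hX]
        apply setIntegral_congr_fun hU.compl
        intro z hz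
        have : v z = 0 := image_eq_zero_of_notMem_tsupport (fun h => hz (hv.supp h))
        simp [this]
      rw [e1]
      apply setIntegral_le_integral
      · exact (hv.memLp.sub (Lp.memLp F)).integrable_sq
      · exact Eventually.of_forall fun z => sq_nonneg _
    have h3 : ‖cls v - F‖ ^ 2 ≤ (√X / 2) ^ 2 := pow_le_pow_left₀ (norm_nonneg _) hv1 2
    rw [h1, div_pow, Real.sq_sqrt hnn] at h3
    linarith
  have h1 := (setIntegral_eq_zero_iff_of_nonneg_ae (Eventually.of_forall fun z => sq_nonneg _)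
    ((Lp.memLp F).integrable_sq.integrableOn)).mp h0
  have h2 := (ae_restrict_iff' hU.compl).mp h1
  filter_upwards [h2] with z hz hzU
  have := hz hzU
  simpa using this

end GS

/-! ### the absolute value of a ground state -/

noncomputable def bet (δ : ℝ) (t : ℝ) : ℝ := √(t ^ 2 + δ ^ 2) - δ

theorem bet_smooth {δ : ℝ} (hδ : 0 < δ) : ContDiff ℝ (⊤ : ℕ∞) (bet δ) := by
  unfold bet
  apply ContDiff.sub _ contDiff_const
  apply ContDiff.sqrt (by fun_prop)
  intro t; positivity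

theorem bet_zero {δ : ℝ} (hδ : 0 < δ) : bet δ 0 = 0 := by
  unfold bet; rw [zero_pow two_ne_zero, zero_add, Real.sqrt_sq hδ.le]; ring

theorem bet_deriv {δ : ℝ} (hδ : 0 < δ) (t : ℝ) : HasDerivAt (bet δ) (t / √(t ^ 2 + δ ^ 2)) t := by
  have h1 : HasDerivAt (fun t : ℝ => t ^ 2 + δ ^ 2) (2 * t) t := by
    simpa using ((hasDerivAt_pow 2 t).add_const (δ ^ 2))
  have h2 := (h1.sqrt (by positivity)).sub_const δ
  rw [mul_div_mul_left _ _ (two_ne_zero)] at h2
  exact h2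

theorem bet_deriv_le {δ : ℝ} (hδ : 0 < δ) (t : ℝ) : deriv (bet δ) t ^ 2 ≤ 1 := by
  rw [(bet_deriv hδ t).deriv, div_pow, Real.sq_sqrt (by positivity), div_le_one (by positivity)]
  nlinarith [sq_nonneg δ]

theorem bet_le {δ : ℝ} (hδ : 0 < δ) (t : ℝ) : bet δ t ≤ |t| := by
  unfold bet
  have : √(t ^ 2 + δ ^ 2) ≤ |t| + δ := by
    rw [Real.sqrt_le_left (by positivity)]
    nlinarith [abs_nonneg t, sq_abs t]
  linarith

theorem le_bet {δ : ℝ} (hδ : 0 < δ) (t : ℝ) : |t| - δ ≤ bet δ t := by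
  unfold bet
  have : |t| ≤ √(t ^ 2 + δ ^ 2) := by
    apply Real.abs_le_sqrt; nlinarith [sq_nonneg δ]
  linarith

theorem bet_nonneg {δ : ℝ} (hδ : 0 < δ) (t : ℝ) : 0 ≤ bet δ t := by
  unfold bet
  have : δ ≤ √(t ^ 2 + δ ^ 2) := by
    rw [Real.le_sqrt hδ.le (by positivity)]; nlinarith [sq_nonneg t]
  linarith

/-- composing with a map of slope at most `1` decreases the energy -/
theorem En_comp_le {U : Set ℂ} {u : ℂ → ℝ} (hu : TF U u) {β : ℝ → ℝ} (hβ : ContDiff ℝ (⊤ : ℕ∞) β) (h0 : β 0 = 0)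
    (h1 : ∀ t, deriv β t ^ 2 ≤ 1) : En (fun z => β (u z)) (fun z => β (u z)) ≤ En u u := by
  rw [En_self, En_self]
  apply integral_mono (hu.comp_smooth hβ h0).ensq_int hu.ensq_int
  intro z
  have hd : DifferentiableAt ℝ β (u z) := (hβ.differentiable (by simp)) _
  show gx (fun z => β (u z)) z ^ 2 + gy (fun z => β (u z)) z ^ 2 ≤ gx u z ^ 2 + gy u z ^ 2
  rw [gx_comp' (hu.diff z) hd, gy_comp' (hu.diff z) hd]
  have := h1 (u z)
  nlinarith [sq_nonneg (gx u z), sq_nonneg (gy u z), mul_nonneg (sub_nonneg.mpr this) (add_nonneg (sq_nonneg (gx u z)) (sq_nonneg (gy u z)))]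

theorem norm_cls_le {f g : ℂ → ℝ} (hf : MemLp f 2 (volume : Measure ℂ)) (hg : MemLp g 2 (volume : Measure ℂ))
    (h : ∀ᵐ z, |f z| ≤ |g z|) : ‖cls f‖ ≤ ‖cls g‖ := by
  apply Lp.norm_le_norm_of_ae_le
  filter_upwards [cls_coe hf, cls_coe hg, h] with z h1 h2 h3
  rw [h1, h2]; exact h3

theorem memLp_abs {f : ℂ → ℝ} (hf : MemLp f 2 (volume : Measure ℂ)) : MemLp (fun z => |f z|) 2 (volume : Measure ℂ) :=
  hf.norm

theorem abs_contract {f g : ℂ → ℝ} (hf : MemLp f 2 (volume : Measure ℂ)) (hg : MemLp g 2 (volume : Measure ℂ)) :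
    ‖cls (fun z => |f z|) - cls (fun z => |g z|)‖ ≤ ‖cls f - cls g‖ := by
  rw [← cls_sub hf hg, ← cls_sub (memLp_abs hf) (memLp_abs hg)]
  apply norm_cls_le ((memLp_abs hf).sub (memLp_abs hg)) (hf.sub hg)
  exact Eventually.of_forall fun z => abs_abs_sub_abs_le _ _

theorem GS.abs {U : Set ℂ} {F : L2} (hF : GS U F) : GS U (cls fun z => |(F : ℂ → ℝ) z|) := by
  intro ε hε
  obtain ⟨v, hv, hv1, hv2⟩ := hF (ε / 2) (by positivity)
  have hl := lambda1_nonneg U
  have hvi : Integrable (fun z => |v z|) := (hv.cont.integrable_of_hasCompactSupport hv.comp).abs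
  have hI0 : 0 ≤ ∫ z, |v z| := integral_nonneg fun z => abs_nonneg _
  set ind : ℂ → ℝ := (tsupport v).indicator (fun _ => 1) with hind
  have hindm : MemLp ind 2 (volume : Measure ℂ) :=
    memLp_indicator_const 2 (isClosed_tsupport v).measurableSet 1 (Or.inr hv.comp.measure_lt_top.ne)
  obtain ⟨δ, hδ0, hδ1, hδ2⟩ : ∃ δ : ℝ, 0 < δ ∧ δ * ‖cls ind‖ ≤ ε / 2 ∧ lambda1 U * (2 * δ * ∫ z, |v z|) ≤ ε / 2 := by
    set I := ∫ z, |v z| with hI
    have h1 : 0 < 1 + ‖cls ind‖ + lambda1 U * I := by positivity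
    refine ⟨ε / 4 / (1 + ‖cls ind‖ + lambda1 U * I), by positivity, ?_, ?_⟩
    · rw [div_mul_eq_mul_div, div_le_iff₀ h1]
      nlinarith [norm_nonneg (cls ind), mul_nonneg hl hI0]
    · have : lambda1 U * (2 * (ε / 4 / (1 + ‖cls ind‖ + lambda1 U * I)) * I) =
          (ε / 2) * (lambda1 U * I) / (1 + ‖cls ind‖ + lambda1 U * I) := by field_simp; ring
      rw [this, div_le_iff₀ h1]
      nlinarith [norm_nonneg (cls ind), mul_nonneg hl hI0]
  have hw : TF U (fun z => bet δ (v z)) := hv.comp_smooth (bet_smooth hδ0) (bet_zero hδ0)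
  refine ⟨fun z => bet δ (v z), hw, ?_, ?_⟩
  · have h1 : ‖cls (fun z => bet δ (v z)) - cls (fun z => |v z|)‖ ≤ ε / 2 := by
      rw [← cls_sub hw.memLp (memLp_abs hv.memLp)]
      refine le_trans ?_ hδ1
      have : δ * ‖cls ind‖ = ‖cls (fun z => δ * ind z)‖ := by
        rw [cls_smul δ hindm, norm_smul, Real.norm_of_nonneg hδ0.le]
      rw [this]
      apply norm_cls_le (hw.memLp.sub (memLp_abs hv.memLp)) (hindm.const_mul δ)
      apply Eventually.of_forall
      intro z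
      show |bet δ (v z) - (|v z|)| ≤ |δ * ind z|
      by_cases hz : z ∈ tsupport v
      · rw [hind, indicator_of_mem hz, mul_one, abs_of_pos hδ0, abs_le]
        constructor
        · have := le_bet hδ0 (v z); linarith
        · have := bet_le hδ0 (v z); linarith
      · have : v z = 0 := image_eq_zero_of_notMem_tsupport hz
        rw [this, bet_zero hδ0]; simp; positivity
    have h2 : ‖cls (fun z => |v z|) - cls (fun z => |(F : ℂ → ℝ) z|)‖ ≤ ε / 2 := by
      refine (abs_contract hv.memLp (Lp.memLp F)).trans ?_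
      rw [cls_self]; exact hv1
    calc ‖cls (fun z => bet δ (v z)) - cls (fun z => |(F : ℂ → ℝ) z|)‖
        = ‖(cls (fun z => bet δ (v z)) - cls (fun z => |v z|)) + (cls (fun z => |v z|) - cls (fun z => |(F : ℂ → ℝ) z|))‖ := by
          congr 1; abel
      _ ≤ _ := norm_add_le _ _
      _ ≤ ε := by linarith
  · have h1 : En (fun z => bet δ (v z)) (fun z => bet δ (v z)) ≤ En v v :=
      En_comp_le hv (bet_smooth hδ0) (bet_zero hδ0) (bet_deriv_le hδ0)
    have h2 : Ip v v - 2 * δ * ∫ z, |v z| ≤ Ip (fun z => bet δ (v z)) (fun z => bet δ (v z)) := by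
      rw [Ip_self, Ip_self, ← integral_const_mul, ← integral_sub hv.sq_int (hvi.const_mul _)]
      apply integral_mono (hv.sq_int.sub (hvi.const_mul _)) hw.sq_int
      intro z
      show v z ^ 2 - 2 * δ * |v z| ≤ bet δ (v z) ^ 2
      have h3 := le_bet hδ0 (v z)
      have h4 := bet_nonneg hδ0 (v z)
      have h5 := bet_le hδ0 (v z)
      have h6 := sq_abs (v z)
      nlinarith [abs_nonneg (v z)]
    unfold Qf at hv2 ⊢
    have h3 : lambda1 U * (Ip v v - 2 * δ * ∫ z, |v z|) ≤ lambda1 U * Ip (fun z => bet δ (v z)) (fun z => bet δ (v z)) :=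
      mul_le_mul_of_nonneg_left h2 hl
    have h4 : lambda1 U * (Ip v v - 2 * δ * ∫ z, |v z|) = lambda1 U * Ip v v - lambda1 U * (2 * δ * ∫ z, |v z|) := by ring
    linarith

/-- existence of a ground state -/
theorem exists_GS {U : Set ℂ} (hU : IsOpen U) (hne : U.Nonempty) {R : ℝ} (hR : 0 < R) (hb : U ⊆ ball 0 R) :
    ∃ F : L2, GS U F ∧ ‖F‖ = 1 := by
  have h1 : ∀ n : ℕ, ∃ u, IsTest U u ∧ Ip u u = 1 ∧ En u u < lambda1 U + 1 / ((n : ℝ) + 1) := fun n =>
    exists_near hU hne (by positivity)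
  choose u hu1 hu2 hu3 using h1
  obtain ⟨φ, hφ, F, hF⟩ := rellich hR u (fun n => (hu1 n).tf.mono hb) (M := lambda1 U + 1) (fun n => by
    have : 1 / ((n : ℝ) + 1) ≤ 1 := by rw [div_le_one (by positivity)]; linarith [Nat.cast_nonneg (α := ℝ) n]
    linarith [hu3 n])
  refine ⟨F, ?_, ?_⟩
  · intro ε hε
    have e1 : ∀ᶠ n in atTop, ‖cls (u (φ n)) - F‖ < ε := by
      have := (tendsto_iff_norm_sub_tendsto_zero.mp hF)
      exact this.eventually (gt_mem_nhds hε)
    have e2 : ∀ᶠ n : ℕ in atTop, 1 / ((n : ℝ) + 1) < ε := by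
      exact tendsto_one_div_add_atTop_nhds_zero_nat.eventually (gt_mem_nhds hε)
    obtain ⟨n, hn1, hn2⟩ := (e1.and (hφ.tendsto_atTop.eventually e2)).exists
    refine ⟨u (φ n), (hu1 _).tf, hn1.le, ?_⟩
    unfold Qf
    rw [hu2, mul_one]
    linarith [hu3 (φ n)]
  · have e1 : Tendsto (fun n => ‖cls (u (φ n))‖) atTop (𝓝 ‖F‖) := hF.norm
    have e2 : ∀ n, ‖cls (u (φ n))‖ = 1 := by
      intro n
      have := norm_cls_sq (hu1 (φ n)).tf
      rw [hu2] at this
      have h0 := norm_nonneg (cls (u (φ n)))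
      nlinarith
    simp only [e2] at e1
    exact tendsto_nhds_unique e1 tendsto_const_nhds

end Pool.Agent.Helper533.StarBox
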