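import Pool.Agent.Helper533.StarBox.Small

open MeasureTheory Metric Set Filter
open scoped Topology

namespace Pool.Agent.Helper533.StarBox

/-- the open notch -/
def NN (ν : ℕ) : Set ℂ := {z | 1 / 2 < ‖z‖ ∧ |z.im| * Real.cos (aa ν / 2) < z.re * Real.sin (aa ν / 2)}

/-- the open exterior of the cone -/
def EX (ν : ℕ) (ε : ℝ) : Set ℂ := {z | ε < ‖z‖ ∧ z.re * Real.sin (aa ν) < |z.im| * Real.cos (aa ν)}

theorem NN_open (ν : ℕ) : IsOpen (NN ν) := by
  have h1 : IsOpen {z : ℂ | 1 / 2 < ‖z‖} := isOpen_lt (by fun_prop) (by fun_prop)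
  have h2 : IsOpen {z : ℂ | |z.im| * Real.cos (aa ν / 2) < z.re * Real.sin (aa ν / 2)} := isOpen_lt (by fun_prop) (by fun_prop)
  exact h1.inter h2

theorem EX_open (ν : ℕ) (ε : ℝ) : IsOpen (EX ν ε) := by
  have h1 : IsOpen {z : ℂ | ε < ‖z‖} := isOpen_lt (by fun_prop) (by fun_prop)
  have h2 : IsOpen {z : ℂ | z.re * Real.sin (aa ν) < |z.im| * Real.cos (aa ν)} := isOpen_lt (by fun_prop) (by fun_prop)
  exact h1.inter h2

theorem NN_disj (ν : ℕ) {ε : ℝ} (hε : ε ≤ 1 / 2) : Disjoint (DE ν ε) (NN ν) := by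
  rw [Set.disjoint_left]
  rintro z (hz | hz) ⟨h1, h2⟩
  · rcases hz.2.2 with h | h
    · linarith
    · linarith
  · rw [mem_ball, dist_zero_right] at hz; linarith

theorem EX_disj (ν : ℕ) (ε : ℝ) : Disjoint (DE ν ε) (EX ν ε) := by
  rw [Set.disjoint_left]
  rintro z (hz | hz) ⟨h1, h2⟩
  · have := hz.2.1; linarith
  · rw [mem_ball, dist_zero_right] at hz; linarith

/-- an open set which is a.e. equal to a subset of `A` does not meet open sets disjoint from `A` -/
theorem disj_of_ae {A O Ω S : Set ℂ} (hAO : Disjoint A O) (hO : IsOpen O) (hΩ : Ω ⊆ A) (hS : IsOpen S)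
    (hae : volume (symmDiff Ω S) = 0) : Disjoint S O := by
  rw [Set.disjoint_iff_inter_eq_empty]
  by_contra hcon
  have hne : (S ∩ O).Nonempty := nonempty_iff_ne_empty.mpr hcon
  have hpos : 0 < (volume : Measure ℂ) (S ∩ O) := (hS.inter hO).measure_pos volume hne
  have hsub : S ∩ O ⊆ symmDiff Ω S := by
    rintro z ⟨h1, h2⟩
    right
    refine ⟨h1, fun h3 => ?_⟩
    exact Set.disjoint_left.mp hAO (hΩ h3) h2
  exact absurd (measure_mono_null hsub hae) hpos.ne'

/-- rotation by `-β` -/
noncomputable def rot (β : ℝ) : ℂ ≃ₗᵢ[ℝ] ℂ := rotation (Circle.exp (-β))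

theorem rot_apply (β : ℝ) (z : ℂ) : rot β z = Complex.exp ((-β : ℝ) * Complex.I) * z := by
  show rotation (Circle.exp (-β)) z = _
  rw [rotation_apply, Circle.coe_exp]

theorem rot_im (β : ℝ) (z : ℂ) : (rot β z).im = LL β z := by
  rw [rot_apply, Complex.mul_im, Complex.exp_ofReal_mul_I_re, Complex.exp_ofReal_mul_I_im, Real.cos_neg, Real.sin_neg]
  unfold LL; ring

theorem rot_re (β : ℝ) (z : ℂ) : (rot β z).re = z.re * Real.cos β + z.im * Real.sin β := by
  rw [rot_apply, Complex.mul_re, Complex.exp_ofReal_mul_I_re, Complex.exp_ofReal_mul_I_im, Real.cos_neg, Real.sin_neg]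
  ring

theorem vol_open_box (a b c d : ℝ) : (volume : Measure ℂ) {w : ℂ | (a < w.re ∧ w.re < b) ∧ (c < w.im ∧ w.im < d)} =
    ENNReal.ofReal (b - a) * ENNReal.ofReal (d - c) := by
  have h := Complex.volume_preserving_equiv_real_prod
  have e : {w : ℂ | (a < w.re ∧ w.re < b) ∧ (c < w.im ∧ w.im < d)} =
      Complex.measurableEquivRealProd ⁻¹' (Ioo a b ×ˢ Ioo c d) := by
    ext w
    simp only [mem_setOf_eq, mem_preimage, mem_prod, mem_Ioo, Complex.measurableEquivRealProd_apply]
  rw [e, h.measure_preimage (measurableSet_Ioo.prod measurableSet_Ioo).nullMeasurableSet, Measure.volume_eq_prod,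
    Measure.prod_prod, Real.volume_Ioo, Real.volume_Ioo]

/-- the shadow of the upper wall of the notch -/
theorem shadow {ν : ℕ} (hν : 2 ≤ ν) {S : Set ℂ} {x₁ : ℂ} (hx : x₁ ∈ S) (hstar : StarConvex ℝ x₁ S)
    (hN : Disjoint S (NN ν)) (hx1 : ‖x₁‖ ≤ 1) (hh : 0 < -LL (aa ν / 2) x₁) :
    ENNReal.ofReal (min (-LL (aa ν / 2) x₁ / 20) (Real.sin (aa ν / 2) / 4) / 8) ≤ volume (D0 ν \ S) := by
  set b := aa ν / 2 with hb
  set h := -LL b x₁ with hhd
  set τ := min (h / 20) (Real.sin b / 4) with hτ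
  have hsb := sin_bb_pos hν
  have hcb := cos_bb_pos hν
  rw [← hb] at hsb hcb
  have hsb1 : Real.sin b ≤ 1 := Real.sin_le_one b
  have hcb1 : Real.cos b ≤ 1 := Real.cos_le_one b
  have hτ0 : 0 < τ := by rw [hτ]; positivity
  have hτ1 : τ ≤ h / 20 := min_le_left _ _
  have hτ2 : τ ≤ Real.sin b / 4 := min_le_right _ _
  have ha2 : aa ν = b + b := by rw [hb]; ring
  -- the shadow set
  set B : Set ℂ := {w : ℂ | (3/4 < w.re ∧ w.re < 7/8) ∧ (0 < w.im ∧ w.im < τ)} with hB
  have hvB : volume ((rot b) ⁻¹' B) = ENNReal.ofReal (τ / 8) := by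
    have hBm : MeasurableSet B := by
      have h1 : IsOpen {w : ℂ | 3/4 < w.re ∧ w.re < 7/8} :=
        (isOpen_lt continuous_const Complex.continuous_re).inter (isOpen_lt Complex.continuous_re continuous_const)
      have h2 : IsOpen {w : ℂ | 0 < w.im ∧ w.im < τ} :=
        (isOpen_lt continuous_const Complex.continuous_im).inter (isOpen_lt Complex.continuous_im continuous_const)
      exact (h1.inter h2).measurableSet
    rw [(rot b).measurePreserving.measure_preimage hBm.nullMeasurableSet, hB, vol_open_box, ← ENNReal.ofReal_mul (by norm_num)]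
    congr 1; ring
  rw [← hvB]
  apply measure_mono
  intro z hz
  obtain ⟨⟨p1, p2⟩, q1, q2⟩ : (3/4 < (rot b z).re ∧ (rot b z).re < 7/8) ∧ (0 < (rot b z).im ∧ (rot b z).im < τ) := hz
  rw [rot_re] at p1 p2
  rw [rot_im] at q1 q2
  set p := z.re * Real.cos b + z.im * Real.sin b with hp
  set q := LL b z with hq
  have hq' : q = z.im * Real.cos b - z.re * Real.sin b := rfl
  have hcs : Real.cos b ^ 2 + Real.sin b ^ 2 = 1 := Real.cos_sq_add_sin_sq b
  have hre : z.re = p * Real.cos b - q * Real.sin b := by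
    rw [hp, hq']; linear_combination (-z.re) * hcs
  have him : z.im = p * Real.sin b + q * Real.cos b := by
    rw [hp, hq']; linear_combination (-z.im) * hcs
  have himpos : 0 < z.im := by rw [him]; positivity
  refine ⟨⟨?_, ?_, Or.inr ?_⟩, ?_⟩
  · have hn : ‖z‖ ^ 2 = p ^ 2 + q ^ 2 := by
      rw [← Complex.normSq_eq_norm_sq, Complex.normSq_apply, hre, him]
      linear_combination (p ^ 2 + q ^ 2) * hcs
    have hq3 : q < 1 / 4 := by linarith
    have hn0 := norm_nonneg z
    nlinarith
  · rw [abs_of_pos himpos, ha2, Real.cos_add, Real.sin_add, hre, him]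
    have e : (p * Real.cos b - q * Real.sin b) * (Real.sin b * Real.cos b + Real.cos b * Real.sin b) -
        (p * Real.sin b + q * Real.cos b) * (Real.cos b * Real.cos b - Real.sin b * Real.sin b) =
        (p * Real.sin b - q * Real.cos b) * (Real.cos b ^ 2 + Real.sin b ^ 2) := by ring
    rw [hcs, mul_one] at e
    have : q * Real.cos b < p * Real.sin b := by
      calc q * Real.cos b ≤ q * 1 := mul_le_mul_of_nonneg_left hcb1 q1.le
        _ < Real.sin b / 4 := by linarith
        _ ≤ p * Real.sin b := by nlinarith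
    linarith
  · rw [abs_of_pos himpos]; linarith
  · intro hzS
    -- the segment from x₁ to z meets the notch
    set ζ := τ / 2 with hζ
    have hζ0 : 0 < ζ := by positivity
    set t := (h - ζ) / (q + h) with ht
    have hqh : 0 < q + h := by linarith
    have hζh : ζ ≤ h / 40 := by rw [hζ]; linarith
    have ht1 : t ≤ 1 := by rw [ht, div_le_one hqh]; linarith
    have ht0 : 13 / 14 ≤ t := by
      rw [ht, le_div_iff₀ hqh]
      nlinarith
    have hmem : x₁ + t • (z - x₁) ∈ S := by
      have h1 := hstar hzS (show (0:ℝ) ≤ 1 - t by linarith) (show (0:ℝ) ≤ t by linarith) (by ring)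
      have e : (1 - t) • x₁ + t • z = x₁ + t • (z - x₁) := by rw [smul_sub, sub_smul, one_smul]; abel
      rwa [e] at h1
    apply Set.disjoint_left.mp hN hmem
    set w := x₁ + t • (z - x₁) with hw
    set p₁ := x₁.re * Real.cos b + x₁.im * Real.sin b with hp₁
    have hre1 : x₁.re = p₁ * Real.cos b + h * Real.sin b := by
      have hhd' : h = -(x₁.im * Real.cos b - x₁.re * Real.sin b) := rfl
      rw [hp₁, hhd']; linear_combination (-x₁.re) * hcs
    have him1 : x₁.im = p₁ * Real.sin b - h * Real.cos b := by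
      have hhd' : h = -(x₁.im * Real.cos b - x₁.re * Real.sin b) := rfl
      rw [hp₁, hhd']; linear_combination (-x₁.im) * hcs
    have hp1 : p₁ ≤ 1 ∧ -1 ≤ p₁ := by
      have : |p₁| ≤ 1 := by
        have e : p₁ = (rot b x₁).re := (rot_re b x₁).symm
        rw [e]
        refine (Complex.abs_re_le_norm _).trans ?_
        rw [(rot b).norm_map]; exact hx1
      exact ⟨(abs_le.mp this).2, (abs_le.mp this).1⟩
    set P := p₁ + t * (p - p₁) with hP
    have hwre : w.re = P * Real.cos b + ζ * Real.sin b := by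
      have e1 : w.re = x₁.re + t * (z.re - x₁.re) := by rw [hw]; simp
      have e2 : t * (q + h) = h - ζ := by rw [ht]; field_simp
      rw [e1, hre, hre1, hP]
      linear_combination (-Real.sin b) * e2
    have hwim : w.im = P * Real.sin b - ζ * Real.cos b := by
      have e1 : w.im = x₁.im + t * (z.im - x₁.im) := by rw [hw]; simp
      have e2 : t * (q + h) = h - ζ := by rw [ht]; field_simp
      rw [e1, him, him1, hP]
      linear_combination (Real.cos b) * e2
    have hPlow : 1 / 2 < P := by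
      have e : P = p - (1 - t) * (p - p₁) := by rw [hP]; ring
      have h1 : p - p₁ ≤ 15 / 8 := by linarith [hp1.2]
      have h2 : (1 - t) * (p - p₁) ≤ (1 / 14) * (15 / 8) := by
        rcases le_total 0 (p - p₁) with h3 | h3
        · exact mul_le_mul (by linarith) h1 h3 (by norm_num)
        · have : (1 - t) * (p - p₁) ≤ 0 := mul_nonpos_of_nonneg_of_nonpos (by linarith) h3
          linarith
      rw [e]; linarith
    have hζs : ζ < Real.sin b / 4 := by rw [hζ]; linarith
    constructor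
    · have hn : ‖w‖ ^ 2 = P ^ 2 + ζ ^ 2 := by
        rw [← Complex.normSq_eq_norm_sq, Complex.normSq_apply, hwre, hwim]
        linear_combination (P ^ 2 + ζ ^ 2) * hcs
      by_contra hcon
      push Not at hcon
      have := norm_nonneg w
      nlinarith
    · have hPs : Real.sin b / 2 < P * Real.sin b := by nlinarith
      have h1 : ζ * Real.cos b ≤ ζ * 1 := mul_le_mul_of_nonneg_left hcb1 hζ0.le
      have hwpos : 0 < w.im := by rw [hwim]; linarith
      rw [abs_of_pos hwpos, hwim, hwre]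
      have e : (P * Real.cos b + ζ * Real.sin b) * Real.sin b - (P * Real.sin b - ζ * Real.cos b) * Real.cos b = ζ := by
        linear_combination ζ * hcs
      linarith

theorem conj_mem_NN {ν : ℕ} {z : ℂ} : (starRingEnd ℂ) z ∈ NN ν ↔ z ∈ NN ν := by
  unfold NN
  simp only [mem_setOf_eq, Complex.norm_conj, Complex.conj_im, Complex.conj_re, abs_neg]

/-- the shadow of the lower wall -/
theorem shadow' {ν : ℕ} (hν : 2 ≤ ν) {S : Set ℂ} (hS : IsOpen S) {x₁ : ℂ} (hx : x₁ ∈ S) (hstar : StarConvex ℝ x₁ S)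
    (hN : Disjoint S (NN ν)) (hx1 : ‖x₁‖ ≤ 1) (hh : 0 < -LL (aa ν / 2) ((starRingEnd ℂ) x₁)) :
    ENNReal.ofReal (min (-LL (aa ν / 2) ((starRingEnd ℂ) x₁) / 20) (Real.sin (aa ν / 2) / 4) / 8) ≤ volume (D0 ν \ S) := by
  set S' : Set ℂ := {z | (starRingEnd ℂ) z ∈ S} with hS'
  have h1 := shadow hν (S := S') (x₁ := (starRingEnd ℂ) x₁) (by
    show (starRingEnd ℂ) ((starRingEnd ℂ) x₁) ∈ S
    rw [Complex.conj_conj]; exact hx) (by
    intro z hz s t hs ht hst
    show (starRingEnd ℂ) (s • (starRingEnd ℂ) x₁ + t • z) ∈ S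
    have := hstar (show (starRingEnd ℂ) z ∈ S from hz) hs ht hst
    have e : (starRingEnd ℂ) (s • (starRingEnd ℂ) x₁ + t • z) = s • x₁ + t • (starRingEnd ℂ) z := by
      rw [map_add, Complex.real_smul, Complex.real_smul, Complex.real_smul, Complex.real_smul, map_mul, map_mul,
        Complex.conj_ofReal, Complex.conj_ofReal, Complex.conj_conj]
    rw [e]; exact this) (by
    rw [Set.disjoint_left]
    intro z hz hzN
    exact Set.disjoint_left.mp hN hz (conj_mem_NN.mpr hzN)) (by rw [Complex.norm_conj]; exact hx1) hh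
  refine h1.trans (le_of_eq ?_)
  have hm : MeasurableSet (D0 ν \ S) := (D0_open ν).measurableSet.diff hS.measurableSet
  have e : D0 ν \ S' = Complex.conjLIE ⁻¹' (D0 ν \ S) := by
    ext z
    simp only [mem_diff, mem_preimage, Complex.conjLIE_apply]
    rw [D0_conj]; rfl
  rw [e, Complex.conjLIE.measurePreserving.measure_preimage hm.nullMeasurableSet]

/-- a star centre has to be close to the tip -/
theorem location {ν : ℕ} (hν : 2 ≤ ν) {ε s : ℝ} {S : Set ℂ} (hS : IsOpen S) {x₁ : ℂ} (hx : x₁ ∈ S)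
    (hstar : StarConvex ℝ x₁ S) (hN : Disjoint S (NN ν)) (hE : Disjoint S (EX ν ε)) (hx1 : ‖x₁‖ ≤ 1)
    (hε : 0 ≤ ε) (hs0 : 0 < s) (hs : s < Real.sin (aa ν / 2) / 32) (hvol : volume (D0 ν \ S) ≤ ENNReal.ofReal s) :
    ‖x₁‖ ≤ 320 / Real.sin (aa ν / 2) * s + ε := by
  have hsb := sin_bb_pos hν
  have hcb := cos_bb_pos hν
  set b := aa ν / 2 with hb
  have key1 : -LL b x₁ ≤ 160 * s := by
    by_cases hh : 0 < -LL b x₁
    · have h1 := (shadow hν hx hstar hN hx1 hh).trans hvol
      rw [ENNReal.ofReal_le_ofReal_iff hs0.le] at h1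
      rcases min_choice (-LL b x₁ / 20) (Real.sin b / 4) with h | h
      · rw [h] at h1; linarith
      · rw [h] at h1; linarith
    · push Not at hh; linarith
  have key2 : -LL b ((starRingEnd ℂ) x₁) ≤ 160 * s := by
    by_cases hh : 0 < -LL b ((starRingEnd ℂ) x₁)
    · have h1 := (shadow' hν hS hx hstar hN hx1 hh).trans hvol
      rw [ENNReal.ofReal_le_ofReal_iff hs0.le] at h1
      rcases min_choice (-LL b ((starRingEnd ℂ) x₁) / 20) (Real.sin b / 4) with h | h
      · rw [h] at h1; linarith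
      · rw [h] at h1; linarith
    · push Not at hh; linarith
  unfold LL at key1 key2
  rw [Complex.conj_im, Complex.conj_re] at key2
  have h3 : x₁.re * Real.sin b ≤ 160 * s := by linarith
  have h4 : x₁ ∉ EX ν ε := Set.disjoint_left.mp hE hx
  unfold EX at h4
  rw [mem_setOf_eq, not_and_or, not_lt, not_lt] at h4
  rcases h4 with h4 | h4
  · have : 0 ≤ 320 / Real.sin b * s := by positivity
    linarith
  · -- |im| ≤ k re
    have hc := cos_aa_pos hν
    have hsa := sin_aa_pos hν
    have hk1 := kk_le_one hν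
    have hk0 := kk_pos hν
    have h5 : |x₁.im| ≤ kk ν * x₁.re := by
      unfold kk
      rw [Real.tan_eq_sin_div_cos, div_mul_eq_mul_div, le_div_iff₀ hc]
      linarith
    have h6 : 0 ≤ x₁.re := by
      by_contra hcon
      push Not at hcon
      have := abs_nonneg x₁.im
      have := mul_neg_of_pos_of_neg hk0 hcon
      linarith
    have h7 : |x₁.im| ≤ x₁.re := by nlinarith
    have h8 : ‖x₁‖ ≤ |x₁.re| + |x₁.im| := Complex.norm_le_abs_re_add_abs_im x₁
    rw [abs_of_nonneg h6] at h8
    have h9 : x₁.re ≤ 160 / Real.sin b * s := by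
      rw [div_mul_eq_mul_div, le_div_iff₀ hsb]; exact h3
    have h10 : 320 / Real.sin b * s = 160 / Real.sin b * s + 160 / Real.sin b * s := by ring
    rw [h10]; linarith

end Pool.Agent.Helper533.StarBox
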