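import Pool.Agent.Helper533.StarBox.Geo

open MeasureTheory Metric Set Filter
open scoped Topology

namespace Pool.Agent.Helper533.StarBox

/-- strips inside small discs -/
theorem vol_strip' (β δ τ : ℝ) (hδ : 0 ≤ δ) (hτ : 0 ≤ τ) :
    (volume : Measure ℂ) {z : ℂ | ‖z‖ ≤ δ ∧ |LL β z| ≤ τ} ≤ ENNReal.ofReal (4 * δ * τ) := by
  have hpre : {z : ℂ | ‖z‖ ≤ δ ∧ |LL β z| ≤ τ} ⊆ (rot β) ⁻¹' {w : ℂ | |w.re| ≤ δ ∧ |w.im| ≤ τ} := by
    rintro z ⟨h1, h2⟩
    constructor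
    · refine (Complex.abs_re_le_norm _).trans ?_
      rw [(rot β).norm_map]; exact h1
    · rw [rot_im]; exact h2
  have hms : MeasurableSet {w : ℂ | |w.re| ≤ δ ∧ |w.im| ≤ τ} := by
    have h1 : IsClosed {w : ℂ | |w.re| ≤ δ} := isClosed_le (by fun_prop) (by fun_prop)
    have h2 : IsClosed {w : ℂ | |w.im| ≤ τ} := isClosed_le (by fun_prop) (by fun_prop)
    exact (h1.inter h2).measurableSet
  calc (volume : Measure ℂ) {z : ℂ | ‖z‖ ≤ δ ∧ |LL β z| ≤ τ}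
      ≤ volume ((rot β) ⁻¹' {w : ℂ | |w.re| ≤ δ ∧ |w.im| ≤ τ}) := measure_mono hpre
    _ = volume {w : ℂ | |w.re| ≤ δ ∧ |w.im| ≤ τ} := (rot β).measurePreserving.measure_preimage hms.nullMeasurableSet
    _ ≤ ENNReal.ofReal (2 * δ) * ENNReal.ofReal (2 * τ) := vol_box δ τ
    _ = ENNReal.ofReal (4 * δ * τ) := by
        rw [← ENNReal.ofReal_mul (by positivity)]; congr 1; ring

/-- one dilation by a factor two about the star centre -/
theorem dilate {ν : ℕ} (hν : 2 ≤ ν) {S : Set ℂ} (hS : IsOpen S) {x₁ : ℂ} 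
    (hstar : StarConvex ℝ x₁ S) {δ : ℝ} (hδ : 0 < δ) (hδ1 : δ ≤ 1 / 8) (hx1 : ‖x₁‖ ≤ 1 / 4) :
    4 * volume ((D0 ν \ S) ∩ ball 0 δ) ≤ volume (D0 ν \ S) + 4 * ENNReal.ofReal (8 * δ * ‖x₁‖) := by
  have hc := cos_aa_pos hν
  have hs := sin_aa_pos hν
  set F := D0 ν \ S with hF
  have hFm : MeasurableSet F := (D0_open ν).measurableSet.diff hS.measurableSet
  set T : ℂ → ℂ := fun z => AffineMap.homothety x₁ (2:ℝ) z with hT
  have hTz : ∀ z, T z = 2 * z - x₁ := by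
    intro z
    simp only [hT, AffineMap.homothety_apply, vsub_eq_sub, vadd_eq_add, Complex.real_smul]
    push_cast; ring
  -- the part which stays inside
  set F1 := {z | z ∈ F ∧ z ∈ ball (0:ℂ) δ ∧ T z ∈ D0 ν} with hF1
  set E : Set ℂ := {z : ℂ | ‖z‖ ≤ δ ∧ |LL (aa ν) z| ≤ ‖x₁‖} ∪ {z : ℂ | ‖z‖ ≤ δ ∧ |LL (-(aa ν)) z| ≤ ‖x₁‖} with hE
  have hEv : volume E ≤ ENNReal.ofReal (8 * δ * ‖x₁‖) := by
    have e : 8 * δ * ‖x₁‖ = 4 * δ * ‖x₁‖ + 4 * δ * ‖x₁‖ := by ring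
    rw [e, ENNReal.ofReal_add (by positivity) (by positivity)]
    exact (measure_union_le _ _).trans (add_le_add (vol_strip' _ δ _ hδ.le (norm_nonneg _)) (vol_strip' _ δ _ hδ.le (norm_nonneg _)))
  have hcov : F ∩ ball 0 δ ⊆ F1 ∪ E := by
    rintro z ⟨hz, hzb⟩
    by_cases hTD : T z ∈ D0 ν
    · exact Or.inl ⟨hz, hzb, hTD⟩
    right
    rw [mem_ball, dist_zero_right] at hzb
    have hzn := hzb.le
    have hzD := hz.1
    -- T z violates the cone condition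
    have hTn : ‖T z‖ < 1 / 2 := by
      rw [hTz]
      calc ‖2 * z - x₁‖ ≤ ‖2 * z‖ + ‖x₁‖ := norm_sub_le _ _
        _ = 2 * ‖z‖ + ‖x₁‖ := by rw [norm_mul]; simp
        _ < 1 / 2 := by linarith
    have hcone : ¬ (|(T z).im| * Real.cos (aa ν) < (T z).re * Real.sin (aa ν)) := by
      intro h
      exact hTD ⟨by linarith, h, Or.inl hTn⟩
    push Not at hcone
    have e1 : (T z).re = 2 * z.re - x₁.re := by rw [hTz]; simp
    have e2 : (T z).im = 2 * z.im - x₁.im := by rw [hTz]; simp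
    rw [e1, e2] at hcone
    have hx2 : |x₁.im| ≤ ‖x₁‖ := Complex.abs_im_le_norm x₁
    have hx3 : |x₁.re| ≤ ‖x₁‖ := Complex.abs_re_le_norm x₁
    have h3 : |2 * z.im - x₁.im| ≤ 2 * |z.im| + |x₁.im| := by
      refine (abs_sub _ _).trans ?_
      rw [abs_mul, abs_of_pos (by norm_num : (0:ℝ) < 2)]
    have hs1 : Real.sin (aa ν) ≤ 1 := Real.sin_le_one _
    have hc1 : Real.cos (aa ν) ≤ 1 := Real.cos_le_one _
    have h4 : |2 * z.im - x₁.im| * Real.cos (aa ν) ≤ (2 * |z.im| + |x₁.im|) * Real.cos (aa ν) :=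
      mul_le_mul_of_nonneg_right h3 hc.le
    have h5 : x₁.re * Real.sin (aa ν) ≤ ‖x₁‖ := by
      calc x₁.re * Real.sin (aa ν) ≤ |x₁.re| * Real.sin (aa ν) := mul_le_mul_of_nonneg_right (le_abs_self _) hs.le
        _ ≤ |x₁.re| * 1 := mul_le_mul_of_nonneg_left hs1 (abs_nonneg _)
        _ ≤ ‖x₁‖ := by linarith
    have h6 : |x₁.im| * Real.cos (aa ν) ≤ ‖x₁‖ := by
      calc |x₁.im| * Real.cos (aa ν) ≤ |x₁.im| * 1 := mul_le_mul_of_nonneg_left hc1 (abs_nonneg _)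
        _ ≤ ‖x₁‖ := by linarith
    have h7 : z.re * Real.sin (aa ν) - |z.im| * Real.cos (aa ν) ≤ ‖x₁‖ := by linarith
    have h8 : 0 < z.re * Real.sin (aa ν) - |z.im| * Real.cos (aa ν) := by linarith [hzD.2.1]
    rcases abs_cases z.im with h | h
    · left
      refine ⟨hzn, ?_⟩
      unfold LL
      rw [h.1] at h7 h8
      rw [abs_le]; constructor <;> linarith
    · right
      refine ⟨hzn, ?_⟩
      unfold LL
      rw [Real.cos_neg, Real.sin_neg]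
      rw [h.1] at h7 h8
      rw [abs_le]; constructor <;> linarith
  have himg : T '' F1 ⊆ F := by
    rintro _ ⟨z, ⟨hz, _, hTD⟩, rfl⟩
    refine ⟨hTD, fun hTS => hz.2 ?_⟩
    have h1 := hstar hTS (show (0:ℝ) ≤ 1/2 by norm_num) (show (0:ℝ) ≤ 1/2 by norm_num) (by norm_num)
    have e : (1/2 : ℝ) • x₁ + (1/2 : ℝ) • T z = z := by
      rw [hTz, Complex.real_smul, Complex.real_smul]; push_cast; ring
    rwa [e] at h1
  have hvol1 : volume (T '' F1) = 4 * volume F1 := by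
    have := Measure.addHaar_image_homothety (volume : Measure ℂ) x₁ (2:ℝ) F1
    rw [Complex.finrank_real_complex] at this
    rw [show T '' F1 = (AffineMap.homothety x₁ (2:ℝ)) '' F1 from rfl, this]
    congr 1
    norm_num
  calc 4 * volume (F ∩ ball 0 δ) ≤ 4 * (volume F1 + volume E) := by
        gcongr
        exact (measure_mono hcov).trans (measure_union_le _ _)
    _ = volume (T '' F1) + 4 * volume E := by rw [hvol1, mul_add]
    _ ≤ volume F + 4 * ENNReal.ofReal (8 * δ * ‖x₁‖) := add_le_add (measure_mono himg) (by gcongr)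

/-- geometric conclusion: a set which is starshaped misses a lot of volume away from the tip -/
theorem outer_mass {ν : ℕ} (hν : 2 ≤ ν) : ∃ δ₀ > 0, ∃ s₀ > 0, ∀ s ε : ℝ, 0 < s → s ≤ s₀ → 0 < ε → ε ≤ s / 100 →
    ∀ Ω S : Set ℂ, IsOpen Ω → Ω ⊆ DE ν ε → volume (DE ν ε \ Ω) = ENNReal.ofReal s → IsOpen S → 
      ∀ x₁ ∈ S, StarConvex ℝ x₁ S → volume (symmDiff Ω S) = 0 →
      ENNReal.ofReal (s / 2) ≤ volume ((D0 ν \ Ω) ∩ {z | δ₀ ≤ ‖z‖}) := by
  have hsb := sin_bb_pos hν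
  have hsb1 : Real.sin (aa ν / 2) ≤ 1 := Real.sin_le_one _
  set C₀ := 320 / Real.sin (aa ν / 2) with hC₀
  have hC₀1 : 320 ≤ C₀ := by rw [hC₀, le_div_iff₀ hsb]; nlinarith
  have hC₀0 : 0 < C₀ := by linarith
  refine ⟨1 / (64 * C₀), by positivity, min (Real.sin (aa ν / 2) / 64) (1 / (8 * C₀)), by positivity, ?_⟩
  intro s ε hs hs0 hε hεs Ω S hΩ hΩD hvol hS x₁ hx₁ hstar hae
  set δ := 1 / (64 * C₀) with hδ
  have hδ0 : 0 < δ := by positivity
  have hδ1 : δ ≤ 1 / 8 := by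
    rw [hδ]; apply div_le_div_of_nonneg_left zero_le_one (by norm_num) (by linarith)
  have hs1 : s ≤ Real.sin (aa ν / 2) / 64 := hs0.trans (min_le_left _ _)
  have hs2 : s ≤ 1 / (8 * C₀) := hs0.trans (min_le_right _ _)
  have hCs : C₀ * s ≤ 1 / 8 := by
    calc C₀ * s ≤ C₀ * (1 / (8 * C₀)) := mul_le_mul_of_nonneg_left hs2 hC₀0.le
      _ = 1 / 8 := by field_simp
  have hs3 : s ≤ 1 / 64 := by linarith
  have hε2 : ε ≤ 1 / 2 := by linarith
  have hN := disj_of_ae (NN_disj ν hε2) (NN_open ν) hΩD hS hae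
  have hE := disj_of_ae (EX_disj ν ε) (EX_open ν ε) hΩD hS hae
  have hx1 : ‖x₁‖ ≤ 1 := by
    have h1 : Disjoint (DE ν ε) {z : ℂ | 1 < ‖z‖} := by
      rw [Set.disjoint_left]
      intro z hz hz1
      have := DE_ball ν (by linarith : ε ≤ 1) hz
      rw [mem_ball, dist_zero_right] at this
      rw [mem_setOf_eq] at hz1
      linarith
    have h2 := disj_of_ae h1 (isOpen_lt continuous_const continuous_norm) hΩD hS hae
    by_contra hcon
    push Not at hcon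
    exact Set.disjoint_left.mp h2 hx₁ hcon
  -- F differs from D0 \ Ω by a null set
  have hFeq : (D0 ν \ S : Set ℂ) =ᵐ[volume] (D0 ν \ Ω : Set ℂ) := by
    have h1 : ∀ᵐ z, z ∉ symmDiff Ω S := measure_eq_zero_iff_ae_notMem.mp hae
    filter_upwards [h1] with z hz
    apply propext
    rw [mem_symmDiff] at hz
    push Not at hz
    constructor
    · rintro ⟨h2, h3⟩; exact ⟨h2, fun h4 => h3 (hz.1 h4)⟩
    · rintro ⟨h2, h3⟩; exact ⟨h2, fun h4 => h3 (hz.2 h4)⟩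
  have hvle : volume (D0 ν \ Ω) ≤ ENNReal.ofReal s := by
    rw [← hvol]; exact measure_mono (diff_subset_diff_left subset_union_left)
  have hvge : ENNReal.ofReal s ≤ volume (D0 ν \ Ω) + ENNReal.ofReal (4 * ε ^ 2) := by
    rw [← hvol]
    refine (measure_mono (t := (D0 ν \ Ω) ∪ ball 0 ε) ?_).trans ((measure_union_le _ _).trans (add_le_add le_rfl ?_))
    · rintro z ⟨h1 | h1, h2⟩
      · exact Or.inl ⟨h1, h2⟩
      · exact Or.inr h1
    · rw [Complex.volume_ball, ← ENNReal.ofReal_pow hε.le]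
      have hpi : (NNReal.pi : ENNReal) = ENNReal.ofReal Real.pi := by
        rw [← NNReal.coe_real_pi, ENNReal.ofReal_coe_nnreal]
      rw [hpi, ← ENNReal.ofReal_mul (by positivity)]
      apply ENNReal.ofReal_le_ofReal
      have := Real.pi_lt_four
      nlinarith [sq_nonneg ε]
  have hFS : volume (D0 ν \ S) = volume (D0 ν \ Ω) := measure_congr hFeq
  have hloc := location hν hS hx₁ hstar hN hE hx1 hε.le hs (by linarith) (by rw [hFS]; exact hvle)
  rw [← hC₀] at hloc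
  have hx2 : ‖x₁‖ ≤ 1 / 4 := by linarith
  have hd := dilate hν hS hstar hδ0 hδ1 hx2
  have hFS2 : volume ((D0 ν \ S) ∩ ball 0 δ) = volume ((D0 ν \ Ω) ∩ ball 0 δ) :=
    measure_congr (hFeq.inter (ae_eq_refl _))
  rw [hFS, hFS2] at hd
  -- to real numbers
  have hfin : volume (D0 ν \ Ω) ≠ ⊤ := (hvle.trans_lt ENNReal.ofReal_lt_top).ne
  set V := (volume (D0 ν \ Ω)).toReal with hV
  have hVe : volume (D0 ν \ Ω) = ENNReal.ofReal V := (ENNReal.ofReal_toReal hfin).symm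
  have hfin2 : volume ((D0 ν \ Ω) ∩ ball 0 δ) ≠ ⊤ := ((measure_mono inter_subset_left).trans_lt hfin.lt_top).ne
  set V1 := (volume ((D0 ν \ Ω) ∩ ball 0 δ)).toReal with hV1
  have hV1e : volume ((D0 ν \ Ω) ∩ ball 0 δ) = ENNReal.ofReal V1 := (ENNReal.ofReal_toReal hfin2).symm
  have hV0 : 0 ≤ V := ENNReal.toReal_nonneg
  have hV10 : 0 ≤ V1 := ENNReal.toReal_nonneg
  have r1 : V ≤ s := by
    rw [hVe] at hvle; exact (ENNReal.ofReal_le_ofReal_iff hs.le).mp hvle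
  have r2 : s ≤ V + 4 * ε ^ 2 := by
    rw [hVe, ← ENNReal.ofReal_add hV0 (by positivity)] at hvge
    exact (ENNReal.ofReal_le_ofReal_iff (by positivity)).mp hvge
  have r3 : 4 * V1 ≤ V + 4 * (8 * δ * ‖x₁‖) := by
    rw [hVe, hV1e] at hd
    have e4 : (4 : ENNReal) = ENNReal.ofReal 4 := by norm_num
    rw [e4, ← ENNReal.ofReal_mul (by norm_num), ← ENNReal.ofReal_mul (by norm_num), ← ENNReal.ofReal_add hV0 (by positivity)] at hd
    exact (ENNReal.ofReal_le_ofReal_iff (by positivity)).mp hd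
  have hsplit : volume (D0 ν \ Ω) ≤ volume ((D0 ν \ Ω) ∩ {z | δ ≤ ‖z‖}) + volume ((D0 ν \ Ω) ∩ ball 0 δ) := by
    refine (measure_mono ?_).trans (measure_union_le _ _)
    intro z hz
    by_cases h : δ ≤ ‖z‖
    · exact Or.inl ⟨hz, h⟩
    · refine Or.inr ⟨hz, ?_⟩
      rw [mem_ball, dist_zero_right]; exact not_le.mp h
  have hfin3 : volume ((D0 ν \ Ω) ∩ {z | δ ≤ ‖z‖}) ≠ ⊤ := ((measure_mono inter_subset_left).trans_lt hfin.lt_top).ne
  set V2 := (volume ((D0 ν \ Ω) ∩ {z | δ ≤ ‖z‖})).toReal with hV2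
  have hV2e : volume ((D0 ν \ Ω) ∩ {z | δ ≤ ‖z‖}) = ENNReal.ofReal V2 := (ENNReal.ofReal_toReal hfin3).symm
  have hV20 : 0 ≤ V2 := ENNReal.toReal_nonneg
  have r4 : V ≤ V2 + V1 := by
    rw [hVe, hV1e, hV2e, ← ENNReal.ofReal_add hV20 hV10] at hsplit
    exact (ENNReal.ofReal_le_ofReal_iff (by positivity)).mp hsplit
  rw [hV2e]
  apply ENNReal.ofReal_le_ofReal
  -- arithmetic
  have r5 : 8 * δ * ‖x₁‖ ≤ s / 8 + ε := by
    calc 8 * δ * ‖x₁‖ ≤ 8 * δ * (C₀ * s + ε) := mul_le_mul_of_nonneg_left hloc (by positivity)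
      _ = 8 * δ * C₀ * s + 8 * δ * ε := by ring
      _ ≤ s / 8 + ε := by
          have e5 : 8 * δ * C₀ = 1 / 8 := by rw [hδ]; field_simp; norm_num
          rw [e5]
          have : 8 * δ * ε ≤ 1 * ε := mul_le_mul_of_nonneg_right (by linarith) hε.le
          linarith
  have r6 : 4 * ε ^ 2 ≤ ε := by nlinarith
  linarith

end Pool.Agent.Helper533.StarBox
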