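import Pool.Agent.Helper533.StarBox.Base

open MeasureTheory Metric Set Filter
open scoped Topology

namespace Pool.Agent.Helper533.StarBox

theorem cs_plain (α β : ℝ) (hαβ : α ≤ β) (g : ℝ → ℝ) (hg : ContinuousOn g (Icc α β)) :
    (∫ t in α..β, g t) ^ 2 ≤ (β - α) * ∫ t in α..β, g t ^ 2 := by
  rcases eq_or_lt_of_le hαβ with h | h
  · rw [← h]; simp
  have hu : uIcc α β = Icc α β := uIcc_of_le hαβ
  have i2 : IntervalIntegrable (fun t => g t ^ 2) volume α β := by
    apply ContinuousOn.intervalIntegrable; rw [hu]; exact hg.pow 2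
  have i3 : IntervalIntegrable g volume α β := by
    apply ContinuousOn.intervalIntegrable; rw [hu]; exact hg
  have i1 : IntervalIntegrable (fun _ : ℝ => (1:ℝ)) volume α β := intervalIntegrable_const
  set I := ∫ t in α..β, g t with hI
  have hA0 : 0 < β - α := by linarith
  set s := I / (β - α) with hs
  have h0 : 0 ≤ ∫ t in α..β, (g t ^ 2 - 2 * s * g t + s ^ 2 * 1) := by
    apply intervalIntegral.integral_nonneg hαβ
    intro t ht
    have : g t ^ 2 - 2 * s * g t + s ^ 2 * 1 = (g t - s) ^ 2 := by ring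
    rw [this]; positivity
  rw [intervalIntegral.integral_add (i2.sub (i3.const_mul _)) (i1.const_mul _),
    intervalIntegral.integral_sub i2 (i3.const_mul _), intervalIntegral.integral_const_mul,
    intervalIntegral.integral_const_mul, ← hI, intervalIntegral.integral_const, smul_eq_mul, mul_one] at h0
  have h1 : 2 * s * I = 2 * (I ^ 2 / (β - α)) := by rw [hs]; ring
  have h2 : s ^ 2 * (β - α) = I ^ 2 / (β - α) := by rw [hs]; field_simp
  rw [h1, h2] at h0
  have h3 : I ^ 2 / (β - α) ≤ ∫ t in α..β, g t ^ 2 := by linarith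
  rw [div_le_iff₀ hA0] at h3
  linarith

theorem mk_eq (x y : ℝ) : (⟨x, y⟩ : ℂ) = (x : ℂ) + (y : ℂ) * Complex.I := Complex.mk_eq_add_mul_I x y

theorem mk_cont : Continuous (fun p : ℝ × ℝ => (⟨p.1, p.2⟩ : ℂ)) := by
  have : (fun p : ℝ × ℝ => (⟨p.1, p.2⟩ : ℂ)) = fun p => (p.1 : ℂ) + (p.2 : ℂ) * Complex.I := by
    ext p; exact mk_eq _ _
  rw [this]; fun_prop

theorem mk_cont_right (x : ℝ) : Continuous (fun y : ℝ => (⟨x, y⟩ : ℂ)) :=
  mk_cont.comp (continuous_const.prodMk continuous_id)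

theorem mk_cont_left (y : ℝ) : Continuous (fun x : ℝ => (⟨x, y⟩ : ℂ)) :=
  mk_cont.comp (continuous_id.prodMk continuous_const)

/-- Fubini -/
theorem integral_xy (f : ℂ → ℝ) (hf : Integrable f) : ∫ z, f z = ∫ x, ∫ y, f ⟨x, y⟩ := by
  have h := Complex.volume_preserving_equiv_real_prod.symm
  have hme := Complex.measurableEquivRealProd.symm.measurableEmbedding
  rw [← h.integral_comp hme]
  have hi : Integrable (fun p : ℝ × ℝ => f (Complex.measurableEquivRealProd.symm p)) (volume.prod volume) :=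
    (h.integrable_comp_emb hme).mpr hf
  have := integral_prod _ hi
  exact this

theorem integrable_xy {f : ℂ → ℝ} (hf : Integrable f) :
    Integrable (fun p : ℝ × ℝ => f ⟨p.1, p.2⟩) (volume.prod volume) := by
  have h := Complex.volume_preserving_equiv_real_prod.symm
  have hme := Complex.measurableEquivRealProd.symm.measurableEmbedding
  exact (h.integrable_comp_emb hme).mpr hf

theorem integral_yx (f : ℂ → ℝ) (hf : Integrable f) : ∫ z, f z = ∫ y, ∫ x, f ⟨x, y⟩ := by
  rw [integral_xy f hf]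
  exact integral_integral_swap (integrable_xy hf)

theorem line_y (u : ℂ → ℝ) (hu : Differentiable ℝ u) (x y : ℝ) :
    HasDerivAt (fun y : ℝ => u ⟨x, y⟩) (gy u ⟨x, y⟩) y := by
  have h1 : HasDerivAt (fun y : ℝ => (⟨x, y⟩ : ℂ)) Complex.I y := by
    have : (fun y : ℝ => (⟨x, y⟩ : ℂ)) = fun y : ℝ => (x : ℂ) + (y : ℂ) * Complex.I :=
      funext fun p => mk_eq _ _
    rw [this]
    have h2 : HasDerivAt (fun y : ℝ => (y : ℂ)) 1 y := Complex.ofRealCLM.hasDerivAt
    simpa using (h2.mul_const Complex.I).const_add (x : ℂ)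
  exact (hu ⟨x, y⟩).hasFDerivAt.comp_hasDerivAt y h1

theorem line_x (u : ℂ → ℝ) (hu : Differentiable ℝ u) (x y : ℝ) :
    HasDerivAt (fun x : ℝ => u ⟨x, y⟩) (gx u ⟨x, y⟩) x := by
  have h1 : HasDerivAt (fun x : ℝ => (⟨x, y⟩ : ℂ)) 1 x := by
    have : (fun x : ℝ => (⟨x, y⟩ : ℂ)) = fun x : ℝ => (x : ℂ) + (y : ℂ) * Complex.I :=
      funext fun p => mk_eq _ _
    rw [this]
    have h2 : HasDerivAt (fun y : ℝ => (y : ℂ)) 1 x := Complex.ofRealCLM.hasDerivAt
    simpa using h2.add_const ((y : ℂ) * Complex.I)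
  exact (hu ⟨x, y⟩).hasFDerivAt.comp_hasDerivAt x h1

/-- one dimensional Poincare inequality for functions vanishing outside `[-L, L]` -/
theorem poincare_line (f f' : ℝ → ℝ) (hf : ∀ y, HasDerivAt f (f' y) y) (hf' : Continuous f') (L : ℝ) (hL : 0 ≤ L)
    (h0 : ∀ y, L ≤ |y| → f y = 0) (h0' : ∀ y, L < |y| → f' y = 0) :
    ∫ y, f y ^ 2 ≤ 4 * L ^ 2 * ∫ y, f' y ^ 2 := by
  have hfc : Continuous f := continuous_iff_continuousAt.mpr fun y => (hf y).continuousAt
  have hset : ∀ g : ℝ → ℝ, (∀ y, L < |y| → g y = 0) → ∫ y, g y = ∫ y in (-L)..L, g y := by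
    intro g hg
    rw [intervalIntegral.integral_of_le (by linarith), ← integral_Icc_eq_integral_Ioc]
    symm
    apply setIntegral_eq_integral_of_forall_compl_eq_zero
    intro y hy
    apply hg
    by_contra hcon
    push Not at hcon
    exact hy (abs_le.mp hcon)
  rw [hset _ (fun y hy => by rw [h0 y hy.le]; ring), hset _ (fun y hy => by rw [h0' y hy]; ring)]
  have hpt : ∀ y ∈ Icc (-L) L, f y ^ 2 ≤ 2 * L * ∫ t in (-L)..L, f' t ^ 2 := by
    intro y hy
    have h1 : ∫ t in (-L)..y, f' t = f y - f (-L) :=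
      intervalIntegral.integral_eq_sub_of_hasDerivAt (fun t _ => hf t) (hf'.intervalIntegrable _ _)
    have h2 : f (-L) = 0 := h0 _ (by rw [abs_neg]; exact le_abs_self L)
    rw [h2, sub_zero] at h1
    rw [← h1]
    refine (cs_plain (-L) y hy.1 f' hf'.continuousOn).trans ?_
    have h3 : ∫ t in (-L)..y, f' t ^ 2 ≤ ∫ t in (-L)..L, f' t ^ 2 := by
      apply intervalIntegral.integral_mono_interval (le_refl _) hy.1 hy.2
      · exact Eventually.of_forall fun t => sq_nonneg _
      · exact (hf'.pow 2).intervalIntegrable _ _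
    have h4 : 0 ≤ ∫ t in (-L)..L, f' t ^ 2 :=
      intervalIntegral.integral_nonneg (by linarith) fun t _ => sq_nonneg _
    have h5 : 0 ≤ ∫ t in (-L)..y, f' t ^ 2 :=
      intervalIntegral.integral_nonneg hy.1 fun t _ => sq_nonneg _
    exact mul_le_mul (by linarith [hy.2]) h3 h5 (by linarith)
  have h1 : ∫ y in (-L)..L, f y ^ 2 ≤ ∫ _y in (-L)..L, (2 * L * ∫ t in (-L)..L, f' t ^ 2) := by
    apply intervalIntegral.integral_mono_on (by linarith) ((hfc.pow 2).intervalIntegrable _ _)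
      intervalIntegrable_const hpt
  rw [intervalIntegral.integral_const, smul_eq_mul] at h1
  refine h1.trans (le_of_eq ?_)
  ring

/-- vertical Poincare inequality with weights depending on the abscissa -/
theorem poincare_vert {U : Set ℂ} {u : ℂ → ℝ} (hu : TF U u) (W : ℝ → ℝ) (hW : Measurable W) (hW0 : ∀ x, 0 ≤ W x)
    (M : ℝ) (hWM : ∀ x, W x ≤ M)
    (L : ℝ → ℝ) (hL : ∀ x, W x ≠ 0 → 0 ≤ L x ∧ ∀ y, L x ≤ |y| → (⟨x, y⟩ : ℂ) ∉ tsupport u) (C : ℝ)
    (hC : ∀ x, W x ≠ 0 → 4 * L x ^ 2 ≤ C) :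
    ∫ z, W z.re * u z ^ 2 ≤ C * ∫ z, W z.re * gy u z ^ 2 := by
  have hWm : AEStronglyMeasurable (fun z : ℂ => W z.re) volume :=
    (hW.comp Complex.measurable_re).aestronglyMeasurable
  have hWb : ∀ᵐ z : ℂ, ‖W z.re‖ ≤ M := Eventually.of_forall fun z => by
    rw [Real.norm_of_nonneg (hW0 _)]; exact hWM _
  have i1 : Integrable (fun z : ℂ => W z.re * u z ^ 2) := hu.sq_int.bdd_mul hWm hWb
  have hgy2 : Integrable (fun z : ℂ => gy u z ^ 2) :=
    (hu.gy_cont.pow 2).integrable_of_hasCompactSupport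
      (IsCompact.of_isClosed_subset hu.gy_comp (isClosed_tsupport _) (tsupport_sub_of_zero (fun z h => by simp [h])))
  have i2 : Integrable (fun z : ℂ => W z.re * gy u z ^ 2) := hgy2.bdd_mul hWm hWb
  rw [integral_xy _ i1, integral_xy _ i2, ← integral_const_mul]
  apply integral_mono (integrable_xy i1).integral_prod_left ((integrable_xy i2).integral_prod_left.const_mul _)
  intro x
  show ∫ y, W x * u ⟨x, y⟩ ^ 2 ≤ C * ∫ y, W x * gy u ⟨x, y⟩ ^ 2
  by_cases hx : W x = 0
  · simp [hx]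
  · rw [integral_const_mul, integral_const_mul]
    obtain ⟨hL0, hLs⟩ := hL x hx
    have h1 := poincare_line (fun y => u ⟨x, y⟩) (fun y => gy u ⟨x, y⟩) (line_y u hu.diff x)
      (hu.gy_cont.comp (mk_cont_right x)) (L x) hL0
      (fun y hy => image_eq_zero_of_notMem_tsupport (hLs y hy))
      (fun y hy => TF.gy_zero (hLs y hy.le))
    have h2 : 0 ≤ ∫ y, gy u ⟨x, y⟩ ^ 2 := integral_nonneg fun y => sq_nonneg _
    calc W x * ∫ y, u ⟨x, y⟩ ^ 2 ≤ W x * (C * ∫ y, gy u ⟨x, y⟩ ^ 2) := by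
          apply mul_le_mul_of_nonneg_left _ (hW0 x)
          exact h1.trans (mul_le_mul_of_nonneg_right (hC x hx) h2)
      _ = _ := by ring

/-- Poincare inequality for functions supported in a horizontal strip -/
theorem poincare_strip {U : Set ℂ} {u : ℂ → ℝ} (hu : TF U u) (L : ℝ) (hL : 0 ≤ L) (h : ∀ z ∈ tsupport u, |z.im| < L) :
    Ip u u ≤ 4 * L ^ 2 * En u u := by
  have h1 := poincare_vert hu (fun _ => 1) measurable_const (fun _ => zero_le_one) 1 (fun _ => le_refl _) (fun _ => L)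
    (fun x _ => ⟨hL, fun y hy hmem => absurd (h _ hmem) (not_lt.mpr hy)⟩) (4 * L ^ 2) (fun _ _ => le_refl _)
  simp only [one_mul] at h1
  rw [Ip_self, En_self]
  refine h1.trans (mul_le_mul_of_nonneg_left ?_ (by positivity))
  apply integral_mono
  · exact (hu.gy_cont.pow 2).integrable_of_hasCompactSupport
      (IsCompact.of_isClosed_subset hu.gy_comp (isClosed_tsupport _) (tsupport_sub_of_zero (fun z h => by simp [h])))
  · exact hu.ensq_int
  · intro z
    show gy u z ^ 2 ≤ gx u z ^ 2 + gy u z ^ 2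
    have := sq_nonneg (gx u z)
    linarith

theorem poincare_ball {U : Set ℂ} {u : ℂ → ℝ} (hu : TF U u) (R : ℝ) (hR : 0 ≤ R) (h : U ⊆ ball 0 R) :
    Ip u u ≤ 4 * R ^ 2 * En u u := by
  apply poincare_strip hu R hR
  intro z hz
  have := h (hu.supp hz)
  rw [mem_ball, dist_zero_right] at this
  exact lt_of_le_of_lt (Complex.abs_im_le_norm z) this

end Pool.Agent.Helper533.StarBox
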