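import Pool.Agent.Helper533.StarBox.Dom

open MeasureTheory Metric Set Filter
open scoped Topology

namespace Pool.Agent.Helper533.StarBox

theorem vol_box (A B : ℝ) : (volume : Measure ℂ) {w : ℂ | |w.re| ≤ A ∧ |w.im| ≤ B} ≤
    ENNReal.ofReal (2 * A) * ENNReal.ofReal (2 * B) := by
  have h := Complex.volume_preserving_equiv_real_prod
  have e : {w : ℂ | |w.re| ≤ A ∧ |w.im| ≤ B} = Complex.measurableEquivRealProd ⁻¹' (Icc (-A) A ×ˢ Icc (-B) B) := by
    ext w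
    simp only [mem_setOf_eq, mem_preimage, mem_prod, mem_Icc, Complex.measurableEquivRealProd_apply, abs_le]
  rw [e, h.measure_preimage (measurableSet_Icc.prod measurableSet_Icc).nullMeasurableSet, Measure.volume_eq_prod,
    Measure.prod_prod, Real.volume_Icc, Real.volume_Icc]
  apply le_of_eq
  congr 2 <;> ring

/-- linear functional vanishing on the ray of angle `β` -/
noncomputable def LL (β : ℝ) (z : ℂ) : ℝ := z.im * Real.cos β - z.re * Real.sin β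

theorem vol_strip (β τ : ℝ) (hτ : 0 ≤ τ) : (volume : Measure ℂ) {z : ℂ | ‖z‖ ≤ 1 ∧ |LL β z| ≤ τ} ≤ ENNReal.ofReal (4 * τ) := by
  -- rotate
  let L : ℂ ≃ₗᵢ[ℝ] ℂ := rotation (Circle.exp (-β))
  have hL : ∀ z, L z = Complex.exp ((-β : ℝ) * Complex.I) * z := fun z => by
    show rotation (Circle.exp (-β)) z = _
    rw [rotation_apply, Circle.coe_exp]
  have hpre : {z : ℂ | ‖z‖ ≤ 1 ∧ |LL β z| ≤ τ} ⊆ L ⁻¹' {w : ℂ | |w.re| ≤ 1 ∧ |w.im| ≤ τ} := by
    rintro z ⟨h1, h2⟩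
    have e1 : (L z).im = LL β z := by
      rw [hL, Complex.mul_im, Complex.exp_ofReal_mul_I_re, Complex.exp_ofReal_mul_I_im, Real.cos_neg, Real.sin_neg]
      unfold LL; ring
    constructor
    · refine (Complex.abs_re_le_norm _).trans ?_
      rw [L.norm_map]; exact h1
    · rw [e1]; exact h2
  have hm : MeasurePreserving L volume volume := L.measurePreserving
  have hms : MeasurableSet {w : ℂ | |w.re| ≤ 1 ∧ |w.im| ≤ τ} := by
    have h1 : IsClosed {w : ℂ | |w.re| ≤ 1} := isClosed_le (by fun_prop) (by fun_prop)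
    have h2 : IsClosed {w : ℂ | |w.im| ≤ τ} := isClosed_le (by fun_prop) (by fun_prop)
    exact (h1.inter h2).measurableSet
  calc (volume : Measure ℂ) {z : ℂ | ‖z‖ ≤ 1 ∧ |LL β z| ≤ τ}
      ≤ volume (L ⁻¹' {w : ℂ | |w.re| ≤ 1 ∧ |w.im| ≤ τ}) := measure_mono hpre
    _ = volume {w : ℂ | |w.re| ≤ 1 ∧ |w.im| ≤ τ} := hm.measure_preimage hms.nullMeasurableSet
    _ ≤ ENNReal.ofReal (2 * 1) * ENNReal.ofReal (2 * τ) := vol_box 1 τ
    _ = ENNReal.ofReal (4 * τ) := by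
        rw [← ENNReal.ofReal_mul (by norm_num)]; congr 1; ring

theorem vol_annulus (R τ : ℝ) (hR : 0 < R) (hR1 : R ≤ 1) (hτ : 0 ≤ τ) (hτR : τ ≤ R) :
    (volume : Measure ℂ) {z : ℂ | R - τ < ‖z‖ ∧ ‖z‖ < R} ≤ ENNReal.ofReal (8 * τ) := by
  have hsub : {z : ℂ | R - τ < ‖z‖ ∧ ‖z‖ < R} ⊆ ball 0 R \ closedBall 0 (R - τ) := by
    rintro z ⟨h1, h2⟩
    refine ⟨by simpa using h2, ?_⟩
    simp only [mem_closedBall, dist_zero_right, not_le]; exact h1
  refine (measure_mono hsub).trans ?_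
  have h3 : closedBall (0:ℂ) (R - τ) ⊆ closedBall 0 R := closedBall_subset_closedBall (by linarith)
  calc volume (ball (0:ℂ) R \ closedBall 0 (R - τ)) ≤ volume (closedBall (0:ℂ) R \ closedBall 0 (R - τ)) :=
        measure_mono (diff_subset_diff_left ball_subset_closedBall)
    _ = volume (closedBall (0:ℂ) R) - volume (closedBall (0:ℂ) (R - τ)) :=
        measure_diff h3 measurableSet_closedBall.nullMeasurableSet (isCompact_closedBall _ _).measure_lt_top.ne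
    _ ≤ ENNReal.ofReal (8 * τ) := by
        rw [Complex.volume_closedBall, Complex.volume_closedBall, ← ENNReal.ofReal_pow hR.le,
          ← ENNReal.ofReal_pow (by linarith)]
        have hpi : (NNReal.pi : ENNReal) = ENNReal.ofReal Real.pi := by
          rw [← NNReal.coe_real_pi, ENNReal.ofReal_coe_nnreal]
        rw [hpi, ← ENNReal.ofReal_mul (by positivity), ← ENNReal.ofReal_mul (by positivity),
          ← ENNReal.ofReal_sub _ (by positivity)]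
        apply ENNReal.ofReal_le_ofReal
        have := Real.pi_lt_four
        have h4 : R ^ 2 * Real.pi - (R - τ) ^ 2 * Real.pi = (2 * R * τ - τ ^ 2) * Real.pi := by ring
        rw [h4]
        have h5 : 2 * R * τ - τ ^ 2 ≤ 2 * τ := by nlinarith
        have h6 : 0 ≤ 2 * R * τ - τ ^ 2 := by nlinarith
        nlinarith [Real.pi_pos]

/-- thresholded region -/
def Good (e : ℂ) (μ : ℕ) (R τ : ℝ) : Set ℂ :=
  {z | z ∈ Sec e μ R ∧ τ < (z * (starRingEnd ℂ) e).re * Real.sin (Real.pi / (2 * μ)) -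
      |(z * (starRingEnd ℂ) e).im| * Real.cos (Real.pi / (2 * μ)) ∧ ‖z‖ ≤ R - τ}

theorem good_lower {μ : ℕ} {e : ℂ} {R : ℝ} (hμ : 1 ≤ μ) (he : ‖e‖ = 1) (hR : 0 < R) {δ₀ τ : ℝ} (hδ : 0 < δ₀) (hτ : 0 < τ)
    {z : ℂ} (hz : z ∈ Good e μ R τ) (hz2 : δ₀ ≤ ‖z‖) : (δ₀ ^ (μ - 1) * R) ^ 2 * τ ^ 4 ≤ phi e μ R z ^ 2 := by
  obtain ⟨h1, h2, h3⟩ := hz
  have h4 := PPo_lower hμ he h1
  have h5 : δ₀ ^ (μ - 1) ≤ ‖z‖ ^ (μ - 1) := pow_le_pow_left₀ hδ.le hz2 _
  have h6 : δ₀ ^ (μ - 1) * τ ≤ PPo e μ z := by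
    refine le_trans ?_ h4
    exact mul_le_mul h5 h2.le hτ.le (by positivity)
  have h7 : R * τ ≤ DDi R z := by
    unfold DDi
    rw [qq_eq, sub_zero]
    have := norm_nonneg z
    nlinarith
  have h8 : δ₀ ^ (μ - 1) * τ * (R * τ) ≤ phi e μ R z :=
    mul_le_mul h6 h7 (by positivity) (le_trans (by positivity) h6)
  calc (δ₀ ^ (μ - 1) * R) ^ 2 * τ ^ 4 = (δ₀ ^ (μ - 1) * τ * (R * τ)) ^ 2 := by ring
    _ ≤ _ := pow_le_pow_left₀ (by positivity) h8 2

/-- points of a sector outside the good region lie in strips or in an annulus -/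
theorem bad_cover {θ : ℝ} {μ : ℕ} {R τ : ℝ} (hμ : 1 ≤ μ) {z : ℂ} (hz : z ∈ Sec (eθ θ) μ R) (hz2 : z ∉ Good (eθ θ) μ R τ) :
    |LL (θ + Real.pi / (2 * μ)) z| ≤ τ ∨ |LL (θ - Real.pi / (2 * μ)) z| ≤ τ ∨ (R - τ < ‖z‖ ∧ ‖z‖ < R) := by
  set α := Real.pi / (2 * μ) with hα
  have e0 : (starRingEnd ℂ) (eθ θ) = Complex.exp ((-θ : ℝ) * Complex.I) := by
    unfold eθ; rw [← Complex.exp_conj]; simp
  have e1 : (z * (starRingEnd ℂ) (eθ θ)).im = z.im * Real.cos θ - z.re * Real.sin θ := by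
    rw [e0, Complex.mul_im, Complex.exp_ofReal_mul_I_re, Complex.exp_ofReal_mul_I_im, Real.cos_neg, Real.sin_neg]; ring
  have e2 : (z * (starRingEnd ℂ) (eθ θ)).re = z.re * Real.cos θ + z.im * Real.sin θ := by
    rw [e0, Complex.mul_re, Complex.exp_ofReal_mul_I_re, Complex.exp_ofReal_mul_I_im, Real.cos_neg, Real.sin_neg]; ring
  by_cases h3 : ‖z‖ ≤ R - τ
  · have h4 : (z * (starRingEnd ℂ) (eθ θ)).re * Real.sin α - |(z * (starRingEnd ℂ) (eθ θ)).im| * Real.cos α ≤ τ := by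
      by_contra hcon
      push Not at hcon
      exact hz2 ⟨hz, hcon, h3⟩
    have h5 := hz.2
    rw [← hα] at h5
    rw [e1, e2] at h4 h5
    unfold LL
    rw [Real.cos_add, Real.sin_add, Real.cos_sub, Real.sin_sub]
    rcases abs_cases (z.im * Real.cos θ - z.re * Real.sin θ) with h | h
    · left
      rw [h.1] at h4 h5
      rw [abs_le]; constructor <;> linarith
    · right; left
      rw [h.1] at h4 h5
      rw [abs_le]; constructor <;> linarith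
  · right; right
    push Not at h3
    exact ⟨h3, hz.1⟩

/-- integrals of the square of the ground state over sets away from the tip -/
theorem mass_lower {ν : ℕ} (hν : 2 ≤ ν) {u : L2} (hu : GS (D0 ν) u) (hu0 : ∀ᵐ z, 0 ≤ (u : ℂ → ℝ) z)
    (hlp : LocPos (D0 ν) u) (hl : 0 < lambda1 (D0 ν)) {δ₀ : ℝ} (hδ0 : 0 < δ₀) :
    ∃ c > 0, ∀ F : Set ℂ, MeasurableSet F → F ⊆ D0 ν → (∀ z ∈ F, δ₀ ≤ ‖z‖) → ∀ σ : ℝ, 0 < σ → σ ≤ 1 →
      ENNReal.ofReal σ ≤ volume F → c * σ ^ 9 ≤ ∫ z in F, (u : ℂ → ℝ) z ^ 2 := by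
  obtain ⟨c1, hc1, h1⟩ := sector_barrier (D0_open ν) hu hu0 hlp hl (μ := ν) (by omega) (norm_eθ 0)
    (R := 1/2) (by norm_num) (by norm_num) (Sec0_sub hν)
  obtain ⟨c2, hc2, h2⟩ := sector_barrier (D0_open ν) hu hu0 hlp hl (μ := 4 * ν) (by omega) (norm_eθ (3 * aa ν / 4))
    (R := 1) (by norm_num) (by norm_num) (SecU_sub hν)
  obtain ⟨c3, hc3, h3⟩ := sector_barrier (D0_open ν) hu hu0 hlp hl (μ := 4 * ν) (by omega) (norm_eθ (-(3 * aa ν / 4)))
    (R := 1) (by norm_num) (by norm_num) (SecL_sub hν)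
  set κ1 := c1 * (δ₀ ^ (ν - 1) * (1/2)) ^ 2 with hκ1
  set κ2 := c2 * (δ₀ ^ (4 * ν - 1) * 1) ^ 2 with hκ2
  set κ3 := c3 * (δ₀ ^ (4 * ν - 1) * 1) ^ 2 with hκ3
  set κ := min κ1 (min κ2 κ3) with hκ
  have hκ0 : 0 < κ := by rw [hκ]; positivity
  -- lower bound on the union of the good sets
  have hgood : ∀ τ : ℝ, 0 < τ → ∀ᵐ z, δ₀ ≤ ‖z‖ →
      (z ∈ Good (eθ 0) ν (1/2) τ ∨ z ∈ Good (eθ (3 * aa ν / 4)) (4 * ν) 1 τ ∨ z ∈ Good (eθ (-(3 * aa ν / 4))) (4 * ν) 1 τ) →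
      κ * τ ^ 4 ≤ (u : ℂ → ℝ) z := by
    intro τ hτ
    filter_upwards [h1, h2, h3] with z a b d hz hG
    rcases hG with hG | hG | hG
    · have := good_lower (by omega : 1 ≤ ν) (norm_eθ 0) (by norm_num) hδ0 hτ hG hz
      calc κ * τ ^ 4 ≤ κ1 * τ ^ 4 := by gcongr; exact min_le_left _ _
        _ = c1 * ((δ₀ ^ (ν - 1) * (1/2)) ^ 2 * τ ^ 4) := by rw [hκ1]; ring
        _ ≤ c1 * phi (eθ 0) ν (1/2) z ^ 2 := mul_le_mul_of_nonneg_left this hc1.le
        _ ≤ _ := a hG.1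
    · have := good_lower (by omega : 1 ≤ 4 * ν) (norm_eθ (3 * aa ν / 4)) (by norm_num) hδ0 hτ hG hz
      calc κ * τ ^ 4 ≤ κ2 * τ ^ 4 := by gcongr; exact (min_le_right _ _).trans (min_le_left _ _)
        _ = c2 * ((δ₀ ^ (4 * ν - 1) * 1) ^ 2 * τ ^ 4) := by rw [hκ2]; ring
        _ ≤ c2 * phi (eθ (3 * aa ν / 4)) (4 * ν) 1 z ^ 2 := mul_le_mul_of_nonneg_left this hc2.le
        _ ≤ _ := b hG.1
    · have := good_lower (by omega : 1 ≤ 4 * ν) (norm_eθ (-(3 * aa ν / 4))) (by norm_num) hδ0 hτ hG hz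
      calc κ * τ ^ 4 ≤ κ3 * τ ^ 4 := by gcongr; exact (min_le_right _ _).trans (min_le_right _ _)
        _ = c3 * ((δ₀ ^ (4 * ν - 1) * 1) ^ 2 * τ ^ 4) := by rw [hκ3]; ring
        _ ≤ c3 * phi (eθ (-(3 * aa ν / 4))) (4 * ν) 1 z ^ 2 := mul_le_mul_of_nonneg_left this hc3.le
        _ ≤ _ := d hG.1
  refine ⟨κ ^ 2 / (2 * 80 ^ 8), by positivity, ?_⟩
  intro F hFm hFD hFδ σ hσ hσ1 hFσ
  set τ := σ / 80 with hτ
  have hτ0 : 0 < τ := by positivity
  -- the bad set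
  set Bd : Set ℂ := {z : ℂ | ‖z‖ ≤ 1 ∧ |LL (aa ν) z| ≤ τ} ∪ {z : ℂ | ‖z‖ ≤ 1 ∧ |LL (-(aa ν)) z| ≤ τ} ∪
    {z : ℂ | ‖z‖ ≤ 1 ∧ |LL (aa ν / 2) z| ≤ τ} ∪ {z : ℂ | ‖z‖ ≤ 1 ∧ |LL (-(aa ν / 2)) z| ≤ τ} ∪
    {z : ℂ | 1/2 - τ < ‖z‖ ∧ ‖z‖ < 1/2} ∪ {z : ℂ | 1 - τ < ‖z‖ ∧ ‖z‖ < 1} with hBd
  have hBdv : volume Bd ≤ ENNReal.ofReal (32 * τ) := by
    rw [hBd]
    have e : 32 * τ = 4 * τ + 4 * τ + 4 * τ + 4 * τ + 8 * τ + 8 * τ := by ring
    rw [e, ENNReal.ofReal_add (by positivity) (by positivity), ENNReal.ofReal_add (by positivity) (by positivity),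
      ENNReal.ofReal_add (by positivity) (by positivity), ENNReal.ofReal_add (by positivity) (by positivity),
      ENNReal.ofReal_add (by positivity) (by positivity)]
    refine (measure_union_le _ _).trans (add_le_add ?_ (vol_annulus 1 τ (by norm_num) (by norm_num) hτ0.le (by linarith)))
    refine (measure_union_le _ _).trans (add_le_add ?_ (vol_annulus (1/2) τ (by norm_num) (by norm_num) hτ0.le (by linarith)))
    refine (measure_union_le _ _).trans (add_le_add ?_ (vol_strip _ τ hτ0.le))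
    refine (measure_union_le _ _).trans (add_le_add ?_ (vol_strip _ τ hτ0.le))
    exact (measure_union_le _ _).trans (add_le_add (vol_strip _ τ hτ0.le) (vol_strip _ τ hτ0.le))
  have hBdm : MeasurableSet Bd := by
    have s1 : ∀ β : ℝ, MeasurableSet {z : ℂ | ‖z‖ ≤ 1 ∧ |LL β z| ≤ τ} := by
      intro β
      have h1 : IsClosed {z : ℂ | ‖z‖ ≤ 1} := isClosed_le (by fun_prop) (by fun_prop)
      have h2 : IsClosed {z : ℂ | |LL β z| ≤ τ} := isClosed_le (by unfold LL; fun_prop) (by fun_prop)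
      exact (h1.inter h2).measurableSet
    have s2 : ∀ R : ℝ, MeasurableSet {z : ℂ | R - τ < ‖z‖ ∧ ‖z‖ < R} := by
      intro R
      have h1 : IsOpen {z : ℂ | R - τ < ‖z‖} := isOpen_lt (by fun_prop) (by fun_prop)
      have h2 : IsOpen {z : ℂ | ‖z‖ < R} := isOpen_lt (by fun_prop) (by fun_prop)
      exact (h1.inter h2).measurableSet
    exact (((((s1 _).union (s1 _)).union (s1 _)).union (s1 _)).union (s2 _)).union (s2 _)
  have hcov : ∀ z ∈ F, z ∉ Bd → (z ∈ Good (eθ 0) ν (1/2) τ ∨ z ∈ Good (eθ (3 * aa ν / 4)) (4 * ν) 1 τ ∨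
      z ∈ Good (eθ (-(3 * aa ν / 4))) (4 * ν) 1 τ) := by
    intro z hzF hzB
    by_contra hcon
    push Not at hcon
    obtain ⟨n1, n2, n3⟩ := hcon
    have hz1 : ‖z‖ ≤ 1 := (hFD hzF).1.le
    apply hzB
    have ha : Real.pi / (2 * (ν:ℝ)) = aa ν := rfl
    have e1 : -(3 * aa ν / 4) + Real.pi / (2 * ((4 * ν : ℕ) : ℝ)) = -(aa ν / 2) := by
      have := angle_up' ν; linarith
    have e2 : -(3 * aa ν / 4) - Real.pi / (2 * ((4 * ν : ℕ) : ℝ)) = -(aa ν) := by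
      have := angle_up ν; linarith
    rcases D0_cover hν (hFD hzF) with h | h | h
    · have := bad_cover (by omega) h n1
      rw [ha, zero_add, zero_sub] at this
      rcases this with h | h | h
      · exact Or.inl (Or.inl (Or.inl (Or.inl (Or.inl ⟨hz1, h⟩))))
      · exact Or.inl (Or.inl (Or.inl (Or.inl (Or.inr ⟨hz1, h⟩))))
      · exact Or.inl (Or.inr h)
    · have := bad_cover (by omega) h n2
      rw [angle_up, angle_up'] at this
      rcases this with h | h | h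
      · exact Or.inl (Or.inl (Or.inl (Or.inl (Or.inl ⟨hz1, h⟩))))
      · exact Or.inl (Or.inl (Or.inl (Or.inr ⟨hz1, h⟩)))
      · exact Or.inr h
    · have := bad_cover (by omega) h n3
      rw [e1, e2] at this
      rcases this with h | h | h
      · exact Or.inl (Or.inl (Or.inr ⟨hz1, h⟩))
      · exact Or.inl (Or.inl (Or.inl (Or.inl (Or.inr ⟨hz1, h⟩))))
      · exact Or.inr h
  have hFfin : volume F ≠ ⊤ := ((measure_mono (hFD.trans (D0_ball ν))).trans_lt (measure_ball_lt_top)).ne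
  have hFB : ENNReal.ofReal (σ / 2) ≤ volume (F \ Bd) := by
    have h4 : volume F ≤ volume (F \ Bd) + volume Bd := by
      refine (measure_mono (fun z hz => ?_)).trans (measure_union_le (F \ Bd) Bd)
      by_cases hzB : z ∈ Bd
      · exact Or.inr hzB
      · exact Or.inl ⟨hz, hzB⟩
    have h5 : ENNReal.ofReal σ ≤ volume (F \ Bd) + ENNReal.ofReal (σ / 2) := by
      refine hFσ.trans (h4.trans (add_le_add le_rfl (hBdv.trans ?_)))
      apply ENNReal.ofReal_le_ofReal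
      rw [hτ]; linarith
    have h6 : ENNReal.ofReal σ = ENNReal.ofReal (σ / 2) + ENNReal.ofReal (σ / 2) := by
      rw [← ENNReal.ofReal_add (by positivity) (by positivity)]; congr 1; ring
    rw [h6] at h5
    exact (ENNReal.add_le_add_iff_right ENNReal.ofReal_ne_top).mp h5
  have hui : Integrable (fun z => (u : ℂ → ℝ) z ^ 2) := (Lp.memLp u).integrable_sq
  have hFBm : MeasurableSet (F \ Bd) := hFm.diff hBdm
  have hFBfin : volume (F \ Bd) ≠ ⊤ := ((measure_mono diff_subset).trans_lt hFfin.lt_top).ne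
  calc κ ^ 2 / (2 * 80 ^ 8) * σ ^ 9 = (σ / 2) * (κ * τ ^ 4) ^ 2 := by rw [hτ]; ring
    _ ≤ (volume (F \ Bd)).toReal * (κ * τ ^ 4) ^ 2 := by
        apply mul_le_mul_of_nonneg_right _ (by positivity)
        rw [← ENNReal.toReal_ofReal (show 0 ≤ σ / 2 by positivity)]
        exact ENNReal.toReal_mono hFBfin hFB
    _ = ∫ z in F \ Bd, (κ * τ ^ 4) ^ 2 := by
        rw [setIntegral_const, smul_eq_mul, measureReal_def]
    _ ≤ ∫ z in F \ Bd, (u : ℂ → ℝ) z ^ 2 := by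
        apply setIntegral_mono_on_ae (integrableOn_const hFBfin) hui.integrableOn hFBm
        filter_upwards [hgood τ hτ0] with z hz hzF
        exact pow_le_pow_left₀ (by positivity) (hz (hFδ z hzF.1) (hcov z hzF.1 hzF.2)) 2
    _ ≤ ∫ z in F, (u : ℂ → ℝ) z ^ 2 := by
        apply setIntegral_mono_set hui.integrableOn (Eventually.of_forall fun z => sq_nonneg _)
        exact (diff_subset).eventuallyLE

end Pool.Agent.Helper533.StarBox
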