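import Pool.Agent.Helper533.StarBox.PlaneDefs
import Pool.Agent.Helper533.StarBox.Combine

open MeasureTheory Metric Set
open scoped ENNReal

namespace Pool.Agent.Helper533.StarBox.PlaneDefs

/-- identification of the complex plane with the Euclidean plane -/
noncomputable def E : ℂ ≃ₗᵢ[ℝ] Plane := Complex.orthonormalBasisOneI.repr

theorem norm_gradient (u : ℂ → ℝ) (z : ℂ) : ‖gradient u z‖ = ‖fderiv ℝ u z‖ := by
  unfold gradient
  rw [LinearIsometryEquiv.norm_map]

theorem norm_gradient' (u : Plane → ℝ) (x : Plane) : ‖gradient u x‖ = ‖fderiv ℝ u x‖ := by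
  unfold gradient
  rw [LinearIsometryEquiv.norm_map]

theorem rayleigh_comp (u : Plane → ℝ) : rayleigh (fun z => u (E z)) = rayleighQuotient u := by
  have hmp : MeasurePreserving E volume volume := E.measurePreserving
  have hme : MeasurableEmbedding E := E.toHomeomorph.measurableEmbedding
  have h2 : ∫ z, (u (E z)) ^ 2 = ∫ x, (u x) ^ 2 := hmp.integral_comp hme (fun x => u x ^ 2)
  have h1 : ∫ z, ‖gradient (fun z => u (E z)) z‖ ^ 2 = ∫ x, ‖gradient u x‖ ^ 2 := by
    have e : ∀ z, ‖gradient (fun z => u (E z)) z‖ = ‖gradient u (E z)‖ := by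
      intro z
      rw [norm_gradient, norm_gradient']
      have h1 : fderiv ℝ (fun z => u (E z)) z = (fderiv ℝ u (E z)).comp (E : ℂ →L[ℝ] Plane) := by
        have := E.toContinuousLinearEquiv.comp_right_fderiv (f := u) (x := z)
        exact this
      rw [h1]
      exact ContinuousLinearMap.opNorm_comp_linearIsometryEquiv _ E
    simp_rw [e]
    exact hmp.integral_comp hme (fun x => ‖gradient u x‖ ^ 2)
  unfold rayleigh rayleighQuotient
  rw [h1, h2]

theorem test_comp {U : Set Plane} {u : Plane → ℝ} (h : IsTestFunction U u) :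
    IsTest (E ⁻¹' U) (fun z => u (E z)) := by
  obtain ⟨h1, h2, h3, x, hx⟩ := h
  refine ⟨h1.comp E.contDiff, h2.comp_homeomorph E.toHomeomorph, ?_, E.symm x, by simpa using hx⟩
  have := tsupport_comp_eq_preimage u E.toHomeomorph
  have h4 : tsupport (fun z => u (E z)) = E ⁻¹' tsupport u := this
  rw [h4]
  exact preimage_mono h3

theorem test_comp_symm {U : Set Plane} {v : ℂ → ℝ} (h : IsTest (E ⁻¹' U) v) :
    IsTestFunction U (fun x => v (E.symm x)) := by
  obtain ⟨h1, h2, h3, x, hx⟩ := h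
  refine ⟨h1.comp E.symm.contDiff, h2.comp_homeomorph E.symm.toHomeomorph, ?_, E x, by simpa using hx⟩
  have := tsupport_comp_eq_preimage v E.symm.toHomeomorph
  have h4 : tsupport (fun z => v (E.symm z)) = E.symm ⁻¹' tsupport v := this
  rw [h4]
  intro y hy
  have := h3 hy
  simpa using this

theorem eig_eq {U : Set Plane} (hU : IsOpen U) (hne : U.Nonempty) :
    firstEigenvalue U = ENNReal.ofReal (lambda1 (E ⁻¹' U)) := by
  apply le_antisymm
  · apply ENNReal.le_of_forall_pos_le_add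
    intro ε hε _
    have hopen : IsOpen (E ⁻¹' U) := hU.preimage E.continuous
    have hne' : (E ⁻¹' U).Nonempty := by
      obtain ⟨x, hx⟩ := hne
      exact ⟨E.symm x, by simpa using hx⟩
    obtain ⟨u₀, hu₀⟩ := exists_test hopen hne'
    have hSne : {q : ℝ | ∃ u : ℂ → ℝ, IsTest (E ⁻¹' U) u ∧ q = rayleigh u}.Nonempty := ⟨_, u₀, hu₀, rfl⟩
    obtain ⟨q, ⟨v, hv, rfl⟩, hq⟩ := exists_lt_of_csInf_lt hSne
      (show sInf {q : ℝ | ∃ u : ℂ → ℝ, IsTest (E ⁻¹' U) u ∧ q = rayleigh u} < lambda1 (E ⁻¹' U) + ε by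
        unfold lambda1
        have : (0:ℝ) < ε := by exact_mod_cast hε
        linarith)
    have hr : rayleighQuotient (fun x => v (E.symm x)) = rayleigh v := by
      rw [← rayleigh_comp]
      simp
    calc firstEigenvalue U ≤ ENNReal.ofReal (rayleighQuotient (fun x => v (E.symm x))) :=
          iInf₂_le _ (test_comp_symm hv)
      _ ≤ ENNReal.ofReal (lambda1 (E ⁻¹' U) + ε) := by
          rw [hr]; exact ENNReal.ofReal_le_ofReal hq.le
      _ ≤ ENNReal.ofReal (lambda1 (E ⁻¹' U)) + ENNReal.ofReal ε := ENNReal.ofReal_add_le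
      _ = _ := by rw [ENNReal.ofReal_coe_nnreal]
  · apply le_iInf₂
    intro u hu
    apply ENNReal.ofReal_le_ofReal
    rw [← rayleigh_comp]
    exact lambda1_le (test_comp hu)

theorem vol_preimage {U : Set Plane} (hU : IsOpen U) : volume (E ⁻¹' U) = volume U :=
  E.measurePreserving.measure_preimage hU.measurableSet.nullMeasurableSet

theorem vol_preimage_symm {U : Set ℂ} (hU : MeasurableSet U) : volume (E.symm ⁻¹' U) = volume U :=
  E.symm.measurePreserving.measure_preimage hU.nullMeasurableSet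

theorem pre_symm (A : Set ℂ) : E ⁻¹' (E.symm ⁻¹' A) = A := by
  ext z
  show E.symm (E z) ∈ A ↔ z ∈ A
  rw [E.symm_apply_apply]

theorem star_pre {S : Set Plane} {x : Plane} (h : StarConvex ℝ x S) : StarConvex ℝ (E.symm x) (E ⁻¹' S) := by
  intro z hz a b ha hb hab
  show E (a • E.symm x + b • z) ∈ S
  rw [map_add, map_smul, map_smul, E.apply_symm_apply]
  exact h hz ha hb hab

theorem star_pre_symm {S : Set ℂ} {x : ℂ} (h : StarConvex ℝ x S) : StarConvex ℝ (E x) (E.symm ⁻¹' S) := by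
  intro z hz a b ha hb hab
  show E.symm (a • E x + b • z) ∈ S
  rw [map_add, map_smul, map_smul, E.symm_apply_apply]
  exact h hz ha hb hab

theorem adm_nonempty {D : Set Plane} {A : ℝ} (hA : 0 < A) {Ω : Set Plane} (h : IsAdmissible D A Ω) : Ω.Nonempty := by
  by_contra hcon
  rw [not_nonempty_iff_eq_empty] at hcon
  have h1 := h.2.2
  rw [hcon, measure_empty] at h1
  have := (ENNReal.ofReal_eq_zero.mp h1.symm)
  linarith

/-- minimisers in the plane and in the complex plane correspond to each other -/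
theorem min_iff {D : Set Plane} {A : ℝ} (hA : 0 < A) (Ω : Set Plane) :
    IsMinimizer D A Ω ↔ IsMin (E ⁻¹' D) A (E ⁻¹' Ω) := by
  have key : ∀ U : Set Plane, IsAdmissible D A U ↔ (IsOpen (E ⁻¹' U) ∧ E ⁻¹' U ⊆ E ⁻¹' D ∧ volume (E ⁻¹' U) = ENNReal.ofReal A) := by
    intro U
    have e1 : IsOpen U ↔ IsOpen (E ⁻¹' U) := (E.toHomeomorph.isOpen_preimage (s := U)).symm
    have e2 : U ⊆ D ↔ E ⁻¹' U ⊆ E ⁻¹' D := by
      constructor
      · intro h; exact preimage_mono h
      · intro h x hx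
        have := h (show E.symm x ∈ E ⁻¹' U by simpa using hx)
        simpa using this
    unfold IsAdmissible
    rw [← e1, ← e2]
    constructor
    · rintro ⟨h1, h2, h3⟩; exact ⟨h1, h2, by rw [vol_preimage h1]; exact h3⟩
    · rintro ⟨h1, h2, h3⟩; exact ⟨h1, h2, by rw [← vol_preimage h1]; exact h3⟩
  unfold IsMinimizer IsMin
  constructor
  · rintro ⟨h1, h2⟩
    obtain ⟨a1, a2, a3⟩ := (key Ω).mp h1
    refine ⟨a1, a2, a3, ?_⟩
    intro Ω' b1 b2 b3
    have hadm : IsAdmissible D A (E.symm ⁻¹' Ω') := by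
      rw [key, pre_symm]; exact ⟨b1, b2, b3⟩
    have h3 := h2 _ hadm
    rw [eig_eq h1.1 (adm_nonempty hA h1), eig_eq hadm.1 (adm_nonempty hA hadm), pre_symm] at h3
    exact (ENNReal.ofReal_le_ofReal_iff (lambda1_nonneg _)).mp h3
  · rintro ⟨a1, a2, a3, a4⟩
    have h1 : IsAdmissible D A Ω := (key Ω).mpr ⟨a1, a2, a3⟩
    refine ⟨h1, ?_⟩
    intro Ω' hadm
    obtain ⟨b1, b2, b3⟩ := (key Ω').mp hadm
    rw [eig_eq h1.1 (adm_nonempty hA h1), eig_eq hadm.1 (adm_nonempty hA hadm)]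
    exact ENNReal.ofReal_le_ofReal (a4 _ b1 b2 b3)

/-- transfer to the Euclidean plane -/
theorem plane_partial : ∃ (D : Set Plane) (A : ℝ), IsOpen D ∧ Bornology.IsBounded D ∧ (∃ x₀ ∈ D, StarConvex ℝ x₀ D) ∧
    0 < A ∧ ENNReal.ofReal A < volume D ∧
    ∀ Ω, IsMinimizer D A Ω → ∀ S : Set Plane, IsOpen S → (∃ x₁, StarConvex ℝ x₁ S) → volume (symmDiff Ω S) ≠ 0 := by
  obtain ⟨ν, ε, A, hν, hε, hε4, hA, hAD, hmain⟩ := comparison
  set D' : Set Plane := E.symm ⁻¹' (DE ν ε) with hD'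
  refine ⟨D', A, (DE_open ν ε).preimage E.symm.continuous, ?_, ⟨E 0, ?_, star_pre_symm (DE_star ν hε)⟩, hA, ?_, ?_⟩
  · have h1 : Bornology.IsBounded (DE ν ε) := isBounded_ball.subset (DE_ball ν (by linarith))
    have h2 : D' = E '' (DE ν ε) := by
      ext x
      constructor
      · intro hx; exact ⟨E.symm x, hx, E.apply_symm_apply x⟩
      · rintro ⟨z, hz, rfl⟩
        show E.symm (E z) ∈ DE ν ε
        rwa [E.symm_apply_apply]
    rw [h2]
    exact E.lipschitz.isBounded_image h1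
  · show E.symm (E 0) ∈ DE ν ε
    rw [E.symm_apply_apply]
    exact Or.inr (mem_ball_self hε)
  · rw [hD', vol_preimage_symm (DE_open ν ε).measurableSet]; exact hAD
  · intro Ω hΩ S hS ⟨x₁, hstar⟩ hae
    have h1 := (min_iff hA Ω).mp hΩ
    rw [hD', pre_symm] at h1
    have hSopen : IsOpen (E ⁻¹' S) := hS.preimage E.continuous
    have hsd : volume (symmDiff (E ⁻¹' Ω) (E ⁻¹' S)) = 0 := by
      have e : symmDiff (E ⁻¹' Ω) (E ⁻¹' S) = E ⁻¹' (symmDiff Ω S) := by
        rw [preimage_symmDiff]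
      rw [e, E.measurePreserving.measure_preimage]
      · exact hae
      · exact ((hΩ.1.1.measurableSet.symmDiff hS.measurableSet)).nullMeasurableSet
    rcases (E ⁻¹' S).eq_empty_or_nonempty with hemp | hne
    · rw [hemp] at hsd
      have h2 : symmDiff (E ⁻¹' Ω) (∅ : Set ℂ) = E ⁻¹' Ω := by simp
      rw [h2, h1.2.2.1] at hsd
      have := ENNReal.ofReal_eq_zero.mp hsd
      linarith
    · exact hmain _ h1 _ hSopen (E.symm x₁) ((star_pre hstar).mem hne) (star_pre hstar) hsd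

end Pool.Agent.Helper533.StarBox.PlaneDefs
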