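import Mathlib

open MeasureTheory Metric Set
open scoped ENNReal

namespace Pool.Agent.Helper533.StarBox.PlaneDefs

/-- The Euclidean plane. -/
abbrev Plane : Type := EuclideanSpace ℝ (Fin 2)

/-- `u` is a smooth function with compact support contained in `U`, not identically zero. -/
def IsTestFunction (U : Set Plane) (u : Plane → ℝ) : Prop :=
  ContDiff ℝ (⊤ : ℕ∞) u ∧ HasCompactSupport u ∧ tsupport u ⊆ U ∧ ∃ x, u x ≠ 0

/-- Rayleigh quotient. -/
noncomputable def rayleighQuotient (u : Plane → ℝ) : ℝ :=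
  (∫ x, ‖gradient u x‖ ^ 2) / (∫ x, (u x) ^ 2)

/-- First eigenvalue of the Dirichlet Laplacian on `U` (infinite if `U` is empty). -/
noncomputable def firstEigenvalue (U : Set Plane) : ℝ≥0∞ :=
  ⨅ (u : Plane → ℝ) (_ : IsTestFunction U u), ENNReal.ofReal (rayleighQuotient u)

/-- `Ω` is admissible for the box `D` and the area `A`. -/
def IsAdmissible (D : Set Plane) (A : ℝ) (Ω : Set Plane) : Prop :=
  IsOpen Ω ∧ Ω ⊆ D ∧ volume Ω = ENNReal.ofReal A

/-- `Ω` minimises the first eigenvalue among the open subsets of the box `D` of area `A`. -/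
def IsMinimizer (D : Set Plane) (A : ℝ) (Ω : Set Plane) : Prop :=
  IsAdmissible D A Ω ∧ ∀ Ω', IsAdmissible D A Ω' → firstEigenvalue Ω ≤ firstEigenvalue Ω'

end Pool.Agent.Helper533.StarBox.PlaneDefs
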