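import Pool.Agent.Helper533.StarBox.Plane
import Pool.Agent.Helper533.StarBox.BoxDE

open MeasureTheory Metric Set
open scoped ENNReal

namespace Pool.Agent.Helper533.StarBox.PlaneDefs

open Pool.Agent.Helper533.StarBox

/-- the full disproof, in the Euclidean plane -/
theorem plane_full : ∃ (D : Set Plane) (A : ℝ), IsOpen D ∧ Bornology.IsBounded D ∧ (∃ x₀ ∈ D, StarConvex ℝ x₀ D) ∧
    0 < A ∧ ENNReal.ofReal A < volume D ∧ (∃ Ω, IsMinimizer D A Ω) ∧
    ∀ Ω, IsMinimizer D A Ω → ∀ S : Set Plane, IsOpen S → (∃ x₁, StarConvex ℝ x₁ S) → volume (symmDiff Ω S) ≠ 0 := by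
  obtain ⟨ν, ε, A, hν, hε, hε4, hA, hAD, ⟨Ω₀, hΩ₀⟩, hmain⟩ := counterexample
  set D' : Set Plane := E.symm ⁻¹' (DE ν ε) with hD'
  refine ⟨D', A, (DE_open ν ε).preimage E.symm.continuous, ?_, ⟨E 0, ?_, star_pre_symm (DE_star ν hε)⟩, hA, ?_,
    ⟨E.symm ⁻¹' Ω₀, ?_⟩, ?_⟩
  · have h1 : Bornology.IsBounded (DE ν ε) := isBounded_ball.subset (DE_ball ν (by linarith))
    have h2 : D' = E '' (DE ν ε) := by
      ext x
      constructor
      · intro hx; exact ⟨E.symm x, hx, E.apply_symm_apply x⟩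
      · rintro ⟨z, hz, rfl⟩
        show E.symm (E z) ∈ DE ν ε
        rwa [E.symm_apply_apply]
    rw [h2]
    exact E.lipschitz.isBounded_image h1
  · show E.symm (E 0) ∈ DE ν ε
    rw [E.symm_apply_apply]
    exact Or.inr (mem_ball_self hε)
  · rw [hD', vol_preimage_symm (DE_open ν ε).measurableSet]; exact hAD
  · rw [min_iff hA, hD', pre_symm, pre_symm]; exact hΩ₀
  · intro Ω hΩ S hS ⟨x₁, hstar⟩ hae
    have h1 := (min_iff hA Ω).mp hΩ
    rw [hD', pre_symm] at h1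
    have hSopen : IsOpen (E ⁻¹' S) := hS.preimage E.continuous
    have hsd : volume (symmDiff (E ⁻¹' Ω) (E ⁻¹' S)) = 0 := by
      have e : symmDiff (E ⁻¹' Ω) (E ⁻¹' S) = E ⁻¹' (symmDiff Ω S) := by
        rw [preimage_symmDiff]
      rw [e, E.measurePreserving.measure_preimage]
      · exact hae
      · exact ((hΩ.1.1.measurableSet.symmDiff hS.measurableSet)).nullMeasurableSet
    rcases (E ⁻¹' S).eq_empty_or_nonempty with hemp | hne
    · rw [hemp] at hsd
      have h2 : symmDiff (E ⁻¹' Ω) (∅ : Set ℂ) = E ⁻¹' Ω := by simp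
      rw [h2, h1.2.2.1] at hsd
      have := ENNReal.ofReal_eq_zero.mp hsd
      linarith
    · exact hmain _ h1 _ hSopen (E.symm x₁) ((star_pre hstar).mem hne) (star_pre hstar) hsd

end Pool.Agent.Helper533.StarBox.PlaneDefs
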