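import Pool.Agent.Helper533.StarBox.Super

open MeasureTheory Metric Set Filter
open scoped Topology

namespace Pool.Agent.Helper533.StarBox

noncomputable def PA (F : L2) (R : ℝ) (z : ℂ) : ℝ := ∫ y, (F : ℂ → ℝ) y * ww R (y - z)

theorem PA_cont (F : L2) {R : ℝ} (hR : 0 < R) : Continuous (PA F R) := by
  have hloc : LocallyIntegrable (F : ℂ → ℝ) (volume : Measure ℂ) := (Lp.memLp F).locallyIntegrable (by norm_num)
  have hc : HasCompactSupport (ww R) := by
    have := ww_comp hR 0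
    simpa using this
  have := HasCompactSupport.continuous_convolution_right (ContinuousLinearMap.mul ℝ ℝ) hc hloc (ww_cont R)
  have e : PA F R = convolution (F : ℂ → ℝ) (ww R) (ContinuousLinearMap.mul ℝ ℝ) volume := by
    ext z
    unfold PA convolution
    congr 1; ext y
    have : ww R (y - z) = ww R (z - y) := by unfold ww; rw [norm_sub_rev]
    rw [this]; rfl
  rw [e]; exact this

/-- locally bounded below by positive constants -/
def LocPos (U : Set ℂ) (F : L2) : Prop :=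
  ∀ z ∈ U, ∃ r > 0, ∃ c > 0, ∀ᵐ w, w ∈ ball z r → c ≤ (F : ℂ → ℝ) w

theorem ball_not_null (z : ℂ) {r : ℝ} (hr : 0 < r) {p : ℂ → Prop} (h : ∀ᵐ w, w ∈ ball z r → p w) : ∃ w ∈ ball z r, p w := by
  by_contra hcon
  push Not at hcon
  have h1 : (volume : Measure ℂ) (ball z r) = 0 := by
    have h2 : ∀ᵐ w, w ∉ ball z r := by
      filter_upwards [h] with w hw hmem
      exact hcon w hmem (hw hmem)
    exact measure_eq_zero_iff_ae_notMem.mpr h2
  exact absurd h1 (measure_ball_pos volume z hr).ne'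

theorem pos_or_zero {U : Set ℂ} (hU : IsOpen U) (hpc : IsPreconnected U) {F : L2} (hF : GS U F)
    (hF0 : ∀ᵐ z, 0 ≤ (F : ℂ → ℝ) z) : (∀ᵐ z, z ∈ U → (F : ℂ → ℝ) z = 0) ∨ LocPos U F := by
  set A : Set ℂ := {z | z ∈ U ∧ ∃ r > 0, ∃ c > 0, ∀ᵐ w, w ∈ ball z r → c ≤ (F : ℂ → ℝ) w} with hA
  set B : Set ℂ := {z | z ∈ U ∧ ∃ r > 0, ∀ᵐ w, w ∈ ball z r → (F : ℂ → ℝ) w = 0} with hB
  have hsub : ∀ {z z' : ℂ} {r : ℝ}, z' ∈ ball z (r / 2) → ball z' (r / 2) ⊆ ball z r := by
    intro z z' r hz' w hw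
    rw [mem_ball] at *
    calc dist w z ≤ dist w z' + dist z' z := dist_triangle _ _ _
      _ < r := by linarith
  have hAo : IsOpen A := by
    rw [Metric.isOpen_iff]
    rintro z ⟨hzU, r, hr, c, hc, h⟩
    obtain ⟨r', hr', hb⟩ := Metric.isOpen_iff.mp hU z hzU
    refine ⟨min r' (r / 2), by positivity, ?_⟩
    intro z' hz'
    have hz1 : z' ∈ ball z r' := ball_subset_ball (min_le_left _ _) hz'
    have hz2 : z' ∈ ball z (r / 2) := ball_subset_ball (min_le_right _ _) hz'
    refine ⟨hb hz1, r / 2, by positivity, c, hc, ?_⟩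
    filter_upwards [h] with w hw hw'
    exact hw (hsub hz2 hw')
  have hBo : IsOpen B := by
    rw [Metric.isOpen_iff]
    rintro z ⟨hzU, r, hr, h⟩
    obtain ⟨r', hr', hb⟩ := Metric.isOpen_iff.mp hU z hzU
    refine ⟨min r' (r / 2), by positivity, ?_⟩
    intro z' hz'
    have hz1 : z' ∈ ball z r' := ball_subset_ball (min_le_left _ _) hz'
    have hz2 : z' ∈ ball z (r / 2) := ball_subset_ball (min_le_right _ _) hz'
    refine ⟨hb hz1, r / 2, by positivity, ?_⟩
    filter_upwards [h] with w hw hw'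
    exact hw (hsub hz2 hw')
  have hdisj : Disjoint A B := by
    rw [Set.disjoint_left]
    rintro z ⟨_, r, hr, c, hc, h1⟩ ⟨_, r', hr', h2⟩
    have h3 : ∀ᵐ w, w ∈ ball z (min r r') → False := by
      filter_upwards [h1, h2] with w hw1 hw2 hw
      have e1 := hw1 (ball_subset_ball (min_le_left _ _) hw)
      have e2 := hw2 (ball_subset_ball (min_le_right _ _) hw)
      linarith
    obtain ⟨_, _, hf⟩ := ball_not_null z (lt_min hr hr') h3
    exact hf
  have hcov : U ⊆ A ∪ B := by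
    intro z hzU
    obtain ⟨ρ', hρ', hb'⟩ := Metric.isOpen_iff.mp hU z hzU
    set ρ := ρ' / 8 with hρ
    have hρ0 : 0 < ρ := by positivity
    have hb : closedBall z (4 * ρ) ⊆ U := (closedBall_subset_ball (by rw [hρ]; linarith)).trans hb'
    by_cases hex : ∃ R, 0 < R ∧ R ≤ 2 * ρ ∧ PA F R z ≠ 0
    · left
      obtain ⟨R, hR0, hR1, hR2⟩ := hex
      have hnn : 0 ≤ PA F R z := by
        apply integral_nonneg_of_ae
        filter_upwards [hF0] with y hy
        exact mul_nonneg hy (ww_nonneg _ _)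
      have hpos : 0 < PA F R z := lt_of_le_of_ne hnn (Ne.symm hR2)
      have hcont := (PA_cont F hR0).continuousAt (x := z)
      have h1 : ∀ᶠ z' in 𝓝 z, PA F R z / 2 < PA F R z' := hcont.eventually (lt_mem_nhds (by linarith))
      obtain ⟨r, hr, hr1⟩ := Metric.eventually_nhds_iff_ball.mp h1
      refine ⟨hzU, min r ρ, by positivity, PA F R z / 2 / Real.pi, by positivity, ?_⟩
      filter_upwards [superavg hF hF0] with w hw hw'
      have hw1 : w ∈ ball z r := ball_subset_ball (min_le_left _ _) hw'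
      have hw2 : w ∈ ball z ρ := ball_subset_ball (min_le_right _ _) hw'
      have h2 := hw R hR0 (by
        refine Subset.trans ?_ hb
        intro y hy
        rw [mem_closedBall] at *
        rw [mem_ball] at hw2
        calc dist y z ≤ dist y w + dist w z := dist_triangle _ _ _
          _ ≤ 4 * ρ := by linarith)
      have h3 := hr1 w hw1
      unfold PA at h3
      rw [div_le_iff₀ Real.pi_pos]
      unfold PA
      linarith
    · right
      push Not at hex
      refine ⟨hzU, ρ, hρ0, ?_⟩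
      set Rk : ℕ → ℝ := fun k => 1.2 * ρ * (2 / 3) ^ k with hRk
      have hRk0 : ∀ k, 0 < Rk k := fun k => by simp only [hRk]; positivity
      have hRk1 : ∀ k, Rk k ≤ 2 * ρ := fun k => by
        simp only [hRk]
        have : ((2:ℝ) / 3) ^ k ≤ 1 := pow_le_one₀ (by norm_num) (by norm_num)
        nlinarith
      have h1 : ∀ k, ∀ᵐ y, (F : ℂ → ℝ) y * ww (Rk k) (y - z) = 0 := by
        intro k
        have h2 := hex (Rk k) (hRk0 k) (hRk1 k)
        unfold PA at h2
        have h3 : 0 ≤ᵐ[volume] fun y => (F : ℂ → ℝ) y * ww (Rk k) (y - z) := by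
          filter_upwards [hF0] with y hy
          exact mul_nonneg hy (ww_nonneg _ _)
        exact (integral_eq_zero_iff_of_nonneg_ae h3 (ww_int (hRk0 k) z F)).mp h2
      have h2 := ae_all_iff.mpr h1
      have h3 : ∀ᵐ y : ℂ, y ≠ z := by
        have : (volume : Measure ℂ) {z} = 0 := measure_singleton z
        exact measure_eq_zero_iff_ae_notMem.mp this |>.mono fun y hy => by simpa using hy
      filter_upwards [h2, h3] with y hy hyz hyb
      rw [mem_ball, dist_eq_norm] at hyb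
      have hn0 : 0 < ‖y - z‖ := norm_pos_iff.mpr (sub_ne_zero.mpr hyz)
      obtain ⟨k, hk1, hk2⟩ := exists_nat_pow_near_of_lt_one (x := ‖y - z‖ / ρ) (y := (2/3 : ℝ)) (by positivity)
        (by rw [div_le_one hρ0]; exact hyb.le) (by norm_num) (by norm_num)
      have hk := hy k
      rcases mul_eq_zero.mp hk with h | h
      · exact h
      · exfalso
        rw [div_le_iff₀ hρ0] at hk2
        rw [lt_div_iff₀ hρ0, pow_succ] at hk1
        have ht : 0 < ((2:ℝ) / 3) ^ k := by positivity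
        have h5 : 0 < ρ * (2 / 3) ^ k := by positivity
        have : 0 < ww (Rk k) (y - z) := by
          apply ww_pos (hRk0 k)
          · simp only [hRk]; nlinarith
          · simp only [hRk]; nlinarith
        linarith
  rcases hpc.subset_or_subset hAo hBo hdisj hcov with h | h
  · right
    intro z hz
    exact (h hz).2
  · left
    have : (volume : Measure ℂ) {z | z ∈ U ∧ (F : ℂ → ℝ) z ≠ 0} = 0 := by
      apply measure_null_of_locally_null
      rintro z ⟨hz, _⟩
      obtain ⟨_, r, hr, h1⟩ := h hz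
      refine ⟨{w | w ∈ ball z r ∧ (F : ℂ → ℝ) w ≠ 0} ∩ {z | z ∈ U ∧ (F : ℂ → ℝ) z ≠ 0}, ?_, ?_⟩
      · rw [mem_nhdsWithin]
        refine ⟨ball z r, isOpen_ball, mem_ball_self hr, ?_⟩
        rintro w ⟨hw1, hw2⟩
        exact ⟨⟨hw1, hw2.2⟩, hw2⟩
      · apply measure_mono_null inter_subset_left
        rw [ae_iff] at h1
        convert h1 using 2
        ext w
        simp
    rw [ae_iff]
    convert this using 2
    ext w; simp

theorem GS.sign {U : Set ℂ} (hU : IsOpen U) (hne : U.Nonempty) (hpc : IsPreconnected U) {F : L2} (hF : GS U F) :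
    (∀ᵐ z, 0 ≤ (F : ℂ → ℝ) z) ∨ (∀ᵐ z, (F : ℂ → ℝ) z ≤ 0) := by
  set G := cls (fun z => |(F : ℂ → ℝ) z|) with hG
  have hGc : (G : ℂ → ℝ) =ᵐ[volume] fun z => |(F : ℂ → ℝ) z| := cls_coe (memLp_abs (Lp.memLp F))
  have h1 := hF.abs.add hF
  have h2 := hF.abs.sub hF
  rw [← hG] at h1 h2
  have e1 := Lp.coeFn_add G F
  have e2 := Lp.coeFn_sub G F
  have p1 : ∀ᵐ z, 0 ≤ (G + F : L2) z := by
    filter_upwards [hGc, e1] with z a b
    rw [b, Pi.add_apply, a]
    have := neg_abs_le ((F : ℂ → ℝ) z); linarith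
  have p2 : ∀ᵐ z, 0 ≤ (G - F : L2) z := by
    filter_upwards [hGc, e2] with z a b
    rw [b, Pi.sub_apply, a]
    have := le_abs_self ((F : ℂ → ℝ) z); linarith
  have hout := hF.zero_outside hU.measurableSet
  rcases pos_or_zero hU hpc h1 p1 with h3 | h3
  · right
    filter_upwards [h3, hout, e1, hGc] with z a b c d
    by_cases hz : z ∈ U
    · have := a hz
      rw [c, Pi.add_apply, d] at this
      have := abs_nonneg ((F : ℂ → ℝ) z); linarith
    · rw [b hz]
  rcases pos_or_zero hU hpc h2 p2 with h4 | h4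
  · left
    filter_upwards [h4, hout, e2, hGc] with z a b c d
    by_cases hz : z ∈ U
    · have := a hz
      rw [c, Pi.sub_apply, d] at this
      have := abs_nonneg ((F : ℂ → ℝ) z); linarith
    · rw [b hz]
  exfalso
  obtain ⟨z, hz⟩ := hne
  obtain ⟨r, hr, c, hc, h5⟩ := h3 z hz
  obtain ⟨r', hr', c', hc', h6⟩ := h4 z hz
  have h7 : ∀ᵐ w, w ∈ ball z (min r r') → False := by
    filter_upwards [h5, h6, e1, e2, hGc] with w a b c d e hw
    have a' := a (ball_subset_ball (min_le_left _ _) hw)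
    have b' := b (ball_subset_ball (min_le_right _ _) hw)
    rw [c, Pi.add_apply, e] at a'
    rw [d, Pi.sub_apply, e] at b'
    rcases abs_cases ((F : ℂ → ℝ) w) with h | h
    · rw [h.1] at b'; linarith
    · rw [h.1] at a'; linarith
  obtain ⟨_, _, hf⟩ := ball_not_null z (lt_min hr hr') h7
  exact hf

theorem inner_eq (F G : L2) : inner ℝ F G = ∫ z, (F : ℂ → ℝ) z * (G : ℂ → ℝ) z := by
  conv_lhs => rw [← cls_self F, ← cls_self G]
  exact inner_cls (Lp.memLp F) (Lp.memLp G)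

theorem inner_int (F G : L2) : Integrable (fun z => (F : ℂ → ℝ) z * (G : ℂ → ℝ) z) :=
  (Lp.memLp F).integrable_mul (Lp.memLp G)

/-- a nonnegative, non zero ground state is locally bounded below -/
theorem GS.locPos {U : Set ℂ} (hU : IsOpen U) (hpc : IsPreconnected U) {F : L2} (hF : GS U F)
    (hF0 : ∀ᵐ z, 0 ≤ (F : ℂ → ℝ) z) (hne : F ≠ 0) : LocPos U F := by
  rcases pos_or_zero hU hpc hF hF0 with h | h
  · exfalso
    apply hne
    apply Lp.ext
    filter_upwards [h, hF.zero_outside hU.measurableSet, Lp.coeFn_zero ℝ 2 (volume : Measure ℂ)] with z a b c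
    rw [c]
    by_cases hz : z ∈ U
    · exact a hz
    · exact b hz
  · exact h

/-- uniqueness of the ground state -/
theorem GS.unique {U : Set ℂ} (hU : IsOpen U) (hne : U.Nonempty) (hpc : IsPreconnected U) {u F : L2}
    (hu : GS U u) (hu0 : ∀ᵐ z, 0 ≤ (u : ℂ → ℝ) z) (hu1 : ‖u‖ = 1) (hF : GS U F) : F = (inner ℝ F u) • u := by
  have hune : u ≠ 0 := by
    intro h; rw [h, norm_zero] at hu1; norm_num at hu1
  have key : ∀ G : L2, GS U G → (∀ᵐ z, 0 ≤ (G : ℂ → ℝ) z) → inner ℝ G u = 0 → G = 0 := by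
    intro G hG hG0 hGu
    by_contra hGne
    have h1 := hG.locPos hU hpc hG0 hGne
    have h2 := hu.locPos hU hpc hu0 hune
    obtain ⟨z, hz⟩ := hne
    obtain ⟨r, hr, c, hc, h5⟩ := h1 z hz
    obtain ⟨r', hr', c', hc', h6⟩ := h2 z hz
    rw [inner_eq] at hGu
    have h7 : 0 ≤ᵐ[volume] fun z => (G : ℂ → ℝ) z * (u : ℂ → ℝ) z := by
      filter_upwards [hG0, hu0] with w a b
      exact mul_nonneg a b
    have h8 := (integral_eq_zero_iff_of_nonneg_ae h7 (inner_int G u)).mp hGu
    have h9 : ∀ᵐ w, w ∈ ball z (min r r') → False := by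
      filter_upwards [h5, h6, h8] with w a b e hw
      have a' := a (ball_subset_ball (min_le_left _ _) hw)
      have b' := b (ball_subset_ball (min_le_right _ _) hw)
      have e' : (G : ℂ → ℝ) w * (u : ℂ → ℝ) w = 0 := e
      have : 0 < (G : ℂ → ℝ) w * (u : ℂ → ℝ) w := mul_pos (by linarith) (by linarith)
      linarith
    obtain ⟨_, _, hf⟩ := ball_not_null z (lt_min hr hr') h9
    exact hf
  set G := F - (inner ℝ F u) • u with hG
  have hGS : GS U G := hF.sub (hu.smul _)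
  have hGu : inner ℝ G u = 0 := by
    rw [hG, inner_sub_left, real_inner_smul_left, real_inner_self_eq_norm_sq, hu1]; ring
  have hG0 : G = 0 := by
    rcases hGS.sign hU hne hpc with h | h
    · exact key G hGS h hGu
    · have h1 := key ((-1 : ℝ) • G) (hGS.smul _) (by
        filter_upwards [h, Lp.coeFn_smul (-1 : ℝ) G] with z a b
        rw [b, Pi.smul_apply, smul_eq_mul]; linarith) (by rw [real_inner_smul_left, hGu, mul_zero])
      have h2 : (-1 : ℝ) • G = 0 := h1
      rw [neg_one_smul, neg_eq_zero] at h2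
      exact h2
  exact sub_eq_zero.mp hG0

/-- existence of a nonnegative normalised ground state -/
theorem exists_ground {U : Set ℂ} (hU : IsOpen U) (hne : U.Nonempty) (hpc : IsPreconnected U) {R : ℝ} (hR : 0 < R)
    (hb : U ⊆ ball 0 R) : ∃ u : L2, GS U u ∧ ‖u‖ = 1 ∧ (∀ᵐ z, 0 ≤ (u : ℂ → ℝ) z) ∧ LocPos U u := by
  obtain ⟨F, hF, hF1⟩ := exists_GS hU hne hR hb
  have aux : ∀ G : L2, GS U G → ‖G‖ = 1 → (∀ᵐ z, 0 ≤ (G : ℂ → ℝ) z) → ∃ u : L2, GS U u ∧ ‖u‖ = 1 ∧
      (∀ᵐ z, 0 ≤ (u : ℂ → ℝ) z) ∧ LocPos U u := by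
    intro G hG hG1 hG0
    refine ⟨G, hG, hG1, hG0, hG.locPos hU hpc hG0 ?_⟩
    intro h; rw [h, norm_zero] at hG1; norm_num at hG1
  rcases hF.sign hU hne hpc with h | h
  · exact aux F hF hF1 h
  · apply aux ((-1 : ℝ) • F) (hF.smul _) (by rw [norm_smul, hF1]; norm_num)
    filter_upwards [h, Lp.coeFn_smul (-1 : ℝ) F] with z a b
    rw [b, Pi.smul_apply, smul_eq_mul]; linarith

/-- the spectral gap inequality -/
theorem gap {U : Set ℂ} (hU : IsOpen U) (hne : U.Nonempty) (hpc : IsPreconnected U) {R : ℝ} (hR : 0 < R)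
    (hb : U ⊆ ball 0 R) {u : L2} (hu : GS U u) (hu0 : ∀ᵐ z, 0 ≤ (u : ℂ → ℝ) z) (hu1 : ‖u‖ = 1) :
    ∃ γ > 0, ∀ v, TF U v → γ * (Ip v v - (inner ℝ (cls v) u) ^ 2) ≤ Qf U v v := by
  by_contra hcon
  push Not at hcon
  have step : ∀ n : ℕ, ∃ w, TF U w ∧ Qf U w w ≤ 4 / ((n : ℝ) + 1) ∧ |‖cls w‖ - 1| ≤ 1 / ((n : ℝ) + 1) ∧
      |inner ℝ (cls w) u| ≤ 1 / ((n : ℝ) + 1) := by
    intro n
    set γ : ℝ := 1 / ((n : ℝ) + 1) with hγ
    have hγ0 : 0 < γ := by positivity
    obtain ⟨v, hv, hv1⟩ := hcon γ hγ0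
    have hd : 0 < Ip v v - (inner ℝ (cls v) u) ^ 2 := by
      have := Qf_nonneg hv
      by_contra hc
      push Not at hc
      have := mul_nonpos_of_nonneg_of_nonpos hγ0.le hc
      linarith
    set d := √(Ip v v - (inner ℝ (cls v) u) ^ 2) with hd'
    have hd0 : 0 < d := Real.sqrt_pos.mpr hd
    have hdsq : d ^ 2 = Ip v v - (inner ℝ (cls v) u) ^ 2 := Real.sq_sqrt hd.le
    -- normalised function
    set v' : ℂ → ℝ := fun z => (1 / d) * v z with hv'
    have hv'T : TF U v' := hv.smul _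
    have hcls' : cls v' = (1 / d) • cls v := cls_smul _ hv.memLp
    set c := inner ℝ (cls v') u with hc
    have hc1 : c = (1 / d) * inner ℝ (cls v) u := by rw [hc, hcls', real_inner_smul_left]
    have hQ' : Qf U v' v' ≤ γ := by
      rw [hv', Qf_smul_self _ hv]
      rw [← hdsq] at hv1
      calc (1 / d) ^ 2 * Qf U v v ≤ (1 / d) ^ 2 * (γ * d ^ 2) := mul_le_mul_of_nonneg_left hv1.le (by positivity)
        _ = γ := by field_simp
    have hI' : ‖cls v'‖ ^ 2 - c ^ 2 = 1 := by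
      rw [hcls', norm_smul, mul_pow, norm_cls_sq hv, hc1, mul_pow, Real.norm_eq_abs, sq_abs, ← mul_sub, ← hdsq]
      field_simp
    obtain ⟨w, hw, hw1, hw2⟩ := hu (γ / (1 + c ^ 2)) (by positivity)
    have hcabs : |c| ≤ 1 + c ^ 2 := by
      have := sq_abs c; nlinarith [sq_nonneg (|c| - 1)]
    have hcη : |c| * (γ / (1 + c ^ 2)) ≤ γ := by
      rw [mul_div_assoc', div_le_iff₀ (by positivity)]
      nlinarith
    have hc2η : c ^ 2 * (γ / (1 + c ^ 2)) ≤ γ := by
      rw [mul_div_assoc', div_le_iff₀ (by positivity)]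
      nlinarith
    have hT : TF U (fun z => v' z + (-c) * w z) := hv'T.add (hw.smul _)
    refine ⟨fun z => v' z + (-c) * w z, hT, ?_, ?_, ?_⟩
    · refine (Qf_add_le hv'T (hw.smul _)).trans ?_
      rw [Qf_smul_self _ hw]
      have : (-c) ^ 2 * Qf U w w ≤ γ := by
        rw [neg_sq]; exact (mul_le_mul_of_nonneg_left hw2 (sq_nonneg c)).trans hc2η
      have e : 4 / ((n : ℝ) + 1) = 4 * γ := by rw [hγ]; ring
      rw [e]; linarith
    · have e1 : cls (fun z => v' z + (-c) * w z) = (cls v' - c • u) + (-c) • (cls w - u) := by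
        rw [cls_add hv'T.memLp (hw.smul _).memLp, cls_smul _ hw.memLp]
        rw [smul_sub, neg_smul, neg_smul]; abel
      have e2 : ‖cls v' - c • u‖ = 1 := by
        have : ‖cls v' - c • u‖ ^ 2 = 1 := by
          rw [norm_sub_sq_real, norm_smul, hu1, real_inner_smul_right, ← hc, Real.norm_eq_abs, mul_one, sq_abs]
          linarith
        have h0 := norm_nonneg (cls v' - c • u)
        nlinarith
      have e3 : ‖(-c) • (cls w - u)‖ ≤ γ := by
        rw [norm_smul, norm_neg, Real.norm_eq_abs]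
        exact (mul_le_mul_of_nonneg_left hw1 (abs_nonneg c)).trans hcη
      rw [e1, ← e2]
      refine (abs_norm_sub_norm_le _ _).trans ?_
      rw [add_sub_cancel_left]; exact e3
    · have e1 : cls (fun z => v' z + (-c) * w z) = (cls v' - c • u) + (-c) • (cls w - u) := by
        rw [cls_add hv'T.memLp (hw.smul _).memLp, cls_smul _ hw.memLp]
        rw [smul_sub, neg_smul, neg_smul]; abel
      have e2 : inner ℝ (cls v' - c • u) u = 0 := by
        rw [inner_sub_left, real_inner_smul_left, real_inner_self_eq_norm_sq, hu1, ← hc]; ring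
      have e3 : ‖(-c) • (cls w - u)‖ ≤ γ := by
        rw [norm_smul, norm_neg, Real.norm_eq_abs]
        exact (mul_le_mul_of_nonneg_left hw1 (abs_nonneg c)).trans hcη
      rw [e1, inner_add_left, e2, zero_add]
      refine (abs_real_inner_le_norm _ _).trans ?_
      rw [hu1, mul_one]; exact e3
  choose w hw hwQ hwN hwI using step
  have hl := lambda1_nonneg U
  have h1le : ∀ n : ℕ, 1 / ((n : ℝ) + 1) ≤ 1 := fun n => by
    rw [div_le_one (by positivity)]; linarith [Nat.cast_nonneg (α := ℝ) n]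
  obtain ⟨φ, hφ, G, hG⟩ := rellich hR w (fun n => (hw n).mono hb) (M := 4 + lambda1 U * 4) (fun n => by
    have e1 : Qf U (w n) (w n) ≤ 4 := by
      refine (hwQ n).trans ?_
      have := h1le n
      have e : 4 / ((n : ℝ) + 1) = 4 * (1 / ((n : ℝ) + 1)) := by ring
      rw [e]; linarith
    have e2 : Ip (w n) (w n) ≤ 4 := by
      rw [← norm_cls_sq (hw n)]
      have h2 := (abs_le.mp ((hwN n).trans (h1le n))).2
      nlinarith [norm_nonneg (cls (w n))]
    unfold Qf at e1
    have e3 := mul_le_mul_of_nonneg_left e2 hl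
    linarith)
  have hφt := hφ.tendsto_atTop
  have t1 : Tendsto (fun n => 1 / (((φ n : ℕ) : ℝ) + 1)) atTop (𝓝 0) :=
    tendsto_one_div_add_atTop_nhds_zero_nat.comp hφt
  have hGS : GS U G := by
    intro ε hε
    have e1 : ∀ᶠ n in atTop, ‖cls (w (φ n)) - G‖ < ε := by
      have := (tendsto_iff_norm_sub_tendsto_zero.mp hG)
      exact this.eventually (gt_mem_nhds hε)
    have e2 : ∀ᶠ n in atTop, 1 / (((φ n : ℕ) : ℝ) + 1) < ε / 4 := t1.eventually (gt_mem_nhds (by positivity))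
    obtain ⟨n, hn1, hn2⟩ := (e1.and e2).exists
    refine ⟨w (φ n), hw _, hn1.le, (hwQ _).trans ?_⟩
    have e : 4 / (((φ n : ℕ) : ℝ) + 1) = 4 * (1 / (((φ n : ℕ) : ℝ) + 1)) := by ring
    rw [e]; linarith
  have hGn : ‖G‖ = 1 := by
    have e1 : Tendsto (fun n => |‖cls (w (φ n))‖ - 1|) atTop (𝓝 |‖G‖ - 1|) := (hG.norm.sub_const 1).abs
    have e2 : Tendsto (fun n => |‖cls (w (φ n))‖ - 1|) atTop (𝓝 0) :=
      squeeze_zero (fun n => abs_nonneg _) (fun n => hwN (φ n)) t1
    have := tendsto_nhds_unique e1 e2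
    rw [abs_eq_zero] at this
    linarith
  have hGu : inner ℝ G u = 0 := by
    have e1 : Tendsto (fun n => |inner ℝ (cls (w (φ n))) u|) atTop (𝓝 |inner ℝ G u|) :=
      (hG.inner tendsto_const_nhds).abs
    have e2 : Tendsto (fun n => |inner ℝ (cls (w (φ n))) u|) atTop (𝓝 0) :=
      squeeze_zero (fun n => abs_nonneg _) (fun n => hwI (φ n)) t1
    have := tendsto_nhds_unique e1 e2
    rwa [abs_eq_zero] at this
  have := hu.unique hU hne hpc hu0 hu1 hGS
  rw [hGu, zero_smul] at this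
  rw [this, norm_zero] at hGn
  norm_num at hGn

/-- consequence: removing mass of the ground state raises `λ₁` -/
theorem lambda1_removal {U : Set ℂ} {u : L2} (hu1 : ‖u‖ = 1) {γ : ℝ} (hγ : 0 < γ)
    (hgap : ∀ v, TF U v → γ * (Ip v v - (inner ℝ (cls v) u) ^ 2) ≤ Qf U v v)
    {Ω : Set ℂ} (hΩ : IsOpen Ω) (hΩU : Ω ⊆ U) {v : ℂ → ℝ} (hv : TF Ω v) :
    (lambda1 U + γ * ∫ z in Ωᶜ, (u : ℂ → ℝ) z ^ 2) * Ip v v ≤ En v v := by
  have h1 := hgap v (hv.mono hΩU)
  have hui : Integrable (fun z => (u : ℂ → ℝ) z ^ 2) := (Lp.memLp u).integrable_sq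
  have h2 : ∫ z in Ω, (u : ℂ → ℝ) z ^ 2 = 1 - ∫ z in Ωᶜ, (u : ℂ → ℝ) z ^ 2 := by
    have := integral_add_compl hΩ.measurableSet hui
    have e : ∫ z, (u : ℂ → ℝ) z ^ 2 = 1 := by
      have := real_inner_self_eq_norm_sq u
      rw [inner_eq, hu1] at this
      rw [one_pow] at this
      rw [← this]; congr 1; ext z; ring
    linarith
  -- Cauchy-Schwarz
  have h3 : (inner ℝ (cls v) u) ^ 2 ≤ Ip v v * ∫ z in Ω, (u : ℂ → ℝ) z ^ 2 := by
    have hind : MemLp (Ω.indicator (u : ℂ → ℝ)) 2 (volume : Measure ℂ) := (Lp.memLp u).indicator hΩ.measurableSet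
    have e1 : inner ℝ (cls v) u = inner ℝ (cls v) (cls (Ω.indicator (u : ℂ → ℝ))) := by
      rw [inner_cls hv.memLp hind]
      conv_lhs => rw [← cls_self u]
      rw [inner_cls hv.memLp (Lp.memLp u)]
      congr 1; ext z
      by_cases hz : z ∈ Ω
      · rw [indicator_of_mem hz]
      · have : v z = 0 := image_eq_zero_of_notMem_tsupport (fun h => hz (hv.supp h))
        rw [this]; ring
    have e2 : ‖cls (Ω.indicator (u : ℂ → ℝ))‖ ^ 2 = ∫ z in Ω, (u : ℂ → ℝ) z ^ 2 := by
      rw [← real_inner_self_eq_norm_sq, inner_cls hind hind, ← integral_indicator hΩ.measurableSet]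
      congr 1; ext z
      by_cases hz : z ∈ Ω
      · rw [indicator_of_mem hz, indicator_of_mem hz]; ring
      · rw [indicator_of_notMem hz, indicator_of_notMem hz]; ring
    rw [e1, ← e2, ← norm_cls_sq hv, ← mul_pow]
    exact sq_le_sq' (neg_le_of_abs_le (abs_real_inner_le_norm _ _)) (real_inner_le_norm _ _)
  unfold Qf at h1
  rw [h2] at h3
  have h4 : γ * (Ip v v * ∫ z in Ωᶜ, (u : ℂ → ℝ) z ^ 2) ≤ γ * (Ip v v - (inner ℝ (cls v) u) ^ 2) := by
    apply mul_le_mul_of_nonneg_left _ hγ.le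
    linarith
  nlinarith

end Pool.Agent.Helper533.StarBox
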