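import Pool.Agent.Helper533.StarBox.Lines

open MeasureTheory Metric Set Filter
open scoped Topology

namespace Pool.Agent.Helper533.StarBox

/-- small oscillation implies closeness to the mean -/
theorem osc_mean (α β : ℝ) (hαβ : α < β) (f : ℝ → ℝ) (hf : Continuous f) (K : ℝ)
    (h : ∀ x ∈ Icc α β, ∀ y ∈ Icc α β, (f x - f y) ^ 2 ≤ K) :
    ∫ t in α..β, f t ^ 2 ≤ (1 / (β - α)) * (∫ t in α..β, f t) ^ 2 + (β - α) * K := by
  set I := ∫ t in α..β, f t with hI
  set L := β - α with hL
  have hL0 : 0 < L := by rw [hL]; linarith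
  set m := I / L with hm
  have hmL : m * L = I := by rw [hm]; field_simp
  have h1 : ∀ x ∈ Icc α β, (f x - m) ^ 2 ≤ K := by
    intro x hx
    have e1 : f x - m = (1 / L) * ∫ t in α..β, (f x - f t) := by
      rw [intervalIntegral.integral_sub intervalIntegrable_const (hf.intervalIntegrable _ _),
        intervalIntegral.integral_const, smul_eq_mul, ← hI, ← hL, ← hmL]
      field_simp
    have h2 := cs_plain α β hαβ.le (fun t => f x - f t) (by fun_prop)
    have h3 : ∫ t in α..β, (f x - f t) ^ 2 ≤ ∫ _t in α..β, K :=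
      intervalIntegral.integral_mono_on hαβ.le ((by fun_prop : Continuous fun t => (f x - f t) ^ 2).intervalIntegrable _ _)
        intervalIntegrable_const (fun t ht => h x hx t ht)
    rw [intervalIntegral.integral_const, smul_eq_mul, ← hL] at h3
    rw [e1, mul_pow]
    have h4 : (∫ t in α..β, (f x - f t)) ^ 2 ≤ L * (L * K) :=
      h2.trans (mul_le_mul_of_nonneg_left h3 hL0.le)
    calc (1 / L) ^ 2 * (∫ t in α..β, (f x - f t)) ^ 2 ≤ (1 / L) ^ 2 * (L * (L * K)) :=
          mul_le_mul_of_nonneg_left h4 (by positivity)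
      _ = K := by field_simp
  have h2 : ∫ t in α..β, (f t - m) ^ 2 ≤ ∫ _t in α..β, K :=
    intervalIntegral.integral_mono_on hαβ.le ((by fun_prop : Continuous fun t => (f t - m) ^ 2).intervalIntegrable _ _)
      intervalIntegrable_const (fun t ht => h1 t ht)
  rw [intervalIntegral.integral_const, smul_eq_mul, ← hL] at h2
  have h3 : ∫ t in α..β, (f t - m) ^ 2 = (∫ t in α..β, f t ^ 2) - 2 * m * I + m ^ 2 * L := by
    have : (fun t => (f t - m) ^ 2) = fun t => f t ^ 2 - 2 * m * f t + m ^ 2 := by ext t; ring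
    rw [this, intervalIntegral.integral_add, intervalIntegral.integral_sub, intervalIntegral.integral_const_mul,
      intervalIntegral.integral_const, smul_eq_mul, ← hI, ← hL]
    · ring
    · exact (hf.pow 2).intervalIntegrable _ _
    · exact (hf.const_mul _).intervalIntegrable _ _
    · exact ((hf.pow 2).sub (hf.const_mul _)).intervalIntegrable _ _
    · exact intervalIntegrable_const
  have h4 : (1 / L) * I ^ 2 = 2 * m * I - m ^ 2 * L := by
    rw [← hmL]; field_simp; ring
  linarith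

theorem swap_cont (F : ℝ × ℝ → ℝ) (hF : Continuous F) (a b c d : ℝ) :
    ∫ x in a..b, ∫ y in c..d, F (x, y) = ∫ y in c..d, ∫ x in a..b, F (x, y) := by
  apply intervalIntegral_intervalIntegral_swap (F := fun x y => F (x, y))
  have h1 : IntegrableOn F (uIcc a b ×ˢ uIcc c d) (volume.prod volume) :=
    hF.continuousOn.integrableOn_compact (isCompact_uIcc.prod isCompact_uIcc)
  exact h1.mono_set (prod_mono uIoc_subset_uIcc uIoc_subset_uIcc)

/-- Poincare inequality on a rectangle, iterated form -/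
theorem rect_poincare (u : ℂ → ℝ) (hu : ContDiff ℝ 1 u) (x0 x1 y0 y1 L : ℝ) (hx : x0 < x1) (hy : y0 < y1)
    (hxL : x1 - x0 ≤ L) (hyL : y1 - y0 ≤ L) :
    ∫ y in y0..y1, ∫ x in x0..x1, u ⟨x, y⟩ ^ 2 ≤
      (1 / ((x1 - x0) * (y1 - y0))) * (∫ y in y0..y1, ∫ x in x0..x1, u ⟨x, y⟩) ^ 2
        + L ^ 2 * ∫ y in y0..y1, ∫ x in x0..x1, (gx u ⟨x, y⟩ ^ 2 + gy u ⟨x, y⟩ ^ 2) := by
  have hdiff : Differentiable ℝ u := hu.differentiable (by simp)
  have huc : Continuous u := hu.continuous
  have hgxc : Continuous (gx u) := (hu.continuous_fderiv (by simp)).clm_apply continuous_const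
  have hgyc : Continuous (gy u) := (hu.continuous_fderiv (by simp)).clm_apply continuous_const
  have mk2 : Continuous (fun p : ℝ × ℝ => (⟨p.2, p.1⟩ : ℂ)) := mk_cont.comp continuous_swap
  set a := x1 - x0 with ha
  set b := y1 - y0 with hb
  have ha0 : 0 < a := by rw [ha]; linarith
  have hb0 : 0 < b := by rw [hb]; linarith
  -- inner quantities
  set g : ℝ → ℝ := fun y => ∫ x in x0..x1, u ⟨x, y⟩ with hg
  set G : ℝ → ℝ := fun y => ∫ x in x0..x1, gx u ⟨x, y⟩ ^ 2 with hG
  set P : ℝ → ℝ := fun y => ∫ x in x0..x1, gy u ⟨x, y⟩ ^ 2 with hP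
  set S : ℝ → ℝ := fun y => ∫ x in x0..x1, u ⟨x, y⟩ ^ 2 with hS
  have cg : Continuous g := intervalIntegral.continuous_parametric_intervalIntegral_of_continuous'
    (f := fun y x => u ⟨x, y⟩) (huc.comp mk2) _ _
  have cG : Continuous G := intervalIntegral.continuous_parametric_intervalIntegral_of_continuous'
    (f := fun y x => gx u ⟨x, y⟩ ^ 2) (show Continuous (fun p : ℝ × ℝ => gx u ⟨p.2, p.1⟩ ^ 2) from (hgxc.comp mk2).pow 2) _ _
  have cP : Continuous P := intervalIntegral.continuous_parametric_intervalIntegral_of_continuous'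
    (f := fun y x => gy u ⟨x, y⟩ ^ 2) (show Continuous (fun p : ℝ × ℝ => gy u ⟨p.2, p.1⟩ ^ 2) from (hgyc.comp mk2).pow 2) _ _
  have cS : Continuous S := intervalIntegral.continuous_parametric_intervalIntegral_of_continuous'
    (f := fun y x => u ⟨x, y⟩ ^ 2) (show Continuous (fun p : ℝ × ℝ => u ⟨p.2, p.1⟩ ^ 2) from (huc.comp mk2).pow 2) _ _
  -- step 1
  have st1 : ∀ y, S y ≤ (1 / a) * g y ^ 2 + a * (a * G y) := by
    intro y
    apply osc_mean x0 x1 hx (fun x => u ⟨x, y⟩) (huc.comp (mk_cont_left y)) (a * G y)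
    have key : ∀ s ∈ Icc x0 x1, ∀ t ∈ Icc x0 x1, s ≤ t → (u ⟨t, y⟩ - u ⟨s, y⟩) ^ 2 ≤ a * G y := by
      intro s hs t ht hst
      have e1 : ∫ r in s..t, gx u ⟨r, y⟩ = u ⟨t, y⟩ - u ⟨s, y⟩ :=
        intervalIntegral.integral_eq_sub_of_hasDerivAt (fun r _ => line_x u hdiff r y)
          ((hgxc.comp (mk_cont_left y)).intervalIntegrable _ _)
      rw [← e1]
      refine (cs_plain s t hst (fun r => gx u ⟨r, y⟩) (hgxc.comp (mk_cont_left y)).continuousOn).trans ?_
      have h3 : ∫ r in s..t, gx u ⟨r, y⟩ ^ 2 ≤ G y := by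
        apply intervalIntegral.integral_mono_interval hs.1 hst ht.2
        · exact Eventually.of_forall fun t => sq_nonneg _
        · exact ((hgxc.comp (mk_cont_left y)).pow 2).intervalIntegrable _ _
      have h5 : 0 ≤ ∫ r in s..t, gx u ⟨r, y⟩ ^ 2 :=
        intervalIntegral.integral_nonneg hst fun t _ => sq_nonneg _
      exact mul_le_mul (by rw [ha]; linarith [hs.1, ht.2]) h3 h5 ha0.le
    intro s hs t ht
    rcases le_total s t with hst | hst
    · have := key s hs t ht hst
      show (u ⟨s, y⟩ - u ⟨t, y⟩) ^ 2 ≤ a * G y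
      nlinarith [this]
    · exact key t ht s hs hst
  -- step 2
  set H := ∫ y in y0..y1, P y with hH
  have st2 : ∫ y in y0..y1, g y ^ 2 ≤ (1 / b) * (∫ y in y0..y1, g y) ^ 2 + b * (a * (b * H)) := by
    apply osc_mean y0 y1 hy g cg (a * (b * H))
    have key : ∀ s ∈ Icc y0 y1, ∀ t ∈ Icc y0 y1, s ≤ t → (g t - g s) ^ 2 ≤ a * (b * H) := by
      intro s hs t ht hst
      have e1 : g t - g s = ∫ x in x0..x1, (u ⟨x, t⟩ - u ⟨x, s⟩) := by
        exact (intervalIntegral.integral_sub ((huc.comp (mk_cont_left t)).intervalIntegrable _ _)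
          ((huc.comp (mk_cont_left s)).intervalIntegrable _ _)).symm
      rw [e1]
      refine (cs_plain x0 x1 hx.le (fun x => u ⟨x, t⟩ - u ⟨x, s⟩)
        ((huc.comp (mk_cont_left t)).sub (huc.comp (mk_cont_left s))).continuousOn).trans ?_
      apply mul_le_mul_of_nonneg_left _ ha0.le
      have e2 : ∀ x, (u ⟨x, t⟩ - u ⟨x, s⟩) ^ 2 ≤ b * ∫ r in y0..y1, gy u ⟨x, r⟩ ^ 2 := by
        intro x
        have e1 : ∫ r in s..t, gy u ⟨x, r⟩ = u ⟨x, t⟩ - u ⟨x, s⟩ :=
          intervalIntegral.integral_eq_sub_of_hasDerivAt (fun r _ => line_y u hdiff x r)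
            ((hgyc.comp (mk_cont_right x)).intervalIntegrable _ _)
        rw [← e1]
        refine (cs_plain s t hst (fun r => gy u ⟨x, r⟩) (hgyc.comp (mk_cont_right x)).continuousOn).trans ?_
        have h3 : ∫ r in s..t, gy u ⟨x, r⟩ ^ 2 ≤ ∫ r in y0..y1, gy u ⟨x, r⟩ ^ 2 := by
          apply intervalIntegral.integral_mono_interval hs.1 hst ht.2
          · exact Eventually.of_forall fun t => sq_nonneg _
          · exact ((hgyc.comp (mk_cont_right x)).pow 2).intervalIntegrable _ _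
        have h5 : 0 ≤ ∫ r in s..t, gy u ⟨x, r⟩ ^ 2 :=
          intervalIntegral.integral_nonneg hst fun t _ => sq_nonneg _
        exact mul_le_mul (by rw [hb]; linarith [hs.1, ht.2]) h3 h5 hb0.le
      have cin : Continuous fun x : ℝ => ∫ r in y0..y1, gy u ⟨x, r⟩ ^ 2 :=
        intervalIntegral.continuous_parametric_intervalIntegral_of_continuous'
          (f := fun x r => gy u ⟨x, r⟩ ^ 2) (show Continuous (fun p : ℝ × ℝ => gy u ⟨p.1, p.2⟩ ^ 2) from (hgyc.comp mk_cont).pow 2) _ _
      have e3 : ∫ x in x0..x1, (u ⟨x, t⟩ - u ⟨x, s⟩) ^ 2 ≤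
          ∫ x in x0..x1, b * ∫ r in y0..y1, gy u ⟨x, r⟩ ^ 2 := by
        apply intervalIntegral.integral_mono_on hx.le
        · exact (((huc.comp (mk_cont_left t)).sub (huc.comp (mk_cont_left s))).pow 2).intervalIntegrable _ _
        · exact (cin.const_mul b).intervalIntegrable _ _
        · intro x _; exact e2 x
      rw [intervalIntegral.integral_const_mul] at e3
      have e4 : ∫ x in x0..x1, ∫ r in y0..y1, gy u ⟨x, r⟩ ^ 2 = H :=
        swap_cont (fun p => gy u ⟨p.1, p.2⟩ ^ 2) ((hgyc.comp mk_cont).pow 2) x0 x1 y0 y1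
      rw [e4] at e3
      exact e3
    intro s hs t ht
    rcases le_total s t with hst | hst
    · have := key s hs t ht hst
      nlinarith [this]
    · exact key t ht s hs hst
  have st3 : ∫ y in y0..y1, S y ≤ ∫ y in y0..y1, ((1 / a) * g y ^ 2 + a * (a * G y)) :=
    intervalIntegral.integral_mono_on hy.le (cS.intervalIntegrable _ _)
      ((((cg.pow 2).const_mul _).add ((cG.const_mul _).const_mul _)).intervalIntegrable _ _) (fun y _ => st1 y)
  have i5 : IntervalIntegrable (fun y => (1 / a) * g y ^ 2) volume y0 y1 := ((cg.pow 2).const_mul _).intervalIntegrable _ _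
  have i6 : IntervalIntegrable (fun y => a * (a * G y)) volume y0 y1 := ((cG.const_mul _).const_mul _).intervalIntegrable _ _
  rw [intervalIntegral.integral_add i5 i6, intervalIntegral.integral_const_mul,
    intervalIntegral.integral_const_mul, intervalIntegral.integral_const_mul] at st3
  have st4 : ∫ y in y0..y1, ∫ x in x0..x1, (gx u ⟨x, y⟩ ^ 2 + gy u ⟨x, y⟩ ^ 2) = (∫ y in y0..y1, G y) + H := by
    rw [hH, ← intervalIntegral.integral_add (cG.intervalIntegrable _ _) (cP.intervalIntegrable _ _)]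
    congr 1; ext y
    exact intervalIntegral.integral_add (((hgxc.comp (mk_cont_left y)).pow 2).intervalIntegrable _ _)
      (((hgyc.comp (mk_cont_left y)).pow 2).intervalIntegrable _ _)
  rw [st4]
  have hG0 : 0 ≤ ∫ y in y0..y1, G y := intervalIntegral.integral_nonneg hy.le
    fun y _ => intervalIntegral.integral_nonneg hx.le fun x _ => sq_nonneg _
  have hH0 : 0 ≤ H := intervalIntegral.integral_nonneg hy.le
    fun y _ => intervalIntegral.integral_nonneg hx.le fun x _ => sq_nonneg _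
  have f1 : (1 / a) * ∫ y in y0..y1, g y ^ 2 ≤ (1 / a) * ((1 / b) * (∫ y in y0..y1, g y) ^ 2 + b * (a * (b * H))) :=
    mul_le_mul_of_nonneg_left st2 (by positivity)
  have f2 : (1 / a) * ((1 / b) * (∫ y in y0..y1, g y) ^ 2 + b * (a * (b * H)))
      = (1 / (a * b)) * (∫ y in y0..y1, g y) ^ 2 + b ^ 2 * H := by
    field_simp
  have f3 : a * (a * ∫ y in y0..y1, G y) ≤ L ^ 2 * ∫ y in y0..y1, G y := by
    rw [← mul_assoc]
    apply mul_le_mul_of_nonneg_right _ hG0
    nlinarith
  have f4 : b ^ 2 * H ≤ L ^ 2 * H := by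
    apply mul_le_mul_of_nonneg_right _ hH0
    nlinarith
  calc ∫ y in y0..y1, S y ≤ _ := st3
    _ ≤ (1 / (a * b)) * (∫ y in y0..y1, g y) ^ 2 + b ^ 2 * H + a * (a * ∫ y in y0..y1, G y) := by linarith
    _ ≤ _ := by linarith [mul_add (L ^ 2) (∫ y in y0..y1, G y) H]

end Pool.Agent.Helper533.StarBox
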