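import Pool.Agent.Helper533.StarBox.Rect

open MeasureTheory Metric Set Filter
open scoped Topology

namespace Pool.Agent.Helper533.StarBox

/-- the Hilbert space `L²(ℂ)` -/
noncomputable abbrev L2 := Lp ℝ 2 (volume : Measure ℂ)

open Classical in
/-- the class of a function in `L²` -/
noncomputable def cls (f : ℂ → ℝ) : L2 := if h : MemLp f 2 (volume : Measure ℂ) then h.toLp f else 0

theorem cls_coe {f : ℂ → ℝ} (hf : MemLp f 2 (volume : Measure ℂ)) : (cls f : ℂ → ℝ) =ᵐ[volume] f := by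
  unfold cls
  rw [dif_pos hf]
  exact hf.coeFn_toLp

theorem inner_cls {f g : ℂ → ℝ} (hf : MemLp f 2 (volume : Measure ℂ)) (hg : MemLp g 2 (volume : Measure ℂ)) :
    inner ℝ (cls f) (cls g) = ∫ z, f z * g z := by
  rw [L2.inner_def]
  apply integral_congr_ae
  filter_upwards [cls_coe hf, cls_coe hg] with z h1 h2
  rw [h1, h2]
  simp [mul_comm]

theorem cls_eq_of_ae {f : ℂ → ℝ} {F : L2} (h : (F : ℂ → ℝ) =ᵐ[volume] f) : F = cls f := by
  have hf : MemLp f 2 (volume : Measure ℂ) := (memLp_congr_ae h).mp (Lp.memLp F)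
  apply Lp.ext
  exact h.trans (cls_coe hf).symm

theorem cls_self (F : L2) : cls (F : ℂ → ℝ) = F := (cls_eq_of_ae (ae_eq_refl _)).symm

theorem cls_sub {f g : ℂ → ℝ} (hf : MemLp f 2 (volume : Measure ℂ)) (hg : MemLp g 2 (volume : Measure ℂ)) :
    cls (fun z => f z - g z) = cls f - cls g := by
  symm
  apply cls_eq_of_ae
  filter_upwards [Lp.coeFn_sub (cls f) (cls g), cls_coe hf, cls_coe hg] with z h1 h2 h3
  rw [h1, Pi.sub_apply, h2, h3]

theorem cls_add {f g : ℂ → ℝ} (hf : MemLp f 2 (volume : Measure ℂ)) (hg : MemLp g 2 (volume : Measure ℂ)) :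
    cls (fun z => f z + g z) = cls f + cls g := by
  symm
  apply cls_eq_of_ae
  filter_upwards [Lp.coeFn_add (cls f) (cls g), cls_coe hf, cls_coe hg] with z h1 h2 h3
  rw [h1, Pi.add_apply, h2, h3]

theorem cls_smul {f : ℂ → ℝ} (c : ℝ) (hf : MemLp f 2 (volume : Measure ℂ)) :
    cls (fun z => c * f z) = c • cls f := by
  symm
  apply cls_eq_of_ae
  filter_upwards [Lp.coeFn_smul c (cls f), cls_coe hf] with z h1 h2
  rw [h1, Pi.smul_apply, h2, smul_eq_mul]

theorem inner_cls_tf {U V : Set ℂ} {u v : ℂ → ℝ} (hu : TF U u) (hv : TF V v) :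
    inner ℝ (cls u) (cls v) = Ip u v := inner_cls hu.memLp hv.memLp

theorem norm_cls_sq {U : Set ℂ} {u : ℂ → ℝ} (hu : TF U u) : ‖cls u‖ ^ 2 = Ip u u := by
  rw [← real_inner_self_eq_norm_sq, inner_cls_tf hu hu]

/-- integral over the plane as an iterated interval integral -/
theorem plane_eq_iter (R : ℝ) (hR : 0 ≤ R) (f : ℂ → ℝ) (hf : Integrable f)
    (h0 : ∀ x y, (R ≤ |x| ∨ R ≤ |y|) → f ⟨x, y⟩ = 0) :
    ∫ z, f z = ∫ y in (-R)..R, ∫ x in (-R)..R, f ⟨x, y⟩ := by
  have hset : ∀ g : ℝ → ℝ, (∀ y, R < |y| → g y = 0) → ∫ y, g y = ∫ y in (-R)..R, g y := by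
    intro g hg
    rw [intervalIntegral.integral_of_le (by linarith), ← integral_Icc_eq_integral_Ioc]
    symm
    apply setIntegral_eq_integral_of_forall_compl_eq_zero
    intro y hy
    apply hg
    by_contra hcon
    push Not at hcon
    exact hy (abs_le.mp hcon)
  rw [integral_yx f hf, hset]
  · congr 1; ext y
    exact hset _ (fun x hx => h0 x y (Or.inl hx.le))
  · intro y hy
    have : (fun x => f ⟨x, y⟩) = fun _ => (0 : ℝ) := by
      ext x; exact h0 x y (Or.inr hy.le)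
    rw [this]; simp

theorem grid_sum (f : ℂ → ℝ) (hf : Continuous f) (a : ℕ → ℝ) (N : ℕ) :
    ∫ y in (a 0)..(a N), ∫ x in (a 0)..(a N), f ⟨x, y⟩ =
      ∑ j ∈ Finset.range N, ∑ i ∈ Finset.range N, ∫ y in (a j)..(a (j + 1)), ∫ x in (a i)..(a (i + 1)), f ⟨x, y⟩ := by
  have mk2 : Continuous (fun p : ℝ × ℝ => (⟨p.2, p.1⟩ : ℂ)) := mk_cont.comp continuous_swap
  have cin : ∀ c d : ℝ, Continuous fun y : ℝ => ∫ x in c..d, f ⟨x, y⟩ := fun c d =>
    intervalIntegral.continuous_parametric_intervalIntegral_of_continuous'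
      (f := fun y x => f ⟨x, y⟩) (hf.comp mk2) _ _
  rw [← intervalIntegral.sum_integral_adjacent_intervals (fun k _ => (cin (a 0) (a N)).intervalIntegrable _ _)]
  apply Finset.sum_congr rfl
  intro j _
  rw [← intervalIntegral.integral_finsetSum (fun i _ => (cin (a i) (a (i + 1))).intervalIntegrable _ _)]
  congr 1; ext y
  exact (intervalIntegral.sum_integral_adjacent_intervals
    (fun k _ => (hf.comp (mk_cont_left y)).intervalIntegrable _ _)).symm

/-- cell integrals -/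
noncomputable def cell (a : ℕ → ℝ) (u : ℂ → ℝ) (i j : ℕ) : ℝ :=
  ∫ y in (a j)..(a (j + 1)), ∫ x in (a i)..(a (i + 1)), u ⟨x, y⟩

theorem tf_zero_of {R : ℝ} {u : ℂ → ℝ} (hu : TF (ball 0 R) u) (x y : ℝ) (h : R ≤ |x| ∨ R ≤ |y|) :
    (⟨x, y⟩ : ℂ) ∉ tsupport u := by
  intro hmem
  have := hu.supp hmem
  rw [mem_ball, dist_zero_right] at this
  rcases h with h | h
  · exact absurd (lt_of_le_of_lt (h.trans (Complex.abs_re_le_norm ⟨x, y⟩)) this) (lt_irrefl _)
  · exact absurd (lt_of_le_of_lt (h.trans (Complex.abs_im_le_norm ⟨x, y⟩)) this) (lt_irrefl _)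

theorem disc_ineq {R : ℝ} (hR : 0 < R) {u : ℂ → ℝ} (hu : TF (ball 0 R) u) (N : ℕ) (hN : 0 < N) (δ : ℝ)
    (hδ : ∀ i < N, ∀ j < N, |cell (fun k => -R + k * (2 * R / N)) u i j| ≤ δ) :
    Ip u u ≤ (N : ℝ) ^ 2 * ((1 / (2 * R / N) ^ 2) * δ ^ 2) + (2 * R / N) ^ 2 * En u u := by
  set a : ℕ → ℝ := fun k => -R + k * (2 * R / N) with ha
  have hN' : (0 : ℝ) < N := by exact_mod_cast hN
  set h := 2 * R / N with hh
  have hh0 : 0 < h := by positivity
  have a0 : a 0 = -R := by simp [ha]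
  have aN : a N = R := by simp only [ha, hh]; field_simp; ring
  have hstep : ∀ k : ℕ, a (k + 1) - a k = h := by
    intro k; simp only [ha]; push_cast; ring
  have e1 : Ip u u = ∑ j ∈ Finset.range N, ∑ i ∈ Finset.range N, cell a (fun z => u z ^ 2) i j := by
    rw [Ip_self, plane_eq_iter R hR.le _ hu.sq_int (fun x y hxy => by
      simp [image_eq_zero_of_notMem_tsupport (tf_zero_of hu x y hxy)])]
    conv_lhs => rw [← a0, ← aN]
    exact grid_sum (fun z => u z ^ 2) (hu.cont.pow 2) a N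
  have e2 : En u u = ∑ j ∈ Finset.range N, ∑ i ∈ Finset.range N, cell a (fun z => gx u z ^ 2 + gy u z ^ 2) i j := by
    rw [En_self, plane_eq_iter R hR.le _ hu.ensq_int (fun x y hxy => by
      simp [TF.gx_zero (tf_zero_of hu x y hxy), TF.gy_zero (tf_zero_of hu x y hxy)])]
    conv_lhs => rw [← a0, ← aN]
    exact grid_sum (fun z => gx u z ^ 2 + gy u z ^ 2) ((hu.gx_cont.pow 2).add (hu.gy_cont.pow 2)) a N
  have e3 : ∀ i < N, ∀ j < N, cell a (fun z => u z ^ 2) i j ≤
      (1 / h ^ 2) * δ ^ 2 + h ^ 2 * cell a (fun z => gx u z ^ 2 + gy u z ^ 2) i j := by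
    intro i hi j hj
    have := rect_poincare u hu.c1 (a i) (a (i + 1)) (a j) (a (j + 1)) h (by linarith [hstep i]) (by linarith [hstep j])
      (hstep i).le (hstep j).le
    rw [hstep i, hstep j] at this
    refine this.trans ?_
    have h4 : (∫ y in (a j)..(a (j + 1)), ∫ x in (a i)..(a (i + 1)), u ⟨x, y⟩) ^ 2 ≤ δ ^ 2 := by
      have := hδ i hi j hj
      exact sq_le_sq' (neg_le_of_abs_le this) (le_of_abs_le this)
    have h5 : (1 / (h * h)) * (∫ y in (a j)..(a (j + 1)), ∫ x in (a i)..(a (i + 1)), u ⟨x, y⟩) ^ 2 ≤ (1 / h ^ 2) * δ ^ 2 := by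
      rw [← pow_two]
      exact mul_le_mul_of_nonneg_left h4 (by positivity)
    unfold cell
    linarith
  rw [e1, e2]
  calc ∑ j ∈ Finset.range N, ∑ i ∈ Finset.range N, cell a (fun z => u z ^ 2) i j
      ≤ ∑ j ∈ Finset.range N, ∑ i ∈ Finset.range N,
        ((1 / h ^ 2) * δ ^ 2 + h ^ 2 * cell a (fun z => gx u z ^ 2 + gy u z ^ 2) i j) := by
        apply Finset.sum_le_sum; intro j hj
        apply Finset.sum_le_sum; intro i hi
        exact e3 i (Finset.mem_range.mp hi) j (Finset.mem_range.mp hj)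
    _ = _ := by
        simp only [Finset.sum_add_distrib, Finset.sum_const, Finset.card_range, nsmul_eq_mul, Finset.mul_sum]
        ring

theorem cell_bound {R : ℝ} (hR : 0 < R) {u : ℂ → ℝ} (hu : TF (ball 0 R) u) (N : ℕ) (hN : 0 < N) (i j : ℕ)
    (hi : i < N) (hj : j < N) :
    (cell (fun k => -R + k * (2 * R / N)) u i j) ^ 2 ≤ (2 * R / N) ^ 2 * Ip u u := by
  set a : ℕ → ℝ := fun k => -R + k * (2 * R / N) with ha
  have hN' : (0 : ℝ) < N := by exact_mod_cast hN
  set h := 2 * R / N with hh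
  have hh0 : 0 < h := by positivity
  have a0 : a 0 = -R := by simp [ha]
  have aN : a N = R := by simp only [ha, hh]; field_simp; ring
  have hstep : ∀ k : ℕ, a (k + 1) - a k = h := by
    intro k; simp only [ha]; push_cast; ring
  have mk2 : Continuous (fun p : ℝ × ℝ => (⟨p.2, p.1⟩ : ℂ)) := mk_cont.comp continuous_swap
  have e1 : Ip u u = ∑ j ∈ Finset.range N, ∑ i ∈ Finset.range N, cell a (fun z => u z ^ 2) i j := by
    rw [Ip_self, plane_eq_iter R hR.le _ hu.sq_int (fun x y hxy => by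
      simp [image_eq_zero_of_notMem_tsupport (tf_zero_of hu x y hxy)])]
    conv_lhs => rw [← a0, ← aN]
    exact grid_sum (fun z => u z ^ 2) (hu.cont.pow 2) a N
  have hnn : ∀ i j, 0 ≤ cell a (fun z => u z ^ 2) i j := by
    intro i j
    apply intervalIntegral.integral_nonneg (by linarith [hstep j])
    intro y _
    exact intervalIntegral.integral_nonneg (by linarith [hstep i]) fun x _ => sq_nonneg _
  have e2 : cell a (fun z => u z ^ 2) i j ≤ Ip u u := by
    rw [e1]
    calc cell a (fun z => u z ^ 2) i j ≤ ∑ i ∈ Finset.range N, cell a (fun z => u z ^ 2) i j :=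
          Finset.single_le_sum (f := fun i => cell a (fun z => u z ^ 2) i j) (fun i _ => hnn i j) (Finset.mem_range.mpr hi)
      _ ≤ _ := Finset.single_le_sum (f := fun j => ∑ i ∈ Finset.range N, cell a (fun z => u z ^ 2) i j)
          (fun j _ => Finset.sum_nonneg fun i _ => hnn i j) (Finset.mem_range.mpr hj)
  have cin : ∀ c d : ℝ, Continuous fun y : ℝ => ∫ x in c..d, u ⟨x, y⟩ := fun c d =>
    intervalIntegral.continuous_parametric_intervalIntegral_of_continuous'
      (f := fun y x => u ⟨x, y⟩) (hu.cont.comp mk2) _ _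
  have cin2 : ∀ c d : ℝ, Continuous fun y : ℝ => ∫ x in c..d, u ⟨x, y⟩ ^ 2 := fun c d =>
    intervalIntegral.continuous_parametric_intervalIntegral_of_continuous'
      (f := fun y x => u ⟨x, y⟩ ^ 2) (show Continuous (fun p : ℝ × ℝ => u ⟨p.2, p.1⟩ ^ 2) from (hu.cont.comp mk2).pow 2) _ _
  have e3 := cs_plain (a j) (a (j + 1)) (by linarith [hstep j]) (fun y => ∫ x in (a i)..(a (i + 1)), u ⟨x, y⟩)
    (cin _ _).continuousOn
  rw [hstep j] at e3
  have e4 : ∫ y in (a j)..(a (j + 1)), (∫ x in (a i)..(a (i + 1)), u ⟨x, y⟩) ^ 2 ≤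
      ∫ y in (a j)..(a (j + 1)), h * ∫ x in (a i)..(a (i + 1)), u ⟨x, y⟩ ^ 2 := by
    apply intervalIntegral.integral_mono_on (by linarith [hstep j])
    · exact ((cin _ _).pow 2).intervalIntegrable _ _
    · exact ((cin2 _ _).const_mul h).intervalIntegrable _ _
    · intro y _
      have := cs_plain (a i) (a (i + 1)) (by linarith [hstep i]) (fun x => u ⟨x, y⟩)
        (hu.cont.comp (mk_cont_left y)).continuousOn
      rw [hstep i] at this
      exact this
  rw [intervalIntegral.integral_const_mul] at e4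
  calc (cell a u i j) ^ 2 ≤ h * ∫ y in (a j)..(a (j + 1)), (∫ x in (a i)..(a (i + 1)), u ⟨x, y⟩) ^ 2 := e3
    _ ≤ h * (h * cell a (fun z => u z ^ 2) i j) := mul_le_mul_of_nonneg_left e4 hh0.le
    _ ≤ h * (h * Ip u u) := by gcongr
    _ = h ^ 2 * Ip u u := by ring

theorem cell_sub {U V : Set ℂ} {u v : ℂ → ℝ} (hu : TF U u) (hv : TF V v) (a : ℕ → ℝ) (i j : ℕ) :
    cell a (fun z => u z - v z) i j = cell a u i j - cell a v i j := by
  have mk2 : Continuous (fun p : ℝ × ℝ => (⟨p.2, p.1⟩ : ℂ)) := mk_cont.comp continuous_swap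
  have cin : ∀ (w : ℂ → ℝ), Continuous w → Continuous fun y : ℝ => ∫ x in (a i)..(a (i + 1)), w ⟨x, y⟩ := fun w hw =>
    intervalIntegral.continuous_parametric_intervalIntegral_of_continuous'
      (f := fun y x => w ⟨x, y⟩) (hw.comp mk2) _ _
  unfold cell
  rw [← intervalIntegral.integral_sub ((cin u hu.cont).intervalIntegrable _ _) ((cin v hv.cont).intervalIntegrable _ _)]
  congr 1; ext y
  exact intervalIntegral.integral_sub ((hu.cont.comp (mk_cont_left y)).intervalIntegrable _ _)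
    ((hv.cont.comp (mk_cont_left y)).intervalIntegrable _ _)

theorem En_sub_le {U V : Set ℂ} {u v : ℂ → ℝ} (hu : TF U u) (hv : TF V v) :
    En (fun z => u z - v z) (fun z => u z - v z) ≤ 2 * En u u + 2 * En v v := by
  rw [En_self, En_self, En_self, ← integral_const_mul, ← integral_const_mul,
    ← integral_add (hu.ensq_int.const_mul _) (hv.ensq_int.const_mul _)]
  have h1 : TF univ (fun z => u z - v z) := (hu.mono (subset_univ _)).sub (hv.mono (subset_univ _))
  apply integral_mono h1.ensq_int ((hu.ensq_int.const_mul _).add (hv.ensq_int.const_mul _))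
  intro z
  show gx (fun z => u z - v z) z ^ 2 + gy (fun z => u z - v z) z ^ 2 ≤
    2 * (gx u z ^ 2 + gy u z ^ 2) + 2 * (gx v z ^ 2 + gy v z ^ 2)
  rw [gx_sub (hu.diff z) (hv.diff z), gy_sub (hu.diff z) (hv.diff z)]
  nlinarith [sq_nonneg (gx u z + gx v z), sq_nonneg (gy u z + gy v z)]

/-- the set of classes of test functions with bounded energy -/
def bddSet (R M : ℝ) : Set L2 := {F | ∃ u, TF (ball 0 R) u ∧ En u u ≤ M ∧ F = cls u}

theorem totallyBounded_bddSet (R M : ℝ) (hR : 0 < R) : TotallyBounded (bddSet R M) := by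
  apply Metric.totallyBounded_of_finite_discretization
  intro ε hε
  -- choose the grid
  obtain ⟨N, hN⟩ : ∃ N : ℕ, (4 * R) ^ 2 * (4 * |M|) / ε ^ 2 < N := exists_nat_gt _
  have hN0 : 0 < N + 1 := Nat.succ_pos _
  set n := N + 1 with hn
  have hn1 : (1 : ℝ) ≤ n := by rw [hn]; push_cast; linarith [Nat.cast_nonneg (α := ℝ) N]
  have hn0 : (0 : ℝ) < n := by linarith
  set h := 2 * R / n with hh
  have hh0 : 0 < h := by positivity
  have hh1 : h ^ 2 * (4 * |M|) ≤ ε ^ 2 / 4 := by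
    have h1 : (4 * R) ^ 2 * (4 * |M|) / ε ^ 2 ≤ n := by rw [hn]; push_cast; linarith
    rw [div_le_iff₀ (by positivity)] at h1
    have h2 : h ^ 2 * (4 * |M|) = ((4 * R) ^ 2 * (4 * |M|)) / (4 * n ^ 2) := by
      rw [hh]; field_simp; ring
    rw [h2, div_le_iff₀ (by positivity)]
    have h3 : (n : ℝ) * ε ^ 2 ≤ n ^ 2 * ε ^ 2 := by
      apply mul_le_mul_of_nonneg_right _ (by positivity)
      nlinarith
    linarith
  -- choose δ
  obtain ⟨δ, hδ0, hδ1⟩ : ∃ δ : ℝ, 0 < δ ∧ (n : ℝ) ^ 2 * ((1 / h ^ 2) * δ ^ 2) ≤ ε ^ 2 / 4 := by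
    refine ⟨ε * h / (2 * n), by positivity, le_of_eq ?_⟩
    field_simp
    norm_num
  set B := h * (2 * R * √|M|) with hB
  have hB0 : 0 ≤ B := by positivity
  obtain ⟨K, hK⟩ : ∃ K : ℕ, B / δ + 1 < K := exists_nat_gt _
  set a : ℕ → ℝ := fun k => -R + k * (2 * R / n) with ha
  refine ⟨(Fin n × Fin n) → ↥(Finset.Icc (-(K : ℤ)) K), inferInstance, ?_, ?_⟩
  · intro F
    intro ij
    let u := F.2.choose
    have hu : TF (ball 0 R) u ∧ En u u ≤ M ∧ (F : L2) = cls u := F.2.choose_spec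
    refine ⟨⌊cell a u ij.1 ij.2 / δ⌋, ?_⟩
    have h1 := cell_bound hR hu.1 n hN0 ij.1 ij.2 ij.1.2 ij.2.2
    have h2 := poincare_ball hu.1 R hR.le (subset_refl _)
    have h3 : En u u ≤ |M| := hu.2.1.trans (le_abs_self M)
    have h4 : (cell a u ij.1 ij.2) ^ 2 ≤ B ^ 2 := by
      refine h1.trans ?_
      have h5 : B ^ 2 = h ^ 2 * (4 * R ^ 2 * |M|) := by
        rw [hB, mul_pow, mul_pow, Real.sq_sqrt (abs_nonneg M)]; ring
      rw [h5]
      apply mul_le_mul_of_nonneg_left _ (by positivity)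
      exact h2.trans (mul_le_mul_of_nonneg_left h3 (by positivity))
    have h5 := abs_le_of_sq_le_sq' h4 hB0
    have h6 : -(K : ℝ) ≤ cell a u ij.1 ij.2 / δ := by
      have : -(B / δ) ≤ cell a u ij.1 ij.2 / δ := by
        rw [← neg_div]; exact div_le_div_of_nonneg_right h5.1 hδ0.le
      linarith
    have h7 : cell a u ij.1 ij.2 / δ ≤ K := by
      have : cell a u ij.1 ij.2 / δ ≤ B / δ := div_le_div_of_nonneg_right h5.2 hδ0.le
      linarith
    rw [Finset.mem_Icc]
    constructor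
    · rw [Int.le_floor]; push_cast; exact h6
    · have := (Int.floor_le (cell a u ij.1 ij.2 / δ)).trans h7
      exact_mod_cast this
  · intro F G hFG
    set u := F.2.choose with hudef
    have hu : TF (ball 0 R) u ∧ En u u ≤ M ∧ (F : L2) = cls u := F.2.choose_spec
    set v := G.2.choose with hvdef
    have hv : TF (ball 0 R) v ∧ En v v ≤ M ∧ (G : L2) = cls v := G.2.choose_spec
    have hfl : ∀ i < n, ∀ j < n, ⌊cell a u i j / δ⌋ = ⌊cell a v i j / δ⌋ := by
      intro i hi j hj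
      have := congrFun hFG (⟨i, hi⟩, ⟨j, hj⟩)
      exact congrArg Subtype.val this
    have hw := hu.1.sub hv.1
    have hcell : ∀ i < n, ∀ j < n, |cell a (fun z => u z - v z) i j| ≤ δ := by
      intro i hi j hj
      rw [cell_sub hu.1 hv.1]
      have h1 := Int.abs_sub_lt_one_of_floor_eq_floor (hfl i hi j hj)
      rw [← sub_div, abs_div, abs_of_pos hδ0, div_lt_one hδ0] at h1
      exact h1.le
    have h1 := disc_ineq hR hw n hN0 δ hcell
    have h2 : En (fun z => u z - v z) (fun z => u z - v z) ≤ 4 * |M| := by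
      have := En_sub_le hu.1 hv.1
      have h3 : En u u ≤ |M| := hu.2.1.trans (le_abs_self M)
      have h4 : En v v ≤ |M| := hv.2.1.trans (le_abs_self M)
      linarith
    have h3 : h ^ 2 * En (fun z => u z - v z) (fun z => u z - v z) ≤ ε ^ 2 / 4 :=
      (mul_le_mul_of_nonneg_left h2 (by positivity)).trans hh1
    have h4 : Ip (fun z => u z - v z) (fun z => u z - v z) ≤ ε ^ 2 / 2 := by linarith
    rw [dist_eq_norm, hu.2.2, hv.2.2, ← cls_sub hu.1.memLp hv.1.memLp]
    rw [← norm_cls_sq hw] at h4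
    apply lt_of_pow_lt_pow_left₀ 2 hε.le
    have : 0 < ε ^ 2 := by positivity
    linarith

/-- Rellich compactness -/
theorem rellich {R M : ℝ} (hR : 0 < R) (u : ℕ → ℂ → ℝ) (hu : ∀ n, TF (ball 0 R) (u n))
    (hE : ∀ n, En (u n) (u n) ≤ M) :
    ∃ φ : ℕ → ℕ, StrictMono φ ∧ ∃ F : L2, Tendsto (fun n => cls (u (φ n))) atTop (nhds F) := by
  have hc : IsCompact (closure (bddSet R M)) :=
    (totallyBounded_bddSet R M hR).closure.isCompact_of_isClosed isClosed_closure
  obtain ⟨F, _, φ, hφ, hF⟩ := hc.tendsto_subseq (x := fun n => cls (u n))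
    (fun n => subset_closure ⟨u n, hu n, hE n, rfl⟩)
  exact ⟨φ, hφ, F, hF⟩

end Pool.Agent.Helper533.StarBox
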