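import Pool.Agent.Helper533.StarBox.Combine

open MeasureTheory Metric Set Filter
open scoped Topology

namespace Pool.Agent.Helper533.StarBox

/-- the properties of the box which are used for the existence of a minimiser -/
structure Box (D : Set ℂ) (A κ : ℝ) : Prop where
  isOpen : IsOpen D
  sub : D ⊆ ball 0 1
  scale : ∀ z ∈ D, ∀ t : ℝ, 0 < t → t ≤ 1 → (t : ℂ) * z ∈ D
  area0 : 0 < A
  area1 : ENNReal.ofReal A < volume D
  kpos : 0 < κ
  kle : κ ≤ 1 / 2
  cone : ∀ z ∉ D, ∃ e : ℂ, ‖e‖ = 1 ∧ ∀ L : ℝ, 0 < L → ∀ v : ℂ, ‖v - (L : ℂ) * e‖ ≤ κ * L → z + v ∉ D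

/-- the infimum of the shape optimisation problem -/
noncomputable def mval (D : Set ℂ) (A : ℝ) : ℝ :=
  sInf {x | ∃ Ω : Set ℂ, IsOpen Ω ∧ Ω ⊆ D ∧ volume Ω = ENNReal.ofReal A ∧ x = lambda1 Ω}

theorem vol_rect {I J : Set ℝ} (hI : MeasurableSet I) (hJ : MeasurableSet J) :
    (volume : Measure ℂ) {w : ℂ | w.re ∈ I ∧ w.im ∈ J} = volume I * volume J := by
  have h := Complex.volume_preserving_equiv_real_prod
  have e : {w : ℂ | w.re ∈ I ∧ w.im ∈ J} = Complex.measurableEquivRealProd ⁻¹' (I ×ˢ J) := by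
    ext w
    simp only [mem_setOf_eq, mem_preimage, mem_prod, Complex.measurableEquivRealProd_apply]
  rw [e, h.measure_preimage (hI.prod hJ).nullMeasurableSet, Measure.volume_eq_prod, Measure.prod_prod]

variable {D : Set ℂ} {A κ : ℝ}

theorem Box.fin (hD : Box D A κ) : volume D ≠ ⊤ := ((measure_mono hD.sub).trans_lt measure_ball_lt_top).ne

/-- extension of an open set to one of area exactly `A` -/
theorem Box.extend (hD : Box D A κ) {Ω : Set ℂ} (hΩ : IsOpen Ω) (hΩD : Ω ⊆ D) (hΩA : volume Ω ≤ ENNReal.ofReal A) :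
    ∃ Ω', IsOpen Ω' ∧ Ω ⊆ Ω' ∧ Ω' ⊆ D ∧ volume Ω' = ENNReal.ofReal A := by
  set G : ℝ → Set ℂ := fun s => Ω ∪ (D ∩ {z | z.re < s}) with hG
  have hGD : ∀ s, G s ⊆ D := fun s => union_subset hΩD inter_subset_left
  have hGo : ∀ s, IsOpen (G s) := fun s => hΩ.union (hD.isOpen.inter (isOpen_lt Complex.continuous_re continuous_const))
  have hfin : ∀ s, volume (G s) ≠ ⊤ := fun s => ((measure_mono (hGD s)).trans_lt hD.fin.lt_top).ne
  set g : ℝ → ℝ := fun s => (volume (G s)).toReal with hg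
  have hmono : ∀ s t, s ≤ t → g s ≤ g t ∧ g t ≤ g s + 2 * (t - s) := by
    intro s t hst
    constructor
    · apply ENNReal.toReal_mono (hfin t)
      apply measure_mono
      apply union_subset_union le_rfl
      rintro z ⟨h1, h2⟩
      exact ⟨h1, lt_of_lt_of_le h2 hst⟩
    · have h1 : volume (G t) ≤ volume (G s) + ENNReal.ofReal (2 * (t - s)) := by
        have h2 : G t ⊆ G s ∪ {w : ℂ | w.re ∈ Ico s t ∧ w.im ∈ Icc (-1:ℝ) 1} := by
          rintro z (h | ⟨h3, h4⟩)
          · exact Or.inl (Or.inl h)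
          · rcases lt_or_ge z.re s with h5 | h5
            · exact Or.inl (Or.inr ⟨h3, h5⟩)
            · right
              refine ⟨⟨h5, h4⟩, ?_⟩
              have h6 := hD.sub h3
              rw [mem_ball, dist_zero_right] at h6
              exact abs_le.mp ((Complex.abs_im_le_norm z).trans h6.le)
        refine (measure_mono h2).trans ((measure_union_le _ _).trans (add_le_add le_rfl ?_))
        rw [vol_rect measurableSet_Ico measurableSet_Icc, Real.volume_Ico, Real.volume_Icc, ← ENNReal.ofReal_mul (by linarith)]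
        apply ENNReal.ofReal_le_ofReal; linarith
      have h2 := ENNReal.toReal_mono (by finiteness [hfin s]) h1
      rw [ENNReal.toReal_add (hfin s) ENNReal.ofReal_ne_top, ENNReal.toReal_ofReal (by linarith)] at h2
      exact h2
  have hlip : LipschitzWith 2 g := by
    apply LipschitzWith.of_dist_le_mul
    intro s t
    rw [Real.dist_eq, Real.dist_eq]
    push_cast
    rcases le_total s t with h | h
    · have := hmono s t h
      rw [abs_sub_comm, abs_sub_comm s t, abs_of_nonneg (by linarith), abs_of_nonneg (by linarith)]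
      linarith
    · have := hmono t s h
      rw [abs_of_nonneg (by linarith), abs_of_nonneg (by linarith)]
      linarith
  have h0 : g (-2) ≤ A := by
    have e : G (-2) = Ω := by
      simp only [hG]
      apply union_eq_left.mpr
      rintro z ⟨h1, h2⟩
      exfalso
      have h6 := hD.sub h1
      rw [mem_ball, dist_zero_right] at h6
      have := (abs_le.mp ((Complex.abs_re_le_norm z).trans h6.le)).1
      rw [mem_setOf_eq] at h2
      linarith
    simp only [hg]
    rw [e]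
    exact ENNReal.toReal_le_of_le_ofReal hD.area0.le hΩA
  have h1 : A ≤ g 2 := by
    have e : G 2 = D := by
      apply subset_antisymm (hGD 2)
      intro z hz
      right
      refine ⟨hz, ?_⟩
      have h6 := hD.sub hz
      rw [mem_ball, dist_zero_right] at h6
      have := (abs_le.mp ((Complex.abs_re_le_norm z).trans h6.le)).2
      show z.re < 2
      linarith
    simp only [hg]
    rw [e]
    exact (ENNReal.ofReal_le_iff_le_toReal hD.fin).mp hD.area1.le
  obtain ⟨s, _, hs⟩ := intermediate_value_Icc (show (-2:ℝ) ≤ 2 by norm_num) hlip.continuous.continuousOn ⟨h0, h1⟩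
  refine ⟨G s, hGo s, subset_union_left, hGD s, ?_⟩
  rw [← hs]
  exact (ENNReal.ofReal_toReal (hfin s)).symm

theorem nonempty_of_area {Ω : Set ℂ} (hA : 0 < A) (h : volume Ω = ENNReal.ofReal A) : Ω.Nonempty := by
  by_contra hcon
  rw [not_nonempty_iff_eq_empty] at hcon
  rw [hcon, measure_empty] at h
  have := (ENNReal.ofReal_eq_zero.mp h.symm)
  linarith

theorem Box.mval_le (_hD : Box D A κ) {Ω : Set ℂ} (hΩ : IsOpen Ω) (hΩD : Ω ⊆ D) (hΩA : volume Ω = ENNReal.ofReal A) :
    mval D A ≤ lambda1 Ω := by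
  apply csInf_le
  · exact ⟨0, by rintro x ⟨Ω', _, _, _, rfl⟩; exact lambda1_nonneg _⟩
  · exact ⟨Ω, hΩ, hΩD, hΩA, rfl⟩

theorem Box.mval_nonneg (_hD : Box D A κ) : 0 ≤ mval D A := by
  apply Real.sInf_nonneg
  rintro x ⟨Ω', _, _, _, rfl⟩
  exact lambda1_nonneg _

/-- near-minimisers -/
theorem Box.near (hD : Box D A κ) {δ : ℝ} (hδ : 0 < δ) : ∃ (Ω : Set ℂ) (u : ℂ → ℝ), IsOpen Ω ∧ Ω ⊆ D ∧
    volume Ω = ENNReal.ofReal A ∧ TF Ω u ∧ Ip u u = 1 ∧ En u u ≤ mval D A + δ := by
  obtain ⟨Ω₀, h1, _, h3, h4⟩ := hD.extend isOpen_empty (empty_subset D) (by simp)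
  have hne : {x | ∃ Ω : Set ℂ, IsOpen Ω ∧ Ω ⊆ D ∧ volume Ω = ENNReal.ofReal A ∧ x = lambda1 Ω}.Nonempty :=
    ⟨_, Ω₀, h1, h3, h4, rfl⟩
  obtain ⟨x, ⟨Ω, g1, g2, g3, rfl⟩, hx⟩ := exists_lt_of_csInf_lt hne (show mval D A < mval D A + δ / 2 by linarith)
  obtain ⟨u, hu1, hu2, hu3⟩ := exists_near g1 (nonempty_of_area hD.area0 g3) (show 0 < δ / 2 by linarith)
  exact ⟨Ω, u, g1, g2, g3, hu1.tf, hu2, by linarith⟩

/-! ### dilations -/

theorem dil_tf {Ω : Set ℂ} {w : ℂ → ℝ} (hw : TF Ω w) {c : ℝ} (hc : c ≠ 0) : TF {z | c • z ∈ Ω} (fun z => w (c • z)) := by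
  refine ⟨hw.smooth.comp (contDiff_const_smul c), ?_, ?_⟩
  · exact hw.comp.comp_homeomorph (Homeomorph.smulOfNeZero c hc)
  · refine (tsupport_comp_subset_preimage w (continuous_const_smul c)).trans ?_
    intro z hz
    exact hw.supp hz

theorem dil_Ip (w : ℂ → ℝ) {c : ℝ} (_hc : 0 < c) : Ip (fun z => w (c • z)) (fun z => w (c • z)) = (c ^ 2)⁻¹ * Ip w w := by
  rw [Ip_self, Ip_self]
  have := Measure.integral_comp_smul (volume : Measure ℂ) (fun z => w z ^ 2) c
  rw [Complex.finrank_real_complex, abs_of_nonneg (by positivity), smul_eq_mul] at this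
  exact this

theorem dil_En {Ω : Set ℂ} {w : ℂ → ℝ} (_hw : TF Ω w) {c : ℝ} (hc : 0 < c) :
    En (fun z => w (c • z)) (fun z => w (c • z)) = En w w := by
  rw [En_self, En_self]
  have h1 : ∀ z, gx (fun z => w (c • z)) z ^ 2 + gy (fun z => w (c • z)) z ^ 2 = c ^ 2 * (gx w (c • z) ^ 2 + gy w (c • z) ^ 2) := by
    intro z
    unfold gx gy
    rw [fderiv_comp_smul]
    simp only [ContinuousLinearMap.smul_apply, smul_eq_mul]
    ring
  simp_rw [h1]
  rw [integral_const_mul]
  have := Measure.integral_comp_smul (volume : Measure ℂ) (fun z => gx w z ^ 2 + gy w z ^ 2) c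
  rw [Complex.finrank_real_complex, abs_of_nonneg (by positivity), smul_eq_mul] at this
  rw [this]
  field_simp

/-- the scaling inequality -/
theorem Box.scaled (hD : Box D A κ) {Ω : Set ℂ} (hΩ : IsOpen Ω) (hΩD : Ω ⊆ D) {τ : ℝ} (hτ : 0 ≤ τ)
    (hΩA : volume Ω ≤ ENNReal.ofReal (A + τ)) {w : ℂ → ℝ} (hw : TF Ω w) :
    mval D A * (A / (A + τ)) * Ip w w ≤ En w w := by
  have hA := hD.area0
  set t := √(A / (A + τ)) with ht
  have ht0 : 0 < t := Real.sqrt_pos.mpr (by positivity)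
  have htsq : t ^ 2 = A / (A + τ) := Real.sq_sqrt (by positivity)
  have ht1 : t ≤ 1 := by
    rw [ht, Real.sqrt_le_left zero_le_one, one_pow, div_le_one (by positivity)]; linarith
  set c := t⁻¹ with hc
  have hc0 : 0 < c := by positivity
  set Ωt : Set ℂ := {z | c • z ∈ Ω} with hΩt
  have hΩto : IsOpen Ωt := hΩ.preimage (continuous_const_smul c)
  have hΩtD : Ωt ⊆ D := by
    intro z hz
    have h1 := hD.scale _ (hΩD hz) t ht0 ht1
    have e : (t : ℂ) * (c • z) = z := by
      rw [Complex.real_smul, hc, ← mul_assoc, ← Complex.ofReal_mul, mul_inv_cancel₀ ht0.ne']; simp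
    rwa [e] at h1
  have hvol : volume Ωt ≤ ENNReal.ofReal A := by
    have h1 := Measure.addHaar_preimage_smul (volume : Measure ℂ) hc0.ne' Ω
    have e : (fun x : ℂ => c • x) ⁻¹' Ω = Ωt := rfl
    rw [e, Complex.finrank_real_complex] at h1
    rw [h1]
    have e2 : |(c ^ 2)⁻¹| = A / (A + τ) := by
      rw [abs_of_nonneg (by positivity), hc, inv_pow, inv_inv, htsq]
    rw [e2]
    calc ENNReal.ofReal (A / (A + τ)) * volume Ω ≤ ENNReal.ofReal (A / (A + τ)) * ENNReal.ofReal (A + τ) := by gcongr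
      _ = ENNReal.ofReal A := by
          rw [← ENNReal.ofReal_mul (by positivity)]; congr 1; field_simp
  obtain ⟨Ω', h1, h2, h3, h4⟩ := hD.extend hΩto hΩtD hvol
  have hm := hD.mval_le h1 h3 h4
  have hwt := (dil_tf hw hc0.ne').mono h2
  have h5 := lambda1_mul_le hwt
  rw [dil_Ip w hc0, dil_En hw hc0] at h5
  have e3 : (c ^ 2)⁻¹ = A / (A + τ) := by rw [hc, inv_pow, inv_inv, htsq]
  rw [e3] at h5
  have hI := Ip_nonneg w
  calc mval D A * (A / (A + τ)) * Ip w w = mval D A * (A / (A + τ) * Ip w w) := by ring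
    _ ≤ lambda1 Ω' * (A / (A + τ) * Ip w w) := mul_le_mul_of_nonneg_right hm (by positivity)
    _ ≤ En w w := h5

end Pool.Agent.Helper533.StarBox
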