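import Pool.Agent.Helper533.StarBox.Barrier

open MeasureTheory Metric Set Filter
open scoped Topology

namespace Pool.Agent.Helper533.StarBox

/-! ### calculus of the Laplacian -/

theorem contDiff_gx {u : ℂ → ℝ} (hu : ContDiff ℝ (⊤ : ℕ∞) u) : ContDiff ℝ (⊤ : ℕ∞) (gx u) :=
  (hu.fderiv_right (by simp)).clm_apply contDiff_const

theorem contDiff_gy {u : ℂ → ℝ} (hu : ContDiff ℝ (⊤ : ℕ∞) u) : ContDiff ℝ (⊤ : ℕ∞) (gy u) :=
  (hu.fderiv_right (by simp)).clm_apply contDiff_const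

theorem lap_mul {u v : ℂ → ℝ} (hu : ContDiff ℝ (⊤ : ℕ∞) u) (hv : ContDiff ℝ (⊤ : ℕ∞) v) (z : ℂ) :
    lap (fun z => u z * v z) z = u z * lap v z + v z * lap u z + 2 * (gx u z * gx v z + gy u z * gy v z) := by
  have du : Differentiable ℝ u := hu.differentiable (by simp)
  have dv : Differentiable ℝ v := hv.differentiable (by simp)
  have dux : Differentiable ℝ (gx u) := (contDiff_gx hu).differentiable (by simp)
  have dvx : Differentiable ℝ (gx v) := (contDiff_gx hv).differentiable (by simp)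
  have duy : Differentiable ℝ (gy u) := (contDiff_gy hu).differentiable (by simp)
  have dvy : Differentiable ℝ (gy v) := (contDiff_gy hv).differentiable (by simp)
  have e1 : gx (fun z => u z * v z) = fun z => u z * gx v z + v z * gx u z := by
    ext z; exact gx_mul (du z) (dv z)
  have e2 : gy (fun z => u z * v z) = fun z => u z * gy v z + v z * gy u z := by
    ext z; exact gy_mul (du z) (dv z)
  unfold lap
  rw [e1, e2, gx_add (u := fun z => u z * gx v z) (v := fun z => v z * gx u z) ((du z).mul (dvx z)) ((dv z).mul (dux z)),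
    gy_add (u := fun z => u z * gy v z) (v := fun z => v z * gy u z) ((du z).mul (dvy z)) ((dv z).mul (duy z)),
    gx_mul (du z) (dvx z), gx_mul (dv z) (dux z), gy_mul (du z) (dvy z), gy_mul (dv z) (duy z)]
  ring

theorem lap_comp {g : ℂ → ℝ} {β : ℝ → ℝ} (hg : ContDiff ℝ (⊤ : ℕ∞) g) (hβ : ContDiff ℝ (⊤ : ℕ∞) β) (z : ℂ) :
    lap (fun z => β (g z)) z = deriv (deriv β) (g z) * (gx g z ^ 2 + gy g z ^ 2) + deriv β (g z) * lap g z := by
  have dg : Differentiable ℝ g := hg.differentiable (by simp)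
  have dβ : Differentiable ℝ β := hβ.differentiable (by simp)
  have dβ' : Differentiable ℝ (deriv β) := (contDiff_infty_iff_deriv.mp hβ).2.differentiable (by simp)
  have dgx : Differentiable ℝ (gx g) := (contDiff_gx hg).differentiable (by simp)
  have dgy : Differentiable ℝ (gy g) := (contDiff_gy hg).differentiable (by simp)
  have e1 : gx (fun z => β (g z)) = fun z => deriv β (g z) * gx g z := by
    ext z; exact gx_comp' (dg z) (dβ _)
  have e2 : gy (fun z => β (g z)) = fun z => deriv β (g z) * gy g z := by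
    ext z; exact gy_comp' (dg z) (dβ _)
  have dc : DifferentiableAt ℝ (fun z => deriv β (g z)) z := (dβ' _).comp z (dg z)
  unfold lap
  rw [e1, e2, gx_mul dc (dgx z), gy_mul dc (dgy z), gx_comp' (dg z) (dβ' _), gy_comp' (dg z) (dβ' _)]
  ring

theorem gx_hol_re {f : ℂ → ℂ} {f' z : ℂ} (h : HasDerivAt f f' z) : gx (fun z => (f z).re) z = f'.re := by
  have h1 : HasFDerivAt (fun z => (f z).re) (Complex.reCLM.comp (f' • (1 : ℂ →L[ℝ] ℂ))) z :=
    Complex.reCLM.hasFDerivAt.comp z h.complexToReal_fderiv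
  unfold gx; rw [h1.fderiv]; simp

theorem gy_hol_re {f : ℂ → ℂ} {f' z : ℂ} (h : HasDerivAt f f' z) : gy (fun z => (f z).re) z = -f'.im := by
  have h1 : HasFDerivAt (fun z => (f z).re) (Complex.reCLM.comp (f' • (1 : ℂ →L[ℝ] ℂ))) z :=
    Complex.reCLM.hasFDerivAt.comp z h.complexToReal_fderiv
  unfold gy; rw [h1.fderiv]; simp

theorem gy_hol_im {f : ℂ → ℂ} {f' z : ℂ} (h : HasDerivAt f f' z) : gy (fun z => (f z).im) z = f'.re := by
  have h1 : HasFDerivAt (fun z => (f z).im) (Complex.imCLM.comp (f' • (1 : ℂ →L[ℝ] ℂ))) z :=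
    Complex.imCLM.hasFDerivAt.comp z h.complexToReal_fderiv
  unfold gy; rw [h1.fderiv]; simp

/-! ### circular sectors -/

/-- the circular sector with bisector `e`, half angle `π/(2μ)` and radius `R` -/
def Sec (e : ℂ) (μ : ℕ) (R : ℝ) : Set ℂ :=
  {z | ‖z‖ < R ∧ |(z * (starRingEnd ℂ) e).im| * Real.cos (Real.pi / (2 * μ)) <
    (z * (starRingEnd ℂ) e).re * Real.sin (Real.pi / (2 * μ))}

/-- the closed sector -/
def CSec (e : ℂ) (μ : ℕ) (R : ℝ) : Set ℂ :=
  {z | ‖z‖ ≤ R ∧ |(z * (starRingEnd ℂ) e).im| * Real.cos (Real.pi / (2 * μ)) ≤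
    (z * (starRingEnd ℂ) e).re * Real.sin (Real.pi / (2 * μ))}

noncomputable def PPo (e : ℂ) (μ : ℕ) (z : ℂ) : ℝ := ((z * (starRingEnd ℂ) e) ^ μ).re

noncomputable def DDi (R : ℝ) (z : ℂ) : ℝ := R ^ 2 - qq 0 z

noncomputable def phi (e : ℂ) (μ : ℕ) (R : ℝ) (z : ℂ) : ℝ := PPo e μ z * DDi R z

variable {e : ℂ} {μ : ℕ} {R : ℝ}

theorem Sec_open (e : ℂ) (μ : ℕ) (R : ℝ) : IsOpen (Sec e μ R) := by
  have h2 : IsOpen {z : ℂ | |(z * (starRingEnd ℂ) e).im| * Real.cos (Real.pi / (2 * μ)) <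
    (z * (starRingEnd ℂ) e).re * Real.sin (Real.pi / (2 * μ))} := isOpen_lt (by fun_prop) (by fun_prop)
  have h1 : IsOpen {z : ℂ | ‖z‖ < R} := isOpen_lt continuous_norm continuous_const
  exact h1.inter h2

theorem CSec_closed (e : ℂ) (μ : ℕ) (R : ℝ) : IsClosed (CSec e μ R) := by
  have h2 : IsClosed {z : ℂ | |(z * (starRingEnd ℂ) e).im| * Real.cos (Real.pi / (2 * μ)) ≤
    (z * (starRingEnd ℂ) e).re * Real.sin (Real.pi / (2 * μ))} := isClosed_le (by fun_prop) (by fun_prop)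
  have h1 : IsClosed {z : ℂ | ‖z‖ ≤ R} := isClosed_le continuous_norm continuous_const
  exact h1.inter h2

theorem Sec_sub (e : ℂ) (μ : ℕ) (R : ℝ) : Sec e μ R ⊆ CSec e μ R := fun _ hz => ⟨hz.1.le, hz.2.le⟩

theorem CSec_compact (e : ℂ) (μ : ℕ) (R : ℝ) : IsCompact (CSec e μ R) := by
  apply IsCompact.of_isClosed_subset (isCompact_closedBall (0:ℂ) R) (CSec_closed e μ R)
  intro z hz
  rw [mem_closedBall, dist_zero_right]; exact hz.1

theorem norm_mul_conj (he : ‖e‖ = 1) (z : ℂ) : ‖z * (starRingEnd ℂ) e‖ = ‖z‖ := by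
  rw [norm_mul, Complex.norm_conj, he, mul_one]

theorem alpha_bounds (hμ : 1 ≤ μ) : 0 < Real.pi / (2 * μ) ∧ Real.pi / (2 * μ) ≤ Real.pi / 2 := by
  have hμ' : (1 : ℝ) ≤ μ := by exact_mod_cast hμ
  have := Real.pi_pos
  constructor
  · positivity
  · apply div_le_div_of_nonneg_left this.le (by norm_num) (by linarith)

/-- in the closed cone, `Re w^μ = |w|^μ sin(μ(α-|arg w|))` -/
theorem cone_formula (hμ : 1 ≤ μ) {w : ℂ} (h : |w.im| * Real.cos (Real.pi / (2 * μ)) ≤ w.re * Real.sin (Real.pi / (2 * μ))) :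
    ∃ t, 0 ≤ t ∧ t ≤ Real.pi / (2 * μ) ∧ (w ^ μ).re = ‖w‖ ^ μ * Real.sin (μ * t) ∧
      w.re * Real.sin (Real.pi / (2 * μ)) - |w.im| * Real.cos (Real.pi / (2 * μ)) = ‖w‖ * Real.sin t := by
  obtain ⟨hα0, hα1⟩ := alpha_bounds hμ
  set α := Real.pi / (2 * μ) with hα
  have hμ' : (1 : ℝ) ≤ μ := by exact_mod_cast hμ
  have hpi := Real.pi_pos
  by_cases hw : w = 0
  · refine ⟨0, le_refl _, hα0.le, ?_, ?_⟩
    · rw [hw, norm_zero, zero_pow (by omega), zero_pow (by omega)]; simp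
    · rw [hw]; simp
  have hρ : 0 < ‖w‖ := norm_pos_iff.mpr hw
  set ω := w.arg with hω
  have hre : w.re = ‖w‖ * Real.cos ω := by rw [hω, Complex.cos_arg hw]; field_simp
  have him : w.im = ‖w‖ * Real.sin ω := by rw [hω, Complex.sin_arg]; field_simp
  have hωpi : |ω| ≤ Real.pi := Complex.abs_arg_le_pi w
  have habs : |w.im| = ‖w‖ * Real.sin |ω| := by
    rw [him, abs_mul, abs_of_pos hρ]
    congr 1
    rcases abs_cases ω with h1 | h1
    · rw [h1.1, abs_of_nonneg (Real.sin_nonneg_of_nonneg_of_le_pi h1.2 (by rw [h1.1] at hωpi; exact hωpi))]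
    · rw [h1.1, Real.sin_neg, abs_of_nonpos]
      apply Real.sin_nonpos_of_nonpos_of_neg_pi_le h1.2.le
      rw [h1.1] at hωpi; linarith
  have hcos : Real.cos ω = Real.cos |ω| := (Real.cos_abs ω).symm
  have key : w.re * Real.sin α - |w.im| * Real.cos α = ‖w‖ * Real.sin (α - |ω|) := by
    rw [hre, habs, hcos, Real.sin_sub]; ring
  have hle : |ω| ≤ α := by
    by_contra hcon
    push Not at hcon
    have h1 : Real.sin (|ω| - α) > 0 := Real.sin_pos_of_pos_of_lt_pi (by linarith) (by linarith)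
    have h2 : Real.sin (α - |ω|) < 0 := by
      rw [← neg_sub, Real.sin_neg]; linarith
    have h3 : ‖w‖ * Real.sin (α - |ω|) < 0 := mul_neg_of_pos_of_neg hρ h2
    linarith
  refine ⟨α - |ω|, by linarith, by linarith [abs_nonneg ω], ?_, key⟩
  have h1 : w ^ μ = ((‖w‖ ^ μ : ℝ) : ℂ) * Complex.exp ((μ * ω : ℝ) * Complex.I) := by
    conv_lhs => rw [← Complex.norm_mul_exp_arg_mul_I w]
    rw [mul_pow, ← Complex.exp_nat_mul]
    push_cast
    congr 2; ring
  rw [h1, Complex.re_ofReal_mul, Complex.exp_ofReal_mul_I_re]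
  congr 1
  have h2 : Real.cos (μ * ω) = Real.cos (μ * |ω|) := by
    rw [← Real.cos_abs (μ * ω), abs_mul, abs_of_nonneg (by linarith : (0:ℝ) ≤ μ)]
  rw [h2, ← Real.sin_pi_div_two_sub]
  congr 1
  rw [mul_sub, hα]
  field_simp

theorem PPo_CSec (hμ : 1 ≤ μ) (he : ‖e‖ = 1) {z : ℂ} (hz : z ∈ CSec e μ R) : 0 ≤ PPo e μ z := by
  obtain ⟨t, ht0, ht1, h1, _⟩ := cone_formula hμ hz.2
  unfold PPo
  rw [h1]
  have hμ' : (1 : ℝ) ≤ μ := by exact_mod_cast hμ
  apply mul_nonneg (by positivity)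
  apply Real.sin_nonneg_of_nonneg_of_le_pi (by positivity)
  have : (μ:ℝ) * t ≤ μ * (Real.pi / (2 * μ)) := mul_le_mul_of_nonneg_left ht1 (by positivity)
  have h3 : (μ:ℝ) * (Real.pi / (2 * μ)) = Real.pi / 2 := by field_simp
  linarith [Real.pi_pos]

/-- `phi` vanishes on the boundary of the sector -/
theorem phi_bdry (hμ : 1 ≤ μ) {z : ℂ} (hz : z ∈ CSec e μ R) (hz2 : z ∉ Sec e μ R) : phi e μ R z = 0 := by
  unfold phi
  by_cases hn : ‖z‖ < R
  · have h3 : |(z * (starRingEnd ℂ) e).im| * Real.cos (Real.pi / (2 * μ)) =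
        (z * (starRingEnd ℂ) e).re * Real.sin (Real.pi / (2 * μ)) := by
      apply le_antisymm hz.2
      by_contra hcon
      push Not at hcon
      exact hz2 ⟨hn, hcon⟩
    obtain ⟨t, ht0, ht1, h1, h2⟩ := cone_formula hμ hz.2
    have h4 : ‖z * (starRingEnd ℂ) e‖ * Real.sin t = 0 := by linarith
    have : PPo e μ z = 0 := by
      unfold PPo
      rw [h1]
      rcases mul_eq_zero.mp h4 with h5 | h5
      · rw [h5, zero_pow (by omega), zero_mul]
      · have ht : t = 0 := by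
          by_contra hne
          have := Real.sin_pos_of_pos_of_lt_pi (lt_of_le_of_ne ht0 (Ne.symm hne))
            (by linarith [(alpha_bounds hμ).2, Real.pi_pos])
          linarith
        rw [ht, mul_zero, Real.sin_zero, mul_zero]
    rw [this, zero_mul]
  · have : ‖z‖ = R := le_antisymm hz.1 (not_lt.mp hn)
    unfold DDi
    rw [qq_eq, sub_zero, this, sub_self, mul_zero]

/-- lower bound for the harmonic polynomial -/
theorem PPo_lower (hμ : 1 ≤ μ) (he : ‖e‖ = 1) {z : ℂ} (hz : z ∈ Sec e μ R) :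
    ‖z‖ ^ (μ - 1) * ((z * (starRingEnd ℂ) e).re * Real.sin (Real.pi / (2 * μ)) -
      |(z * (starRingEnd ℂ) e).im| * Real.cos (Real.pi / (2 * μ))) ≤ PPo e μ z := by
  obtain ⟨t, ht0, ht1, h1, h2⟩ := cone_formula hμ hz.2.le
  unfold PPo
  rw [h1, h2, norm_mul_conj he]
  have hμ' : (1 : ℝ) ≤ μ := by exact_mod_cast hμ
  have h3 : ‖z‖ ^ μ = ‖z‖ ^ (μ - 1) * ‖z‖ := by
    rw [← pow_succ]; congr 1; omega
  rw [h3, mul_assoc]
  apply mul_le_mul_of_nonneg_left _ (by positivity)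
  apply mul_le_mul_of_nonneg_left _ (norm_nonneg _)
  have h4 : (μ:ℝ) * t ≤ μ * (Real.pi / (2 * μ)) := mul_le_mul_of_nonneg_left ht1 (by positivity)
  have h5 : (μ:ℝ) * (Real.pi / (2 * μ)) = Real.pi / 2 := by field_simp
  apply Real.sin_le_sin_of_le_of_le_pi_div_two (by linarith [Real.pi_pos]) (by linarith)
  nlinarith

theorem PPo_smooth (e : ℂ) (μ : ℕ) : ContDiff ℝ (⊤ : ℕ∞) (PPo e μ) := by
  unfold PPo
  exact Complex.reCLM.contDiff.comp ((contDiff_id.mul contDiff_const).pow μ)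

theorem DDi_smooth (R : ℝ) : ContDiff ℝ (⊤ : ℕ∞) (DDi R) := contDiff_const.sub (qq_smooth 0)

theorem phi_smooth (e : ℂ) (μ : ℕ) (R : ℝ) : ContDiff ℝ (⊤ : ℕ∞) (phi e μ R) := (PPo_smooth e μ).mul (DDi_smooth R)

/-- complex derivative of `(z ē)^μ` -/
noncomputable def pd (e : ℂ) (μ : ℕ) (z : ℂ) : ℂ := μ * (z * (starRingEnd ℂ) e) ^ (μ - 1) * (starRingEnd ℂ) e

theorem pd_deriv (e : ℂ) (μ : ℕ) (z : ℂ) : HasDerivAt (fun z => (z * (starRingEnd ℂ) e) ^ μ) (pd e μ z) z := by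
  have := ((hasDerivAt_id z).mul_const ((starRingEnd ℂ) e)).pow μ
  simp only [one_mul, id] at this
  exact this

theorem gx_PPo (e : ℂ) (μ : ℕ) (z : ℂ) : gx (PPo e μ) z = (pd e μ z).re := gx_hol_re (pd_deriv e μ z)

theorem gy_PPo (e : ℂ) (μ : ℕ) (z : ℂ) : gy (PPo e μ) z = -(pd e μ z).im := gy_hol_re (pd_deriv e μ z)

theorem lap_PPo (e : ℂ) (μ : ℕ) (z : ℂ) : lap (PPo e μ) z = 0 := by
  have h : DifferentiableAt ℂ (pd e μ) z := by
    unfold pd; fun_prop
  have e1 : gx (PPo e μ) = fun z => (pd e μ z).re := funext fun z => gx_PPo e μ z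
  have e2 : gy (PPo e μ) = fun z => -(pd e μ z).im := funext fun z => gy_PPo e μ z
  unfold lap
  rw [e1, e2, gx_hol_re h.hasDerivAt]
  have e3 : gy (fun z => -(pd e μ z).im) z = - gy (fun z => (pd e μ z).im) z := by
    unfold gy; rw [fderiv_fun_neg]; rfl
  rw [e3, gy_hol_im h.hasDerivAt]; ring

theorem gx_DDi (R : ℝ) (z : ℂ) : gx (DDi R) z = -(2 * z.re) := by
  unfold DDi
  rw [gx_sub (differentiableAt_const _) ((qq_smooth 0).differentiable (by simp) z), gx_qq]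
  unfold gx; simp

theorem gy_DDi (R : ℝ) (z : ℂ) : gy (DDi R) z = -(2 * z.im) := by
  unfold DDi
  rw [gy_sub (differentiableAt_const _) ((qq_smooth 0).differentiable (by simp) z), gy_qq]
  unfold gy; simp

theorem lap_DDi (R : ℝ) (z : ℂ) : lap (DDi R) z = -4 := by
  have e1 : gx (DDi R) = fun z => -(2 * (z.re - 0)) := by ext z; rw [gx_DDi, sub_zero]
  have e2 : gy (DDi R) = fun z => -(2 * (z.im - 0)) := by ext z; rw [gy_DDi, sub_zero]
  unfold lap
  rw [e1, e2]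
  have e3 : gx (fun z => -(2 * (z.re - 0))) z = - gx (fun z => 2 * (z.re - 0)) z := by
    unfold gx; rw [fderiv_fun_neg]; rfl
  have e4 : gy (fun z => -(2 * (z.im - 0))) z = - gy (fun z => 2 * (z.im - 0)) z := by
    unfold gy; rw [fderiv_fun_neg]; rfl
  rw [e3, e4, gx_re, gy_im]; norm_num

theorem euler (hμ : 1 ≤ μ) (z : ℂ) : z.re * (pd e μ z).re - z.im * (pd e μ z).im = μ * PPo e μ z := by
  have h : z * pd e μ z = μ * (z * (starRingEnd ℂ) e) ^ μ := by
    unfold pd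
    have : (z * (starRingEnd ℂ) e) ^ μ = (z * (starRingEnd ℂ) e) ^ (μ - 1) * (z * (starRingEnd ℂ) e) := by
      rw [← pow_succ]; congr 1; omega
    rw [this]; ring
  have := congrArg Complex.re h
  rw [Complex.mul_re] at this
  unfold PPo
  rw [this]
  have e2 : ((μ : ℂ) * (z * (starRingEnd ℂ) e) ^ μ).re = ((μ : ℝ) : ℝ) * ((z * (starRingEnd ℂ) e) ^ μ).re := by
    have : ((μ : ℂ)) = (((μ : ℝ)) : ℂ) := by push_cast; rfl
    rw [this, Complex.re_ofReal_mul]
  exact e2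

theorem pd_norm (he : ‖e‖ = 1) (z : ℂ) : (pd e μ z).re ^ 2 + (pd e μ z).im ^ 2 = (μ * ‖z‖ ^ (μ - 1)) ^ 2 := by
  have : (pd e μ z).re ^ 2 + (pd e μ z).im ^ 2 = ‖pd e μ z‖ ^ 2 := by
    rw [← Complex.normSq_eq_norm_sq, Complex.normSq_apply]; ring
  rw [this]
  congr 1
  unfold pd
  rw [norm_mul, norm_mul, norm_pow, norm_mul_conj he, Complex.norm_conj, he]; simp

/-- `J = |∇φ|² + φ Δφ` -/
noncomputable def JJ (e : ℂ) (μ : ℕ) (R : ℝ) (z : ℂ) : ℝ :=
  (μ * ‖z‖ ^ (μ - 1)) ^ 2 * DDi R z ^ 2 + 4 * ‖z‖ ^ 2 * PPo e μ z ^ 2 - (8 * μ + 4) * PPo e μ z ^ 2 * DDi R z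

theorem lap_phi_sq (hμ : 1 ≤ μ) (he : ‖e‖ = 1) (z : ℂ) : lap (fun z => phi e μ R z * phi e μ R z) z = 2 * JJ e μ R z := by
  have hP := PPo_smooth e μ
  have hD := DDi_smooth R
  have dP : DifferentiableAt ℝ (PPo e μ) z := hP.differentiable (by simp) z
  have dD : DifferentiableAt ℝ (DDi R) z := hD.differentiable (by simp) z
  have h1 : gx (phi e μ R) z = PPo e μ z * (-(2 * z.re)) + DDi R z * (pd e μ z).re := by
    show gx (fun z => PPo e μ z * DDi R z) z = _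
    rw [gx_mul dP dD, gx_DDi, gx_PPo]
  have h2 : gy (phi e μ R) z = PPo e μ z * (-(2 * z.im)) + DDi R z * (-(pd e μ z).im) := by
    show gy (fun z => PPo e μ z * DDi R z) z = _
    rw [gy_mul dP dD, gy_DDi, gy_PPo]
  have h3 : lap (phi e μ R) z = -(4 * (μ + 1)) * PPo e μ z := by
    show lap (fun z => PPo e μ z * DDi R z) z = _
    rw [lap_mul hP hD, lap_DDi, lap_PPo, gx_DDi, gy_DDi, gx_PPo, gy_PPo]
    have := euler (e := e) hμ z
    linear_combination (-4) * this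
  rw [lap_mul (phi_smooth e μ R) (phi_smooth e μ R), h1, h2, h3]
  unfold JJ
  have e1 := euler (e := e) hμ z
  have e2 := pd_norm (μ := μ) he z
  have e3 : ‖z‖ ^ 2 = z.re ^ 2 + z.im ^ 2 := by
    rw [← Complex.normSq_eq_norm_sq, Complex.normSq_apply]; ring
  rw [e3, ← e2]
  unfold phi
  set P := PPo e μ z
  set D := DDi R z
  set p := pd e μ z
  linear_combination (-8) * P * D * e1

end Pool.Agent.Helper533.StarBox
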