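import Pool.Agent.Helper533.StarBox.Sector

open MeasureTheory Metric Set Filter
open scoped Topology

namespace Pool.Agent.Helper533.StarBox

theorem LocPos.ae_pos {U : Set ℂ} {u : L2} (h : LocPos U u) : ∀ᵐ z, z ∈ U → 0 < (u : ℂ → ℝ) z := by
  have : (volume : Measure ℂ) {z | z ∈ U ∧ ¬ 0 < (u : ℂ → ℝ) z} = 0 := by
    apply measure_null_of_locally_null
    rintro z ⟨hz, _⟩
    obtain ⟨r, hr, c, hc, h1⟩ := h z hz
    refine ⟨{w | w ∈ ball z r ∧ ¬ 0 < (u : ℂ → ℝ) w} ∩ {z | z ∈ U ∧ ¬ 0 < (u : ℂ → ℝ) z}, ?_, ?_⟩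
    · rw [mem_nhdsWithin]
      refine ⟨ball z r, isOpen_ball, mem_ball_self hr, ?_⟩
      rintro w ⟨hw1, hw2⟩
      exact ⟨⟨hw1, hw2.2⟩, hw2⟩
    · apply measure_mono_null inter_subset_left
      have h2 : ∀ᵐ w, w ∉ {w | w ∈ ball z r ∧ ¬ 0 < (u : ℂ → ℝ) w} := by
        filter_upwards [h1] with w hw hw'
        exact hw'.2 (hc.trans_le (hw hw'.1))
      exact measure_eq_zero_iff_ae_notMem.mpr h2
  have h2 := measure_eq_zero_iff_ae_notMem.mp this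
  filter_upwards [h2] with z hz hzU
  by_contra hcon
  exact hz ⟨hzU, hcon⟩

theorem LocPos.compact {U : Set ℂ} {u : L2} (h : LocPos U u) {K : Set ℂ} (hK : IsCompact K) (hKU : K ⊆ U) :
    ∃ c > 0, ∀ᵐ z, z ∈ K → c ≤ (u : ℂ → ℝ) z := by
  have key := hK.induction_on (p := fun s => ∃ c > 0, ∀ᵐ z, z ∈ s → c ≤ (u : ℂ → ℝ) z)
    ⟨1, one_pos, Eventually.of_forall fun z hz => absurd hz (notMem_empty z)⟩
    (by
      rintro s t hst ⟨c, hc, h1⟩
      refine ⟨c, hc, ?_⟩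
      filter_upwards [h1] with z hz hzs
      exact hz (hst hzs))
    (by
      rintro s t ⟨c, hc, h1⟩ ⟨d, hd, h2⟩
      refine ⟨min c d, lt_min hc hd, ?_⟩
      filter_upwards [h1, h2] with z a b hz
      rcases hz with hz | hz
      · exact (min_le_left _ _).trans (a hz)
      · exact (min_le_right _ _).trans (b hz))
    (by
      intro z hz
      obtain ⟨r, hr, c, hc, h1⟩ := h z (hKU hz)
      exact ⟨ball z r, mem_nhdsWithin_of_mem_nhds (ball_mem_nhds z hr), c, hc, h1⟩)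
  exact key

variable {e : ℂ} {μ : ℕ} {R : ℝ}

def Core (e : ℂ) (μ : ℕ) (R : ℝ) : Set ℂ :=
  {z | z ∈ CSec e μ R ∧ ‖z‖ ^ μ / 3 ≤ PPo e μ z ∧ (μ : ℝ) ^ 2 * DDi R z ≤ (8 * μ + 4) * ‖z‖ ^ 2 ∧
    ‖z‖ ^ 2 / (2 * μ + 1) ≤ DDi R z}

theorem Core_compact (e : ℂ) (μ : ℕ) (R : ℝ) : IsCompact (Core e μ R) := by
  have hP : Continuous (PPo e μ) := (PPo_smooth e μ).continuous
  have hD : Continuous (DDi R) := (DDi_smooth R).continuous
  have h1 : IsClosed {z : ℂ | ‖z‖ ^ μ / 3 ≤ PPo e μ z} := isClosed_le (by fun_prop) hP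
  have h2 : IsClosed {z : ℂ | (μ : ℝ) ^ 2 * DDi R z ≤ (8 * μ + 4) * ‖z‖ ^ 2} := isClosed_le (by fun_prop) (by fun_prop)
  have h3 : IsClosed {z : ℂ | ‖z‖ ^ 2 / (2 * μ + 1) ≤ DDi R z} := isClosed_le (by fun_prop) hD
  exact (CSec_compact e μ R).inter_right (h1.inter (h2.inter h3))

theorem DDi_zero (R : ℝ) (z : ℂ) (hz : ‖z‖ = 0) : DDi R z = R ^ 2 := by
  unfold DDi; rw [qq_eq, sub_zero, hz]; ring

theorem Core_sub (hμ : 1 ≤ μ) (hR : 0 < R) : Core e μ R ⊆ Sec e μ R := by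
  rintro z ⟨h1, h2, h3, h4⟩
  have hμ' : (1 : ℝ) ≤ μ := by exact_mod_cast hμ
  by_contra hcon
  have hphi := phi_bdry hμ h1 hcon
  have hz0 : 0 < ‖z‖ := by
    rcases eq_or_lt_of_le (norm_nonneg z) with h | h
    · rw [DDi_zero R z h.symm, ← h] at h3
      have : 0 < (μ : ℝ) ^ 2 * R ^ 2 := by positivity
      nlinarith
    · exact h
  have hD : 0 < DDi R z := lt_of_lt_of_le (by positivity) h4
  have hP : 0 < PPo e μ z := lt_of_lt_of_le (by positivity) h2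
  unfold phi at hphi
  have := mul_pos hP hD
  linarith

theorem PPo_sq_le (he : ‖e‖ = 1) (z : ℂ) : PPo e μ z ^ 2 ≤ (‖z‖ ^ μ) ^ 2 := by
  have h : |PPo e μ z| ≤ ‖z‖ ^ μ := by
    unfold PPo
    refine (Complex.abs_re_le_norm _).trans ?_
    rw [norm_pow, norm_mul_conj he]
  exact sq_le_sq' (neg_le_of_abs_le h) (le_of_abs_le h)

theorem DDi_nonneg {z : ℂ} (hz : z ∈ CSec e μ R) : 0 ≤ DDi R z := by
  unfold DDi
  rw [qq_eq, sub_zero, sub_nonneg]
  exact pow_le_pow_left₀ (norm_nonneg _) hz.1 2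

theorem JJ_nonneg (hμ : 1 ≤ μ) (he : ‖e‖ = 1) {z : ℂ} (hz : z ∈ CSec e μ R) (hz2 : z ∉ Core e μ R) :
    0 ≤ JJ e μ R z := by
  have hμ' : (1 : ℝ) ≤ μ := by exact_mod_cast hμ
  have hD := DDi_nonneg hz
  have hP := PPo_CSec hμ he hz
  have hP2 := PPo_sq_le (μ := μ) he z
  have hpow : ‖z‖ ^ μ = ‖z‖ ^ (μ - 1) * ‖z‖ := by
    rw [← pow_succ]; congr 1; omega
  have hn := norm_nonneg z
  set ρ := ‖z‖
  set q := ρ ^ (μ - 1) with hq
  have hq0 : 0 ≤ q := by positivity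
  set P := PPo e μ z with hPd
  set D := DDi R z with hDd
  unfold JJ
  rw [← hPd, ← hDd]
  rw [hpow] at hP2
  show 0 ≤ (μ * q) ^ 2 * D ^ 2 + 4 * ρ ^ 2 * P ^ 2 - (8 * μ + 4) * P ^ 2 * D
  by_cases c1 : ρ ^ μ / 3 ≤ P
  · by_cases c2 : (μ : ℝ) ^ 2 * D ≤ (8 * μ + 4) * ρ ^ 2
    · have c3 : D < ρ ^ 2 / (2 * μ + 1) := by
        by_contra hcon
        push Not at hcon
        exact hz2 ⟨hz, c1, c2, hcon⟩
      rw [lt_div_iff₀ (by positivity)] at c3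
      have h1 : (8 * (μ:ℝ) + 4) * D ≤ 4 * ρ ^ 2 := by linarith
      have h2 : (8 * (μ:ℝ) + 4) * P ^ 2 * D ≤ 4 * ρ ^ 2 * P ^ 2 := by
        calc (8 * (μ:ℝ) + 4) * P ^ 2 * D = P ^ 2 * ((8 * (μ:ℝ) + 4) * D) := by ring
          _ ≤ P ^ 2 * (4 * ρ ^ 2) := mul_le_mul_of_nonneg_left h1 (sq_nonneg _)
          _ = _ := by ring
      have h3 : 0 ≤ (μ * q) ^ 2 * D ^ 2 := by positivity
      linarith
    · push Not at c2
      have h1 : (8 * (μ:ℝ) + 4) * P ^ 2 * D ≤ (μ * q) ^ 2 * D ^ 2 := by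
        calc (8 * (μ:ℝ) + 4) * P ^ 2 * D ≤ (8 * (μ:ℝ) + 4) * (q * ρ) ^ 2 * D := by gcongr
          _ = (q ^ 2 * D) * ((8 * μ + 4) * ρ ^ 2) := by ring
          _ ≤ (q ^ 2 * D) * ((μ : ℝ) ^ 2 * D) := mul_le_mul_of_nonneg_left c2.le (by positivity)
          _ = _ := by ring
      have h3 : 0 ≤ 4 * ρ ^ 2 * P ^ 2 := by positivity
      linarith
  · push Not at c1
    rw [hpow] at c1
    have h1 : (8 * (μ:ℝ) + 4) * P ≤ 4 * μ * (q * ρ) := by
      have h2 : 0 ≤ q * ρ := by positivity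
      nlinarith
    have h4 : (8 * (μ:ℝ) + 4) * P ^ 2 * D ≤ 4 * μ * (q * ρ) * P * D := by
      calc (8 * (μ:ℝ) + 4) * P ^ 2 * D = (P * D) * ((8 * (μ:ℝ) + 4) * P) := by ring
        _ ≤ (P * D) * (4 * μ * (q * ρ)) := mul_le_mul_of_nonneg_left h1 (by positivity)
        _ = _ := by ring
    nlinarith [sq_nonneg (μ * q * D - 2 * ρ * P)]

theorem JJ_lower (hμ : 1 ≤ μ) (he : ‖e‖ = 1) (hR0 : 0 < R) (hR1 : R ≤ 1) {z : ℂ} (hz : z ∈ CSec e μ R) :
    -JJ e μ R z ≤ 8 * μ + 4 := by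
  have hμ' : (1 : ℝ) ≤ μ := by exact_mod_cast hμ
  have hD := DDi_nonneg hz
  have hP2 := PPo_sq_le (μ := μ) he z
  have hn := norm_nonneg z
  have hz1 : ‖z‖ ≤ 1 := hz.1.trans hR1
  have h1 : (‖z‖ ^ μ) ^ 2 ≤ 1 := pow_le_one₀ (by positivity) (pow_le_one₀ hn hz1)
  have h2 : DDi R z ≤ 1 := by
    unfold DDi
    rw [qq_eq]
    nlinarith [sq_nonneg ‖z - 0‖]
  have h3 : PPo e μ z ^ 2 * DDi R z ≤ 1 := by
    have := mul_le_mul (hP2.trans h1) h2 hD zero_le_one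
    linarith
  unfold JJ
  have h4 : 0 ≤ (μ * ‖z‖ ^ (μ - 1)) ^ 2 * DDi R z ^ 2 := by positivity
  have h5 : 0 ≤ 4 * ‖z‖ ^ 2 * PPo e μ z ^ 2 := by positivity
  have h6 : (8 * (μ:ℝ) + 4) * PPo e μ z ^ 2 * DDi R z ≤ 8 * μ + 4 := by
    calc (8 * (μ:ℝ) + 4) * PPo e μ z ^ 2 * DDi R z = (8 * (μ:ℝ) + 4) * (PPo e μ z ^ 2 * DDi R z) := by ring
      _ ≤ (8 * (μ:ℝ) + 4) * 1 := mul_le_mul_of_nonneg_left h3 (by positivity)
      _ = _ := by ring
  linarith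

/-- the global version of the truncated square -/
noncomputable def Psi (e : ℂ) (μ : ℕ) (R δ : ℝ) (z : ℂ) : ℝ := δ * BB (phi e μ R z * phi e μ R z / δ - 1)

open Classical in
noncomputable def psi (e : ℂ) (μ : ℕ) (R δ : ℝ) (z : ℂ) : ℝ := if z ∈ Sec e μ R then Psi e μ R δ z else 0

variable {δ : ℝ}

theorem Psi_smooth (e : ℂ) (μ : ℕ) (R δ : ℝ) : ContDiff ℝ (⊤ : ℕ∞) (Psi e μ R δ) := by
  unfold Psi
  exact contDiff_const.mul (BB_smooth.comp ((((phi_smooth e μ R).mul (phi_smooth e μ R)).div_const δ).sub contDiff_const))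

theorem psi_tsupport (hμ : 1 ≤ μ) (hδ : 0 < δ) :
    tsupport (psi e μ R δ) ⊆ {z | z ∈ CSec e μ R ∧ δ ≤ phi e μ R z * phi e μ R z} := by
  have hc : IsClosed {z | z ∈ CSec e μ R ∧ δ ≤ phi e μ R z * phi e μ R z} := by
    have hφ : Continuous (phi e μ R) := (phi_smooth e μ R).continuous
    exact (CSec_closed e μ R).inter (isClosed_le continuous_const (hφ.mul hφ))
  apply closure_minimal _ hc
  intro z hz
  rw [Function.mem_support] at hz
  unfold psi at hz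
  split_ifs at hz with h
  · refine ⟨Sec_sub e μ R h, ?_⟩
    by_contra hcon
    push Not at hcon
    apply hz
    unfold Psi
    rw [BB_zero, mul_zero]
    rw [sub_nonpos, div_le_one hδ]; exact hcon.le
  · exact absurd rfl hz

theorem psi_tsupport' (hμ : 1 ≤ μ) (hδ : 0 < δ) : tsupport (psi e μ R δ) ⊆ Sec e μ R := by
  intro z hz
  obtain ⟨h1, h2⟩ := psi_tsupport hμ hδ hz
  by_contra hcon
  rw [phi_bdry hμ h1 hcon] at h2
  linarith

theorem psi_eventually {z : ℂ} (hz : z ∈ Sec e μ R) : psi e μ R δ =ᶠ[𝓝 z] Psi e μ R δ := by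
  filter_upwards [(Sec_open e μ R).mem_nhds hz] with w hw
  unfold psi; rw [if_pos hw]

theorem psi_tf (hμ : 1 ≤ μ) (hδ : 0 < δ) : TF (Sec e μ R) (psi e μ R δ) := by
  refine ⟨?_, ?_, psi_tsupport' hμ hδ⟩
  · apply contDiff_of_tsupport
    intro z hz
    exact (Psi_smooth e μ R δ).contDiffAt.congr_of_eventuallyEq (psi_eventually (psi_tsupport' hμ hδ hz))
  · apply IsCompact.of_isClosed_subset (CSec_compact e μ R) (isClosed_tsupport _)
    intro z hz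
    exact (psi_tsupport hμ hδ hz).1

theorem lap_congr {u v : ℂ → ℝ} {z : ℂ} (h : u =ᶠ[𝓝 z] v) : lap u z = lap v z := by
  have h1 := h.fderiv (𝕜 := ℝ)
  have e1 : gx u =ᶠ[𝓝 z] gx v := h1.mono fun w hw => by unfold gx; rw [hw]
  have e2 : gy u =ᶠ[𝓝 z] gy v := h1.mono fun w hw => by unfold gy; rw [hw]
  unfold lap
  have f1 : gx (gx u) z = gx (gx v) z := by
    show fderiv ℝ (gx u) z 1 = fderiv ℝ (gx v) z 1
    rw [e1.fderiv_eq]
  have f2 : gy (gy u) z = gy (gy v) z := by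
    show fderiv ℝ (gy u) z Complex.I = fderiv ℝ (gy v) z Complex.I
    rw [e2.fderiv_eq]
  rw [f1, f2]

theorem lap_Psi (hμ : 1 ≤ μ) (he : ‖e‖ = 1) (hδ : 0 < δ) (z : ℂ) :
    ∃ a b : ℝ, 0 ≤ a ∧ 0 ≤ b ∧ b ≤ 1 ∧ lap (Psi e μ R δ) z = a + b * (2 * JJ e μ R z) := by
  set β : ℝ → ℝ := fun t => δ * BB (t / δ - 1) with hβ
  have hβs : ContDiff ℝ (⊤ : ℕ∞) β := contDiff_const.mul (BB_smooth.comp ((contDiff_id.div_const δ).sub contDiff_const))
  have hβ1 : deriv β = fun t => Real.smoothTransition (t / δ - 1) := by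
    ext t
    have h1 : HasDerivAt (fun t : ℝ => t / δ - 1) (1 / δ) t := ((hasDerivAt_id t).div_const δ).sub_const 1
    have h2 : HasDerivAt (fun t => BB (t / δ - 1)) (Real.smoothTransition (t / δ - 1) * (1 / δ)) t :=
      (BB_deriv _).comp t h1
    have h3 := h2.const_mul δ
    rw [h3.deriv]; field_simp
  have hβ2 : ∀ t, 0 ≤ deriv (deriv β) t := by
    intro t
    rw [hβ1]
    apply Monotone.deriv_nonneg
    intro s t hst
    apply Real.smoothTransition.monotone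
    have := div_le_div_of_nonneg_right hst hδ.le
    linarith
  have hg : ContDiff ℝ (⊤ : ℕ∞) (fun z => phi e μ R z * phi e μ R z) := (phi_smooth e μ R).mul (phi_smooth e μ R)
  have := lap_comp hg hβs z
  refine ⟨deriv (deriv β) (phi e μ R z * phi e μ R z) * (gx (fun z => phi e μ R z * phi e μ R z) z ^ 2 +
    gy (fun z => phi e μ R z * phi e μ R z) z ^ 2), deriv β (phi e μ R z * phi e μ R z), ?_, ?_, ?_, ?_⟩
  · exact mul_nonneg (hβ2 _) (by positivity)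
  · rw [hβ1]; exact Real.smoothTransition.nonneg _
  · rw [hβ1]; exact Real.smoothTransition.le_one _
  · rw [lap_phi_sq hμ he] at this
    exact this

theorem lap_zero_of_notMem {u : ℂ → ℝ} {z : ℂ} (hz : z ∉ tsupport u) : lap u z = 0 := by
  rw [lap_congr (eventually_zero_of_notMem hz)]
  unfold lap gx gy; simp

theorem sector_barrier {U : Set ℂ} (hU : IsOpen U) {u : L2} (hu : GS U u) (hu0 : ∀ᵐ z, 0 ≤ (u : ℂ → ℝ) z)
    (hlp : LocPos U u) (hl : 0 < lambda1 U) (hμ : 1 ≤ μ) (he : ‖e‖ = 1) (hR : 0 < R) (hR1 : R ≤ 1)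
    (hsub : Sec e μ R ⊆ U) : ∃ c > 0, ∀ᵐ z, z ∈ Sec e μ R → c * phi e μ R z ^ 2 ≤ (u : ℂ → ℝ) z := by
  have hμ' : (1 : ℝ) ≤ μ := by exact_mod_cast hμ
  obtain ⟨cK, hcK, hK⟩ := hlp.compact (Core_compact e μ R) ((Core_sub hμ hR).trans hsub)
  set C : ℝ := 2 * (8 * μ + 4) with hC
  have hC0 : 0 < C := by positivity
  set c := lambda1 U * cK / (2 * C) with hc
  have hc0 : 0 < c := by positivity
  refine ⟨c, hc0, ?_⟩
  have key : ∀ n : ℕ, ∀ᵐ z, c * psi e μ R (1 / ((n : ℝ) + 1)) z ≤ (u : ℂ → ℝ) z := by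
    intro n
    set δ : ℝ := 1 / ((n : ℝ) + 1) with hδ
    have hδ0 : 0 < δ := by positivity
    have ht := psi_tf (e := e) (R := R) hμ hδ0
    apply barrier hU hu hu0 hlp.ae_pos hl hC0 hcK hK (ht.mono hsub)
    · intro z
      by_cases hz : z ∈ Sec e μ R
      · rw [lap_congr (psi_eventually hz)]
        obtain ⟨a, b, ha, hb0, hb1, hab⟩ := lap_Psi (R := R) hμ he hδ0 z
        rw [hab]
        have hJ := JJ_lower hμ he hR hR1 (Sec_sub e μ R hz)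
        rcases le_total 0 (JJ e μ R z) with h | h
        · have := mul_nonneg hb0 h; linarith
        · have h1 : b * -(JJ e μ R z) ≤ 1 * (8 * μ + 4) := mul_le_mul hb1 hJ (by linarith) zero_le_one
          linarith
      · rw [lap_zero_of_notMem (fun h => hz (psi_tsupport' hμ hδ0 h))]; linarith
    · intro z hzK
      by_cases hz : z ∈ Sec e μ R
      · rw [lap_congr (psi_eventually hz)]
        obtain ⟨a, b, ha, hb0, hb1, hab⟩ := lap_Psi (R := R) hμ he hδ0 z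
        rw [hab]
        have hJ := JJ_nonneg hμ he (Sec_sub e μ R hz) hzK
        have := mul_nonneg hb0 hJ
        linarith
      · rw [lap_zero_of_notMem (fun h => hz (psi_tsupport' hμ hδ0 h))]
  have key2 := ae_all_iff.mpr key
  filter_upwards [key2] with z hz hzS
  have h1 : ∀ n : ℕ, c * (phi e μ R z ^ 2 - 2 * (1 / ((n : ℝ) + 1))) ≤ (u : ℂ → ℝ) z := by
    intro n
    refine le_trans ?_ (hz n)
    apply mul_le_mul_of_nonneg_left _ hc0.le
    unfold psi; rw [if_pos hzS]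
    unfold Psi
    set δ : ℝ := 1 / ((n : ℝ) + 1) with hδ
    have hδ0 : 0 < δ := by positivity
    have h2 := BB_ge (phi e μ R z * phi e μ R z / δ - 1)
    have h3 := mul_le_mul_of_nonneg_left h2 hδ0.le
    have h4 : δ * (phi e μ R z * phi e μ R z / δ - 1 - 1) = phi e μ R z ^ 2 - 2 * δ := by field_simp; ring
    linarith
  have h2 : Tendsto (fun n : ℕ => c * (phi e μ R z ^ 2 - 2 * (1 / ((n : ℝ) + 1)))) atTop (𝓝 (c * (phi e μ R z ^ 2 - 2 * 0))) :=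
    (tendsto_const_nhds.sub (tendsto_one_div_add_atTop_nhds_zero_nat.const_mul 2)).const_mul c
  rw [mul_zero, sub_zero] at h2
  exact le_of_tendsto' h2 h1

end Pool.Agent.Helper533.StarBox
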