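import Pool.Agent.Helper533.StarBox.Tip2

open MeasureTheory Metric Set Filter
open scoped Topology

namespace Pool.Agent.Helper533.StarBox

theorem DE_of_re {ν : ℕ} {ε : ℝ} {z : ℂ} (hz : z ∈ DE ν ε) (h : ε ≤ z.re) : z ∈ D0 ν := by
  rcases hz with hz | hz
  · exact hz
  · exfalso
    rw [mem_ball, dist_zero_right] at hz
    have := (le_abs_self z.re).trans (Complex.abs_re_le_norm z)
    linarith

/-- the slab `ρ < x < 2ρ` -/
def slab (ρ : ℝ) : Set ℂ := {z | ρ < z.re ∧ z.re < 2 * ρ}

theorem slab_meas (ρ : ℝ) : MeasurableSet (slab ρ) :=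
  ((isOpen_lt continuous_const Complex.continuous_re).inter
    (isOpen_lt Complex.continuous_re continuous_const)).measurableSet

/-- weighted form with an indicator of an abscissa set -/
theorem poincare_ind {U : Set ℂ} {v : ℂ → ℝ} (hv : TF U v) (I : Set ℝ) (hI : MeasurableSet I) (L : ℝ) (hL : 0 ≤ L)
    (h : ∀ x ∈ I, ∀ y, L ≤ |y| → (⟨x, y⟩ : ℂ) ∉ tsupport v) :
    ∫ z in {z : ℂ | z.re ∈ I}, v z ^ 2 ≤ 4 * L ^ 2 * ∫ z in {z : ℂ | z.re ∈ I}, (gx v z ^ 2 + gy v z ^ 2) := by
  classical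
  have hm : MeasurableSet {z : ℂ | z.re ∈ I} := Complex.measurable_re hI
  have h1 := poincare_vert hv (I.indicator (fun _ => 1)) (measurable_const.indicator hI)
    (fun x => indicator_nonneg (fun _ _ => zero_le_one) x) 1
    (fun x => indicator_le_self' (fun _ _ => zero_le_one) x) (fun _ => L) (fun x hx => by
      have hx' : x ∈ I := by
        by_contra hcon
        exact hx (indicator_of_notMem hcon _)
      exact ⟨hL, h x hx'⟩) (4 * L ^ 2) (fun _ _ => le_refl _)
  have e : ∀ f : ℂ → ℝ, (fun z : ℂ => I.indicator (fun _ => (1:ℝ)) z.re * f z) = {z : ℂ | z.re ∈ I}.indicator f := by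
    intro f; ext z
    by_cases hz : z.re ∈ I
    · rw [indicator_of_mem hz, indicator_of_mem (show z ∈ {z : ℂ | z.re ∈ I} from hz), one_mul]
    · rw [indicator_of_notMem hz, indicator_of_notMem (show z ∉ {z : ℂ | z.re ∈ I} from hz), zero_mul]
  rw [e (fun z => v z ^ 2), e (fun z => gy v z ^ 2), integral_indicator hm, integral_indicator hm] at h1
  refine h1.trans (mul_le_mul_of_nonneg_left ?_ (by positivity))
  apply integral_mono
  · have : Integrable (fun z => gy v z ^ 2) := (hv.gy_cont.pow 2).integrable_of_hasCompactSupport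
      (IsCompact.of_isClosed_subset hv.gy_comp (isClosed_tsupport _) (tsupport_sub_of_zero (fun z h => by simp [h])))
    exact this.integrableOn
  · exact hv.ensq_int.integrableOn
  · intro z
    show gy v z ^ 2 ≤ gx v z ^ 2 + gy v z ^ 2
    have := sq_nonneg (gx v z)
    linarith

/-- cutting along a slab -/
theorem slab_cut {ν : ℕ} (hν : 2 ≤ ν) {ε ρ : ℝ} (hε : 0 < ε) (hερ : ε ≤ ρ) {v : ℂ → ℝ} (hv : TF (DE ν ε) v) :
    ∃ w, TF (D0 ν) w ∧ tsupport w ⊆ tsupport v ∧
      En w w ≤ En v v + (1 + 32 * Cs ^ 2 * kk ν ^ 2) * ∫ z in slab ρ, (gx v z ^ 2 + gy v z ^ 2) ∧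
      Ip v v - 16 * ρ ^ 2 * En v v ≤ Ip w w := by
  have hρ : 0 < ρ := hε.trans_le hερ
  have hk := kk_pos hν
  have hk1 := kk_le_one hν
  set η : ℝ → ℝ := fun x => 1 - chi ρ x with hη
  have hηs : ContDiff ℝ (⊤ : ℕ∞) η := contDiff_const.sub (chi_smooth _)
  have hηd : ∀ x, deriv η x = - deriv (chi ρ) x := by
    intro x
    have := (((chi_smooth ρ).differentiable (by simp)) x).hasDerivAt.const_sub 1
    exact this.deriv
  have hη0 : ∀ x, x < ρ → η x = 0 := by
    intro x hx
    simp only [hη]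
    rw [chi_one hρ hx.le, sub_self]
  have hηa : ∀ x, 0 ≤ η x ∧ η x ≤ 1 := by
    intro x
    have h1 := chi_nonneg ρ x
    have h2 := chi_le_one ρ x
    simp only [hη]
    constructor <;> linarith
  have hw := cut_tf hv hηs
  have hsupp : tsupport (fun z => η z.re * v z) ⊆ {z | ρ ≤ z.re} ∩ tsupport v := tsupport_cut' hv hη0
  refine ⟨fun z => η z.re * v z, ⟨hw.1, hw.2, ?_⟩, hsupp.trans inter_subset_right, ?_, ?_⟩
  · intro z hz
    obtain ⟨h1, h2⟩ := hsupp hz
    exact DE_of_re (hv.supp h2) (hερ.trans h1)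
  · -- energy
    set Sg := ∫ z in slab ρ, (gx v z ^ 2 + gy v z ^ 2) with hSg
    have hsl : ∫ z in slab ρ, v z ^ 2 ≤ 4 * (2 * ρ * kk ν) ^ 2 * Sg := by
      have := poincare_ind hv (Ioo ρ (2 * ρ)) measurableSet_Ioo (2 * ρ * kk ν) (by positivity) (by
        intro x hx y hy hmem
        have h1 : (⟨x, y⟩ : ℂ) ∈ D0 ν := DE_of_re (hv.supp hmem) (hερ.trans hx.1.le)
        have h2 := D0_im hν h1
        have h3 : kk ν * x ≤ kk ν * (2 * ρ) := mul_le_mul_of_nonneg_left hx.2.le hk.le
        have h4 : |y| < kk ν * x := h2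
        linarith)
      exact this
    have hpt : ∀ z, gx (fun z => η z.re * v z) z ^ 2 + gy (fun z => η z.re * v z) z ^ 2 ≤
        (gx v z ^ 2 + gy v z ^ 2) + (slab ρ).indicator (fun z => (gx v z ^ 2 + gy v z ^ 2) + 2 * (Cs ^ 2 / ρ ^ 2) * v z ^ 2) z := by
      intro z
      have dc : DifferentiableAt ℝ (fun z : ℂ => η z.re) z := (cut_smooth hηs).differentiable (by simp) z
      rw [gx_mul dc (hv.diff z), gy_mul dc (hv.diff z), gx_cut hηs, gy_cut hηs, hηd]
      obtain ⟨a0, a1⟩ := hηa z.re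
      have asq : η z.re ^ 2 ≤ 1 := by nlinarith
      have g1 := sq_nonneg (gx v z)
      have g2 := sq_nonneg (gy v z)
      by_cases hz : z ∈ slab ρ
      · rw [indicator_of_mem hz]
        have d1 := chi_deriv_sq hρ z.re
        have d2 := mul_le_mul_of_nonneg_right d1 (sq_nonneg (v z))
        have d3 := mul_le_mul_of_nonneg_right asq g1
        have d4 := mul_le_mul_of_nonneg_right asq g2
        nlinarith [sq_nonneg (η z.re * gx v z + v z * deriv (chi ρ) z.re)]
      · rw [indicator_of_notMem hz, add_zero]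
        have d0 : deriv (chi ρ) z.re = 0 ∨ v z = 0 ∨ (z.re = ρ ∨ z.re = 2 * ρ) := by
          unfold slab at hz
          rw [mem_setOf_eq, not_and_or, not_lt, not_lt] at hz
          rcases hz with h | h
          · rcases eq_or_lt_of_le h with h' | h'
            · right; right; left; exact h'
            · left; exact chi_deriv_zero hρ (Or.inl h')
          · rcases eq_or_lt_of_le h with h' | h'
            · right; right; right; exact h'.symm
            · left; exact chi_deriv_zero hρ (Or.inr h')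
        have d1 : deriv (chi ρ) z.re = 0 ∨ v z = 0 := by
          rcases d0 with h | h | h
          · exact Or.inl h
          · exact Or.inr h
          · left
            have hcd : Continuous (deriv (chi ρ)) := (contDiff_infty_iff_deriv.mp (chi_smooth ρ)).2.continuous
            rcases h with h | h
            · rw [h]
              have h1 : Tendsto (deriv (chi ρ)) (𝓝[<] ρ) (𝓝 (deriv (chi ρ) ρ)) := hcd.continuousAt.tendsto.mono_left nhdsWithin_le_nhds
              have h2 : Tendsto (deriv (chi ρ)) (𝓝[<] ρ) (𝓝 0) := by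
                apply tendsto_const_nhds.congr'
                filter_upwards [self_mem_nhdsWithin] with x hx
                exact (chi_deriv_zero hρ (Or.inl hx)).symm
              exact tendsto_nhds_unique h1 h2
            · rw [h]
              have h1 : Tendsto (deriv (chi ρ)) (𝓝[>] (2 * ρ)) (𝓝 (deriv (chi ρ) (2 * ρ))) := hcd.continuousAt.tendsto.mono_left nhdsWithin_le_nhds
              have h2 : Tendsto (deriv (chi ρ)) (𝓝[>] (2 * ρ)) (𝓝 0) := by
                apply tendsto_const_nhds.congr'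
                filter_upwards [self_mem_nhdsWithin] with x hx
                exact (chi_deriv_zero hρ (Or.inr hx)).symm
              exact tendsto_nhds_unique h1 h2
        have d2 : v z * -deriv (chi ρ) z.re = 0 := by
          rcases d1 with h | h
          · rw [h]; ring
          · rw [h]; ring
        rw [d2]
        have d3 := mul_le_mul_of_nonneg_right asq g1
        have d4 := mul_le_mul_of_nonneg_right asq g2
        nlinarith
    have hi2 : Integrable ((slab ρ).indicator (fun z => (gx v z ^ 2 + gy v z ^ 2) + 2 * (Cs ^ 2 / ρ ^ 2) * v z ^ 2)) :=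
      (hv.ensq_int.add (hv.sq_int.const_mul _)).indicator (slab_meas ρ)
    have h1 : En (fun z => η z.re * v z) (fun z => η z.re * v z) ≤ En v v +
        ∫ z in slab ρ, ((gx v z ^ 2 + gy v z ^ 2) + 2 * (Cs ^ 2 / ρ ^ 2) * v z ^ 2) := by
      rw [En_self, En_self, ← integral_indicator (slab_meas ρ), ← integral_add hv.ensq_int hi2]
      exact integral_mono hw.ensq_int (hv.ensq_int.add hi2) hpt
    rw [integral_add hv.ensq_int.integrableOn (hv.sq_int.const_mul _).integrableOn, integral_const_mul] at h1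
    refine h1.trans ?_
    have h2 : 2 * (Cs ^ 2 / ρ ^ 2) * ∫ z in slab ρ, v z ^ 2 ≤ 2 * (Cs ^ 2 / ρ ^ 2) * (4 * (2 * ρ * kk ν) ^ 2 * Sg) :=
      mul_le_mul_of_nonneg_left hsl (by positivity)
    have e2 : 2 * (Cs ^ 2 / ρ ^ 2) * (4 * (2 * ρ * kk ν) ^ 2 * Sg) = 32 * Cs ^ 2 * kk ν ^ 2 * Sg := by
      field_simp; ring
    rw [e2] at h2
    rw [← hSg]
    linarith
  · -- mass
    have hlow : ∫ z in {z : ℂ | z.re ∈ Iic (2 * ρ)}, v z ^ 2 ≤ 16 * ρ ^ 2 * En v v := by
      have h1 := poincare_ind hv (Iic (2 * ρ)) measurableSet_Iic (2 * ρ) (by positivity) (by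
        intro x hx y hy hmem
        have hx' : x ≤ 2 * ρ := hx
        rcases hv.supp hmem with h | h
        · have h2 := D0_im hν h
          have h4 : |y| < kk ν * x := h2
          have hx0 : 0 < x := D0_re hν h
          nlinarith
        · rw [mem_ball, dist_zero_right] at h
          have h2 : |y| ≤ ‖(⟨x, y⟩ : ℂ)‖ := Complex.abs_im_le_norm ⟨x, y⟩
          linarith)
      refine h1.trans ?_
      have e : 4 * (2 * ρ) ^ 2 = 16 * ρ ^ 2 := by ring
      rw [e, En_self]
      apply mul_le_mul_of_nonneg_left _ (by positivity)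
      exact setIntegral_le_integral hv.ensq_int (Eventually.of_forall fun z => by positivity)
    have hm : MeasurableSet {z : ℂ | z.re ∈ Iic (2 * ρ)} := Complex.measurable_re measurableSet_Iic
    have h2 : Ip v v - ∫ z in {z : ℂ | z.re ∈ Iic (2 * ρ)}, v z ^ 2 ≤ Ip (fun z => η z.re * v z) (fun z => η z.re * v z) := by
      have h3 := integral_add_compl hm hv.sq_int
      rw [Ip_self, Ip_self]
      have h4 : ∫ z in {z : ℂ | z.re ∈ Iic (2 * ρ)}ᶜ, v z ^ 2 ≤ ∫ z, (η z.re * v z) ^ 2 := by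
        rw [← integral_indicator hm.compl]
        apply integral_mono (hv.sq_int.indicator hm.compl) hw.sq_int
        intro z
        show indicator {z : ℂ | z.re ∈ Iic (2 * ρ)}ᶜ (fun z => v z ^ 2) z ≤ (η z.re * v z) ^ 2
        by_cases hz : z.re ≤ 2 * ρ
        · rw [indicator_of_notMem (show z ∉ {z : ℂ | z.re ∈ Iic (2 * ρ)}ᶜ from fun h => h hz)]; positivity
        · rw [indicator_of_mem (show z ∈ {z : ℂ | z.re ∈ Iic (2 * ρ)}ᶜ from hz)]
          simp only [hη]
          rw [chi_zero hρ (by push Not at hz; exact hz.le)]; simp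
      linarith
    linarith

/-- the small disc at the tip is irrelevant -/
theorem small_disc {ν : ℕ} (hν : 2 ≤ ν) {Λ η : ℝ} (hΛ : 0 < Λ) (hη : 0 < η) :
    ∃ ε₀ > 0, ∀ ε, 0 < ε → ε ≤ ε₀ → ∀ v, TF (DE ν ε) v → Ip v v = 1 → En v v ≤ Λ →
      ∃ w, TF (D0 ν) w ∧ tsupport w ⊆ tsupport v ∧ En w w ≤ En v v + η ∧ 1 - η ≤ Ip w w := by
  have hk := kk_pos hν
  have hCs := Cs_pos
  set B := 1 + 32 * Cs ^ 2 * kk ν ^ 2 with hB
  have hB0 : 0 < B := by positivity
  obtain ⟨J, hJ⟩ : ∃ J : ℕ, B * Λ / η < J := exists_nat_gt _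
  have hJ0 : (0:ℝ) < J := lt_of_le_of_lt (by positivity) hJ
  have hJpos : 0 < J := by exact_mod_cast hJ0
  rw [div_lt_iff₀ hη] at hJ
  -- maximal scale
  obtain ⟨ρm, hρm, hρm2⟩ : ∃ ρm > 0, 16 * ρm ^ 2 * Λ ≤ η := by
    refine ⟨min 1 (η / (16 * Λ)), by positivity, ?_⟩
    set m := min 1 (η / (16 * Λ)) with hm
    have h1 : m ≤ 1 := min_le_left _ _
    have h2 : m ≤ η / (16 * Λ) := min_le_right _ _
    have h0 : 0 < m := by rw [hm]; positivity
    rw [le_div_iff₀ (by positivity)] at h2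
    nlinarith
  refine ⟨ρm / 2 ^ J, by positivity, ?_⟩
  intro ε hε hε2 v hv hI hE
  set ρ : ℕ → ℝ := fun j => ρm / 2 ^ J * 2 ^ j with hρ
  have hρ0 : ∀ j, 0 < ρ j := fun j => by simp only [hρ]; positivity
  have hρε : ∀ j, ε ≤ ρ j := fun j => by
    simp only [hρ]
    have : (1:ℝ) ≤ 2 ^ j := one_le_pow₀ (by norm_num)
    have h0 : 0 < ρm / 2 ^ J := by positivity
    nlinarith
  have hρle : ∀ j < J, ρ j ≤ ρm := fun j hj => by
    simp only [hρ]
    have h1 : (2:ℝ) ^ j ≤ 2 ^ J := pow_le_pow_right₀ (by norm_num) hj.le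
    rw [div_mul_eq_mul_div, div_le_iff₀ (by positivity)]
    exact mul_le_mul_of_nonneg_left h1 hρm.le
  -- disjoint slabs
  have hdisj : (↑(Finset.range J) : Set ℕ).Pairwise (Function.onFun Disjoint fun j => slab (ρ j)) := by
    intro i _ j _ hij
    show Disjoint (slab (ρ i)) (slab (ρ j))
    rw [Set.disjoint_left]
    rintro z ⟨h1, h2⟩ ⟨h3, h4⟩
    rcases lt_or_gt_of_ne hij with h | h
    · have : 2 * ρ i ≤ ρ j := by
        simp only [hρ]
        have h5 : (2:ℝ) ^ (i + 1) ≤ 2 ^ j := pow_le_pow_right₀ (by norm_num) h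
        rw [pow_succ] at h5
        have h0 : 0 < ρm / 2 ^ J := by positivity
        nlinarith
      linarith
    · have : 2 * ρ j ≤ ρ i := by
        simp only [hρ]
        have h5 : (2:ℝ) ^ (j + 1) ≤ 2 ^ i := pow_le_pow_right₀ (by norm_num) h
        rw [pow_succ] at h5
        have h0 : 0 < ρm / 2 ^ J := by positivity
        nlinarith
      linarith
  have hsum : ∑ j ∈ Finset.range J, ∫ z in slab (ρ j), (gx v z ^ 2 + gy v z ^ 2) ≤ Λ := by
    rw [← integral_biUnion_finset _ (fun j _ => slab_meas _) hdisj (fun j _ => hv.ensq_int.integrableOn)]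
    refine le_trans ?_ hE
    rw [En_self]
    exact setIntegral_le_integral hv.ensq_int (Eventually.of_forall fun z => by positivity)
  obtain ⟨j, hj, hjle⟩ : ∃ j ∈ Finset.range J, ∫ z in slab (ρ j), (gx v z ^ 2 + gy v z ^ 2) ≤ Λ / J := by
    by_contra hcon
    push Not at hcon
    have h1 : ∑ j ∈ Finset.range J, Λ / J < ∑ j ∈ Finset.range J, ∫ z in slab (ρ j), (gx v z ^ 2 + gy v z ^ 2) :=
      Finset.sum_lt_sum_of_nonempty ⟨0, Finset.mem_range.mpr hJpos⟩ hcon
    rw [Finset.sum_const, Finset.card_range, nsmul_eq_mul] at h1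
    have : (J:ℝ) * (Λ / J) = Λ := by field_simp
    linarith
  obtain ⟨w, hw1, hw2, hw3, hw4⟩ := slab_cut hν hε (hρε j) hv
  refine ⟨w, hw1, hw2, ?_, ?_⟩
  · refine hw3.trans ?_
    have h1 : B * (∫ z in slab (ρ j), (gx v z ^ 2 + gy v z ^ 2)) ≤ B * (Λ / J) := mul_le_mul_of_nonneg_left hjle hB0.le
    have h2 : B * (Λ / J) ≤ η := by
      rw [mul_div_assoc', div_le_iff₀ hJ0]; linarith
    linarith
  · refine le_trans ?_ hw4
    rw [hI]
    have h1 : ρ j ≤ ρm := hρle j (Finset.mem_range.mp hj)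
    have h2 : 16 * ρ j ^ 2 * En v v ≤ 16 * ρm ^ 2 * Λ := by
      have := pow_le_pow_left₀ (hρ0 j).le h1 2
      exact mul_le_mul (by linarith) hE (En_nonneg v) (by positivity)
    linarith

end Pool.Agent.Helper533.StarBox
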