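import Pool.Agent.Helper533.StarBox.Form

open MeasureTheory Metric Set Filter
open scoped Topology

namespace Pool.Agent.Helper533.StarBox

/-! ### squared distance and radial functions -/

noncomputable def qq (z₀ z : ℂ) : ℝ := (z.re - z₀.re) ^ 2 + (z.im - z₀.im) ^ 2

theorem qq_eq (z₀ z : ℂ) : qq z₀ z = ‖z - z₀‖ ^ 2 := by
  unfold qq
  rw [← Complex.normSq_eq_norm_sq, Complex.normSq_apply]; simp; ring

theorem qq_hasFDerivAt (z₀ z : ℂ) : HasFDerivAt (qq z₀)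
    ((2 * (z.re - z₀.re)) • Complex.reCLM + (2 * (z.im - z₀.im)) • Complex.imCLM) z := by
  have h1 : HasFDerivAt (fun z : ℂ => z.re - z₀.re) Complex.reCLM z := Complex.reCLM.hasFDerivAt.sub_const _
  have h2 : HasFDerivAt (fun z : ℂ => z.im - z₀.im) Complex.imCLM z := Complex.imCLM.hasFDerivAt.sub_const _
  have h3 := (h1.pow 2).add (h2.pow 2)
  refine HasFDerivAt.congr_fderiv (f := qq z₀) h3 ?_
  simp

theorem qq_smooth (z₀ : ℂ) : ContDiff ℝ (⊤ : ℕ∞) (qq z₀) := by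
  unfold qq
  apply ContDiff.add
  · exact (Complex.reCLM.contDiff.sub contDiff_const).pow 2
  · exact (Complex.imCLM.contDiff.sub contDiff_const).pow 2

theorem gx_qq (z₀ z : ℂ) : gx (qq z₀) z = 2 * (z.re - z₀.re) := by
  unfold gx; rw [(qq_hasFDerivAt z₀ z).fderiv]; simp

theorem gy_qq (z₀ z : ℂ) : gy (qq z₀) z = 2 * (z.im - z₀.im) := by
  unfold gy; rw [(qq_hasFDerivAt z₀ z).fderiv]; simp

theorem gx_re (a : ℝ) (z : ℂ) : gx (fun z => 2 * (z.re - a)) z = 2 := by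
  have h1 : HasFDerivAt (fun z : ℂ => 2 * (z.re - a)) ((2:ℝ) • Complex.reCLM) z :=
    (Complex.reCLM.hasFDerivAt.sub_const _).const_mul 2
  unfold gx; rw [h1.fderiv]; simp

theorem gy_im (a : ℝ) (z : ℂ) : gy (fun z => 2 * (z.im - a)) z = 2 := by
  have h1 : HasFDerivAt (fun z : ℂ => 2 * (z.im - a)) ((2:ℝ) • Complex.imCLM) z :=
    (Complex.imCLM.hasFDerivAt.sub_const _).const_mul 2
  unfold gy; rw [h1.fderiv]; simp

theorem radial_lap (Ψ : ℝ → ℝ) (hΨ : ContDiff ℝ (⊤ : ℕ∞) Ψ) (z₀ z : ℂ) :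
    lap (fun z => Ψ (qq z₀ z)) z = 4 * (qq z₀ z * deriv (deriv Ψ) (qq z₀ z) + deriv Ψ (qq z₀ z)) := by
  have hd : Differentiable ℝ Ψ := hΨ.differentiable (by simp)
  have hd' : ContDiff ℝ (⊤ : ℕ∞) (deriv Ψ) := (contDiff_infty_iff_deriv.mp hΨ).2
  have hdd : Differentiable ℝ (deriv Ψ) := hd'.differentiable (by simp)
  have hq : Differentiable ℝ (qq z₀) := (qq_smooth z₀).differentiable (by simp)
  have e1 : gx (fun z => Ψ (qq z₀ z)) = fun z => deriv Ψ (qq z₀ z) * (2 * (z.re - z₀.re)) := by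
    ext z; rw [gx_comp' (hq z) (hd _), gx_qq]
  have e2 : gy (fun z => Ψ (qq z₀ z)) = fun z => deriv Ψ (qq z₀ z) * (2 * (z.im - z₀.im)) := by
    ext z; rw [gy_comp' (hq z) (hd _), gy_qq]
  have d1 : DifferentiableAt ℝ (fun z : ℂ => 2 * (z.re - z₀.re)) z :=
    ((Complex.reCLM.hasFDerivAt.sub_const _).const_mul 2).differentiableAt
  have d2 : DifferentiableAt ℝ (fun z : ℂ => 2 * (z.im - z₀.im)) z :=
    ((Complex.imCLM.hasFDerivAt.sub_const _).const_mul 2).differentiableAt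
  have d3 : DifferentiableAt ℝ (fun z : ℂ => deriv Ψ (qq z₀ z)) z := (hdd _).comp z (hq z)
  unfold lap
  rw [e1, e2, gx_mul d3 d1, gy_mul d3 d2, gx_comp' (hq z) (hdd _), gy_comp' (hq z) (hdd _), gx_re, gy_im, gx_qq, gy_qq]
  unfold qq
  ring

/-! ### the radial profile -/

noncomputable def bb : ContDiffBump (5/8 : ℝ) := ⟨1/8, 3/8, by norm_num, by norm_num⟩

theorem bb_zero {t : ℝ} (h : t ≤ 1 / 4 ∨ 1 ≤ t) : bb t = 0 := by
  apply bb.zero_of_le_dist
  show (3/8 : ℝ) ≤ dist t (5/8)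
  rw [Real.dist_eq, le_abs]
  rcases h with h | h
  · right; linarith
  · left; linarith

theorem bb_pos {t : ℝ} (h1 : 1 / 4 < t) (h2 : t < 1) : 0 < bb t := by
  apply bb.pos_of_mem_ball
  show dist t (5/8) < (3/8 : ℝ)
  rw [Real.dist_eq, abs_lt]
  constructor <;> linarith

theorem bb_nonneg (t : ℝ) : 0 ≤ bb t := bb.nonneg

theorem bb_le_one (t : ℝ) : bb t ≤ 1 := bb.le_one

theorem bb_smooth : ContDiff ℝ (⊤ : ℕ∞) (fun t : ℝ => bb t) := bb.contDiff

theorem bb_cont : Continuous (fun t : ℝ => bb t) := bb.continuous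

noncomputable def SS (t : ℝ) : ℝ := ∫ τ in (0:ℝ)..t, bb τ

theorem SS_deriv (t : ℝ) : HasDerivAt SS (bb t) t :=
  intervalIntegral.integral_hasDerivAt_right (bb_cont.intervalIntegrable _ _)
    bb_cont.stronglyMeasurable.stronglyMeasurableAtFilter bb_cont.continuousAt

theorem SS_smooth : ContDiff ℝ (⊤ : ℕ∞) SS := by
  rw [contDiff_infty_iff_deriv]
  refine ⟨fun t => (SS_deriv t).differentiableAt, ?_⟩
  have : deriv SS = fun t => bb t := by ext t; exact (SS_deriv t).deriv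
  rw [this]; exact bb_smooth

theorem SS_mono : Monotone SS := by
  apply monotone_of_deriv_nonneg (fun t => (SS_deriv t).differentiableAt)
  intro t; rw [(SS_deriv t).deriv]; exact bb_nonneg t

theorem SS_zero {t : ℝ} (h : t ≤ 1 / 4) : SS t = 0 := by
  unfold SS
  rw [intervalIntegral.integral_congr (g := fun _ => 0)]
  · simp
  · intro τ hτ
    apply bb_zero
    left
    rcases le_total 0 t with h0 | h0
    · rw [uIcc_of_le h0] at hτ; linarith [hτ.2]
    · rw [uIcc_of_ge h0] at hτ; linarith [hτ.2]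

theorem SS_one {t : ℝ} (h : 1 ≤ t) : SS t = SS 1 := by
  unfold SS
  rw [← intervalIntegral.integral_add_adjacent_intervals (bb_cont.intervalIntegrable 0 1) (bb_cont.intervalIntegrable 1 t)]
  rw [intervalIntegral.integral_congr (a := 1) (b := t) (g := fun _ => 0)]
  · simp
  · intro τ hτ
    apply bb_zero
    right
    rw [uIcc_of_le h] at hτ; exact hτ.1

/-- `T = S(t/δ²) - S(t/R²)` -/
noncomputable def TT (δ R t : ℝ) : ℝ := SS (t / δ ^ 2) - SS (t / R ^ 2)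

theorem TT_deriv (δ R t : ℝ) : HasDerivAt (TT δ R) (bb (t / δ ^ 2) / δ ^ 2 - bb (t / R ^ 2) / R ^ 2) t := by
  have h1 : HasDerivAt (fun t => SS (t / δ ^ 2)) (bb (t / δ ^ 2) * (1 / δ ^ 2)) t :=
    (SS_deriv _).comp t ((hasDerivAt_id t).div_const _)
  have h2 : HasDerivAt (fun t => SS (t / R ^ 2)) (bb (t / R ^ 2) * (1 / R ^ 2)) t :=
    (SS_deriv _).comp t ((hasDerivAt_id t).div_const _)
  have := h1.sub h2
  simp only [mul_one_div] at this
  exact this

theorem TT_smooth (δ R : ℝ) : ContDiff ℝ (⊤ : ℕ∞) (TT δ R) := by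
  unfold TT
  exact (SS_smooth.comp (contDiff_id.div_const _)).sub (SS_smooth.comp (contDiff_id.div_const _))

noncomputable def gg (δ R t : ℝ) : ℝ := TT δ R t / t

variable {δ R : ℝ}

theorem TT_small (hδ : 0 < δ) (hδR : δ ≤ R) {t : ℝ} (ht : t ≤ δ ^ 2 / 4) : TT δ R t = 0 := by
  unfold TT
  have hR : 0 < R := hδ.trans_le hδR
  rw [SS_zero, SS_zero, sub_zero]
  · rw [div_le_iff₀ (by positivity)]; nlinarith
  · rw [div_le_iff₀ (by positivity)]; linarith

theorem TT_large (hδ : 0 < δ) (hδR : δ ≤ R) {t : ℝ} (ht : R ^ 2 ≤ t) : TT δ R t = 0 := by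
  unfold TT
  have hR : 0 < R := hδ.trans_le hδR
  rw [SS_one, SS_one (t := t / R ^ 2), sub_self]
  · rw [le_div_iff₀ (by positivity)]; linarith
  · rw [le_div_iff₀ (by positivity)]; nlinarith

theorem TT_nonneg (hδ : 0 < δ) (hδR : δ ≤ R) {t : ℝ} (ht : 0 ≤ t) : 0 ≤ TT δ R t := by
  unfold TT
  rw [sub_nonneg]
  apply SS_mono
  have hR : 0 < R := hδ.trans_le hδR
  exact div_le_div_of_nonneg_left ht (by positivity) (by nlinarith)

theorem gg_smooth (hδ : 0 < δ) (hδR : δ ≤ R) : ContDiff ℝ (⊤ : ℕ∞) (gg δ R) := by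
  rw [contDiff_iff_contDiffAt]
  intro t
  rcases lt_or_ge t (δ ^ 2 / 4) with h | h
  · have : gg δ R =ᶠ[𝓝 t] fun _ => 0 := by
      filter_upwards [Iio_mem_nhds h] with s hs
      unfold gg; rw [TT_small hδ hδR (le_of_lt hs), zero_div]
    exact contDiffAt_const.congr_of_eventuallyEq this
  · have ht : t ≠ 0 := by have : 0 < δ ^ 2 / 4 := by positivity
                          linarith
    exact (TT_smooth δ R).contDiffAt.div contDiffAt_id ht

theorem mul_gg (hδ : 0 < δ) (hδR : δ ≤ R) (t : ℝ) : t * gg δ R t = TT δ R t := by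
  by_cases ht : t = 0
  · rw [ht, zero_mul, TT_small hδ hδR (by positivity)]
  · unfold gg; field_simp

noncomputable def PP (δ R t : ℝ) : ℝ := - ∫ τ in (R ^ 2)..t, gg δ R τ

theorem PP_deriv (hδ : 0 < δ) (hδR : δ ≤ R) (t : ℝ) : HasDerivAt (PP δ R) (-gg δ R t) t := by
  have hc : Continuous (gg δ R) := (gg_smooth hδ hδR).continuous
  exact (intervalIntegral.integral_hasDerivAt_right (hc.intervalIntegrable _ _)
    hc.stronglyMeasurable.stronglyMeasurableAtFilter hc.continuousAt).neg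

theorem PP_deriv_eq (hδ : 0 < δ) (hδR : δ ≤ R) : deriv (PP δ R) = fun t => -gg δ R t := by
  ext t; exact (PP_deriv hδ hδR t).deriv

theorem PP_smooth (hδ : 0 < δ) (hδR : δ ≤ R) : ContDiff ℝ (⊤ : ℕ∞) (PP δ R) := by
  rw [contDiff_infty_iff_deriv]
  refine ⟨fun t => (PP_deriv hδ hδR t).differentiableAt, ?_⟩
  rw [PP_deriv_eq hδ hδR]
  exact (gg_smooth hδ hδR).neg

theorem PP_large (hδ : 0 < δ) (hδR : δ ≤ R) {t : ℝ} (ht : R ^ 2 ≤ t) : PP δ R t = 0 := by
  unfold PP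
  rw [intervalIntegral.integral_congr (g := fun _ => 0)]
  · simp
  · intro τ hτ
    rw [uIcc_of_le ht] at hτ
    unfold gg
    simp [TT_large hδ hδR hτ.1]

theorem PP_nonneg (hδ : 0 < δ) (hδR : δ ≤ R) {t : ℝ} (ht : 0 ≤ t) : 0 ≤ PP δ R t := by
  rcases le_total (R ^ 2) t with h | h
  · rw [PP_large hδ hδR h]
  · unfold PP
    rw [← intervalIntegral.integral_symm]
    apply intervalIntegral.integral_nonneg h
    intro τ hτ
    unfold gg
    exact div_nonneg (TT_nonneg hδ hδR (ht.trans hτ.1)) (ht.trans hτ.1)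

theorem PP_lap (hδ : 0 < δ) (hδR : δ ≤ R) (z₀ z : ℂ) : lap (fun z => PP δ R (qq z₀ z)) z =
    4 * (bb (qq z₀ z / R ^ 2) / R ^ 2 - bb (qq z₀ z / δ ^ 2) / δ ^ 2) := by
  rw [radial_lap _ (PP_smooth hδ hδR)]
  set t := qq z₀ z
  rw [PP_deriv_eq hδ hδR]
  have hg : HasDerivAt (fun t => t * gg δ R t) (1 * gg δ R t + t * deriv (gg δ R) t) t :=
    (hasDerivAt_id t).mul (((gg_smooth hδ hδR).differentiable (by simp)) t).hasDerivAt
  have e : (fun t => t * gg δ R t) = TT δ R := by ext t; exact mul_gg hδ hδR t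
  rw [e] at hg
  have h1 := hg.unique (TT_deriv δ R t)
  have h2 : deriv (fun t => -gg δ R t) t = - deriv (gg δ R) t := by
    exact (((gg_smooth hδ hδR).differentiable (by simp)) t).hasDerivAt.neg.deriv
  rw [h2]
  linarith

theorem PP_tf {U : Set ℂ} (hδ : 0 < δ) (hδR : δ ≤ R) (z₀ : ℂ) (hb : closedBall z₀ R ⊆ U) :
    TF U (fun z => PP δ R (qq z₀ z)) := by
  have hR : 0 < R := hδ.trans_le hδR
  have hs : tsupport (fun z => PP δ R (qq z₀ z)) ⊆ closedBall z₀ R := by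
    apply closure_minimal _ isClosed_closedBall
    intro z hz
    by_contra hcon
    rw [mem_closedBall, not_le, dist_eq_norm] at hcon
    apply hz
    apply PP_large hδ hδR
    rw [qq_eq]
    exact pow_le_pow_left₀ hR.le hcon.le 2
  exact ⟨(PP_smooth hδ hδR).comp (qq_smooth z₀), IsCompact.of_isClosed_subset (isCompact_closedBall z₀ R)
    (isClosed_tsupport _) hs, hs.trans hb⟩

/-- the averaging weight -/
noncomputable def ww (R : ℝ) (z : ℂ) : ℝ := bb (‖z‖ ^ 2 / R ^ 2) / R ^ 2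

theorem ww_cont (R : ℝ) : Continuous (ww R) := by
  unfold ww
  exact (bb_cont.comp (by fun_prop)).div_const _

theorem ww_nonneg (R : ℝ) (z : ℂ) : 0 ≤ ww R z := div_nonneg (bb_nonneg _) (sq_nonneg R)

theorem ww_le (R : ℝ) (z : ℂ) : ww R z ≤ 1 / R ^ 2 := div_le_div_of_nonneg_right (bb_le_one _) (sq_nonneg R)

theorem ww_zero (hR : 0 < R) {z : ℂ} (h : R ≤ ‖z‖) : ww R z = 0 := by
  unfold ww
  rw [bb_zero, zero_div]
  right
  rw [le_div_iff₀ (by positivity), one_mul]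
  exact pow_le_pow_left₀ hR.le h 2

theorem ww_pos (hR : 0 < R) {z : ℂ} (h1 : R / 2 < ‖z‖) (h2 : ‖z‖ < R) : 0 < ww R z := by
  unfold ww
  apply div_pos _ (by positivity)
  apply bb_pos
  · rw [lt_div_iff₀ (by positivity)]
    have : (R / 2) ^ 2 < ‖z‖ ^ 2 := pow_lt_pow_left₀ h1 (by positivity) two_ne_zero
    nlinarith
  · rw [div_lt_one (by positivity)]
    exact pow_lt_pow_left₀ h2 (norm_nonneg _) two_ne_zero

theorem ww_comp (hR : 0 < R) (z₀ : ℂ) : HasCompactSupport (fun z => ww R (z - z₀)) := by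
  apply HasCompactSupport.intro (isCompact_closedBall z₀ R)
  intro z hz
  apply ww_zero hR
  rw [mem_closedBall, not_le, dist_eq_norm] at hz
  exact hz.le

theorem ww_memLp (hR : 0 < R) (z₀ : ℂ) : MemLp (fun z => ww R (z - z₀)) 2 (volume : Measure ℂ) :=
  ((ww_cont R).comp (continuous_id.sub continuous_const)).memLp_of_hasCompactSupport (ww_comp hR z₀)

theorem ww_int (hR : 0 < R) (z₀ : ℂ) (F : L2) : Integrable (fun z => (F : ℂ → ℝ) z * ww R (z - z₀)) :=
  (Lp.memLp F).integrable_mul (ww_memLp hR z₀)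

theorem super_mono {U : Set ℂ} {F : L2} (hF : GS U F) (hF0 : ∀ᵐ z, 0 ≤ (F : ℂ → ℝ) z) (hδ : 0 < δ) (hδR : δ ≤ R)
    (z₀ : ℂ) (hb : closedBall z₀ R ⊆ U) :
    ∫ z, (F : ℂ → ℝ) z * ww R (z - z₀) ≤ ∫ z, (F : ℂ → ℝ) z * ww δ (z - z₀) := by
  have hR : 0 < R := hδ.trans_le hδR
  have ht := PP_tf hδ hδR z₀ hb
  have h1 := hF.weak ht
  have e1 : inner ℝ F (cls (lap fun z => PP δ R (qq z₀ z))) =
      ∫ z, (F : ℂ → ℝ) z * lap (fun z => PP δ R (qq z₀ z)) z := by
    conv_lhs => rw [← cls_self F]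
    exact inner_cls (Lp.memLp F) ht.lap_tf.memLp
  have e2 : inner ℝ F (cls (fun z => PP δ R (qq z₀ z))) = ∫ z, (F : ℂ → ℝ) z * PP δ R (qq z₀ z) := by
    conv_lhs => rw [← cls_self F]
    exact inner_cls (Lp.memLp F) ht.memLp
  have h2 : 0 ≤ ∫ z, (F : ℂ → ℝ) z * PP δ R (qq z₀ z) := by
    apply integral_nonneg_of_ae
    filter_upwards [hF0] with z hz
    exact mul_nonneg hz (PP_nonneg hδ hδR (by unfold qq; positivity))
  have hl := lambda1_nonneg U
  rw [e1, e2] at h1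
  have h3 : ∫ z, (F : ℂ → ℝ) z * lap (fun z => PP δ R (qq z₀ z)) z ≤ 0 := by
    have := mul_nonneg hl h2
    linarith
  have e3 : ∫ z, (F : ℂ → ℝ) z * lap (fun z => PP δ R (qq z₀ z)) z =
      4 * ((∫ z, (F : ℂ → ℝ) z * ww R (z - z₀)) - ∫ z, (F : ℂ → ℝ) z * ww δ (z - z₀)) := by
    rw [← integral_sub (ww_int hR z₀ F) (ww_int hδ z₀ F), ← integral_const_mul]
    congr 1; ext z
    rw [PP_lap hδ hδR]
    unfold ww
    rw [qq_eq]
    ring
  rw [e3] at h3
  linarith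

theorem superavg {U : Set ℂ} {F : L2} (hF : GS U F) (hF0 : ∀ᵐ z, 0 ≤ (F : ℂ → ℝ) z) :
    ∀ᵐ z₀, ∀ R > 0, closedBall z₀ R ⊆ U → ∫ z, (F : ℂ → ℝ) z * ww R (z - z₀) ≤ Real.pi * (F : ℂ → ℝ) z₀ := by
  have hloc : LocallyIntegrable (F : ℂ → ℝ) (volume : Measure ℂ) := (Lp.memLp F).locallyIntegrable (by norm_num)
  have hleb := IsUnifLocDoublingMeasure.ae_tendsto_average_norm_sub (volume : Measure ℂ) hloc 1
  filter_upwards [hleb, hF0] with z₀ hz hz0 R hR hb
  -- δ_n = R/(n+1)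
  set d : ℕ → ℝ := fun n => R / (n + 1) with hd
  have hdpos : ∀ n, 0 < d n := fun n => by simp only [hd]; positivity
  have hdR : ∀ n, d n ≤ R := fun n => by
    simp only [hd]; apply div_le_self hR.le; linarith [Nat.cast_nonneg (α := ℝ) n]
  have hdt : Tendsto d atTop (𝓝 0) := by
    have := (tendsto_one_div_add_atTop_nhds_zero_nat (𝕜 := ℝ)).const_mul R
    simp only [mul_zero, mul_one_div] at this
    exact this
  have hdt' : Tendsto d atTop (𝓝[>] 0) :=
    tendsto_nhdsWithin_iff.mpr ⟨hdt, Eventually.of_forall hdpos⟩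
  have h1 := hz (ι := ℕ) (l := atTop) (fun _ => z₀) d hdt' (Eventually.of_forall fun n => by
    rw [mem_closedBall, dist_self]; simp only [one_mul]; exact (hdpos n).le)
  have h2 : ∀ n, ∫ z, (F : ℂ → ℝ) z * ww R (z - z₀) ≤ Real.pi * (F : ℂ → ℝ) z₀ +
      Real.pi * ⨍ y in closedBall z₀ (d n), ‖(F : ℂ → ℝ) y - (F : ℂ → ℝ) z₀‖ := by
    intro n
    refine (super_mono hF hF0 (hdpos n) (hdR n) z₀ hb).trans ?_
    set δ := d n with hδ
    have hδ0 := hdpos n
    have hvol : (volume (closedBall z₀ δ)).toReal = Real.pi * δ ^ 2 := by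
      rw [Complex.volume_closedBall, ENNReal.toReal_mul, ENNReal.toReal_pow, ENNReal.toReal_ofReal hδ0.le]
      simp [NNReal.coe_real_pi]; ring
    have hi1 : IntegrableOn (fun y => ‖(F : ℂ → ℝ) y - (F : ℂ → ℝ) z₀‖) (closedBall z₀ δ) := by
      apply Integrable.norm
      exact (hloc.integrableOn_isCompact (isCompact_closedBall z₀ δ)).sub (integrableOn_const (by
        exact (isCompact_closedBall z₀ δ).measure_lt_top.ne))
    have e1 : ∫ z, (F : ℂ → ℝ) z * ww δ (z - z₀) = ∫ z in closedBall z₀ δ, (F : ℂ → ℝ) z * ww δ (z - z₀) := by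
      symm
      apply setIntegral_eq_integral_of_forall_compl_eq_zero
      intro z hz
      rw [ww_zero hδ0, mul_zero]
      rw [mem_closedBall, not_le, dist_eq_norm] at hz
      exact hz.le
    rw [e1]
    calc ∫ z in closedBall z₀ δ, (F : ℂ → ℝ) z * ww δ (z - z₀)
        ≤ ∫ z in closedBall z₀ δ, (1 / δ ^ 2) * ((F : ℂ → ℝ) z₀ + ‖(F : ℂ → ℝ) z - (F : ℂ → ℝ) z₀‖) := by
          apply integral_mono (ww_int hδ0 z₀ F).integrableOn
          · exact ((integrableOn_const (by exact (isCompact_closedBall z₀ δ).measure_lt_top.ne)).add hi1).const_mul _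
          · intro z
            show (F : ℂ → ℝ) z * ww δ (z - z₀) ≤ (1 / δ ^ 2) * ((F : ℂ → ℝ) z₀ + ‖(F : ℂ → ℝ) z - (F : ℂ → ℝ) z₀‖)
            have h3 := ww_nonneg δ (z - z₀)
            have h4 := ww_le δ (z - z₀)
            have h5 : (F : ℂ → ℝ) z ≤ (F : ℂ → ℝ) z₀ + ‖(F : ℂ → ℝ) z - (F : ℂ → ℝ) z₀‖ := by
              have := Real.le_norm_self ((F : ℂ → ℝ) z - (F : ℂ → ℝ) z₀); linarith
            have h6 : 0 ≤ (F : ℂ → ℝ) z₀ + ‖(F : ℂ → ℝ) z - (F : ℂ → ℝ) z₀‖ := by positivity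
            calc (F : ℂ → ℝ) z * ww δ (z - z₀) ≤ ((F : ℂ → ℝ) z₀ + ‖(F : ℂ → ℝ) z - (F : ℂ → ℝ) z₀‖) * ww δ (z - z₀) :=
                  mul_le_mul_of_nonneg_right h5 h3
              _ ≤ ((F : ℂ → ℝ) z₀ + ‖(F : ℂ → ℝ) z - (F : ℂ → ℝ) z₀‖) * (1 / δ ^ 2) :=
                  mul_le_mul_of_nonneg_left h4 h6
              _ = _ := by ring
      _ = Real.pi * (F : ℂ → ℝ) z₀ + Real.pi * ⨍ y in closedBall z₀ δ, ‖(F : ℂ → ℝ) y - (F : ℂ → ℝ) z₀‖ := by
          have hc : IntegrableOn (fun _ : ℂ => (F : ℂ → ℝ) z₀) (closedBall z₀ δ) :=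
            integrableOn_const (by exact (isCompact_closedBall z₀ δ).measure_lt_top.ne)
          rw [integral_const_mul, integral_add hc hi1,
            setAverage_eq, setIntegral_const, measureReal_def, hvol, smul_eq_mul, smul_eq_mul]
          field_simp
          rw [add_div, mul_assoc, mul_div_cancel_left₀ _ (by positivity)]
  have h3 : Tendsto (fun n => Real.pi * (F : ℂ → ℝ) z₀ +
      Real.pi * ⨍ y in closedBall z₀ (d n), ‖(F : ℂ → ℝ) y - (F : ℂ → ℝ) z₀‖) atTop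
      (𝓝 (Real.pi * (F : ℂ → ℝ) z₀ + Real.pi * 0)) := tendsto_const_nhds.add (h1.const_mul _)
  rw [mul_zero, add_zero] at h3
  exact ge_of_tendsto' h3 h2

end Pool.Agent.Helper533.StarBox
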