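import Pool.Agent.Helper533.StarBox.Meas

open MeasureTheory Metric Set Filter
open scoped Topology

namespace Pool.Agent.Helper533.StarBox

/-! ### cut-offs in the abscissa -/

theorem gx_cut {χ : ℝ → ℝ} (hχ : ContDiff ℝ (⊤ : ℕ∞) χ) (z : ℂ) : gx (fun z => χ z.re) z = deriv χ z.re := by
  have h1 : HasFDerivAt (fun z : ℂ => χ z.re) (deriv χ z.re • Complex.reCLM) z :=
    ((hχ.differentiable (by simp)) z.re).hasDerivAt.comp_hasFDerivAt z Complex.reCLM.hasFDerivAt
  unfold gx; rw [h1.fderiv]; simp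

theorem gy_cut {χ : ℝ → ℝ} (hχ : ContDiff ℝ (⊤ : ℕ∞) χ) (z : ℂ) : gy (fun z => χ z.re) z = 0 := by
  have h1 : HasFDerivAt (fun z : ℂ => χ z.re) (deriv χ z.re • Complex.reCLM) z :=
    ((hχ.differentiable (by simp)) z.re).hasDerivAt.comp_hasFDerivAt z Complex.reCLM.hasFDerivAt
  unfold gy; rw [h1.fderiv]; simp

theorem cut_smooth {χ : ℝ → ℝ} (hχ : ContDiff ℝ (⊤ : ℕ∞) χ) : ContDiff ℝ (⊤ : ℕ∞) (fun z : ℂ => χ z.re) :=
  hχ.comp Complex.reCLM.contDiff

theorem cut_tf {U : Set ℂ} {v : ℂ → ℝ} (hv : TF U v) {χ : ℝ → ℝ} (hχ : ContDiff ℝ (⊤ : ℕ∞) χ) :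
    TF U (fun z => χ z.re * v z) := hv.mul_smooth (cut_smooth hχ)

theorem cut2_tf {U : Set ℂ} {v : ℂ → ℝ} (hv : TF U v) {χ : ℝ → ℝ} (hχ : ContDiff ℝ (⊤ : ℕ∞) χ) :
    TF U (fun z => χ z.re ^ 2 * v z) := hv.mul_smooth ((cut_smooth hχ).pow 2)

theorem cut_energy {U : Set ℂ} {v : ℂ → ℝ} (hv : TF U v) {χ : ℝ → ℝ} (hχ : ContDiff ℝ (⊤ : ℕ∞) χ) :
    En (fun z => χ z.re * v z) (fun z => χ z.re * v z) = En v (fun z => χ z.re ^ 2 * v z) +
      ∫ z, deriv χ z.re ^ 2 * v z ^ 2 := by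
  have hd' : ContDiff ℝ (⊤ : ℕ∞) (deriv χ) := (contDiff_infty_iff_deriv.mp hχ).2
  have i1 : Integrable (fun z : ℂ => deriv χ z.re ^ 2 * v z ^ 2) := by
    have h1 : Continuous (fun z : ℂ => deriv χ z.re ^ 2 * v z ^ 2) :=
      ((hd'.continuous.comp Complex.continuous_re).pow 2).mul (hv.cont.pow 2)
    apply h1.integrable_of_hasCompactSupport
    exact IsCompact.of_isClosed_subset hv.comp (isClosed_tsupport _) (tsupport_sub_of_zero (fun z h => by simp [h]))
  rw [show En v (fun z => χ z.re ^ 2 * v z) = ∫ z, (gx v z * gx (fun z => χ z.re ^ 2 * v z) z +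
    gy v z * gy (fun z => χ z.re ^ 2 * v z) z) from rfl, ← integral_add (hv.en_int (cut2_tf hv hχ)) i1]
  unfold En
  congr 1; ext z
  have dc : DifferentiableAt ℝ (fun z : ℂ => χ z.re) z := (cut_smooth hχ).differentiable (by simp) z
  have e0 : (fun z : ℂ => χ z.re ^ 2 * v z) = fun z => χ z.re * (χ z.re * v z) := by ext z; ring
  have dm : DifferentiableAt ℝ (fun z : ℂ => χ z.re * v z) z := dc.mul (hv.diff z)
  rw [e0, gx_mul dc dm, gy_mul dc dm, gx_mul dc (hv.diff z), gy_mul dc (hv.diff z), gx_cut hχ, gy_cut hχ]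
  ring

theorem cut_Ip (v : ℂ → ℝ) (χ : ℝ → ℝ) :
    Ip (fun z => χ z.re * v z) (fun z => χ z.re * v z) = Ip v (fun z => χ z.re ^ 2 * v z) := by
  unfold Ip; congr 1; ext z; ring

/-- weighted masses converge -/
theorem tendsto_weight {h : ℂ → ℝ} (hm : Measurable h) {M : ℝ} (hM : ∀ z, |h z| ≤ M) {v : ℕ → ℂ → ℝ} {u : L2}
    (hv : ∀ n, MemLp (v n) 2 (volume : Measure ℂ)) (hvu : Tendsto (fun n => cls (v n)) atTop (𝓝 u)) :
    Tendsto (fun n => ∫ z, h z * v n z ^ 2) atTop (𝓝 (∫ z, h z * (u : ℂ → ℝ) z ^ 2)) := by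
  have hM0 : 0 ≤ M := (abs_nonneg _).trans (hM 0)
  have hmul : ∀ f : ℂ → ℝ, MemLp f 2 (volume : Measure ℂ) → MemLp (fun z => h z * f z) 2 (volume : Measure ℂ) := by
    intro f hf
    apply (hf.const_mul M).mono (hm.aestronglyMeasurable.mul hf.1)
    apply Eventually.of_forall
    intro z
    show |h z * f z| ≤ |M * f z|
    rw [abs_mul, abs_mul, abs_of_nonneg hM0]
    exact mul_le_mul_of_nonneg_right (hM z) (abs_nonneg _)
  have h1 : Tendsto (fun n => cls (fun z => h z * v n z)) atTop (𝓝 (cls (fun z => h z * (u : ℂ → ℝ) z))) := by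
    rw [tendsto_iff_norm_sub_tendsto_zero]
    have h3 := (tendsto_iff_norm_sub_tendsto_zero.mp hvu).const_mul M
    rw [mul_zero] at h3
    apply squeeze_zero (fun n => norm_nonneg _) _ h3
    intro n
    rw [← cls_sub (hmul _ (hv n)) (hmul _ (Lp.memLp u))]
    have e : cls (v n) - u = cls (fun z => v n z - (u : ℂ → ℝ) z) := by
      rw [cls_sub (hv n) (Lp.memLp u), cls_self]
    have hs : MemLp (fun z => v n z - (u : ℂ → ℝ) z) 2 (volume : Measure ℂ) := (hv n).sub (Lp.memLp u)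
    have e2 : M * ‖cls (v n) - u‖ = ‖cls (fun z => M * (v n z - (u : ℂ → ℝ) z))‖ := by
      rw [cls_smul M hs, norm_smul, Real.norm_of_nonneg hM0, e]
    rw [e2]
    apply norm_cls_le ((hmul _ (hv n)).sub (hmul _ (Lp.memLp u))) (hs.const_mul M)
    apply Eventually.of_forall
    intro z
    show |h z * v n z - h z * (u : ℂ → ℝ) z| ≤ |M * (v n z - (u : ℂ → ℝ) z)|
    rw [← mul_sub, abs_mul, abs_mul, abs_of_nonneg hM0]
    exact mul_le_mul_of_nonneg_right (hM z) (abs_nonneg _)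
  have h2 : Tendsto (fun n => inner ℝ (cls (fun z => h z * v n z)) (cls (v n))) atTop
      (𝓝 (inner ℝ (cls (fun z => h z * (u : ℂ → ℝ) z)) u)) := h1.inner hvu
  have e3 : inner ℝ (cls (fun z => h z * (u : ℂ → ℝ) z)) u = ∫ z, h z * (u : ℂ → ℝ) z ^ 2 := by
    have h5 := inner_cls (hmul _ (Lp.memLp u)) (Lp.memLp u)
    rw [cls_self u] at h5
    rw [h5]
    congr 1; ext z; ring
  rw [e3] at h2
  refine h2.congr fun n => ?_
  rw [inner_cls (hmul _ (hv n)) (hv n)]
  congr 1; ext z; ring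

theorem bounded_of_cont_comp {f : ℝ → ℝ} (hf : Continuous f) {a b : ℝ} (h : ∀ x, x < a ∨ b < x → f x = 0) :
    ∃ C > 0, ∀ x, |f x| ≤ C := by
  obtain ⟨C, hC⟩ := (isCompact_Icc (a := a) (b := b)).exists_bound_of_continuousOn hf.continuousOn
  refine ⟨max C 1, by positivity, ?_⟩
  intro x
  by_cases hx : x ∈ Icc a b
  · exact (hC x hx).trans (le_max_left _ _)
  · rw [mem_Icc, not_and_or, not_le, not_le] at hx
    rw [h x hx, abs_zero]; positivity

/-- the universal constant bounding the slope of the smooth transition -/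
theorem exists_Cs : ∃ C > 0, ∀ t, |deriv Real.smoothTransition t| ≤ C := by
  have hc : Continuous (deriv Real.smoothTransition) :=
    (contDiff_infty_iff_deriv.mp (Real.smoothTransition.contDiff (n := ⊤))).2.continuous
  apply bounded_of_cont_comp hc (a := 0) (b := 1)
  intro x hx
  rcases hx with hx | hx
  · have : Real.smoothTransition =ᶠ[𝓝 x] fun _ => 0 := by
      filter_upwards [Iio_mem_nhds hx] with y hy
      exact Real.smoothTransition.zero_of_nonpos (le_of_lt hy)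
    rw [this.deriv_eq]; simp
  · have : Real.smoothTransition =ᶠ[𝓝 x] fun _ => 1 := by
      filter_upwards [Ioi_mem_nhds hx] with y hy
      exact Real.smoothTransition.one_of_one_le (le_of_lt hy)
    rw [this.deriv_eq]; simp

noncomputable def Cs : ℝ := exists_Cs.choose
theorem Cs_pos : 0 < Cs := exists_Cs.choose_spec.1
theorem Cs_bound (t : ℝ) : |deriv Real.smoothTransition t| ≤ Cs := exists_Cs.choose_spec.2 t

/-- the inner cut-off : `1` for `x ≤ r`, `0` for `x ≥ 2r` -/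
noncomputable def chi (r x : ℝ) : ℝ := Real.smoothTransition (2 - x / r)

theorem chi_smooth (r : ℝ) : ContDiff ℝ (⊤ : ℕ∞) (chi r) :=
  Real.smoothTransition.contDiff.comp (contDiff_const.sub (contDiff_id.div_const r))

theorem chi_one {r x : ℝ} (hr : 0 < r) (h : x ≤ r) : chi r x = 1 := by
  apply Real.smoothTransition.one_of_one_le
  have : x / r ≤ 1 := by rw [div_le_one hr]; exact h
  linarith

theorem chi_zero {r x : ℝ} (hr : 0 < r) (h : 2 * r ≤ x) : chi r x = 0 := by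
  apply Real.smoothTransition.zero_of_nonpos
  have : 2 ≤ x / r := by rw [le_div_iff₀ hr]; exact h
  linarith

theorem chi_nonneg (r x : ℝ) : 0 ≤ chi r x := Real.smoothTransition.nonneg _
theorem chi_le_one (r x : ℝ) : chi r x ≤ 1 := Real.smoothTransition.le_one _

theorem chi_deriv {r : ℝ} (x : ℝ) : deriv (chi r) x = deriv Real.smoothTransition (2 - x / r) * (-(1 / r)) := by
  have h1 : HasDerivAt (fun x : ℝ => 2 - x / r) (-(1 / r)) x := by
    simpa using ((hasDerivAt_id x).div_const r).const_sub 2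
  have h2 : HasDerivAt Real.smoothTransition (deriv Real.smoothTransition (2 - x / r)) (2 - x / r) :=
    ((Real.smoothTransition.contDiff (n := ⊤)).differentiable (by simp) _).hasDerivAt
  exact (h2.comp x h1).deriv

theorem chi_deriv_sq {r : ℝ} (hr : 0 < r) (x : ℝ) : deriv (chi r) x ^ 2 ≤ Cs ^ 2 / r ^ 2 := by
  rw [chi_deriv, mul_pow, neg_sq, div_pow, one_pow, mul_one_div]
  apply div_le_div_of_nonneg_right _ (by positivity)
  exact sq_le_sq' (neg_le_of_abs_le (Cs_bound _)) (le_of_abs_le (Cs_bound _))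

theorem chi_deriv_zero {r : ℝ} (hr : 0 < r) {x : ℝ} (h : x < r ∨ 2 * r < x) : deriv (chi r) x = 0 := by
  rcases h with h | h
  · have : chi r =ᶠ[𝓝 x] fun _ => 1 := by
      filter_upwards [Iio_mem_nhds h] with y hy
      exact chi_one hr (le_of_lt hy)
    rw [this.deriv_eq]; simp
  · have : chi r =ᶠ[𝓝 x] fun _ => 0 := by
      filter_upwards [Ioi_mem_nhds h] with y hy
      exact chi_zero hr (le_of_lt hy)
    rw [this.deriv_eq]; simp

/-- mass of the ground state in `x ≤ r` -/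
noncomputable def mass (u : L2) (r : ℝ) : ℝ := ∫ z in {z : ℂ | z.re ≤ r}, (u : ℂ → ℝ) z ^ 2

theorem meas_re (r : ℝ) : MeasurableSet {z : ℂ | z.re ≤ r} :=
  (isClosed_le Complex.continuous_re continuous_const).measurableSet

theorem sq_integrable (u : L2) : Integrable (fun z => (u : ℂ → ℝ) z ^ 2) := (Lp.memLp u).integrable_sq

theorem mass_nonneg (u : L2) (r : ℝ) : 0 ≤ mass u r := integral_nonneg fun z => sq_nonneg _

theorem total_mass {u : L2} (hu1 : ‖u‖ = 1) : ∫ z, (u : ℂ → ℝ) z ^ 2 = 1 := by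
  have := real_inner_self_eq_norm_sq u
  rw [inner_eq, hu1, one_pow] at this
  rw [← this]; congr 1; ext z; ring

theorem mass_le_one {u : L2} (hu1 : ‖u‖ = 1) (r : ℝ) : mass u r ≤ 1 := by
  rw [← total_mass hu1]
  exact setIntegral_le_integral (sq_integrable u) (Eventually.of_forall fun z => sq_nonneg _)

theorem mass_mono (u : L2) {r s : ℝ} (h : r ≤ s) : mass u r ≤ mass u s := by
  apply setIntegral_mono_set (sq_integrable u).integrableOn (Eventually.of_forall fun z => sq_nonneg _)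
  exact HasSubset.Subset.eventuallyLE (fun z hz => le_trans hz h)

theorem weight_int (u : L2) {h : ℂ → ℝ} (hm : Measurable h) {M : ℝ} (hM : ∀ z, |h z| ≤ M) :
    Integrable (fun z => h z * (u : ℂ → ℝ) z ^ 2) :=
  (sq_integrable u).bdd_mul hm.aestronglyMeasurable (Eventually.of_forall hM)

/-- derivative weight is controlled by the mass -/
theorem deriv_mass (u : L2) {r : ℝ} (hr : 0 < r) :
    ∫ z, deriv (chi r) z.re ^ 2 * (u : ℂ → ℝ) z ^ 2 ≤ Cs ^ 2 / r ^ 2 * mass u (2 * r) := by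
  have hc : Continuous (deriv (chi r)) := (contDiff_infty_iff_deriv.mp (chi_smooth r)).2.continuous
  have hm : Measurable (fun z : ℂ => deriv (chi r) z.re ^ 2) := ((hc.comp Complex.continuous_re).pow 2).measurable
  have hM : ∀ z : ℂ, |deriv (chi r) z.re ^ 2| ≤ Cs ^ 2 / r ^ 2 := fun z => by
    rw [abs_of_nonneg (sq_nonneg _)]; exact chi_deriv_sq hr _
  unfold mass
  rw [← integral_const_mul, ← integral_indicator (meas_re _)]
  apply integral_mono (weight_int u hm hM)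
  · exact ((sq_integrable u).const_mul _).indicator (meas_re _)
  · intro z
    show deriv (chi r) z.re ^ 2 * (u : ℂ → ℝ) z ^ 2 ≤ indicator {z : ℂ | z.re ≤ 2 * r} (fun z => Cs ^ 2 / r ^ 2 * (u : ℂ → ℝ) z ^ 2) z
    by_cases hz : z.re ≤ 2 * r
    · rw [indicator_of_mem (show z ∈ {z : ℂ | z.re ≤ 2 * r} from hz)]
      exact mul_le_mul_of_nonneg_right (chi_deriv_sq hr _) (sq_nonneg _)
    · rw [indicator_of_notMem (show z ∉ {z : ℂ | z.re ≤ 2 * r} from hz), chi_deriv_zero hr (Or.inr (not_le.mp hz))]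
      simp

/-- the basic identity in the limit, as an inequality for any test of the cut-off function -/
theorem cut_limit {U : Set ℂ} {u : L2} (hu : GS U u) {χ : ℝ → ℝ} (hχ : ContDiff ℝ (⊤ : ℕ∞) χ)
    {M : ℝ} (hM : ∀ x, |χ x| ≤ M) {M' : ℝ} (hM' : ∀ x, |deriv χ x| ≤ M') {A : ℝ} 
    (hA : ∀ v, TF U v → A * Ip (fun z => χ z.re * v z) (fun z => χ z.re * v z) ≤
      En (fun z => χ z.re * v z) (fun z => χ z.re * v z)) :
    A * ∫ z, χ z.re ^ 2 * (u : ℂ → ℝ) z ^ 2 ≤ lambda1 U * (∫ z, χ z.re ^ 2 * (u : ℂ → ℝ) z ^ 2) +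
      ∫ z, deriv χ z.re ^ 2 * (u : ℂ → ℝ) z ^ 2 := by
  obtain ⟨v, hv, hv1, hv2⟩ := hu.seq
  obtain ⟨B, hB⟩ := En_bdd hv hv1 hv2
  have hM0 : 0 ≤ M := (abs_nonneg _).trans (hM 0)
  have hM0' : 0 ≤ M' := (abs_nonneg _).trans (hM' 0)
  have hcd : Continuous (deriv χ) := (contDiff_infty_iff_deriv.mp hχ).2.continuous
  have m1 : Measurable (fun z : ℂ => χ z.re ^ 2) := ((hχ.continuous.comp Complex.continuous_re).pow 2).measurable
  have m2 : Measurable (fun z : ℂ => deriv χ z.re ^ 2) := ((hcd.comp Complex.continuous_re).pow 2).measurable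
  have b1 : ∀ z : ℂ, |χ z.re ^ 2| ≤ M ^ 2 := fun z => by
    rw [abs_of_nonneg (sq_nonneg _), ← sq_abs]; exact pow_le_pow_left₀ (abs_nonneg _) (hM _) 2
  have b2 : ∀ z : ℂ, |deriv χ z.re ^ 2| ≤ M' ^ 2 := fun z => by
    rw [abs_of_nonneg (sq_nonneg _), ← sq_abs]; exact pow_le_pow_left₀ (abs_nonneg _) (hM' _) 2
  have t1 := tendsto_weight m1 b1 (fun n => (hv n).memLp) hv1
  have t2 := tendsto_weight m2 b2 (fun n => (hv n).memLp) hv1
  -- Ip bound
  have hIb : ∃ N, ∀ n, Ip (v n) (v n) ≤ N := by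
    have : Tendsto (fun n => Ip (v n) (v n)) atTop (𝓝 (‖u‖ ^ 2)) := by
      have := hv1.norm.pow 2
      exact this.congr fun n => norm_cls_sq (hv n)
    obtain ⟨N, hN⟩ := this.bddAbove_range
    exact ⟨N, fun n => hN ⟨n, rfl⟩⟩
  obtain ⟨N, hN⟩ := hIb
  -- energy bound for χ² v
  have hQ : ∀ n, Qf U (fun z => χ z.re ^ 2 * v n z) (fun z => χ z.re ^ 2 * v n z) ≤ 2 * M ^ 4 * B + 8 * M ^ 2 * M' ^ 2 * N := by
    intro n
    have h1 : Qf U (fun z => χ z.re ^ 2 * v n z) (fun z => χ z.re ^ 2 * v n z) ≤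
        En (fun z => χ z.re ^ 2 * v n z) (fun z => χ z.re ^ 2 * v n z) := by
      unfold Qf
      have := mul_nonneg (lambda1_nonneg U) (Ip_nonneg (fun z => χ z.re ^ 2 * v n z)); linarith
    refine h1.trans ?_
    have h2 : En (fun z => χ z.re ^ 2 * v n z) (fun z => χ z.re ^ 2 * v n z) ≤
        2 * M ^ 4 * En (v n) (v n) + 8 * M ^ 2 * M' ^ 2 * Ip (v n) (v n) := by
      rw [En_self, En_self, Ip_self, ← integral_const_mul, ← integral_const_mul,
        ← integral_add ((hv n).ensq_int.const_mul _) ((hv n).sq_int.const_mul _)]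
      apply integral_mono (cut2_tf (hv n) hχ).ensq_int (((hv n).ensq_int.const_mul _).add ((hv n).sq_int.const_mul _))
      intro z
      show gx (fun z => χ z.re ^ 2 * v n z) z ^ 2 + gy (fun z => χ z.re ^ 2 * v n z) z ^ 2 ≤
        2 * M ^ 4 * (gx (v n) z ^ 2 + gy (v n) z ^ 2) + 8 * M ^ 2 * M' ^ 2 * (v n z ^ 2)
      have dc : DifferentiableAt ℝ (fun z : ℂ => χ z.re) z := (cut_smooth hχ).differentiable (by simp) z
      have e0 : (fun z : ℂ => χ z.re ^ 2 * v n z) = fun z => χ z.re * (χ z.re * v n z) := by ext z; ring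
      have dm : DifferentiableAt ℝ (fun z : ℂ => χ z.re * v n z) z := dc.mul ((hv n).diff z)
      rw [e0, gx_mul dc dm, gy_mul dc dm, gx_mul dc ((hv n).diff z), gy_mul dc ((hv n).diff z), gx_cut hχ, gy_cut hχ]
      have c1 := b1 z
      have c2 := b2 z
      rw [abs_of_nonneg (sq_nonneg _)] at c1 c2
      have c3 : (χ z.re ^ 2) ^ 2 ≤ (M ^ 2) ^ 2 := pow_le_pow_left₀ (sq_nonneg _) c1 2
      have c4 : χ z.re ^ 2 * deriv χ z.re ^ 2 ≤ M ^ 2 * M' ^ 2 := mul_le_mul c1 c2 (sq_nonneg _) (sq_nonneg _)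
      have g1 := sq_nonneg (gx (v n) z)
      have g2 := sq_nonneg (gy (v n) z)
      have g3 := sq_nonneg (v n z)
      have e5 : (χ z.re * (χ z.re * gx (v n) z + v n z * deriv χ z.re) + χ z.re * v n z * deriv χ z.re) ^ 2 +
          (χ z.re * (χ z.re * gy (v n) z + v n z * 0) + χ z.re * v n z * 0) ^ 2 ≤
          2 * ((χ z.re ^ 2) ^ 2 * gx (v n) z ^ 2) + 8 * ((χ z.re ^ 2 * deriv χ z.re ^ 2) * v n z ^ 2) +
            (χ z.re ^ 2) ^ 2 * gy (v n) z ^ 2 := by
        nlinarith [sq_nonneg (χ z.re ^ 2 * gx (v n) z - 2 * χ z.re * deriv χ z.re * v n z)]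
      refine e5.trans ?_
      have e6 := mul_le_mul_of_nonneg_right c3 g1
      have e7 := mul_le_mul_of_nonneg_right c3 g2
      have e8 := mul_le_mul_of_nonneg_right c4 g3
      have e9 : 0 ≤ (M ^ 2) ^ 2 * gy (v n) z ^ 2 := by positivity
      nlinarith
    have h3 : 2 * M ^ 4 * En (v n) (v n) ≤ 2 * M ^ 4 * B := mul_le_mul_of_nonneg_left (hB n) (by positivity)
    have h4 : 8 * M ^ 2 * M' ^ 2 * Ip (v n) (v n) ≤ 8 * M ^ 2 * M' ^ 2 * N := mul_le_mul_of_nonneg_left (hN n) (by positivity)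
    linarith
  have t3 := tendsto_Qf_zero hv (fun n => cut2_tf (hv n) hχ) hv2 hQ
  have key : ∀ n, A * (∫ z, χ z.re ^ 2 * v n z ^ 2) ≤ Qf U (v n) (fun z => χ z.re ^ 2 * v n z) +
      lambda1 U * (∫ z, χ z.re ^ 2 * v n z ^ 2) + ∫ z, deriv χ z.re ^ 2 * v n z ^ 2 := by
    intro n
    have h1 := hA (v n) (hv n)
    rw [cut_energy (hv n) hχ, cut_Ip] at h1
    have e1 : Ip (v n) (fun z => χ z.re ^ 2 * v n z) = ∫ z, χ z.re ^ 2 * v n z ^ 2 := by
      unfold Ip; congr 1; ext z; ring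
    unfold Qf
    rw [e1] at h1 ⊢
    linarith
  have L := le_of_tendsto_of_tendsto' (t1.const_mul A) ((t3.add (t1.const_mul (lambda1 U))).add t2) key
  linarith

end Pool.Agent.Helper533.StarBox
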