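import Pool.Agent.Helper533.StarBox.Tip

open MeasureTheory Metric Set Filter
open scoped Topology

namespace Pool.Agent.Helper533.StarBox

/-- slope of the box -/
noncomputable def kk (ν : ℕ) : ℝ := Real.tan (aa ν)

theorem kk_pos {ν : ℕ} (hν : 2 ≤ ν) : 0 < kk ν := by
  unfold kk; rw [Real.tan_eq_sin_div_cos]
  exact div_pos (sin_aa_pos hν) (cos_aa_pos hν)

theorem kk_le_one {ν : ℕ} (hν : 2 ≤ ν) : kk ν ≤ 1 := by
  unfold kk
  rw [← Real.tan_pi_div_four]
  have := aa_pos hν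
  rcases eq_or_lt_of_le this.2 with h | h
  · rw [h]
  · exact (Real.tan_lt_tan_of_nonneg_of_lt_pi_div_two this.1.le (by linarith [Real.pi_pos]) h).le

theorem D0_im {ν : ℕ} (hν : 2 ≤ ν) {z : ℂ} (hz : z ∈ D0 ν) : |z.im| < kk ν * z.re := by
  have h1 := hz.2.1
  have hc := cos_aa_pos hν
  unfold kk
  rw [Real.tan_eq_sin_div_cos, div_mul_eq_mul_div, lt_div_iff₀ hc]
  linarith

theorem tsupport_cut {U : Set ℂ} {v : ℂ → ℝ} (hv : TF U v) {χ : ℝ → ℝ} {b : ℝ} (h : ∀ x, b < x → χ x = 0) :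
    tsupport (fun z => χ z.re * v z) ⊆ {z | z.re ≤ b} ∩ tsupport v := by
  apply subset_inter
  · apply closure_minimal _ (isClosed_le Complex.continuous_re continuous_const)
    intro z hz
    by_contra hcon
    rw [mem_setOf_eq, not_le] at hcon
    apply hz
    simp [h _ hcon]
  · exact tsupport_sub_of_zero (fun z h => by simp [h])

theorem tsupport_cut' {U : Set ℂ} {v : ℂ → ℝ} (hv : TF U v) {χ : ℝ → ℝ} {b : ℝ} (h : ∀ x, x < b → χ x = 0) :
    tsupport (fun z => χ z.re * v z) ⊆ {z | b ≤ z.re} ∩ tsupport v := by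
  apply subset_inter
  · apply closure_minimal _ (isClosed_le continuous_const Complex.continuous_re)
    intro z hz
    by_contra hcon
    rw [mem_setOf_eq, not_le] at hcon
    apply hz
    simp [h _ hcon]
  · exact tsupport_sub_of_zero (fun z h => by simp [h])

theorem chi_abs (r x : ℝ) : |chi r x| ≤ 1 := by
  rw [abs_of_nonneg (chi_nonneg r x)]; exact chi_le_one r x

theorem chi_deriv_abs {r : ℝ} (hr : 0 < r) (x : ℝ) : |deriv (chi r) x| ≤ Cs / r := by
  rw [chi_deriv, abs_mul, abs_neg, abs_of_pos (by positivity : 0 < 1 / r)]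
  calc |deriv Real.smoothTransition (2 - x / r)| * (1 / r) ≤ Cs * (1 / r) :=
        mul_le_mul_of_nonneg_right (Cs_bound _) (by positivity)
    _ = Cs / r := by ring

/-- one step of the decay towards the tip -/
theorem decay_step {ν : ℕ} (hν : 2 ≤ ν) {u : L2} (hu : GS (D0 ν) u) {r : ℝ} (hr : 0 < r)
    (hr2 : lambda1 (D0 ν) * (16 * kk ν ^ 2 * r ^ 2) ≤ 1 / 2) :
    mass u r ≤ 32 * kk ν ^ 2 * Cs ^ 2 * mass u (2 * r) := by
  have hk := kk_pos hν
  set k := kk ν with hkd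
  have hA : ∀ v, TF (D0 ν) v → (1 / (16 * k ^ 2 * r ^ 2)) * Ip (fun z => chi r z.re * v z) (fun z => chi r z.re * v z) ≤
      En (fun z => chi r z.re * v z) (fun z => chi r z.re * v z) := by
    intro v hv
    have h1 := poincare_strip (cut_tf hv (chi_smooth r)) (2 * r * k) (by positivity) (by
      intro z hz
      obtain ⟨h2, h3⟩ := tsupport_cut hv (fun x hx => chi_zero hr hx.le) hz
      have h4 := D0_im hν (hv.supp h3)
      have h5 : k * z.re ≤ k * (2 * r) := mul_le_mul_of_nonneg_left h2 hk.le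
      rw [← hkd] at h4
      linarith)
    rw [one_div, inv_mul_le_iff₀ (by positivity)]
    refine h1.trans (le_of_eq ?_)
    ring
  have h1 := cut_limit hu (chi_smooth r) (chi_abs r) (chi_deriv_abs hr) hA
  have h2 := deriv_mass u hr
  have hc : Continuous (chi r) := (chi_smooth r).continuous
  have hm : Measurable (fun z : ℂ => chi r z.re ^ 2) := ((hc.comp Complex.continuous_re).pow 2).measurable
  have hM : ∀ z : ℂ, |chi r z.re ^ 2| ≤ 1 := fun z => by
    rw [abs_of_nonneg (sq_nonneg _)]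
    have := chi_nonneg r z.re
    have := chi_le_one r z.re
    nlinarith
  have h3 : mass u r ≤ ∫ z, chi r z.re ^ 2 * (u : ℂ → ℝ) z ^ 2 := by
    unfold mass
    rw [← integral_indicator (meas_re _)]
    apply integral_mono ((sq_integrable u).indicator (meas_re _)) (weight_int u hm hM)
    intro z
    show indicator {z : ℂ | z.re ≤ r} (fun z => (u : ℂ → ℝ) z ^ 2) z ≤ chi r z.re ^ 2 * (u : ℂ → ℝ) z ^ 2
    by_cases hz : z.re ≤ r
    · rw [indicator_of_mem (show z ∈ {z : ℂ | z.re ≤ r} from hz), chi_one hr hz]; simp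
    · rw [indicator_of_notMem (show z ∉ {z : ℂ | z.re ≤ r} from hz)]; positivity
  set X := ∫ z, chi r z.re ^ 2 * (u : ℂ → ℝ) z ^ 2 with hX
  have hX0 : 0 ≤ X := integral_nonneg fun z => by positivity
  have hl := lambda1_nonneg (D0 ν)
  have h4 : lambda1 (D0 ν) * X ≤ 1 / (32 * k ^ 2 * r ^ 2) * X := by
    apply mul_le_mul_of_nonneg_right _ hX0
    rw [le_div_iff₀ (by positivity)]
    linarith
  have h5 : 1 / (32 * k ^ 2 * r ^ 2) * X ≤ Cs ^ 2 / r ^ 2 * mass u (2 * r) := by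
    have e : 1 / (16 * k ^ 2 * r ^ 2) * X = 1 / (32 * k ^ 2 * r ^ 2) * X + 1 / (32 * k ^ 2 * r ^ 2) * X := by
      field_simp; ring
    linarith
  rw [one_div, inv_mul_le_iff₀ (by positivity)] at h5
  refine h3.trans (h5.trans (le_of_eq ?_))
  field_simp

theorem decay {ν : ℕ} (hν : 2 ≤ ν) {u : L2} (hu : GS (D0 ν) u) (hu1 : ‖u‖ = 1) {m : ℕ}
    (hk : 32 * kk ν ^ 2 * Cs ^ 2 ≤ (1 / 2) ^ m) :
    ∃ r₁ > 0, r₁ ≤ 1 ∧ ∀ r, 0 < r → r ≤ r₁ → mass u r ≤ (2 / r₁) ^ m * r ^ m := by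
  have hl := lambda1_nonneg (D0 ν)
  have hkp := kk_pos hν
  -- choose r₁
  obtain ⟨r₁, hr1, hr1', hr2⟩ : ∃ r₁ : ℝ, 0 < r₁ ∧ r₁ ≤ 1 ∧ lambda1 (D0 ν) * (16 * kk ν ^ 2 * r₁ ^ 2) ≤ 1 / 2 := by
    set Λ := lambda1 (D0 ν) * (16 * kk ν ^ 2) with hΛ
    have hΛ0 : 0 ≤ Λ := by positivity
    refine ⟨1 / (2 * (1 + Λ)), by positivity, ?_, ?_⟩
    · rw [div_le_one (by positivity)]; linarith
    · have : lambda1 (D0 ν) * (16 * kk ν ^ 2 * (1 / (2 * (1 + Λ))) ^ 2) = Λ / (4 * (1 + Λ) ^ 2) := by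
        rw [hΛ]; field_simp; ring
      rw [this, div_le_iff₀ (by positivity)]
      nlinarith
  refine ⟨r₁, hr1, hr1', ?_⟩
  set θ := 32 * kk ν ^ 2 * Cs ^ 2 with hθ
  have hθ0 : 0 ≤ θ := by positivity
  have hit : ∀ j : ℕ, mass u (r₁ * (1 / 2) ^ j) ≤ θ ^ j := by
    intro j
    induction j with
    | zero => simpa using mass_le_one hu1 r₁
    | succ j ih =>
      have h1 := decay_step hν hu (r := r₁ * (1 / 2) ^ (j + 1)) (by positivity) (by
        refine le_trans ?_ hr2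
        apply mul_le_mul_of_nonneg_left _ hl
        apply mul_le_mul_of_nonneg_left _ (by positivity)
        apply pow_le_pow_left₀ (by positivity)
        have : ((1:ℝ) / 2) ^ (j + 1) ≤ 1 := pow_le_one₀ (by norm_num) (by norm_num)
        nlinarith)
      have e : 2 * (r₁ * (1 / 2) ^ (j + 1)) = r₁ * (1 / 2) ^ j := by rw [pow_succ]; ring
      rw [e] at h1
      calc mass u (r₁ * (1 / 2) ^ (j + 1)) ≤ θ * mass u (r₁ * (1 / 2) ^ j) := h1
        _ ≤ θ * θ ^ j := mul_le_mul_of_nonneg_left ih hθ0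
        _ = θ ^ (j + 1) := by rw [pow_succ]; ring
  intro r hr hrr
  obtain ⟨j, hj1, hj2⟩ := exists_nat_pow_near_of_lt_one (x := r / r₁) (y := (1/2 : ℝ)) (by positivity)
    (by rw [div_le_one hr1]; exact hrr) (by norm_num) (by norm_num)
  rw [div_le_iff₀ hr1] at hj2
  have h1 : mass u r ≤ mass u (r₁ * (1 / 2) ^ j) := mass_mono u (by linarith)
  have h2 : θ ^ j ≤ ((1 / 2 : ℝ) ^ m) ^ j := pow_le_pow_left₀ hθ0 hk j
  have h3 : ((1 / 2 : ℝ) ^ m) ^ j = ((1 / 2) ^ j) ^ m := by rw [← pow_mul, ← pow_mul, mul_comm]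
  have h4 : ((1 / 2 : ℝ) ^ j) ≤ 2 / r₁ * r := by
    rw [lt_div_iff₀ hr1, pow_succ] at hj1
    rw [div_mul_eq_mul_div, le_div_iff₀ hr1]
    linarith
  calc mass u r ≤ θ ^ j := h1.trans (hit j)
    _ ≤ ((1 / 2) ^ j) ^ m := by rw [← h3]; exact h2
    _ ≤ (2 / r₁ * r) ^ m := pow_le_pow_left₀ (by positivity) h4 m
    _ = _ := by rw [mul_pow]

theorem half_open (r : ℝ) : IsOpen {z : ℂ | r < z.re} := isOpen_lt continuous_const Complex.continuous_re

/-- cutting the tip is cheap -/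
theorem tip_bound {ν : ℕ} (hν : 2 ≤ ν) {u : L2} (hu : GS (D0 ν) u) (hu1 : ‖u‖ = 1)
    (hk : 32 * kk ν ^ 2 * Cs ^ 2 ≤ (1 / 2) ^ 22) :
    ∃ C > 0, ∃ r₁ > 0, ∀ r, 0 < r → r ≤ r₁ →
      lambda1 (D0 ν ∩ {z | r < z.re}) ≤ lambda1 (D0 ν) + C * r ^ 20 := by
  obtain ⟨r₁, hr1, hr1', hd⟩ := decay hν hu hu1 hk
  have hCs := Cs_pos
  -- small radius where the mass is at most 1/2
  obtain ⟨r₂, hr2, hr2'⟩ : ∃ r₂ > 0, (2 / r₁) ^ 22 * (4 * r₂) ^ 22 ≤ 1 / 2 := by
    refine ⟨r₁ / 16, by positivity, ?_⟩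
    have : (2 / r₁) ^ 22 * (4 * (r₁ / 16)) ^ 22 = (1/2) ^ 22 := by
      rw [← mul_pow]; congr 1; field_simp; ring
    rw [this]; norm_num
  refine ⟨Cs ^ 2 / 2 * ((2 / r₁) ^ 22 * 4 ^ 22), by positivity, min (r₁ / 4) r₂, by positivity, ?_⟩
  intro r hr hrr
  have hra : 4 * r ≤ r₁ := by have := hrr.trans (min_le_left _ _); linarith
  have hrb : r ≤ r₂ := hrr.trans (min_le_right _ _)
  set Ω := D0 ν ∩ {z | r < z.re} with hΩ
  have hm4 := hd (4 * r) (by positivity) hra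
  have hm4' : mass u (4 * r) ≤ 1 / 2 := by
    refine hm4.trans (le_trans ?_ hr2')
    apply mul_le_mul_of_nonneg_left _ (by positivity)
    exact pow_le_pow_left₀ (by positivity) (by linarith) _
  set η : ℝ → ℝ := fun x => 1 - chi (2 * r) x with hη
  have hηs : ContDiff ℝ (⊤ : ℕ∞) η := contDiff_const.sub (chi_smooth _)
  have hηd : ∀ x, deriv η x = - deriv (chi (2 * r)) x := by
    intro x
    have := (((chi_smooth (2 * r)).differentiable (by simp)) x).hasDerivAt.const_sub 1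
    exact this.deriv
  have hη0 : ∀ x, x < 2 * r → η x = 0 := by
    intro x hx
    simp only [hη]
    rw [chi_one (by positivity) hx.le, sub_self]
  have hηa : ∀ x, |η x| ≤ 1 := by
    intro x
    have h1 := chi_nonneg (2 * r) x
    have h2 := chi_le_one (2 * r) x
    simp only [hη]
    rw [abs_le]; constructor <;> linarith
  have hA : ∀ v, TF (D0 ν) v → lambda1 Ω * Ip (fun z => η z.re * v z) (fun z => η z.re * v z) ≤
      En (fun z => η z.re * v z) (fun z => η z.re * v z) := by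
    intro v hv
    apply lambda1_mul_le
    have h1 := cut_tf hv hηs
    refine ⟨h1.1, h1.2, ?_⟩
    intro z hz
    obtain ⟨h2, h3⟩ := tsupport_cut' hv hη0 hz
    have h2' : 2 * r ≤ z.re := h2
    exact ⟨hv.supp h3, by show r < z.re; linarith⟩
  have h1 := cut_limit hu hηs hηa (M' := Cs / (2 * r)) (fun x => by
    rw [hηd, abs_neg]; exact chi_deriv_abs (by positivity) x) hA
  have h2 := deriv_mass u (show 0 < 2 * r by positivity)
  have e2 : 2 * (2 * r) = 4 * r := by ring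
  rw [e2] at h2
  have e3 : ∫ z, deriv η z.re ^ 2 * (u : ℂ → ℝ) z ^ 2 = ∫ z, deriv (chi (2 * r)) z.re ^ 2 * (u : ℂ → ℝ) z ^ 2 := by
    congr 1; ext z; rw [hηd, neg_sq]
  rw [e3] at h1
  have hm : Measurable (fun z : ℂ => η z.re ^ 2) := ((hηs.continuous.comp Complex.continuous_re).pow 2).measurable
  have hM : ∀ z : ℂ, |η z.re ^ 2| ≤ 1 := fun z => by
    rw [abs_of_nonneg (sq_nonneg _)]
    have := abs_le.mp (hηa z.re)
    nlinarith [this.1, this.2]
  have h4 : 1 - mass u (4 * r) ≤ ∫ z, η z.re ^ 2 * (u : ℂ → ℝ) z ^ 2 := by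
    have e5 : 1 - mass u (4 * r) = ∫ z in {z : ℂ | z.re ≤ 4 * r}ᶜ, (u : ℂ → ℝ) z ^ 2 := by
      have := integral_add_compl (meas_re (4 * r)) (sq_integrable u)
      rw [total_mass hu1] at this
      unfold mass; linarith
    rw [e5, ← integral_indicator (meas_re _).compl]
    apply integral_mono ((sq_integrable u).indicator (meas_re _).compl) (weight_int u hm hM)
    intro z
    show indicator {z : ℂ | z.re ≤ 4 * r}ᶜ (fun z => (u : ℂ → ℝ) z ^ 2) z ≤ η z.re ^ 2 * (u : ℂ → ℝ) z ^ 2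
    by_cases hz : z.re ≤ 4 * r
    · rw [indicator_of_notMem (show z ∉ {z : ℂ | z.re ≤ 4 * r}ᶜ from fun h => h hz)]; positivity
    · rw [indicator_of_mem (show z ∈ {z : ℂ | z.re ≤ 4 * r}ᶜ from hz)]
      simp only [hη]
      rw [chi_zero (by positivity) (by push Not at hz; linarith)]; simp
  set X := ∫ z, η z.re ^ 2 * (u : ℂ → ℝ) z ^ 2 with hX
  have hXh : 1 / 2 ≤ X := by linarith
  by_cases hcase : lambda1 Ω ≤ lambda1 (D0 ν)
  · have : 0 ≤ Cs ^ 2 / 2 * ((2 / r₁) ^ 22 * 4 ^ 22) * r ^ 20 := by positivity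
    linarith
  · push Not at hcase
    have h5 : (lambda1 Ω - lambda1 (D0 ν)) * (1 / 2) ≤ (lambda1 Ω - lambda1 (D0 ν)) * X :=
      mul_le_mul_of_nonneg_left hXh (by linarith)
    have h6 : (lambda1 Ω - lambda1 (D0 ν)) * X ≤ Cs ^ 2 / (2 * r) ^ 2 * mass u (4 * r) := by linarith
    have h7 : Cs ^ 2 / (2 * r) ^ 2 * mass u (4 * r) ≤ Cs ^ 2 / (2 * r) ^ 2 * ((2 / r₁) ^ 22 * (4 * r) ^ 22) :=
      mul_le_mul_of_nonneg_left hm4 (by positivity)
    have e8 : Cs ^ 2 / (2 * r) ^ 2 * ((2 / r₁) ^ 22 * (4 * r) ^ 22) =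
        (1 / 2) * (Cs ^ 2 / 2 * ((2 / r₁) ^ 22 * 4 ^ 22) * r ^ 20) := by
      field_simp
    linarith

end Pool.Agent.Helper533.StarBox
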